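import Mathlib

/-!
# Positivity of a polynomial on an interval by Bernstein coefficients

`pev l y` is the value at `y` of the polynomial with the integer coefficients `l` (constant term
first). For `A < B`, `0 < N`: if all entries of `bern A B N l` are positive, then `pev l y` is
positive for `A ≤ N y ≤ B` (`pev_pos`); the check is done by `decide +kernel`.
-/

set_option autoImplicit false

namespace Pool.Agent.PB86

/-- value of the polynomial with integer coefficients `l` -/
noncomputable def pev : List ℤ → ℝ → ℝ
  | [], _ => 0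
  | c :: l, y => c + y * pev l y

/-- value of the binary form with coefficients `l` -/
noncomputable def hev : List ℤ → ℝ → ℝ → ℝ
  | [], _, _ => 0
  | c :: l, u, v => c * v ^ l.length + u * hev l u v

/-- product with the linear form `p u + q v`, plus `carry v ^ length` -/
def lmulAux (p q : ℤ) : ℤ → List ℤ → List ℤ
  | carry, [] => [carry]
  | carry, c :: l => (carry + q * c) :: lmulAux p q (p * c) l

/-- sum of two lists of the same length -/
def laddZ : List ℤ → List ℤ → List ℤ
  | a :: l, b :: m => (a + b) :: laddZ l m
  | _, _ => []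

/-- the binary forms `∑ c_i (B u + A v)^i (N (u + v))^(n-i)` and `(N (u + v))^n` -/
def bernAux (A B N : ℤ) : List ℤ → List ℤ × List ℤ
  | [] => ([], [])
  | [c] => ([c], [1])
  | c :: d :: l =>
    let r := bernAux A B N (d :: l)
    let w := lmulAux N N 0 r.2
    (laddZ (lmulAux B A 0 r.1) (w.map (fun t => c * t)), w)

/-- the Bernstein coefficients (up to positive factors) -/
def bern (A B N : ℤ) (l : List ℤ) : List ℤ := (bernAux A B N l).1

theorem lmulAux_length (p q : ℤ) : ∀ (l : List ℤ) (c : ℤ), (lmulAux p q c l).length = l.length + 1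
  | [], _ => rfl
  | _ :: l, _ => by
    rw [lmulAux, List.length_cons, lmulAux_length p q l, List.length_cons]

theorem laddZ_length : ∀ (l m : List ℤ), l.length = m.length → (laddZ l m).length = l.length
  | [], [], _ => rfl
  | [], _ :: _, h => by simp at h
  | _ :: _, [], h => by simp at h
  | a :: l, b :: m, h => by
    rw [laddZ, List.length_cons, laddZ_length l m (by simpa using h), List.length_cons]

theorem hev_lmulAux (p q : ℤ) (u v : ℝ) : ∀ (l : List ℤ) (c : ℤ),
    hev (lmulAux p q c l) u v = c * v ^ l.length + (p * u + q * v) * hev l u v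
  | [], c => by simp [lmulAux, hev]
  | d :: l, c => by
    rw [lmulAux, hev, hev_lmulAux p q u v l, lmulAux_length, hev, List.length_cons]
    push_cast
    ring

theorem hev_laddZ (u v : ℝ) : ∀ (l m : List ℤ), l.length = m.length →
    hev (laddZ l m) u v = hev l u v + hev m u v
  | [], [], _ => by simp [laddZ, hev]
  | [], _ :: _, h => by simp at h
  | _ :: _, [], h => by simp at h
  | a :: l, b :: m, h => by
    have h' : l.length = m.length := by simpa using h
    rw [laddZ, hev, hev_laddZ u v l m h', laddZ_length l m h', hev, hev, ← h']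
    push_cast
    ring

theorem hev_map (c : ℤ) (u v : ℝ) : ∀ l : List ℤ,
    hev (l.map (fun t => c * t)) u v = c * hev l u v
  | [] => by simp [hev]
  | d :: l => by
    rw [List.map_cons, hev, hev_map c u v l, hev, List.length_map]
    push_cast
    ring

theorem bernAux_length (A B N : ℤ) : ∀ l : List ℤ,
    (bernAux A B N l).1.length = l.length ∧ (bernAux A B N l).2.length = l.length
  | [] => ⟨rfl, rfl⟩
  | [_] => ⟨rfl, rfl⟩
  | c :: d :: l => by
    obtain ⟨h1, h2⟩ := bernAux_length A B N (d :: l)
    constructor
    · show (laddZ (lmulAux B A 0 (bernAux A B N (d :: l)).1)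
        ((lmulAux N N 0 (bernAux A B N (d :: l)).2).map (fun t => c * t))).length = _
      rw [laddZ_length]
      · rw [lmulAux_length, h1]
        rfl
      · rw [lmulAux_length, List.length_map, lmulAux_length, h1, h2]
    · show (lmulAux N N 0 (bernAux A B N (d :: l)).2).length = _
      rw [lmulAux_length, h2]
      rfl

theorem hev_bernAux (A B N : ℤ) (y : ℝ) : ∀ (c : ℤ) (l : List ℤ),
    hev (bernAux A B N (c :: l)).1 (N * y - A) (B - N * y) =
        ((N : ℝ) * (B - A)) ^ l.length * pev (c :: l) y ∧
      hev (bernAux A B N (c :: l)).2 (N * y - A) (B - N * y) = ((N : ℝ) * (B - A)) ^ l.length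
  | c, [] => by simp [bernAux, hev, pev]
  | c, d :: l => by
    obtain ⟨h1, h2⟩ := hev_bernAux A B N y d l
    obtain ⟨h3, h4⟩ := bernAux_length A B N (d :: l)
    have e2 : hev (lmulAux N N 0 (bernAux A B N (d :: l)).2) (N * y - A) (B - N * y) =
        ((N : ℝ) * (B - A)) ^ (l.length + 1) := by
      rw [hev_lmulAux, h2]
      push_cast
      ring
    constructor
    · show hev (laddZ (lmulAux B A 0 (bernAux A B N (d :: l)).1)
        ((lmulAux N N 0 (bernAux A B N (d :: l)).2).map (fun t => c * t))) _ _ = _
      have e3 : pev (c :: d :: l) y = c + y * pev (d :: l) y := rfl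
      rw [hev_laddZ, hev_map, e2, hev_lmulAux, h1, List.length_cons, e3]
      · push_cast
        ring
      · rw [lmulAux_length, List.length_map, lmulAux_length, h3, h4]
    · show hev (lmulAux N N 0 (bernAux A B N (d :: l)).2) _ _ = _
      rw [e2, List.length_cons]

theorem hev_pos {u v : ℝ} (hu : 0 ≤ u) (hv : 0 ≤ v) (huv : 0 < u + v) : ∀ (c : ℤ) (l : List ℤ),
    (∀ t ∈ c :: l, 0 < t) → 0 < hev (c :: l) u v
  | c, [], h => by
    have : (0 : ℝ) < c := by exact_mod_cast h c (by simp)
    simpa [hev] using this
  | c, d :: l, h => by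
    have hc : (0 : ℝ) < c := by exact_mod_cast h c (by simp)
    have ih := hev_pos hu hv huv d l (fun t ht => h t (List.mem_cons_of_mem _ ht))
    rw [hev]
    rcases hu.lt_or_eq with hu' | hu'
    · have h1 : 0 < u * hev (d :: l) u v := mul_pos hu' ih
      have h2 : 0 ≤ (c : ℝ) * v ^ (d :: l).length := by positivity
      linarith
    · have hv' : 0 < v := by rw [← hu'] at huv; simpa using huv
      have h2 : 0 < (c : ℝ) * v ^ (d :: l).length := by positivity
      rw [← hu', zero_mul, add_zero]
      exact h2

/-- positivity on the interval `[A/N, B/N]` -/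
theorem pev_pos (A B N : ℤ) (hN : 0 < N) (hAB : A < B) (l : List ℤ) (hl : l ≠ [])
    (h : (bern A B N l).all (fun t => decide (0 < t)) = true) {y : ℝ}
    (h1 : (A : ℝ) ≤ N * y) (h2 : (N : ℝ) * y ≤ B) : 0 < pev l y := by
  obtain ⟨c, m, rfl⟩ := List.exists_cons_of_ne_nil hl
  have hNR : (0 : ℝ) < N := by exact_mod_cast hN
  have hABR : (A : ℝ) < B := by exact_mod_cast hAB
  obtain ⟨e1, _⟩ := hev_bernAux A B N y c m
  have hlen := (bernAux_length A B N (c :: m)).1
  obtain ⟨c', m', hcm⟩ := List.exists_cons_of_ne_nil
    (l := (bernAux A B N (c :: m)).1) (by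
      intro h0
      rw [h0] at hlen
      simp at hlen)
  have hpos : 0 < hev (bernAux A B N (c :: m)).1 (N * y - A) (B - N * y) := by
    rw [hcm]
    apply hev_pos (by linarith) (by linarith) (by linarith)
    intro t ht
    have h3 := List.all_eq_true.1 h t (by rw [bern, hcm]; exact ht)
    simpa using h3
  rw [e1] at hpos
  have h4 : 0 < ((N : ℝ) * (B - A)) ^ m.length := by
    apply pow_pos
    apply mul_pos hNR
    linarith
  exact (mul_pos_iff_of_pos_left h4).1 hpos

end Pool.Agent.PB86
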