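import Pool.Agent.PB86.Defs

/-!
# An explicit inequality

With `s = n/2 - 1`, `D = X^2 - s^2` the term `2 D / (X n^(3/2))` is at most `2 D / n^3 + D / (2 X^2)`. What
remains is a rational inequality in `n` and `X = s + L + 1/2`. For `n ≥ 8` it is a polynomial identity with
nonnegative coefficients in `a = s - 3`, `b = L - 1` (one multiple of the constraint is used); for `n = 7` it
is checked for `L = 1, …, 9`.
-/

set_option autoImplicit false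

open MeasureTheory Set Filter Topology
open scoped NNReal RealInnerProductSpace

namespace Pool.Agent.PB86

open Pool.Agent.H51.Neumann (E IsH1 IsNeumannSpectrum)

theorem AKey_of_K {n s X : ℝ} (hn : 0 < n) (hs : 0 ≤ s) (hX : s < X)
    (hK : 0 ≤ 1.112 + s ^ 2 / (2 * X ^ 2) + 2 / 3 * s ^ 3 / X ^ 2 - 2 * (X ^ 2 - s ^ 2) / n ^ 3
      - n / 2 * (X + 5 / 4) / (X ^ 2 - s ^ 2)) :
    0 ≤ 1.612 - 2 * (X ^ 2 - s ^ 2) / (X * (n * Real.sqrt n))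
      - n / 2 * (X + 5 / 4) / (X ^ 2 - s ^ 2) + 2 / 3 * s ^ 3 / X ^ 2 := by
  have hX0 : 0 < X := lt_of_le_of_lt hs hX
  have hD : 0 < X ^ 2 - s ^ 2 := by nlinarith
  obtain ⟨r, hr, hrn⟩ : ∃ r : ℝ, 0 < r ∧ r ^ 2 = n :=
    ⟨Real.sqrt n, Real.sqrt_pos.2 hn, Real.sq_sqrt hn.le⟩
  have hsq : Real.sqrt n = r := by
    rw [← hrn, Real.sqrt_sq hr.le]
  have h1 : 2 * (X ^ 2 - s ^ 2) / (X * (n * Real.sqrt n)) ≤
      2 * (X ^ 2 - s ^ 2) / n ^ 3 + (X ^ 2 - s ^ 2) / (2 * X ^ 2) := by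
    rw [hsq]
    have h2 : 2 * (X ^ 2 - s ^ 2) / n ^ 3 + (X ^ 2 - s ^ 2) / (2 * X ^ 2) -
        2 * (X ^ 2 - s ^ 2) / (X * (n * r)) =
        (X ^ 2 - s ^ 2) / 2 * (2 / r ^ 3 - 1 / X) ^ 2 := by
      rw [← hrn]
      field_simp
      ring
    have h3 : 0 ≤ (X ^ 2 - s ^ 2) / 2 * (2 / r ^ 3 - 1 / X) ^ 2 := by positivity
    linarith
  have h4 : (X ^ 2 - s ^ 2) / (2 * X ^ 2) = 1 / 2 - s ^ 2 / (2 * X ^ 2) := by
    field_simp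
  norm_num at hK ⊢
  linarith

theorem AKey_main {a b : ℝ} (ha : 0 ≤ a) (hb : 0 ≤ b)
    (hC : (3 + a + 2) * ((3 / 2 + b - 1 / 2) * (3 / 2 + b - 1 / 2 + 2 * (3 + a)) + 1) ≤
      4.096 * (3 + a + 1) ^ 4) :
    0 ≤ 1.112 * (((3 / 2 + b) * (3 / 2 + b + 2 * (3 + a))) *
        (3 / 2 + b + (3 + a)) ^ 2) * (3 + a + 1) ^ 3 +
      ((3 + a) ^ 2 / 2 + 2 / 3 * (3 + a) ^ 3) *
        ((3 / 2 + b) * (3 / 2 + b + 2 * (3 + a))) * (3 + a + 1) ^ 3 -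
      (3 + a + 1) * ((3 / 2 + b + (3 + a)) + 5 / 4) * (3 / 2 + b + (3 + a)) ^ 2 * (3 + a + 1) ^ 3 -
      1 / 4 * ((3 / 2 + b) * (3 / 2 + b + 2 * (3 + a))) ^ 2 * (3 / 2 + b + (3 + a)) ^ 2 := by
  have hM : 0 ≤ (4199 / 64) * b ^ 1 + (1627 / 64) * b ^ 2 + (289 / 64) * b ^ 3 + (19 / 64) * b ^ 4 +
        (971 / 32) * a ^ 1 * b ^ 1 + (103 / 8) * a ^ 1 * b ^ 2 + (29 / 32) * a ^ 1 * b ^ 3 +
        (91 / 32) * a ^ 2 * b ^ 1 + (149 / 64) * a ^ 2 * b ^ 2 + (5 / 32) * a ^ 3 * b ^ 2 := by positivity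
  have hR : 0 ≤ (12571119 / 1280) + (6391917 / 8000) * b ^ 1 + (2242481 / 8000) * b ^ 2 +
        (340527 / 8000) * b ^ 3 + (55727 / 8000) * b ^ 4 + (45 / 64) * b ^ 5 + (15 / 64) * b ^ 6 +
        (217769571 / 6400) * a ^ 1 + (315072457 / 8000) * a ^ 1 * b ^ 1 +
        (3533913 / 8000) * a ^ 1 * b ^ 2 + (488433 / 8000) * a ^ 1 * b ^ 3 +
        (113891 / 8000) * a ^ 1 * b ^ 4 + (9 / 64) * a ^ 1 * b ^ 5 + (3 / 64) * a ^ 1 * b ^ 6 +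
        (42029651 / 1000) * a ^ 2 + (127396869 / 2000) * a ^ 2 * b ^ 1 +
        (292009 / 1000) * a ^ 2 * b ^ 2 + (33407 / 1000) * a ^ 2 * b ^ 3 +
        (10901 / 1600) * a ^ 2 * b ^ 4 + (216435179 / 8000) * a ^ 3 +
        (11086663 / 250) * a ^ 3 * b ^ 1 + (1470331 / 12000) * a ^ 3 * b ^ 2 +
        (18861 / 2000) * a ^ 3 * b ^ 3 + (8959 / 8000) * a ^ 3 * b ^ 4 + (2583101 / 250) * a ^ 4 +
        (102426913 / 6000) * a ^ 4 * b ^ 1 + (418139 / 12000) * a ^ 4 * b ^ 2 +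
        (4851 / 4000) * a ^ 4 * b ^ 3 + (209 / 4000) * a ^ 4 * b ^ 4 + (977079 / 400) * a ^ 5 +
        (294064 / 75) * a ^ 5 * b ^ 1 + (12413 / 2000) * a ^ 5 * b ^ 2 +
        (97 / 2000) * a ^ 5 * b ^ 3 + (352621 / 1000) * a ^ 6 + (67232 / 125) * a ^ 6 * b ^ 1 +
        (463 / 750) * a ^ 6 * b ^ 2 + (14293 / 500) * a ^ 7 + (15334 / 375) * a ^ 7 * b ^ 1 +
        (2 / 75) * a ^ 7 * b ^ 2 + 1 * a ^ 8 + (4 / 3) * a ^ 8 * b ^ 1 := by positivity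
  have hC' : 0 ≤ 4.096 * (3 + a + 1) ^ 4 -
      (3 + a + 2) * ((3 / 2 + b - 1 / 2) * (3 / 2 + b - 1 / 2 + 2 * (3 + a)) + 1) := by linarith
  have hMC := mul_nonneg hM hC'
  have hs : 0 < 3 + a + 2 := by linarith
  refine nonneg_of_mul_nonneg_right (a := 3 + a + 2) ?_ hs
  have key : (3 + a + 2) * (1.112 * (((3 / 2 + b) * (3 / 2 + b + 2 * (3 + a))) *
        (3 / 2 + b + (3 + a)) ^ 2) * (3 + a + 1) ^ 3 +
      ((3 + a) ^ 2 / 2 + 2 / 3 * (3 + a) ^ 3) *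
        ((3 / 2 + b) * (3 / 2 + b + 2 * (3 + a))) * (3 + a + 1) ^ 3 -
      (3 + a + 1) * ((3 / 2 + b + (3 + a)) + 5 / 4) * (3 / 2 + b + (3 + a)) ^ 2 * (3 + a + 1) ^ 3 -
      1 / 4 * ((3 / 2 + b) * (3 / 2 + b + 2 * (3 + a))) ^ 2 * (3 / 2 + b + (3 + a)) ^ 2) =
      ((12571119 / 1280) + (6391917 / 8000) * b ^ 1 + (2242481 / 8000) * b ^ 2 +
        (340527 / 8000) * b ^ 3 + (55727 / 8000) * b ^ 4 + (45 / 64) * b ^ 5 + (15 / 64) * b ^ 6 +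
        (217769571 / 6400) * a ^ 1 + (315072457 / 8000) * a ^ 1 * b ^ 1 +
        (3533913 / 8000) * a ^ 1 * b ^ 2 + (488433 / 8000) * a ^ 1 * b ^ 3 +
        (113891 / 8000) * a ^ 1 * b ^ 4 + (9 / 64) * a ^ 1 * b ^ 5 + (3 / 64) * a ^ 1 * b ^ 6 +
        (42029651 / 1000) * a ^ 2 + (127396869 / 2000) * a ^ 2 * b ^ 1 +
        (292009 / 1000) * a ^ 2 * b ^ 2 + (33407 / 1000) * a ^ 2 * b ^ 3 +
        (10901 / 1600) * a ^ 2 * b ^ 4 + (216435179 / 8000) * a ^ 3 +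
        (11086663 / 250) * a ^ 3 * b ^ 1 + (1470331 / 12000) * a ^ 3 * b ^ 2 +
        (18861 / 2000) * a ^ 3 * b ^ 3 + (8959 / 8000) * a ^ 3 * b ^ 4 + (2583101 / 250) * a ^ 4 +
        (102426913 / 6000) * a ^ 4 * b ^ 1 + (418139 / 12000) * a ^ 4 * b ^ 2 +
        (4851 / 4000) * a ^ 4 * b ^ 3 + (209 / 4000) * a ^ 4 * b ^ 4 + (977079 / 400) * a ^ 5 +
        (294064 / 75) * a ^ 5 * b ^ 1 + (12413 / 2000) * a ^ 5 * b ^ 2 +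
        (97 / 2000) * a ^ 5 * b ^ 3 + (352621 / 1000) * a ^ 6 + (67232 / 125) * a ^ 6 * b ^ 1 +
        (463 / 750) * a ^ 6 * b ^ 2 + (14293 / 500) * a ^ 7 + (15334 / 375) * a ^ 7 * b ^ 1 +
        (2 / 75) * a ^ 7 * b ^ 2 + 1 * a ^ 8 + (4 / 3) * a ^ 8 * b ^ 1) +
      ((4199 / 64) * b ^ 1 + (1627 / 64) * b ^ 2 + (289 / 64) * b ^ 3 + (19 / 64) * b ^ 4 +
        (971 / 32) * a ^ 1 * b ^ 1 + (103 / 8) * a ^ 1 * b ^ 2 + (29 / 32) * a ^ 1 * b ^ 3 +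
        (91 / 32) * a ^ 2 * b ^ 1 + (149 / 64) * a ^ 2 * b ^ 2 + (5 / 32) * a ^ 3 * b ^ 2) *
        (4.096 * (3 + a + 1) ^ 4 -
      (3 + a + 2) * ((3 / 2 + b - 1 / 2) * (3 / 2 + b - 1 / 2 + 2 * (3 + a)) + 1)) := by
    norm_num
    ring
  rw [key]
  exact add_nonneg hR hMC

theorem key_ineq {n L : ℕ} (hn : 7 ≤ n) (hL : 1 ≤ L)
    (hR : (1 + 2 / (n : ℝ)) * (1 + L * (L + n - 2)) < 64 / 125 * (n : ℝ) ^ 3) {X : ℝ}
    (hX : X = L + (n : ℝ) / 2 - 1 / 2) :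
    0 ≤ 1.612 - 2 * (X ^ 2 - ((n : ℝ) / 2 - 1) ^ 2) / (X * (n * Real.sqrt n))
      - (n : ℝ) / 2 * (X + 5 / 4) / (X ^ 2 - ((n : ℝ) / 2 - 1) ^ 2)
      + 2 / 3 * ((n : ℝ) / 2 - 1) ^ 3 / X ^ 2 := by
  have hn' : (7 : ℝ) ≤ n := by exact_mod_cast hn
  have hL' : (1 : ℝ) ≤ L := by exact_mod_cast hL
  have hn0 : (0 : ℝ) < n := by linarith
  apply AKey_of_K hn0 (by linarith) (by linarith)
  rcases hn.eq_or_lt with h7 | h7
  · -- `n = 7`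
    subst h7
    have hL9 : L ≤ 9 := by
      by_contra h
      have h1 : (10 : ℝ) ≤ L := by exact_mod_cast (not_le.1 h)
      norm_num at hR
      nlinarith
    rw [hX]
    interval_cases L <;> norm_num
  · -- `n ≥ 8`
    have hn8 : (8 : ℝ) ≤ n := by exact_mod_cast h7
    obtain ⟨a, ha, han⟩ : ∃ a : ℝ, 0 ≤ a ∧ (n : ℝ) = 2 * (3 + a + 1) :=
      ⟨(n : ℝ) / 2 - 4, by linarith, by ring⟩
    obtain ⟨b, hb, hbL⟩ : ∃ b : ℝ, 0 ≤ b ∧ (L : ℝ) = 1 + b := ⟨(L : ℝ) - 1, by linarith, by ring⟩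
    have hC : (3 + a + 2) * ((3 / 2 + b - 1 / 2) * (3 / 2 + b - 1 / 2 + 2 * (3 + a)) + 1) ≤
        4.096 * (3 + a + 1) ^ 4 := by
      have h1 : (1 + 2 / (n : ℝ)) * (1 + L * (L + n - 2)) * n <
          64 / 125 * (n : ℝ) ^ 3 * n := mul_lt_mul_of_pos_right hR hn0
      have h2 : (1 + 2 / (n : ℝ)) * (1 + L * (L + n - 2)) * n =
          (n + 2) * (1 + L * (L + n - 2)) := by
        field_simp
      rw [h2, han, hbL] at h1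
      norm_num at h1 ⊢
      nlinarith
    have hmain := AKey_main ha hb hC
    have hs1 : 0 < 3 + a + 1 := by linarith
    have hXab : X = 3 / 2 + b + (3 + a) := by rw [hX, han, hbL]; ring
    have hXpos : 0 < 3 / 2 + b + (3 + a) := by linarith
    have hDpos : 0 < (3 / 2 + b) * (3 / 2 + b + 2 * (3 + a)) := by
      apply mul_pos <;> linarith
    have hsn : (n : ℝ) / 2 - 1 = 3 + a := by rw [han]; ring
    have hD : X ^ 2 - (3 + a) ^ 2 = (3 / 2 + b) * (3 / 2 + b + 2 * (3 + a)) := by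
      rw [hXab]; ring
    rw [hsn, hD, hXab, han]
    have hfin : 1.112 + (3 + a) ^ 2 / (2 * (3 / 2 + b + (3 + a)) ^ 2) +
        2 / 3 * (3 + a) ^ 3 / (3 / 2 + b + (3 + a)) ^ 2 -
        2 * ((3 / 2 + b) * (3 / 2 + b + 2 * (3 + a))) / (2 * (3 + a + 1)) ^ 3 -
        2 * (3 + a + 1) / 2 * (3 / 2 + b + (3 + a) + 5 / 4) /
          ((3 / 2 + b) * (3 / 2 + b + 2 * (3 + a))) =
      (1.112 * (((3 / 2 + b) * (3 / 2 + b + 2 * (3 + a))) *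
        (3 / 2 + b + (3 + a)) ^ 2) * (3 + a + 1) ^ 3 +
      ((3 + a) ^ 2 / 2 + 2 / 3 * (3 + a) ^ 3) *
        ((3 / 2 + b) * (3 / 2 + b + 2 * (3 + a))) * (3 + a + 1) ^ 3 -
      (3 + a + 1) * ((3 / 2 + b + (3 + a)) + 5 / 4) * (3 / 2 + b + (3 + a)) ^ 2 * (3 + a + 1) ^ 3 -
      1 / 4 * ((3 / 2 + b) * (3 / 2 + b + 2 * (3 + a))) ^ 2 * (3 / 2 + b + (3 + a)) ^ 2) /
      (((3 / 2 + b) * (3 / 2 + b + 2 * (3 + a))) * (3 / 2 + b + (3 + a)) ^ 2 *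
        (3 + a + 1) ^ 3) := by
      generalize 1.112 = κ
      generalize hDD : (3 / 2 + b) * (3 / 2 + b + 2 * (3 + a)) = D at *
      generalize hXX : 3 / 2 + b + (3 + a) = Y at *
      generalize hss : 3 + a = s at *
      have h1 : D ≠ 0 := hDpos.ne'
      have h2 : Y ≠ 0 := hXpos.ne'
      have h3 : s + 1 ≠ 0 := hs1.ne'
      field_simp
      ring
    rw [hfin]
    apply div_nonneg hmain
    positivity

end Pool.Agent.PB86
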