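import Pool.Agent.PB86.YInt

set_option autoImplicit false

open MeasureTheory Set Filter Topology
open scoped NNReal RealInnerProductSpace

namespace Pool.Agent.PB86

open Pool.Agent.H51.Neumann (E IsH1 IsNeumannSpectrum)

/-- a function with nonnegative derivative which is nonnegative at `0` -/
theorem AProd_mono {h h' : ℝ → ℝ} {T : ℝ} (hd : ∀ x ∈ Icc (0 : ℝ) T, HasDerivAt h (h' x) x)
    (hn : ∀ x ∈ Icc (0 : ℝ) T, 0 ≤ h' x) (h0 : 0 ≤ h 0) {t : ℝ} (ht : t ∈ Icc (0 : ℝ) T) :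
    0 ≤ h t := by
  have hm : MonotoneOn h (Icc 0 T) := by
    refine monotoneOn_of_deriv_nonneg (convex_Icc 0 T)
      (fun x hx => (hd x hx).continuousAt.continuousWithinAt)
      (fun x hx => ?_) (fun x hx => ?_)
    · rw [interior_Icc] at hx
      exact (hd x (Ioo_subset_Icc_self hx)).differentiableAt.differentiableWithinAt
    · rw [interior_Icc] at hx
      rw [(hd x (Ioo_subset_Icc_self hx)).deriv]
      exact hn x (Ioo_subset_Icc_self hx)
  exact h0.trans (hm ⟨le_rfl, ht.1.trans ht.2⟩ ht ht.1)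

/-- midpoint rule for `log` -/
theorem AProd_mid {a : ℝ} (ha : 0 < a) :
    (a + 1) * Real.log (a + 1) - a * Real.log a - 1 ≤ Real.log (a + 1 / 2) := by
  have h := AProd_mono (T := 1 / 2)
    (h := fun u => 2 * u * Real.log (a + 1 / 2) - ((a + 1 / 2 + u) * Real.log (a + 1 / 2 + u)
      - (a + 1 / 2 - u) * Real.log (a + 1 / 2 - u) - 2 * u))
    (h' := fun u => 2 * Real.log (a + 1 / 2) - (Real.log (a + 1 / 2 + u)
      + Real.log (a + 1 / 2 - u))) (fun x hx => ?_) (fun x hx => ?_) (by simp)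
    (t := 1 / 2) (by norm_num)
  · have e1 : a + 1 / 2 + 1 / 2 = a + 1 := by ring
    have e2 : a + 1 / 2 - 1 / 2 = a := by ring
    simp only [e1, e2] at h
    linarith
  · have h1 : a + 1 / 2 + x ≠ 0 := by linarith [hx.1]
    have h2 : a + 1 / 2 - x ≠ 0 := by linarith [hx.2]
    have d1 : HasDerivAt (fun u : ℝ => a + 1 / 2 + u) 1 x := (hasDerivAt_id x).const_add _
    have d2 : HasDerivAt (fun u : ℝ => a + 1 / 2 - u) (-1) x := by
      simpa using (hasDerivAt_id x).const_sub (a + 1 / 2)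
    have d3 := d1.mul (d1.log h1)
    have d4 := d2.mul (d2.log h2)
    have d5 : HasDerivAt (fun u : ℝ => 2 * u) 2 x := by
      simpa using (hasDerivAt_id x).const_mul (2 : ℝ)
    refine ((d5.mul_const (Real.log (a + 1 / 2))).sub ((d3.sub d4).sub d5)).congr_deriv ?_
    have e1 : (a + 1 / 2 + x) * (1 / (a + 1 / 2 + x)) = 1 := mul_one_div_cancel h1
    have e2 : (a + 1 / 2 - x) * (-1 / (a + 1 / 2 - x)) = -1 := mul_div_cancel₀ _ h2
    rw [e1, e2]
    ring
  · have h1 : 0 < a + 1 / 2 + x := by linarith [hx.1]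
    have h2 : 0 < a + 1 / 2 - x := by linarith [hx.2]
    have h3 : 0 < a + 1 / 2 := by linarith
    rw [← Real.log_mul h1.ne' h2.ne']
    have h4 : 2 * Real.log (a + 1 / 2) = Real.log ((a + 1 / 2) ^ 2) := by
      rw [Real.log_pow]
      norm_num
    rw [h4, sub_nonneg]
    exact Real.log_le_log (mul_pos h1 h2) (by nlinarith [sq_nonneg x])

theorem AProd_sum {b : ℝ} (hb : 0 < b) (m : ℕ) :
    (b + m) * Real.log (b + m) - b * Real.log b - m
      ≤ ∑ i ∈ Finset.range m, Real.log (b + 1 / 2 + i) := by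
  induction m with
  | zero => simp
  | succ k ih =>
    rw [Finset.sum_range_succ]
    have h := AProd_mid (a := b + k) (by positivity)
    have e1 : b + (k : ℝ) + 1 / 2 = b + 1 / 2 + k := by ring
    rw [e1] at h
    push_cast
    rw [← add_assoc]
    linarith

theorem AProd_atanh {x : ℝ} (hx : 0 ≤ x) (hx1 : x < 1) :
    2 * x + 2 / 3 * x ^ 3 ≤ Real.log (1 + x) - Real.log (1 - x) := by
  have h := Real.hasSum_log_sub_log_of_abs_lt_one (x := x) (by rw [abs_of_nonneg hx]; exact hx1)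
  have h1 := sum_le_hasSum (Finset.range 2) (fun i _ => by positivity) h
  rw [Finset.sum_range_succ, Finset.sum_range_one] at h1
  norm_num at h1
  linarith

theorem AProd_num : (1.612 : ℝ) * 2 ≤ Real.log (8 * Real.pi) := by
  rw [Real.le_log_iff_exp_le (by positivity)]
  have e : (1.612 : ℝ) * 2 = 1 + 1 + 1 + 0.224 := by norm_num
  rw [e, Real.exp_add, Real.exp_add, Real.exp_add]
  have h1 := Real.exp_one_lt_d9
  have h2 := Real.exp_pos 1
  have h3 := Real.exp_bound' (x := 0.224) (by norm_num) (by norm_num) (n := 6) (by norm_num)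
  rw [Finset.sum_range_succ, Finset.sum_range_succ, Finset.sum_range_succ, Finset.sum_range_succ,
    Finset.sum_range_succ, Finset.sum_range_one] at h3
  norm_num [Nat.factorial] at h3
  have h4 := Real.pi_gt_d6
  have h5 : Real.exp 1 * Real.exp 1 ≤ 2.7182818286 * 2.7182818286 := by nlinarith
  have h6 : Real.exp 1 * Real.exp 1 * Real.exp 1 ≤ 2.7182818286 * 2.7182818286 * 2.7182818286 := by
    have := mul_le_mul h5 h1.le h2.le (by norm_num)
    exact this
  have h7 : Real.exp 0.224 ≤ 1.2511 := by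
    have e2 : (0.224 : ℝ) = 28 / 125 := by norm_num
    rw [e2]
    refine h3.trans ?_
    norm_num
  have h8 := mul_le_mul h6 h7 (Real.exp_pos _).le (by norm_num)
  refine h8.trans ?_
  norm_num
  linarith

theorem AProd_step {n : ℕ} (hn : 3 ≤ n)
    (ih : ((n : ℝ) + 2) ^ n * Cc n ^ 2 < (Real.pi / 2) ^ 2 * (n.factorial : ℝ) ^ 2) :
    (((n + 2 : ℕ) : ℝ) + 2) ^ (n + 2) * Cc (n + 2) ^ 2
      < (Real.pi / 2) ^ 2 * ((n + 2).factorial : ℝ) ^ 2 := by
  have hn' : (3 : ℝ) ≤ n := by exact_mod_cast hn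
  have h2 : (0 : ℝ) < (n : ℝ) + 2 := by linarith
  have h1 : (0 : ℝ) < (n : ℝ) + 1 := by linarith
  rw [Cc_rec, Nat.factorial_succ, Nat.factorial_succ]
  push_cast
  have e1 : ((n : ℝ) + 2 + 2) ^ (n + 2)
      = ((n : ℝ) + 2 + 2) ^ 2 * (((n : ℝ) + 2) ^ n * (1 + 2 / ((n : ℝ) + 2)) ^ n) := by
    rw [← mul_pow, pow_add, mul_comm]
    congr 2
    field_simp
  have e2 : (1 + 2 / ((n : ℝ) + 2)) ^ n ≤ Real.exp 1 ^ 2 := by
    have h3 : 1 + 2 / ((n : ℝ) + 2) ≤ Real.exp (2 / ((n : ℝ) + 2)) := by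
      have := Real.add_one_le_exp (2 / ((n : ℝ) + 2))
      linarith
    refine (pow_le_pow_left₀ (by positivity) h3 n).trans ?_
    rw [← Real.exp_nat_mul, ← Real.exp_nat_mul]
    apply Real.exp_le_exp.2
    push_cast
    rw [mul_div_assoc', div_le_iff₀ h2]
    nlinarith
  have e3 : Real.exp 1 ≤ 2.7182818286 := Real.exp_one_lt_d9.le
  have e4 : Real.exp 1 ^ 2 ≤ 7.4 := by nlinarith [Real.exp_pos 1]
  have e5 : ((n : ℝ) + 2 + 2) ^ 2 * (1 + 2 / ((n : ℝ) + 2)) ^ n ≤ ((n : ℝ) + 2) ^ 4 := by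
    refine (mul_le_mul_of_nonneg_left (e2.trans e4) (by positivity)).trans ?_
    nlinarith [sq_nonneg ((n : ℝ) - 3), mul_nonneg (sub_nonneg.2 hn') (sub_nonneg.2 hn'),
      mul_nonneg (mul_nonneg (sub_nonneg.2 hn') (sub_nonneg.2 hn')) (sub_nonneg.2 hn'),
      mul_nonneg (mul_nonneg (sub_nonneg.2 hn') (sub_nonneg.2 hn'))
        (mul_nonneg (sub_nonneg.2 hn') (sub_nonneg.2 hn'))]
  have h0 : 0 ≤ ((n : ℝ) + 2) ^ n * Cc n ^ 2 := by positivity
  calc ((n : ℝ) + 2 + 2) ^ (n + 2) * (((n : ℝ) + 1) / ((n : ℝ) + 2) * Cc n) ^ 2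
      = (((n : ℝ) + 2 + 2) ^ 2 * (1 + 2 / ((n : ℝ) + 2)) ^ n)
        * ((((n : ℝ) + 2) ^ n * Cc n ^ 2) * (((n : ℝ) + 1) / ((n : ℝ) + 2)) ^ 2) := by
        rw [e1]; ring
    _ ≤ ((n : ℝ) + 2) ^ 4 * ((((n : ℝ) + 2) ^ n * Cc n ^ 2)
        * (((n : ℝ) + 1) / ((n : ℝ) + 2)) ^ 2) := by
        exact mul_le_mul_of_nonneg_right e5 (by positivity)
    _ = (((n : ℝ) + 2) * ((n : ℝ) + 1)) ^ 2 * (((n : ℝ) + 2) ^ n * Cc n ^ 2) := by
        field_simp
    _ < (((n : ℝ) + 2) * ((n : ℝ) + 1)) ^ 2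
        * ((Real.pi / 2) ^ 2 * (n.factorial : ℝ) ^ 2) := by
        exact mul_lt_mul_of_pos_left ih (by positivity)
    _ = (Real.pi / 2) ^ 2 * (((n : ℝ) + 1 + 1) * (((n : ℝ) + 1) * (n.factorial : ℝ))) ^ 2 := by
        ring

theorem AProd_base (n : ℕ) (hn : 3 ≤ n) :
    ((n : ℝ) + 2) ^ n * Cc n ^ 2 < (Real.pi / 2) ^ 2 * (n.factorial : ℝ) ^ 2 := by
  have hpi := Real.pi_gt_d6
  have c3 : Cc 3 = 2 / 3 := by
    rw [Cc_rec 1, Cc_one]
    norm_num
  have c4 : Cc 4 = 3 * Real.pi / 16 := by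
    rw [Cc_rec 2, Cc_rec 0, Cc_zero]
    push_cast
    ring
  induction n using Nat.twoStepInduction with
  | zero => omega
  | one => omega
  | more k ih1 ih2 =>
    rcases lt_or_ge k 3 with hk | hk
    · interval_cases k
      · omega
      · norm_num [c3, Nat.factorial]
        nlinarith
      · norm_num [c4, Nat.factorial]
        nlinarith [Real.pi_pos]
    · have := AProd_step hk (ih1 hk)
      push_cast at this ⊢
      exact this

theorem Wn_lt_one {n : ℕ} (hn : 3 ≤ n) {lam : ℝ} (hlam : 0 < lam) (h : lam ^ 2 ≤ n + 2) :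
    Wn n lam < 1 := by
  have hpi := Real.pi_pos
  have hC := Cc_pos n
  have hf : (0 : ℝ) < n.factorial := by exact_mod_cast n.factorial_pos
  rw [Wn, div_lt_one (by positivity)]
  have h1 := AProd_base n hn
  have h2 : (lam ^ n * Cc n) ^ 2 < (Real.pi / 2 * n.factorial) ^ 2 := by
    calc (lam ^ n * Cc n) ^ 2 = (lam ^ 2) ^ n * Cc n ^ 2 := by ring
      _ ≤ ((n : ℝ) + 2) ^ n * Cc n ^ 2 := by
        exact mul_le_mul_of_nonneg_right (pow_le_pow_left₀ (by positivity) h n) (by positivity)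
      _ < (Real.pi / 2) ^ 2 * (n.factorial : ℝ) ^ 2 := h1
      _ = _ := by ring
  have h3 := lt_of_pow_lt_pow_left₀ 2 (by positivity) h2
  linarith

/-- with `s = n/2 - 1`, `D = X² - s²` -/
theorem Wn_lt_mp {n : ℕ} (hn : 7 ≤ n) {lam X : ℝ} (hlam : 0 < lam) (hX : (n : ℝ) / 2 + 1 / 2 ≤ X)
    (h : lam ^ 2 ≤ (1 + 2 / (n : ℝ)) * ((X + 1 / 2) ^ 2 - ((n : ℝ) / 2 - 1) ^ 2 + 1))
    (hkey : 0 ≤ 1.612 - 2 * (X ^ 2 - ((n : ℝ) / 2 - 1) ^ 2) / (X * (n * Real.sqrt n))
      - (n : ℝ) / 2 * (X + 5 / 4) / (X ^ 2 - ((n : ℝ) / 2 - 1) ^ 2)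
      + 2 / 3 * ((n : ℝ) / 2 - 1) ^ 3 / X ^ 2) :
    Wn n lam < mp n (X + 1 / 2) := by
  have hpi := Real.pi_pos
  have hC := Cc_pos n
  have hf : (0 : ℝ) < n.factorial := by exact_mod_cast n.factorial_pos
  have hn' : (7 : ℝ) ≤ n := by exact_mod_cast hn
  have hn0 : (0 : ℝ) < n := by linarith
  obtain ⟨s, hs⟩ : ∃ s : ℝ, s = (n : ℝ) / 2 - 1 := ⟨_, rfl⟩
  obtain ⟨D, hD⟩ : ∃ D : ℝ, D = X ^ 2 - s ^ 2 := ⟨_, rfl⟩
  rw [← hs] at h hkey
  rw [← hD] at hkey
  have hs0 : 0 < s := by linarith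
  have hX0 : 0 < X := by linarith
  have hsX : s < X := by linarith
  have hD0 : 0 < D := by rw [hD]; nlinarith
  have hXs : 0 < X - s := by linarith
  -- the product
  have hprod : ∀ i ∈ Finset.range (n - 2), 0 < X - s + 1 / 2 + (i : ℝ) := fun i _ => by positivity
  have hmp : mp n (X + 1 / 2)
      = 2 * X * (∏ i ∈ Finset.range (n - 2), (X - s + 1 / 2 + (i : ℝ))) / (n - 1).factorial := by
    rw [mp]
    congr 2
    · ring
    · refine Finset.prod_congr rfl (fun i _ => ?_)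
      rw [hs]; ring
  set P := ∏ i ∈ Finset.range (n - 2), (X - s + 1 / 2 + (i : ℝ)) with hP
  have hP0 : 0 < P := Finset.prod_pos hprod
  have hlogP : s * Real.log D + 2 / 3 * s ^ 3 / X ^ 2 ≤ Real.log P := by
    rw [hP, Real.log_prod (fun i hi => (hprod i hi).ne')]
    refine le_trans ?_ (AProd_sum hXs (n - 2))
    have e1 : ((n - 2 : ℕ) : ℝ) = 2 * s := by
      rw [Nat.cast_sub (by omega), hs]
      push_cast
      ring
    rw [e1]
    have e2 : X - s + 2 * s = X + s := by ring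
    rw [e2]
    have e3 : Real.log D = Real.log (X + s) + Real.log (X - s) := by
      rw [← Real.log_mul (by positivity) hXs.ne', hD]
      congr 1
      ring
    have h1 := AProd_atanh (x := s / X) (by positivity) ((div_lt_one hX0).2 hsX)
    have e4 : Real.log (X + s) = Real.log X + Real.log (1 + s / X) := by
      rw [← Real.log_mul hX0.ne' (by positivity)]
      congr 1
      field_simp
    have h5 : 0 < 1 - s / X := by
      rw [sub_pos, div_lt_one hX0]
      exact hsX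
    have e5 : Real.log (X - s) = Real.log X + Real.log (1 - s / X) := by
      rw [← Real.log_mul hX0.ne' h5.ne']
      congr 1
      field_simp
    have h6 : 2 * s + 2 / 3 * s ^ 3 / X ^ 2 ≤ X * (Real.log (X + s) - Real.log (X - s)) := by
      rw [e4, e5]
      have := mul_le_mul_of_nonneg_left h1 hX0.le
      have e6 : X * (2 * (s / X) + 2 / 3 * (s / X) ^ 3) = 2 * s + 2 / 3 * s ^ 3 / X ^ 2 := by
        field_simp
      rw [e6] at this
      linarith
    rw [e3]
    linarith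
  -- the left side
  have hl2 : (n : ℝ) * Real.log lam ≤ 1 + (n : ℝ) / 2 * Real.log D
      + (n : ℝ) / 2 * (X + 5 / 4) / D := by
    have h1 : Real.log (lam ^ 2) ≤ Real.log ((1 + 2 / (n : ℝ)) * (D * (1 + (X + 5 / 4) / D))) := by
      apply Real.log_le_log (by positivity)
      refine h.trans (le_of_eq ?_)
      congr 1
      rw [mul_add, mul_div_cancel₀ _ hD0.ne', hD]
      ring
    rw [Real.log_mul (by positivity) (by positivity), Real.log_mul (by positivity) (by positivity),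
      Real.log_pow] at h1
    have h2 : Real.log (1 + 2 / (n : ℝ)) ≤ 2 / n := by
      have := Real.log_le_sub_one_of_pos (x := 1 + 2 / (n : ℝ)) (by positivity)
      linarith
    have h3 : Real.log (1 + (X + 5 / 4) / D) ≤ (X + 5 / 4) / D := by
      have := Real.log_le_sub_one_of_pos (x := 1 + (X + 5 / 4) / D) (by positivity)
      linarith
    push_cast at h1
    have h4 : 2 * Real.log lam ≤ 2 / n + (Real.log D + (X + 5 / 4) / D) := by linarith
    have h5 := mul_le_mul_of_nonneg_left h4 (a := (n : ℝ) / 2) (by positivity)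
    have e1 : (n : ℝ) / 2 * (2 * Real.log lam) = n * Real.log lam := by ring
    have e2 : (n : ℝ) / 2 * (2 / n + (Real.log D + (X + 5 / 4) / D))
        = 1 + (n : ℝ) / 2 * Real.log D + (n : ℝ) / 2 * (X + 5 / 4) / D := by
      field_simp
      ring
    rw [e1, e2] at h5
    exact h5
  have hCc : Real.log (Cc n) < 1 / 2 * (Real.log Real.pi - Real.log 2 - Real.log n) := by
    have h1 : Cc n < Real.sqrt (Real.pi / (2 * n)) := by
      refine (Cc_le n).trans_lt (Real.sqrt_lt_sqrt (by positivity) ?_)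
      apply div_lt_div_of_pos_left hpi (by positivity)
      linarith
    have h2 := Real.log_lt_log hC h1
    rw [Real.log_sqrt (by positivity), Real.log_div hpi.ne' (by positivity),
      Real.log_mul (by norm_num) hn0.ne'] at h2
    linarith
  have hK : Real.log D - Real.log X ≤ 3 / 2 * Real.log n - Real.log 2
      + 2 * D / (X * (n * Real.sqrt n)) - 1 := by
    have hsq : 0 < Real.sqrt n := Real.sqrt_pos.2 hn0
    have h1 := Real.log_le_sub_one_of_pos (x := 2 * D / (X * (n * Real.sqrt n))) (by positivity)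
    rw [Real.log_div (by positivity) (by positivity), Real.log_mul (by norm_num) hD0.ne',
      Real.log_mul hX0.ne' (by positivity), Real.log_mul hn0.ne' hsq.ne',
      Real.log_sqrt hn0.le] at h1
    linarith
  have hnum := AProd_num
  rw [Real.log_mul (by norm_num) hpi.ne'] at hnum
  have e8 : Real.log 8 = 3 * Real.log 2 := by
    rw [show (8 : ℝ) = 2 ^ 3 by norm_num, Real.log_pow]
    norm_num
  rw [e8] at hnum
  -- conclusion
  have hmain : lam ^ n * Cc n < Real.pi * n * X * P := by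
    rw [← Real.log_lt_log_iff (by positivity) (by positivity),
      Real.log_mul (by positivity) hC.ne', Real.log_mul (by positivity) hP0.ne',
      Real.log_mul (by positivity) hX0.ne', Real.log_mul (by positivity) hn0.ne', Real.log_pow]
    have e9 : s * Real.log D = (n : ℝ) / 2 * Real.log D - Real.log D := by
      rw [hs]; ring
    linarith
  have hfac : (n.factorial : ℝ) = n * (n - 1).factorial := by
    exact_mod_cast (Nat.mul_factorial_pred (by omega)).symm
  have hf1 : (0 : ℝ) < (n - 1).factorial := by exact_mod_cast (n - 1).factorial_pos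
  rw [hmp, Wn, hfac, div_lt_div_iff₀ (by positivity) (by positivity)]
  have := mul_lt_mul_of_pos_left hmain (show (0 : ℝ) < 2 * (n - 1).factorial by positivity)
  linarith

end Pool.Agent.PB86
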