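import Pool.Agent.PB86.AOne
import Pool.Agent.PB86.AProd
import Pool.Agent.PB86.AKey

set_option autoImplicit false

open MeasureTheory Set Filter Topology
open scoped NNReal RealInnerProductSpace

namespace Pool.Agent.PB86

open Pool.Agent.H51.Neumann (E IsH1 IsNeumannSpectrum)

/-- `M(0) = 1` -/
theorem ALarge_mp {n : ℕ} (hn : 3 ≤ n) : mp n ((n : ℝ) / 2) = 1 := by
  obtain ⟨m, rfl⟩ : ∃ m, n = m + 2 := ⟨n - 2, by omega⟩
  unfold mp
  have e1 : m + 2 - 2 = m := by omega
  have e2 : m + 2 - 1 = m + 1 := by omega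
  have e3 : ∏ i ∈ Finset.range m,
      (((m + 2 : ℕ) : ℝ) / 2 - ((m + 2 : ℕ) : ℝ) / 2 + ((i : ℝ) + 1)) = (m.factorial : ℝ) := by
    rw [← Finset.prod_range_add_one_eq_factorial]
    push_cast
    refine Finset.prod_congr rfl fun i _ => ?_
    ring
  rw [e1, e2, e3, Nat.factorial_succ]
  have h1 : ((m.factorial : ℕ) : ℝ) ≠ 0 := by positivity
  have h2 : ((m : ℝ) + 1) ≠ 0 := by positivity
  push_cast
  field_simp
  ring

theorem A_large {n : ℕ} (hn : 7 ≤ n) {lam : ℝ} (hlam : 0 < lam)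
    (h : lam ^ 2 ≤ 64 / 125 * (n : ℝ) ^ 3) : Count n lam := by
  have hn0 : (7 : ℝ) ≤ n := by exact_mod_cast hn
  by_cases h0 : lam ^ 2 ≤ n + 2
  · refine count_A (by omega) hlam 0 (Or.inl rfl) ?_
    have e : ((0 : ℕ) : ℝ) + (n : ℝ) / 2 = (n : ℝ) / 2 := by push_cast; ring
    rw [e, ALarge_mp (by omega)]
    exact Wn_lt_one (by omega) hlam h0
  · push Not at h0
    -- the values `R_L`
    set R : ℕ → ℝ := fun L => (1 + 2 / (n : ℝ)) * (1 + L * (L + n - 2)) with hR
    have hex : ∃ L : ℕ, lam ^ 2 ≤ R (L + 1) := by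
      obtain ⟨L, hL⟩ := exists_nat_ge (lam ^ 2)
      refine ⟨L, hL.trans ?_⟩
      have h1 : (0 : ℝ) ≤ L := Nat.cast_nonneg L
      have h2 : (0 : ℝ) ≤ 2 / (n : ℝ) := by positivity
      simp only [hR]
      push_cast
      nlinarith [mul_nonneg h2 (by nlinarith : (0 : ℝ) ≤ 1 + ((L : ℝ) + 1) * ((L : ℝ) + 1 + n - 2))]
    classical
    set L := Nat.find hex with hLdef
    have hLspec : lam ^ 2 ≤ R (L + 1) := Nat.find_spec hex
    have hn1 : (n : ℝ) ≠ 0 := by positivity
    have hR1 : R 1 = n + 2 := by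
      simp only [hR]
      push_cast
      field_simp
      ring
    have hL1 : 1 ≤ L := by
      by_contra hno
      have hL0 : L = 0 := by omega
      rw [hL0] at hLspec
      simp only [zero_add] at hLspec
      rw [hR1] at hLspec
      linarith
    have hRL : R L < lam ^ 2 := by
      obtain ⟨k, hk⟩ : ∃ k, L = k + 1 := ⟨L - 1, by omega⟩
      have h3 := Nat.find_min hex (m := k) (by omega)
      push Not at h3
      rw [hk]
      exact h3
    refine count_A (by omega) hlam L (Or.inr hRL) ?_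
    set X : ℝ := L + (n : ℝ) / 2 - 1 / 2 with hX
    have hL1' : (1 : ℝ) ≤ L := by exact_mod_cast hL1
    have hkey := key_ineq hn hL1 (hRL.trans_le h) hX
    have h4 := Wn_lt_mp hn hlam (X := X) (by rw [hX]; linarith) ?_ hkey
    · have e : X + 1 / 2 = L + (n : ℝ) / 2 := by rw [hX]; ring
      rwa [e] at h4
    · refine hLspec.trans (le_of_eq ?_)
      simp only [hR]
      push_cast
      rw [hX]
      ring

end Pool.Agent.PB86
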