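import Pool.Agent.PB86.Defs

set_option autoImplicit false

open MeasureTheory Set Filter Topology
open scoped NNReal RealInnerProductSpace

namespace Pool.Agent.PB86

open Pool.Agent.H51.Neumann (E IsH1 IsNeumannSpectrum)

/-- the derivative of the cut-off -/
theorem Cut_deriv_sq_le {f : ℝ → ℝ} {ε : ℝ} {C : ℝ≥0} (hlip : LipschitzOnWith C f (Iic 0))
    {x : ℝ} (hx : x < 0) : deriv (fun y => max (f y - ε) 0) x ^ 2 ≤ deriv f x ^ 2 := by
  have hc : ContinuousAt f x := hlip.continuousOn.continuousAt (Iic_mem_nhds hx)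
  rcases lt_trichotomy (f x) ε with h | h | h
  · have h1 : (fun y => max (f y - ε) 0) =ᶠ[𝓝 x] fun _ => 0 := by
      filter_upwards [hc.eventually_lt continuousAt_const h] with y hy
      exact max_eq_right (by linarith)
    rw [h1.deriv_eq, deriv_const, zero_pow two_ne_zero]
    exact sq_nonneg _
  · have h1 : IsLocalMin (fun y => max (f y - ε) 0) x := by
      refine Filter.Eventually.of_forall fun y => ?_
      have h2 : max (f x - ε) 0 = 0 := by rw [h, sub_self, max_self]
      change max (f x - ε) 0 ≤ max (f y - ε) 0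
      rw [h2]
      exact le_max_right _ _
    rw [h1.deriv_eq_zero, zero_pow two_ne_zero]
    exact sq_nonneg _
  · have h1 : (fun y => max (f y - ε) 0) =ᶠ[𝓝 x] fun y => f y - ε := by
      filter_upwards [continuousAt_const.eventually_lt hc h] with y hy
      exact max_eq_left (by linarith)
    rw [h1.deriv_eq, deriv_sub_const]

theorem tr_of_pos {s ν lam : ℝ} {f : ℝ → ℝ} (hs : 0 ≤ s) (hnn : ∀ x ≤ 0, 0 ≤ f x)
    (hlip : ∃ C : ℝ≥0, LipschitzOnWith C f (Iic 0)) (hlim : Tendsto f atBot (𝓝 0))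
    (h1 : IntegrableOn (fun x => deriv f x ^ 2) (Iic 0))
    (h2 : IntegrableOn (fun x => f x ^ 2) (Iic 0)) (hQ : Q s ν lam f < 0) :
    ∃ ε > 0, Tr s ν lam (fun x => max (f x - ε) 0) := by
  obtain ⟨C, hC⟩ := hlip
  -- integrability
  have hexp : IntegrableOn (fun x : ℝ => Real.exp (2 * x)) (Iic 0) :=
    integrableOn_exp_mul_Iic (by norm_num) 0
  have hmf : AEStronglyMeasurable f (volume.restrict (Iic 0)) :=
    hC.continuousOn.aestronglyMeasurable measurableSet_Iic
  have hme : Continuous (fun x : ℝ => Real.exp (2 * x)) := by fun_prop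
  have hle1 : ∀ x ≤ (0 : ℝ), Real.exp (2 * x) ≤ 1 := fun x hx => by
    rw [Real.exp_le_one_iff]; linarith
  have h3 : IntegrableOn (fun x => Real.exp (2 * x) * f x) (Iic 0) := by
    refine ((hexp.add h2).const_mul (1 / 2)).mono'
      (hme.aestronglyMeasurable.mul hmf) ?_
    refine (ae_restrict_iff' measurableSet_Iic).2 (Filter.Eventually.of_forall fun x hx => ?_)
    have e1 := hle1 x hx
    have e2 := hnn x hx
    have e3 := Real.exp_pos (2 * x)
    rw [Real.norm_eq_abs, abs_of_nonneg (mul_nonneg e3.le e2)]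
    simp only [Pi.add_apply]
    nlinarith [sq_nonneg (f x - 1), mul_nonneg (sub_nonneg.2 e1) (sq_nonneg (f x))]
  have h4 : IntegrableOn (fun x => Real.exp (2 * x) * f x ^ 2) (Iic 0) := by
    refine h2.mono' (hme.aestronglyMeasurable.mul (hmf.pow 2)) ?_
    refine (ae_restrict_iff' measurableSet_Iic).2 (Filter.Eventually.of_forall fun x hx => ?_)
    have e1 := hle1 x hx
    have e3 := Real.exp_pos (2 * x)
    rw [Real.norm_eq_abs, abs_of_nonneg (mul_nonneg e3.le (sq_nonneg _))]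
    exact mul_le_of_le_one_left (sq_nonneg _) e1
  have hfQ : IntegrableOn
      (fun x => (deriv f x) ^ 2 + (ν ^ 2 - lam ^ 2 * Real.exp (2 * x)) * f x ^ 2) (Iic 0) := by
    have := h1.add ((h2.const_mul (ν ^ 2)).sub (h4.const_mul (lam ^ 2)))
    refine this.congr (Filter.Eventually.of_forall fun x => ?_)
    simp only [Pi.add_apply, Pi.sub_apply]
    ring
  set K : ℝ := lam ^ 2 * (∫ x in Iic (0 : ℝ), Real.exp (2 * x) * f x) + s * f 0 with hK
  have hK0 : 0 ≤ K := by
    refine add_nonneg (mul_nonneg (sq_nonneg _) ?_) (mul_nonneg hs (hnn 0 le_rfl))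
    exact setIntegral_nonneg measurableSet_Iic fun x hx =>
      mul_nonneg (Real.exp_pos _).le (hnn x hx)
  set ε : ℝ := -Q s ν lam f / (2 * (K + 1)) with hε
  have hε0 : 0 < ε := div_pos (neg_pos.2 hQ) (by linarith)
  have hεK : 2 * ε * K < -Q s ν lam f := by
    have e1 : ε * (2 * (K + 1)) = -Q s ν lam f := div_mul_cancel₀ _ (by positivity)
    nlinarith
  refine ⟨ε, hε0, ⟨C, ?_⟩, ?_, ?_⟩
  · -- Lipschitz
    have e1 : LipschitzWith 1 (fun t : ℝ => max (t - ε) 0) := by
      refine LipschitzWith.of_dist_le_mul fun a b => ?_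
      rw [Real.dist_eq, Real.dist_eq, NNReal.coe_one, one_mul]
      have := abs_max_sub_max_le_abs (a - ε) (b - ε) 0
      rwa [sub_sub_sub_cancel_right] at this
    have := e1.comp_lipschitzOnWith hC
    rwa [one_mul] at this
  · -- zero near -infinity
    have e1 : ∀ᶠ x in atBot, f x < ε := hlim.eventually_lt_const hε0
    obtain ⟨a, ha⟩ := (eventually_atBot.1 e1)
    exact ⟨a, fun x hx => max_eq_right (by linarith [ha x hx])⟩
  · -- the form
    have hg0 : ∀ x ≤ (0 : ℝ), 0 ≤ max (f x - ε) 0 ∧ max (f x - ε) 0 ≤ f x := fun x hx =>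
      ⟨le_max_right _ _, max_le (by linarith) (hnn x hx)⟩
    have hg2 : ∀ x ≤ (0 : ℝ), max (f x - ε) 0 ^ 2 ≤ f x ^ 2 := fun x hx =>
      pow_le_pow_left₀ (hg0 x hx).1 (hg0 x hx).2 2
    have hg3 : ∀ x ≤ (0 : ℝ), f x ^ 2 - 2 * ε * f x ≤ max (f x - ε) 0 ^ 2 := by
      intro x hx
      rcases le_total ε (f x) with h | h
      · rw [max_eq_left (by linarith)]
        nlinarith
      · rw [max_eq_right (by linarith)]
        nlinarith [hnn x hx]
    have hmg : AEStronglyMeasurable (fun x => max (f x - ε) 0) (volume.restrict (Iic 0)) :=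
      (((continuous_id.sub continuous_const).max continuous_const).comp_continuousOn
        hC.continuousOn).aestronglyMeasurable measurableSet_Iic
    have i1 : IntegrableOn (fun x => deriv (fun y => max (f y - ε) 0) x ^ 2) (Iic 0) := by
      refine h1.mono' ((measurable_deriv _).pow_const 2).aestronglyMeasurable ?_
      have e0 : ∀ᵐ x ∂(volume.restrict (Iic (0 : ℝ))), x < 0 := by
        rw [← restrict_Iio_eq_restrict_Iic]
        exact ae_restrict_mem measurableSet_Iio
      filter_upwards [e0] with x hx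
      rw [Real.norm_eq_abs, abs_of_nonneg (sq_nonneg _)]
      exact Cut_deriv_sq_le hC hx
    have i2 : IntegrableOn (fun x => max (f x - ε) 0 ^ 2) (Iic 0) := by
      refine h2.mono' (hmg.pow 2) ?_
      refine (ae_restrict_iff' measurableSet_Iic).2 (Filter.Eventually.of_forall fun x hx => ?_)
      rw [Real.norm_eq_abs, abs_of_nonneg (sq_nonneg _)]
      exact hg2 x hx
    have i3 : IntegrableOn (fun x => Real.exp (2 * x) * max (f x - ε) 0 ^ 2) (Iic 0) := by
      refine i2.mono' (hme.aestronglyMeasurable.mul (hmg.pow 2)) ?_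
      refine (ae_restrict_iff' measurableSet_Iic).2 (Filter.Eventually.of_forall fun x hx => ?_)
      rw [Real.norm_eq_abs, abs_of_nonneg (mul_nonneg (Real.exp_pos _).le (sq_nonneg _))]
      exact mul_le_of_le_one_left (sq_nonneg _) (hle1 x hx)
    have igQ : IntegrableOn (fun x => (deriv (fun y => max (f y - ε) 0) x) ^ 2 +
        (ν ^ 2 - lam ^ 2 * Real.exp (2 * x)) * max (f x - ε) 0 ^ 2) (Iic 0) := by
      have := i1.add ((i2.const_mul (ν ^ 2)).sub (i3.const_mul (lam ^ 2)))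
      refine this.congr (Filter.Eventually.of_forall fun x => ?_)
      simp only [Pi.add_apply, Pi.sub_apply]
      ring
    have irhs : IntegrableOn (fun x => ((deriv f x) ^ 2 + (ν ^ 2 - lam ^ 2 * Real.exp (2 * x)) *
        f x ^ 2) + 2 * ε * lam ^ 2 * (Real.exp (2 * x) * f x)) (Iic 0) :=
      hfQ.add (h3.const_mul _)
    have hmono : ∫ x in Iic (0 : ℝ), ((deriv (fun y => max (f y - ε) 0) x) ^ 2 +
        (ν ^ 2 - lam ^ 2 * Real.exp (2 * x)) * max (f x - ε) 0 ^ 2) ≤
        ∫ x in Iic (0 : ℝ), (((deriv f x) ^ 2 + (ν ^ 2 - lam ^ 2 * Real.exp (2 * x)) *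
        f x ^ 2) + 2 * ε * lam ^ 2 * (Real.exp (2 * x) * f x)) := by
      refine integral_mono_ae igQ irhs ?_
      have e0 : ∀ᵐ x ∂(volume.restrict (Iic (0 : ℝ))), x < 0 := by
        rw [← restrict_Iio_eq_restrict_Iic]
        exact ae_restrict_mem measurableSet_Iio
      filter_upwards [e0] with x hx
      have e1 := Cut_deriv_sq_le (ε := ε) hC hx
      have e2 := hg2 x hx.le
      have e3 := hg3 x hx.le
      have e4 := Real.exp_pos (2 * x)
      have e5 : ν ^ 2 * max (f x - ε) 0 ^ 2 ≤ ν ^ 2 * f x ^ 2 :=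
        mul_le_mul_of_nonneg_left e2 (sq_nonneg _)
      have e6 : lam ^ 2 * Real.exp (2 * x) * (f x ^ 2 - 2 * ε * f x) ≤
          lam ^ 2 * Real.exp (2 * x) * max (f x - ε) 0 ^ 2 :=
        mul_le_mul_of_nonneg_left e3 (mul_nonneg (sq_nonneg _) e4.le)
      change (deriv (fun y => max (f y - ε) 0) x) ^ 2 +
        (ν ^ 2 - lam ^ 2 * Real.exp (2 * x)) * max (f x - ε) 0 ^ 2 ≤
        ((deriv f x) ^ 2 + (ν ^ 2 - lam ^ 2 * Real.exp (2 * x)) *
        f x ^ 2) + 2 * ε * lam ^ 2 * (Real.exp (2 * x) * f x)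
      nlinarith
    have hsplit : ∫ x in Iic (0 : ℝ), (((deriv f x) ^ 2 + (ν ^ 2 - lam ^ 2 * Real.exp (2 * x)) *
        f x ^ 2) + 2 * ε * lam ^ 2 * (Real.exp (2 * x) * f x)) =
        (∫ x in Iic (0 : ℝ), ((deriv f x) ^ 2 + (ν ^ 2 - lam ^ 2 * Real.exp (2 * x)) *
        f x ^ 2)) + 2 * ε * lam ^ 2 * ∫ x in Iic (0 : ℝ), Real.exp (2 * x) * f x := by
      rw [integral_add hfQ (h3.const_mul _), integral_const_mul]
    have hg00 : f 0 ^ 2 - 2 * ε * f 0 ≤ max (f 0 - ε) 0 ^ 2 := hg3 0 le_rfl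
    have hs0 : s * (f 0 ^ 2 - 2 * ε * f 0) ≤ s * max (f 0 - ε) 0 ^ 2 :=
      mul_le_mul_of_nonneg_left hg00 hs
    unfold Q
    rw [hsplit] at hmono
    have hQd : Q s ν lam f = (∫ x in Iic (0 : ℝ), ((deriv f x) ^ 2 +
        (ν ^ 2 - lam ^ 2 * Real.exp (2 * x)) * f x ^ 2)) - s * f 0 ^ 2 := rfl
    have hKK : 2 * ε * K = 2 * ε * lam ^ 2 * (∫ x in Iic (0 : ℝ), Real.exp (2 * x) * f x) +
        2 * ε * s * f 0 := by rw [hK]; ring
    linarith

theorem cnt_one {s ν lam P : ℝ} (hs : 0 ≤ s) (hlam : 0 < lam) (hP : 0 < P)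
    (h : ν ^ 2 < lam ^ 2 - lam ^ 2 / (P + 1) - P ^ 2 + 2 * s * P) : Cnt s ν lam 1 := by
  have hd : ∀ x : ℝ, HasDerivAt (fun x : ℝ => Real.exp (P * x)) (P * Real.exp (P * x)) x := by
    intro x
    have := ((hasDerivAt_id x).const_mul P).exp
    simp only [id, mul_one] at this
    rw [mul_comm] at this
    exact this
  have hdd : ∀ x, deriv (fun x : ℝ => Real.exp (P * x)) x = P * Real.exp (P * x) :=
    fun x => (hd x).deriv
  have hsq : ∀ x : ℝ, Real.exp (P * x) ^ 2 = Real.exp (2 * P * x) := by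
    intro x
    rw [← Real.exp_nat_mul]
    congr 1
    push_cast
    ring
  have i1 : IntegrableOn (fun x : ℝ => Real.exp (2 * P * x)) (Iic 0) :=
    integrableOn_exp_mul_Iic (by positivity) 0
  have i2 : IntegrableOn (fun x : ℝ => Real.exp ((2 * P + 2) * x)) (Iic 0) :=
    integrableOn_exp_mul_Iic (by positivity) 0
  have v1 : ∫ x in Iic (0 : ℝ), Real.exp (2 * P * x) = 1 / (2 * P) := by
    rw [integral_exp_mul_Iic (by positivity) 0, mul_zero, Real.exp_zero]
  have v2 : ∫ x in Iic (0 : ℝ), Real.exp ((2 * P + 2) * x) = 1 / (2 * P + 2) := by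
    rw [integral_exp_mul_Iic (by positivity) 0, mul_zero, Real.exp_zero]
  have hQ : Q s ν lam (fun x : ℝ => Real.exp (P * x)) < 0 := by
    unfold Q
    have e1 : (fun x : ℝ => (deriv (fun x : ℝ => Real.exp (P * x)) x) ^ 2 +
        (ν ^ 2 - lam ^ 2 * Real.exp (2 * x)) * Real.exp (P * x) ^ 2) =
        fun x => (P ^ 2 + ν ^ 2) * Real.exp (2 * P * x) - lam ^ 2 * Real.exp ((2 * P + 2) * x) := by
      funext x
      have e2 : Real.exp ((2 * P + 2) * x) = Real.exp (2 * x) * Real.exp (2 * P * x) := by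
        rw [← Real.exp_add]; congr 1; ring
      rw [hdd, mul_pow, hsq, e2]
      ring
    rw [e1, integral_sub (i1.const_mul _) (i2.const_mul _), integral_const_mul,
      integral_const_mul, v1, v2]
    change _ - _ - s * Real.exp (P * 0) ^ 2 < 0
    rw [mul_zero, Real.exp_zero]
    have hP1 : 0 < P + 1 := by linarith
    have e3 : (P ^ 2 + ν ^ 2) * (1 / (2 * P)) - lam ^ 2 * (1 / (2 * P + 2)) - s * 1 ^ 2 =
        (ν ^ 2 - (lam ^ 2 - lam ^ 2 / (P + 1) - P ^ 2 + 2 * s * P)) / (2 * P) := by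
      field_simp
      ring
    rw [e3]
    exact div_neg_of_neg_of_pos (by linarith) (by positivity)
  have hL : LipschitzOnWith (Real.toNNReal P) (fun x : ℝ => Real.exp (P * x)) (Iic 0) := by
    refine Convex.lipschitzOnWith_of_nnnorm_deriv_le (fun x _ => (hd x).differentiableAt)
      (fun x hx => ?_) (convex_Iic 0)
    rw [← NNReal.coe_le_coe, coe_nnnorm, hdd, Real.norm_eq_abs,
      abs_of_pos (mul_pos hP (Real.exp_pos _)), Real.coe_toNNReal _ hP.le]
    refine mul_le_of_le_one_right hP.le ?_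
    rw [Real.exp_le_one_iff]
    exact mul_nonpos_of_nonneg_of_nonpos hP.le hx
  have hT0 : Tendsto (fun x : ℝ => Real.exp (P * x)) atBot (𝓝 0) :=
    Real.tendsto_exp_atBot.comp (tendsto_id.const_mul_atBot hP)
  have j1 : IntegrableOn (fun x => deriv (fun x : ℝ => Real.exp (P * x)) x ^ 2) (Iic 0) := by
    refine (i1.const_mul (P ^ 2)).congr (Filter.Eventually.of_forall fun x => ?_)
    simp only [hdd, mul_pow, hsq]
  have j2 : IntegrableOn (fun x : ℝ => Real.exp (P * x) ^ 2) (Iic 0) := by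
    refine i1.congr (Filter.Eventually.of_forall fun x => ?_)
    simp only [hsq]
  obtain ⟨ε, -, hT⟩ := tr_of_pos hs (fun x _ => (Real.exp_pos (P * x)).le) ⟨_, hL⟩ hT0 j1 j2 hQ
  exact ⟨fun _ => _, fun _ => hT, fun i j hij => absurd (Subsingleton.elim i j) hij⟩

end Pool.Agent.PB86
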