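import Pool.Agent.PB86.HarmDim
import Pool.Agent.PB86.Cut

set_option autoImplicit false

open MeasureTheory Set Filter Topology
open scoped NNReal RealInnerProductSpace

namespace Pool.Agent.PB86

open Pool.Agent.H51.Neumann (E IsH1 IsNeumannSpectrum)

theorem AOne_cnt {n : ℕ} (hn : 3 ≤ n) {lam : ℝ} (hlam : 0 < lam) (L : ℕ)
    (h1 : L = 0 ∨ (1 + 2 / (n : ℝ)) * (1 + L * (L + n - 2)) < lam ^ 2) (l : ℕ) (hl : l ≤ L) :
    Cnt ((n : ℝ) / 2 - 1) (l + ((n : ℝ) / 2 - 1)) lam 1 := by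
  have hn' : (3 : ℝ) ≤ n := by exact_mod_cast hn
  have hl2 : 0 < lam ^ 2 := by positivity
  rcases h1 with h1 | h1
  · subst h1
    have hl0 : l = 0 := by omega
    subst hl0
    refine cnt_one (P := (n : ℝ) / 2 - 1) (by linarith) hlam (by linarith) ?_
    have h3 : lam ^ 2 / ((n : ℝ) / 2 - 1 + 1) < lam ^ 2 := by
      apply div_lt_self hl2
      linarith
    push_cast
    nlinarith
  · refine cnt_one (P := (n : ℝ) / 2) (by linarith) hlam (by linarith) ?_
    have hll : (l : ℝ) ≤ L := by exact_mod_cast hl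
    have hl0 : (0 : ℝ) ≤ l := Nat.cast_nonneg l
    have h4 : (1 + 2 / (n : ℝ)) * (1 + l * (l + n - 2)) < lam ^ 2 := by
      refine lt_of_le_of_lt ?_ h1
      have h5 : (0 : ℝ) ≤ 1 + 2 / (n : ℝ) := by positivity
      have h6 : (l : ℝ) * (l + n - 2) ≤ L * (L + n - 2) := by
        apply mul_le_mul hll (by linarith) (by linarith) (by linarith)
      exact mul_le_mul_of_nonneg_left (by linarith) h5
    have h7 : (0 : ℝ) < (n : ℝ) / 2 + 1 := by linarith
    have h8 : lam ^ 2 / ((n : ℝ) / 2 + 1) = lam ^ 2 - lam ^ 2 * (n / (n + 2)) := by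
      field_simp
      ring
    have h9 : 1 + (l : ℝ) * (l + n - 2) < lam ^ 2 * (n / (n + 2)) := by
      have h10 : (0 : ℝ) < (n : ℝ) / (n + 2) := by positivity
      have h11 := mul_lt_mul_of_pos_right h4 h10
      have h12 : (1 + 2 / (n : ℝ)) * (1 + l * (l + n - 2)) * (n / (n + 2)) =
          1 + (l : ℝ) * (l + n - 2) := by
        have hne : (n : ℝ) ≠ 0 := by positivity
        have hne2 : (n : ℝ) + 2 ≠ 0 := by positivity
        field_simp
      rw [h12] at h11
      exact h11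
    rw [h8]
    nlinarith

theorem count_A {n : ℕ} (hn : 3 ≤ n) {lam : ℝ} (hlam : 0 < lam) (L : ℕ)
    (h1 : L = 0 ∨ (1 + 2 / (n : ℝ)) * (1 + L * (L + n - 2)) < lam ^ 2)
    (h2 : Wn n lam < mp n (L + (n : ℝ) / 2)) : Count n lam := by
  refine ⟨L + 1, fun _ => 1, fun l hl => AOne_cnt hn hlam L h1 l (by omega), ?_⟩
  refine lt_of_lt_of_le h2 ((sum_harm_ge hn L).trans_eq ?_)
  simp only [one_mul]

end Pool.Agent.PB86
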