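import Pool.Agent.PB86.YFun

set_option autoImplicit false

open MeasureTheory Set Filter Topology
open scoped NNReal RealInnerProductSpace

namespace Pool.Agent.PB86

open Pool.Agent.H51.Neumann (E IsH1 IsNeumannSpectrum)

theorem Cc_zero : Cc 0 = Real.pi / 2 := by
  simp [Cc]

theorem Cc_one : Cc 1 = 1 := by
  simp [Cc, integral_cos]

theorem Cc_rec (m : ℕ) : Cc (m + 2) = (m + 1) / (m + 2) * Cc m := by
  unfold Cc
  rw [integral_cos_pow]
  simp

theorem Cc_pos (m : ℕ) : 0 < Cc m := by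
  induction m using Nat.strong_induction_on with
  | _ m ih =>
    match m, ih with
    | 0, _ => rw [Cc_zero]; positivity
    | 1, _ => rw [Cc_one]; exact one_pos
    | k + 2, ih =>
      rw [Cc_rec]
      have := ih k (by omega)
      positivity

theorem YInt_anti (m : ℕ) : Cc (m + 1) ≤ Cc m := by
  unfold Cc
  refine intervalIntegral.integral_mono_on (by positivity)
    ((Real.continuous_cos.pow _).intervalIntegrable _ _)
    ((Real.continuous_cos.pow _).intervalIntegrable _ _) fun x hx => ?_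
  have h1 : 0 ≤ Real.cos x := Real.cos_nonneg_of_mem_Icc ⟨by linarith [hx.1, Real.pi_pos], hx.2⟩
  exact pow_le_pow_of_le_one h1 (Real.cos_le_one x) (Nat.le_succ m)

theorem YInt_prod (m : ℕ) : ((m : ℝ) + 1) * (Cc (m + 1) * Cc m) = Real.pi / 2 := by
  induction m with
  | zero =>
    rw [zero_add, Cc_one, Cc_zero]
    simp
  | succ m ih =>
    rw [show m + 1 + 1 = m + 2 from rfl, Cc_rec, ← ih]
    push_cast
    field_simp
    ring

theorem YInt_sq (m : ℕ) : Cc (m + 1) ^ 2 ≤ Real.pi / (2 * ((m : ℝ) + 1)) := by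
  have h1 := YInt_prod m
  have h2 := YInt_anti m
  have h3 := Cc_pos (m + 1)
  have h4 : ((m : ℝ) + 1) * Cc (m + 1) ^ 2 ≤ Real.pi / 2 := by
    rw [← h1, sq]
    gcongr
  have h5 : (0 : ℝ) < (m : ℝ) + 1 := by positivity
  rw [le_div_iff₀ (by positivity)]
  linarith

theorem YInt_step (m : ℕ) :
    Cc m ^ 2 * (2 * m + 1) ≤ Cc (m + 2) ^ 2 * (2 * ((m + 2 : ℕ) : ℝ) + 1) := by
  rw [Cc_rec, mul_pow, div_pow]
  have h1 := Cc_pos m
  have h2 : (2 * (m : ℝ) + 1) ≤ ((m : ℝ) + 1) ^ 2 / ((m : ℝ) + 2) ^ 2 *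
      (2 * ((m + 2 : ℕ) : ℝ) + 1) := by
    push_cast
    rw [div_mul_eq_mul_div, le_div_iff₀ (by positivity)]
    have h3 : (0 : ℝ) ≤ m := Nat.cast_nonneg m
    nlinarith
  calc Cc m ^ 2 * (2 * m + 1) ≤ Cc m ^ 2 * (((m : ℝ) + 1) ^ 2 / ((m : ℝ) + 2) ^ 2 *
      (2 * ((m + 2 : ℕ) : ℝ) + 1)) := by gcongr
    _ = _ := by ring

theorem YInt_steps (m k : ℕ) :
    Cc m ^ 2 * (2 * m + 1) ≤ Cc (m + 2 * k) ^ 2 * (2 * ((m + 2 * k : ℕ) : ℝ) + 1) := by
  induction k with
  | zero => simp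
  | succ k ih => exact ih.trans (YInt_step (m + 2 * k))

theorem YInt_le (m : ℕ) : Cc m ^ 2 * (2 * m + 1) ≤ Real.pi := by
  have h1 : ∀ k : ℕ, Cc m ^ 2 * (2 * m + 1) ≤ Real.pi + Real.pi / (2 * ((k : ℝ) + 1)) := by
    intro k
    have h2 := YInt_steps m (k + 1)
    have h3 := YInt_sq (m + 2 * k + 1)
    have h4 : m + 2 * (k + 1) = m + 2 * k + 1 + 1 := by ring
    rw [h4] at h2
    refine h2.trans ?_
    set N : ℕ := m + 2 * k + 1 with hN
    have h5 : ((k : ℝ) + 1) ≤ (N : ℝ) + 1 := by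
      rw [hN]; push_cast
      have h6 : (0 : ℝ) ≤ m := Nat.cast_nonneg m
      have h7 : (0 : ℝ) ≤ k := Nat.cast_nonneg k
      linarith
    have h8 : (0 : ℝ) < (k : ℝ) + 1 := by positivity
    have h9 : (0 : ℝ) < (N : ℝ) + 1 := by positivity
    calc Cc (N + 1) ^ 2 * (2 * ((N + 1 : ℕ) : ℝ) + 1)
        ≤ Real.pi / (2 * ((N : ℝ) + 1)) * (2 * ((N + 1 : ℕ) : ℝ) + 1) := by gcongr
      _ = Real.pi + Real.pi / (2 * ((N : ℝ) + 1)) := by
          push_cast; field_simp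
      _ ≤ Real.pi + Real.pi / (2 * ((k : ℝ) + 1)) := by gcongr
  have h2 : Tendsto (fun k : ℕ => Real.pi + Real.pi / (2 * ((k : ℝ) + 1))) atTop
      (𝓝 (Real.pi + 0)) := by
    refine Tendsto.add tendsto_const_nhds ?_
    have h3 : (fun k : ℕ => Real.pi / (2 * ((k : ℝ) + 1))) =
        fun k : ℕ => (Real.pi / 2) * (1 / ((k : ℝ) + 1)) := by
      funext k; field_simp
    rw [h3]
    simpa using tendsto_one_div_add_atTop_nhds_zero_nat.const_mul (Real.pi / 2)
  rw [add_zero] at h2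
  exact ge_of_tendsto' h2 h1

theorem Cc_le (m : ℕ) : Cc m ≤ Real.sqrt (Real.pi / (2 * m + 1)) := by
  refine Real.le_sqrt_of_sq_le ?_
  rw [le_div_iff₀ (by positivity)]
  exact YInt_le m

theorem YInt_parts (q : ℕ) :
    ∫ t in (0 : ℝ)..(Real.pi / 2), Real.cos t ^ q * (t * Real.sin t) = Cc (q + 1) / (q + 1) := by
  have h1 : ∀ t ∈ uIcc (0 : ℝ) (Real.pi / 2), HasDerivAt
      (fun t : ℝ => -(t * Real.cos t ^ (q + 1)) / ((q : ℝ) + 1))
      (Real.cos t ^ q * (t * Real.sin t) - Real.cos t ^ (q + 1) / ((q : ℝ) + 1)) t := by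
    intro t _
    have h2 : HasDerivAt (fun t : ℝ => -(t * Real.cos t ^ (q + 1)) / ((q : ℝ) + 1)) _ t :=
      (((hasDerivAt_id t).mul ((Real.hasDerivAt_cos t).pow (q + 1))).neg).div_const
      ((q : ℝ) + 1)
    refine h2.congr_deriv ?_
    have h3 : ((q : ℝ) + 1) ≠ 0 := by positivity
    simp only [id, Nat.add_sub_cancel, Pi.pow_apply]
    push_cast
    field_simp
    ring
  have h4 := intervalIntegral.integral_eq_sub_of_hasDerivAt h1
    ((by fun_prop : Continuous fun t : ℝ => Real.cos t ^ q * (t * Real.sin t) -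
      Real.cos t ^ (q + 1) / ((q : ℝ) + 1)).intervalIntegrable _ _)
  rw [intervalIntegral.integral_sub ((by fun_prop : Continuous fun t : ℝ =>
      Real.cos t ^ q * (t * Real.sin t)).intervalIntegrable _ _)
    ((by fun_prop : Continuous fun t : ℝ => Real.cos t ^ (q + 1) /
      ((q : ℝ) + 1)).intervalIntegrable _ _), intervalIntegral.integral_div] at h4
  have h5 : -(Real.pi / 2 * Real.cos (Real.pi / 2) ^ (q + 1)) / ((q : ℝ) + 1) -
      -(0 * Real.cos 0 ^ (q + 1)) / ((q : ℝ) + 1) = 0 := by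
    rw [Real.cos_pi_div_two]; simp
  rw [h5] at h4
  unfold Cc
  linarith

theorem int_YF_pow (q : ℕ) : ∫ z in (0 : ℝ)..1, YF z ^ q = Cc (q + 1) / (q + 1) := by
  have h1 : ∀ t ∈ uIcc (0 : ℝ) (Real.pi / 2), HasDerivAt
      (fun t : ℝ => Real.sin t - t * Real.cos t) (t * Real.sin t) t := by
    intro t _
    have h2 : HasDerivAt (fun t : ℝ => Real.sin t - t * Real.cos t) _ t :=
      (Real.hasDerivAt_sin t).sub ((hasDerivAt_id t).mul (Real.hasDerivAt_cos t))
    refine h2.congr_deriv ?_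
    simp only [id]
    ring
  have h3 := intervalIntegral.integral_comp_mul_deriv (g := fun z => YF z ^ q) h1
    (by fun_prop) (YF_cont.pow q)
  have h4 : Real.sin (Real.pi / 2) - Real.pi / 2 * Real.cos (Real.pi / 2) = 1 := by
    rw [Real.cos_pi_div_two, Real.sin_pi_div_two]; ring
  have h5 : Real.sin 0 - 0 * Real.cos 0 = 0 := by simp
  rw [h4, h5] at h3
  rw [← h3, ← YInt_parts q]
  refine intervalIntegral.integral_congr fun t ht => ?_
  rw [uIcc_of_le (by positivity)] at ht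
  simp only [Function.comp]
  rw [← Zf_cos ht, YF_Zf ⟨Real.cos_nonneg_of_mem_Icc ⟨by linarith [ht.1, Real.pi_pos], ht.2⟩,
    Real.cos_le_one t⟩]

end Pool.Agent.PB86
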