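import Pool.Agent.PB86.AOne
import Pool.Agent.PB86.YInt

set_option autoImplicit false

open MeasureTheory Set Filter Topology
open scoped NNReal RealInnerProductSpace

namespace Pool.Agent.PB86

open Pool.Agent.H51.Neumann (E IsH1 IsNeumannSpectrum)

private theorem helper23_Cc2 : Cc 2 = Real.pi / 4 := by
  have h := Cc_rec 0
  rw [Cc_zero] at h
  rw [show (0 : ℕ) + 2 = 2 from rfl] at h
  rw [h]; push_cast; ring

private theorem helper23_Cc3 : Cc 3 = 2 / 3 := by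
  have h := Cc_rec 1
  rw [Cc_one] at h
  rw [show (1 : ℕ) + 2 = 3 from rfl] at h
  rw [h]; push_cast; norm_num

private theorem helper23_Cc4 : Cc 4 = 3 * Real.pi / 16 := by
  have h := Cc_rec 2
  rw [helper23_Cc2] at h
  rw [show (2 : ℕ) + 2 = 4 from rfl] at h
  rw [h]; push_cast; ring

private theorem helper23_Cc5 : Cc 5 = 8 / 15 := by
  have h := Cc_rec 3
  rw [helper23_Cc3] at h
  rw [show (3 : ℕ) + 2 = 5 from rfl] at h
  rw [h]; push_cast; norm_num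

private theorem helper23_Cc6 : Cc 6 = 5 * Real.pi / 32 := by
  have h := Cc_rec 4
  rw [helper23_Cc4] at h
  rw [show (4 : ℕ) + 2 = 6 from rfl] at h
  rw [h]; push_cast; ring

private theorem helper23_W3 (lam : ℝ) : Wn 3 lam = 2 * lam ^ 3 / (9 * Real.pi) := by
  have hp : Real.pi ≠ 0 := Real.pi_ne_zero
  unfold Wn
  rw [helper23_Cc3, show (3 : ℕ).factorial = 6 from rfl]
  push_cast; field_simp; ring

private theorem helper23_W4 (lam : ℝ) : Wn 4 lam = lam ^ 4 / 64 := by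
  have hp : Real.pi ≠ 0 := Real.pi_ne_zero
  unfold Wn
  rw [helper23_Cc4, show (4 : ℕ).factorial = 24 from rfl]
  push_cast; field_simp; ring

private theorem helper23_W5 (lam : ℝ) : Wn 5 lam = 2 * lam ^ 5 / (225 * Real.pi) := by
  have hp : Real.pi ≠ 0 := Real.pi_ne_zero
  unfold Wn
  rw [helper23_Cc5, show (5 : ℕ).factorial = 120 from rfl]
  push_cast; field_simp; ring

private theorem helper23_W6 (lam : ℝ) : Wn 6 lam = lam ^ 6 / 2304 := by
  have hp : Real.pi ≠ 0 := Real.pi_ne_zero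
  unfold Wn
  rw [helper23_Cc6, show (6 : ℕ).factorial = 720 from rfl]
  push_cast; field_simp; ring

private theorem helper23_m3 (L : ℕ) : mp 3 (L + ((3 : ℕ) : ℝ) / 2) = ((L : ℝ) + 1) ^ 2 := by
  unfold mp
  rw [show 3 - 2 = 1 from rfl, show (3 - 1 : ℕ).factorial = 2 from rfl, Finset.prod_range_one]
  push_cast; ring

private theorem helper23_m4 (L : ℕ) :
    mp 4 (L + ((4 : ℕ) : ℝ) / 2) = (2 * (L : ℝ) + 3) * (L + 1) * (L + 2) / 6 := by
  unfold mp
  rw [show 4 - 2 = 2 from rfl, show (4 - 1 : ℕ).factorial = 6 from rfl, Finset.prod_range_succ,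
    Finset.prod_range_one]
  push_cast; ring

private theorem helper23_m5 (L : ℕ) :
    mp 5 (L + ((5 : ℕ) : ℝ) / 2) = (2 * (L : ℝ) + 4) * (L + 1) * (L + 2) * (L + 3) / 24 := by
  unfold mp
  rw [show 5 - 2 = 3 from rfl, show (5 - 1 : ℕ).factorial = 24 from rfl, Finset.prod_range_succ,
    Finset.prod_range_succ, Finset.prod_range_one]
  push_cast; ring

private theorem helper23_m6 (L : ℕ) :
    mp 6 (L + ((6 : ℕ) : ℝ) / 2) =
      (2 * (L : ℝ) + 5) * (L + 1) * (L + 2) * (L + 3) * (L + 4) / 120 := by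
  unfold mp
  rw [show 6 - 2 = 4 from rfl, show (6 - 1 : ℕ).factorial = 120 from rfl, Finset.prod_range_succ,
    Finset.prod_range_succ, Finset.prod_range_succ, Finset.prod_range_one]
  push_cast; ring

private theorem helper23_c3 {lam : ℝ} (hlam : 0 < lam) (L : ℕ) (R q : ℝ) (hR : lam ^ 2 ≤ R)
    (hq0 : 0 ≤ q) (hq : R ≤ q ^ 2)
    (h1 : L = 0 ∨ (1 + 2 / ((3 : ℕ) : ℝ)) * (1 + L * (L + ((3 : ℕ) : ℝ) - 2)) < lam ^ 2)
    (h2 : 2 * (R * q) < ((L : ℝ) + 1) ^ 2 * (9 * (314 / 100))) : Count 3 lam := by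
  refine count_A le_rfl hlam L h1 ?_
  have hlq : lam ≤ q := (sq_le_sq₀ hlam.le hq0).1 (hR.trans hq)
  have hR0 : 0 ≤ R := (sq_nonneg lam).trans hR
  have h3 : lam ^ 3 ≤ R * q := by
    calc lam ^ 3 = lam ^ 2 * lam := by ring
      _ ≤ R * q := by gcongr
  have h4 : ((L : ℝ) + 1) ^ 2 * (9 * (314 / 100)) ≤ ((L : ℝ) + 1) ^ 2 * (9 * Real.pi) := by
    have := Real.pi_gt_d2
    gcongr
    linarith
  rw [helper23_W3, helper23_m3, div_lt_iff₀ (by positivity)]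
  linarith

private theorem helper23_c4 {lam : ℝ} (hlam : 0 < lam) (L : ℕ) (R : ℝ) (hR : lam ^ 2 ≤ R)
    (h1 : L = 0 ∨ (1 + 2 / ((4 : ℕ) : ℝ)) * (1 + L * (L + ((4 : ℕ) : ℝ) - 2)) < lam ^ 2)
    (h2 : R ^ 2 / 64 < (2 * (L : ℝ) + 3) * (L + 1) * (L + 2) / 6) : Count 4 lam := by
  refine count_A (by norm_num) hlam L h1 ?_
  have h3 : lam ^ 4 ≤ R ^ 2 := by
    calc lam ^ 4 = (lam ^ 2) ^ 2 := by ring
      _ ≤ R ^ 2 := by gcongr
  rw [helper23_W4, helper23_m4]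
  linarith

private theorem helper23_c5 {lam : ℝ} (hlam : 0 < lam) (L : ℕ) (R q : ℝ) (hR : lam ^ 2 ≤ R)
    (hq0 : 0 ≤ q) (hq : R ≤ q ^ 2)
    (h1 : L = 0 ∨ (1 + 2 / ((5 : ℕ) : ℝ)) * (1 + L * (L + ((5 : ℕ) : ℝ) - 2)) < lam ^ 2)
    (h2 : 2 * (R ^ 2 * q) <
      ((2 * (L : ℝ) + 4) * (L + 1) * (L + 2) * (L + 3) / 24) * (225 * (314 / 100))) :
    Count 5 lam := by
  refine count_A (by norm_num) hlam L h1 ?_
  have hlq : lam ≤ q := (sq_le_sq₀ hlam.le hq0).1 (hR.trans hq)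
  have hR0 : 0 ≤ R := (sq_nonneg lam).trans hR
  have h3 : lam ^ 5 ≤ R ^ 2 * q := by
    calc lam ^ 5 = (lam ^ 2) ^ 2 * lam := by ring
      _ ≤ R ^ 2 * q := by gcongr
  have h4 : ((2 * (L : ℝ) + 4) * (L + 1) * (L + 2) * (L + 3) / 24) * (225 * (314 / 100)) ≤
      ((2 * (L : ℝ) + 4) * (L + 1) * (L + 2) * (L + 3) / 24) * (225 * Real.pi) := by
    have := Real.pi_gt_d2
    gcongr
    linarith
  rw [helper23_W5, helper23_m5, div_lt_iff₀ (by positivity)]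
  linarith

private theorem helper23_c6 {lam : ℝ} (hlam : 0 < lam) (L : ℕ) (R : ℝ) (hR : lam ^ 2 ≤ R)
    (h1 : L = 0 ∨ (1 + 2 / ((6 : ℕ) : ℝ)) * (1 + L * (L + ((6 : ℕ) : ℝ) - 2)) < lam ^ 2)
    (h2 : R ^ 3 / 2304 < (2 * (L : ℝ) + 5) * (L + 1) * (L + 2) * (L + 3) * (L + 4) / 120) :
    Count 6 lam := by
  refine count_A (by norm_num) hlam L h1 ?_
  have h3 : lam ^ 6 ≤ R ^ 3 := by
    calc lam ^ 6 = (lam ^ 2) ^ 3 := by ring
      _ ≤ R ^ 3 := by gcongr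
  rw [helper23_W6, helper23_m6]
  linarith

theorem A_three {lam : ℝ} (hlam : 0 < lam) (h : lam ^ 2 ≤ 35) : Count 3 lam := by
  by_cases h1 : lam ^ 2 ≤ 5
  · exact helper23_c3 hlam 0 5 (9 / 4) h1 (by norm_num) (by norm_num) (Or.inl rfl) (by norm_num)
  by_cases h2 : lam ^ 2 ≤ 35 / 3
  · refine helper23_c3 hlam 1 (35 / 3) (7 / 2) h2 (by norm_num) (by norm_num) (Or.inr ?_)
      (by norm_num)
    rw [not_le] at h1
    refine lt_of_le_of_lt ?_ h1
    norm_num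
  by_cases h3 : lam ^ 2 ≤ 65 / 3
  · refine helper23_c3 hlam 2 (65 / 3) (47 / 10) h3 (by norm_num) (by norm_num) (Or.inr ?_)
      (by norm_num)
    rw [not_le] at h2
    refine lt_of_le_of_lt ?_ h2
    norm_num
  · refine helper23_c3 hlam 3 35 6 h (by norm_num) (by norm_num) (Or.inr ?_)
      (by norm_num)
    rw [not_le] at h3
    refine lt_of_le_of_lt ?_ h3
    norm_num

theorem A_four {lam : ℝ} (hlam : 0 < lam) (h : lam ^ 2 ≤ 54) : Count 4 lam := by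
  by_cases h1 : lam ^ 2 ≤ 6
  · exact helper23_c4 hlam 0 6 h1 (Or.inl rfl) (by norm_num)
  by_cases h2 : lam ^ 2 ≤ 27 / 2
  · refine helper23_c4 hlam 1 (27 / 2) h2 (Or.inr ?_) (by norm_num)
    rw [not_le] at h1
    refine lt_of_le_of_lt ?_ h1
    norm_num
  by_cases h3 : lam ^ 2 ≤ 24
  · refine helper23_c4 hlam 2 24 h3 (Or.inr ?_) (by norm_num)
    rw [not_le] at h2
    refine lt_of_le_of_lt ?_ h2
    norm_num
  by_cases h4 : lam ^ 2 ≤ 75 / 2
  · refine helper23_c4 hlam 3 (75 / 2) h4 (Or.inr ?_) (by norm_num)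
    rw [not_le] at h3
    refine lt_of_le_of_lt ?_ h3
    norm_num
  · refine helper23_c4 hlam 4 54 h (Or.inr ?_) (by norm_num)
    rw [not_le] at h4
    refine lt_of_le_of_lt ?_ h4
    norm_num

theorem A_five {lam : ℝ} (hlam : 0 < lam) (h : lam ^ 2 ≤ 287 / 5) : Count 5 lam := by
  by_cases h1 : lam ^ 2 ≤ 7
  · exact helper23_c5 hlam 0 7 (27 / 10) h1 (by norm_num) (by norm_num) (Or.inl rfl) (by norm_num)
  by_cases h2 : lam ^ 2 ≤ 77 / 5
  · refine helper23_c5 hlam 1 (77 / 5) 4 h2 (by norm_num) (by norm_num) (Or.inr ?_)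
      (by norm_num)
    rw [not_le] at h1
    refine lt_of_le_of_lt ?_ h1
    norm_num
  by_cases h3 : lam ^ 2 ≤ 133 / 5
  · refine helper23_c5 hlam 2 (133 / 5) (52 / 10) h3 (by norm_num) (by norm_num) (Or.inr ?_)
      (by norm_num)
    rw [not_le] at h2
    refine lt_of_le_of_lt ?_ h2
    norm_num
  by_cases h4 : lam ^ 2 ≤ 203 / 5
  · refine helper23_c5 hlam 3 (203 / 5) (64 / 10) h4 (by norm_num) (by norm_num) (Or.inr ?_)
      (by norm_num)
    rw [not_le] at h3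
    refine lt_of_le_of_lt ?_ h3
    norm_num
  · refine helper23_c5 hlam 4 (287 / 5) (76 / 10) h (by norm_num) (by norm_num) (Or.inr ?_)
      (by norm_num)
    rw [not_le] at h4
    refine lt_of_le_of_lt ?_ h4
    norm_num

theorem A_six {lam : ℝ} (hlam : 0 < lam) (h : lam ^ 2 ≤ 184 / 3) : Count 6 lam := by
  by_cases h1 : lam ^ 2 ≤ 8
  · exact helper23_c6 hlam 0 8 h1 (Or.inl rfl) (by norm_num)
  by_cases h2 : lam ^ 2 ≤ 52 / 3
  · refine helper23_c6 hlam 1 (52 / 3) h2 (Or.inr ?_) (by norm_num)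
    rw [not_le] at h1
    refine lt_of_le_of_lt ?_ h1
    norm_num
  by_cases h3 : lam ^ 2 ≤ 88 / 3
  · refine helper23_c6 hlam 2 (88 / 3) h3 (Or.inr ?_) (by norm_num)
    rw [not_le] at h2
    refine lt_of_le_of_lt ?_ h2
    norm_num
  by_cases h4 : lam ^ 2 ≤ 44
  · refine helper23_c6 hlam 3 44 h4 (Or.inr ?_) (by norm_num)
    rw [not_le] at h3
    refine lt_of_le_of_lt ?_ h3
    norm_num
  · refine helper23_c6 hlam 4 (184 / 3) h (Or.inr ?_) (by norm_num)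
    rw [not_le] at h4
    refine lt_of_le_of_lt ?_ h4
    norm_num

end Pool.Agent.PB86
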