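import Pool.Agent.PB86.Defs

set_option autoImplicit false

open MeasureTheory Set Filter Topology
open scoped NNReal RealInnerProductSpace

namespace Pool.Agent.PB86

open Pool.Agent.H51.Neumann (E IsH1 IsNeumannSpectrum)

/-- nonnegative increasing convex continuous functions -/
structure MPolyGood (f : ℝ → ℝ) : Prop where
  nonneg : ∀ x, 0 ≤ f x
  mono : Monotone f
  cont : Continuous f
  conv : ConvexOn ℝ univ f

theorem MPoly_mul {f g : ℝ → ℝ} (hf : MPolyGood f) (hg : MPolyGood g) :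
    MPolyGood (fun x => f x * g x) where
  nonneg x := mul_nonneg (hf.nonneg x) (hg.nonneg x)
  mono := fun x y h => mul_le_mul (hf.mono h) (hg.mono h) (hg.nonneg x) (hf.nonneg y)
  cont := hf.cont.mul hg.cont
  conv := by
    have h := hf.conv.mul hg.conv (fun x _ => hf.nonneg x) (fun x _ => hg.nonneg x)
      ((hf.mono.monovary hg.mono).monovaryOn _)
    exact h

theorem MPoly_const {c : ℝ} (hc : 0 ≤ c) : MPolyGood (fun _ => c) where
  nonneg _ := hc
  mono := monotone_const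
  cont := continuous_const
  conv := convexOn_const c convex_univ

theorem MPoly_lin (s : ℝ) {a c : ℝ} (ha : 0 ≤ a) (hc : 0 ≤ c) :
    MPolyGood (fun x => a * max (x - s) 0 + c) where
  nonneg x := add_nonneg (mul_nonneg ha (le_max_right _ _)) hc
  mono := by
    intro x y h
    have h1 : max (x - s) 0 ≤ max (y - s) 0 := max_le_max (by linarith) le_rfl
    simp only
    gcongr
  cont := by fun_prop
  conv := by
    have h1 : ConvexOn ℝ univ (fun x : ℝ => x - s) := by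
      have h2 : ConvexOn ℝ univ (fun x : ℝ => x) := convexOn_id convex_univ
      exact (h2.add (convexOn_const (-s) convex_univ)).congr (fun x _ => by simp [sub_eq_add_neg])
    have h2 : ConvexOn ℝ univ (fun x : ℝ => max (x - s) 0) :=
      h1.sup (convexOn_const 0 convex_univ)
    have h3 := (h2.smul ha).add (convexOn_const c convex_univ)
    exact h3.congr (fun x _ => by simp [smul_eq_mul])

theorem MPoly_prod {ι : Type} (t : Finset ι) (f : ι → ℝ → ℝ) (hf : ∀ i ∈ t, MPolyGood (f i)) :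
    MPolyGood (fun x => ∏ i ∈ t, f i x) := by
  classical
  induction t using Finset.induction_on with
  | empty =>
    simp only [Finset.prod_empty]
    exact MPoly_const zero_le_one
  | insert a t ha ih =>
    simp only [Finset.prod_insert ha]
    exact MPoly_mul (hf a (Finset.mem_insert_self _ _))
      (ih fun i hi => hf i (Finset.mem_insert_of_mem hi))

/-- `mt` through the positive part -/
theorem MPoly_form {n : ℕ} (hn : 3 ≤ n) (ν : ℝ) :
    mt n ν = (2 * max (ν - ((n : ℝ) / 2 - 1)) 0 + ((n : ℝ) - 3)) *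
      (∏ i ∈ Finset.range (n - 2), (1 * max (ν - ((n : ℝ) / 2 - 1)) 0 + (i : ℝ))) *
        (((n - 1).factorial : ℝ))⁻¹ := by
  unfold mt
  split_ifs with h
  · have h1 : max (ν - ((n : ℝ) / 2 - 1)) 0 = 0 := max_eq_right (by linarith)
    rw [h1, Finset.prod_eq_zero (i := 0) (Finset.mem_range.mpr (by omega)) (by simp)]
    ring
  · have h1 : max (ν - ((n : ℝ) / 2 - 1)) 0 = ν - ((n : ℝ) / 2 - 1) :=
      max_eq_left (by linarith)
    rw [h1]
    unfold mp
    rw [div_eq_mul_inv]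
    congr 1
    congr 1
    · ring
    · apply Finset.prod_congr rfl
      intro i _
      ring

theorem MPoly_good {n : ℕ} (hn : 3 ≤ n) : MPolyGood (mt n) := by
  have h1 : mt n = fun ν => (2 * max (ν - ((n : ℝ) / 2 - 1)) 0 + ((n : ℝ) - 3)) *
      (∏ i ∈ Finset.range (n - 2), (1 * max (ν - ((n : ℝ) / 2 - 1)) 0 + (i : ℝ))) *
        (((n - 1).factorial : ℝ))⁻¹ := funext fun ν => MPoly_form hn ν
  rw [h1]
  have h3 : (3 : ℝ) ≤ n := by exact_mod_cast hn
  refine MPoly_mul (MPoly_mul (MPoly_lin _ (by norm_num) (by linarith)) ?_)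
    (MPoly_const (by positivity))
  exact MPoly_prod _ _ fun i _ => MPoly_lin _ (by norm_num) (Nat.cast_nonneg i)

theorem mt_nonneg {n : ℕ} (hn : 3 ≤ n) (ν : ℝ) : 0 ≤ mt n ν := (MPoly_good hn).nonneg ν
theorem mt_mono {n : ℕ} (hn : 3 ≤ n) : Monotone (mt n) := (MPoly_good hn).mono
theorem mt_eq {n : ℕ} (hn : 3 ≤ n) {ν : ℝ} (h : (n : ℝ) / 2 - 1 ≤ ν) : mt n ν = mp n ν := by
  unfold mt
  split_ifs with h1
  · have h2 : ν = (n : ℝ) / 2 - 1 := le_antisymm h1 h
    unfold mp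
    rw [Finset.prod_eq_zero (i := 0) (Finset.mem_range.mpr (by omega)) (by rw [h2]; simp)]
    ring
  · rfl
theorem mt_cont {n : ℕ} (hn : 3 ≤ n) : Continuous (mt n) := (MPoly_good hn).cont
theorem mt_convex {n : ℕ} (hn : 3 ≤ n) : ConvexOn ℝ univ (mt n) := (MPoly_good hn).conv

/-- the numerator of `mp` -/
noncomputable def MPolyN (n : ℕ) (ν : ℝ) : ℝ :=
  (2 * ν - 1) * ∏ i ∈ Finset.range (n - 2), (ν - (n : ℝ) / 2 + ((i : ℝ) + 1))

theorem MPolyN_succ {n : ℕ} (hn : 3 ≤ n) (ν : ℝ) :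
    MPolyN (n + 2) ν = MPolyN n ν * ((ν - (n : ℝ) / 2) * (ν + (n : ℝ) / 2 - 1)) := by
  obtain ⟨m, rfl⟩ : ∃ m, n = m + 2 := ⟨n - 2, by omega⟩
  unfold MPolyN
  have h1 : m + 2 + 2 - 2 = m + 1 + 1 := by omega
  have h2 : m + 2 - 2 = m := by omega
  rw [h1, h2, Finset.prod_range_succ, Finset.prod_range_succ']
  have h3 : ∏ i ∈ Finset.range m, (ν - ((m + 2 + 2 : ℕ) : ℝ) / 2 + (((i + 1 : ℕ) : ℝ) + 1)) =
      ∏ i ∈ Finset.range m, (ν - ((m + 2 : ℕ) : ℝ) / 2 + ((i : ℝ) + 1)) := by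
    apply Finset.prod_congr rfl
    intro i _
    push_cast
    ring
  rw [h3]
  push_cast
  ring

theorem MPolyN_nonneg {n : ℕ} (hn : 3 ≤ n) {ν : ℝ} (h : (n : ℝ) / 2 - 1 ≤ ν) :
    0 ≤ MPolyN n ν := by
  have h3 : (3 : ℝ) ≤ n := by exact_mod_cast hn
  unfold MPolyN
  apply mul_nonneg (by linarith)
  apply Finset.prod_nonneg
  intro i _
  have : (0 : ℝ) ≤ i := Nat.cast_nonneg i
  linarith

theorem MPolyN_ge (m : ℕ) : ∀ {n : ℕ}, (n = 3 + 2 * m ∨ n = 4 + 2 * m) → ∀ {ν : ℝ},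
    (n : ℝ) / 2 - 1 ≤ ν → 2 * ν ^ (n - 1) * (1 - ((n : ℝ) - 1) / (2 * ν)
      - ((n : ℝ) - 1) * ((n : ℝ) - 2) * ((n : ℝ) - 3) / (24 * ν ^ 2)) ≤ MPolyN n ν := by
  induction m with
  | zero =>
    intro n hn ν hν
    rcases hn with rfl | rfl
    · have h0 : 0 < ν := by norm_num at hν; linarith
      have e : MPolyN 3 ν = (2 * ν - 1) * (ν - 1 / 2) := by
        simp [MPolyN]
        ring_nf
        tauto
      rw [e]
      norm_num
      have e2 : 2 * ν ^ 2 * (1 - 2 / (2 * ν)) = 2 * ν ^ 2 - 2 * ν := by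
        field_simp
      rw [e2]
      nlinarith
    · have h0 : 0 < ν := by norm_num at hν; linarith
      have e : MPolyN 4 ν = (2 * ν - 1) * ((ν - 1) * ν) := by
        simp [MPolyN, Finset.prod_range_succ]
        ring_nf
        tauto
      rw [e]
      norm_num
      have e2 : 2 * ν ^ 3 * (1 - 3 / (2 * ν) - 6 / (24 * ν ^ 2)) =
          2 * ν ^ 3 - 3 * ν ^ 2 - ν / 2 := by
        field_simp
        ring
      rw [e2]
      nlinarith
  | succ m ih =>
    intro n hn ν hν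
    obtain ⟨k, rfl⟩ : ∃ k, n = k + 2 := ⟨n - 2, by omega⟩
    have hk : k = 3 + 2 * m ∨ k = 4 + 2 * m := by omega
    have hk3 : 3 ≤ k := by omega
    have hk3' : (3 : ℝ) ≤ k := by exact_mod_cast hk3
    have hν' : (k : ℝ) / 2 ≤ ν := by
      push_cast at hν
      linarith
    have h0 : 0 < ν := by linarith
    have h1 := ih hk (ν := ν) (by linarith)
    rw [MPolyN_succ hk3]
    have hF0 : 0 ≤ (ν - (k : ℝ) / 2) * (ν + (k : ℝ) / 2 - 1) :=
      mul_nonneg (by linarith) (by linarith)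
    refine le_trans ?_ (mul_le_mul_of_nonneg_right h1 hF0)
    obtain ⟨j, rfl⟩ : ∃ j, k = j + 1 := ⟨k - 1, by omega⟩
    have e1 : j + 1 + 2 - 1 = j + 2 := by omega
    have e2 : j + 1 - 1 = j := by omega
    rw [e1, e2]
    push_cast at hk3' hν' ⊢
    have hj : (2 : ℝ) ≤ j := by linarith
    have key : ν ^ 2 * (1 - ((j : ℝ) + 1 + 2 - 1) / (2 * ν)
        - ((j : ℝ) + 1 + 2 - 1) * ((j : ℝ) + 1 + 2 - 2) * ((j : ℝ) + 1 + 2 - 3) / (24 * ν ^ 2)) ≤
        (1 - ((j : ℝ) + 1 - 1) / (2 * ν)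
          - ((j : ℝ) + 1 - 1) * ((j : ℝ) + 1 - 2) * ((j : ℝ) + 1 - 3) / (24 * ν ^ 2)) *
          ((ν - ((j : ℝ) + 1) / 2) * (ν + ((j : ℝ) + 1) / 2 - 1)) := by
      have e3 : ν ^ 2 * (1 - ((j : ℝ) + 1 + 2 - 1) / (2 * ν)
        - ((j : ℝ) + 1 + 2 - 1) * ((j : ℝ) + 1 + 2 - 2) * ((j : ℝ) + 1 + 2 - 3) / (24 * ν ^ 2)) =
          ν ^ 2 - ((j : ℝ) + 2) * ν / 2 - ((j : ℝ) + 2) * (j + 1) * j / 24 := by
        field_simp
        ring
      obtain ⟨A, hA⟩ : ∃ A, A = ((j : ℝ) + 1 - 1) / (2 * ν)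
          + ((j : ℝ) + 1 - 1) * ((j : ℝ) + 1 - 2) * ((j : ℝ) + 1 - 3) / (24 * ν ^ 2) := ⟨_, rfl⟩
      have e4 : A * ν ^ 2 = j * ν / 2 + j * (j - 1) * (j - 2) / 24 := by
        rw [hA]
        field_simp
        ring
      have hA0 : 0 ≤ A := by
        rw [hA]
        have : 0 ≤ ((j : ℝ) + 1 - 1) * ((j : ℝ) + 1 - 2) * ((j : ℝ) + 1 - 3) :=
          mul_nonneg (mul_nonneg (by linarith) (by linarith)) (by linarith)
        have h5 : 0 ≤ ((j : ℝ) + 1 - 1) / (2 * ν) := div_nonneg (by linarith) (by linarith)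
        positivity
      have hF1 : (ν - ((j : ℝ) + 1) / 2) * (ν + ((j : ℝ) + 1) / 2 - 1) ≤ ν ^ 2 := by
        nlinarith
      have e5 : (1 - ((j : ℝ) + 1 - 1) / (2 * ν)
          - ((j : ℝ) + 1 - 1) * ((j : ℝ) + 1 - 2) * ((j : ℝ) + 1 - 3) / (24 * ν ^ 2)) = 1 - A := by
        rw [hA]
        ring
      rw [e3, e5]
      have h6 := mul_le_mul_of_nonneg_left hF1 hA0
      rw [e4] at h6
      nlinarith
    calc 2 * ν ^ (j + 2) * _ = 2 * ν ^ j * (ν ^ 2 * _) := by rw [pow_add]; ring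
      _ ≤ 2 * ν ^ j * _ := mul_le_mul_of_nonneg_left key (by positivity)
      _ = _ := by ring

theorem mt_ge {n : ℕ} (hn : 3 ≤ n) {ν : ℝ} (hν : 0 < ν) :
    pp n ν * (1 - ((n : ℝ) - 1) / (2 * ν)
      - ((n : ℝ) - 1) * ((n : ℝ) - 2) * ((n : ℝ) - 3) / (24 * ν ^ 2)) ≤ mt n ν := by
  have h3 : (3 : ℝ) ≤ n := by exact_mod_cast hn
  rcases le_total ν ((n : ℝ) / 2 - 1) with h | h
  · refine le_trans ?_ (mt_nonneg hn ν)
    apply mul_nonpos_of_nonneg_of_nonpos
    · unfold pp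
      positivity
    · have h1 : 1 ≤ ((n : ℝ) - 1) / (2 * ν) := by
        rw [le_div_iff₀ (by positivity)]
        linarith
      have h2 : 0 ≤ ((n : ℝ) - 1) * ((n : ℝ) - 2) * ((n : ℝ) - 3) / (24 * ν ^ 2) := by
        have : 0 ≤ ((n : ℝ) - 1) * ((n : ℝ) - 2) * ((n : ℝ) - 3) :=
          mul_nonneg (mul_nonneg (by linarith) (by linarith)) (by linarith)
        positivity
      linarith
  · rw [mt_eq hn h]
    obtain ⟨m, hm⟩ : ∃ m, n = 3 + 2 * m ∨ n = 4 + 2 * m := ⟨(n - 3) / 2, by omega⟩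
    have h1 := MPolyN_ge m hm h
    unfold pp mp
    rw [div_mul_eq_mul_div]
    exact div_le_div_of_nonneg_right h1 (by positivity)

theorem MPoly_factor_le {ν : ℝ} (hν : 0 < ν) (x : ℝ) : ν - x ≤ ν * Real.exp (-x / ν) := by
  have h1 := Real.add_one_le_exp (-x / ν)
  have h2 : ν - x = ν * (-x / ν + 1) := by
    field_simp
    ring
  rw [h2]
  exact mul_le_mul_of_nonneg_left h1 hν.le

theorem MPoly_sum (n : ℕ) (hn : 3 ≤ n) : ∑ i ∈ Finset.range (n - 2), ((n : ℝ) / 2 - (i + 1)) =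
    ((n : ℝ) - 2) / 2 := by
  obtain ⟨m, rfl⟩ : ∃ m, n = m + 2 := ⟨n - 2, by omega⟩
  have h2 : m + 2 - 2 = m := by omega
  have h4 : ∀ k : ℕ, ∑ i ∈ Finset.range k, (((m + 2 : ℕ) : ℝ) / 2 - (i + 1)) =
      k * (m : ℝ) / 2 - k * ((k : ℝ) - 1) / 2 := by
    intro k
    induction k with
    | zero => simp
    | succ k ih =>
      rw [Finset.sum_range_succ, ih]
      push_cast
      ring
  rw [h2, h4]
  push_cast
  ring

theorem mt_le {n : ℕ} (hn : 3 ≤ n) {ν lam : ℝ} (hν : 0 ≤ ν) (h : ν ≤ lam)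
    (hl : (n : ℝ) / 2 - 1 < lam) :
    mt n ν ≤ pp n ν * Real.exp (-((n : ℝ) - 1) / (2 * lam)) := by
  have h3 : (3 : ℝ) ≤ n := by exact_mod_cast hn
  rcases le_or_gt ν ((n : ℝ) / 2 - 1) with h1 | h1
  · unfold mt pp
    rw [if_pos h1]
    positivity
  · rw [mt_eq hn h1.le]
    have hν0 : 0 < ν := by linarith
    have key : MPolyN n ν ≤ 2 * ν ^ (n - 1) * Real.exp (-((n : ℝ) - 1) / (2 * ν)) := by
      unfold MPolyN
      have h4 : 2 * ν - 1 ≤ 2 * (ν * Real.exp (-(1 / 2) / ν)) := by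
        have := MPoly_factor_le hν0 (1 / 2)
        linarith
      have h5 : ∏ i ∈ Finset.range (n - 2), (ν - (n : ℝ) / 2 + ((i : ℝ) + 1)) ≤
          ∏ i ∈ Finset.range (n - 2), (ν * Real.exp (-((n : ℝ) / 2 - (i + 1)) / ν)) := by
        apply Finset.prod_le_prod
        · intro i _
          have : (0 : ℝ) ≤ i := Nat.cast_nonneg i
          linarith
        · intro i _
          have := MPoly_factor_le hν0 ((n : ℝ) / 2 - (i + 1))
          linarith
      have h6 : ∏ i ∈ Finset.range (n - 2), (ν * Real.exp (-((n : ℝ) / 2 - (i + 1)) / ν)) =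
          ν ^ (n - 2) * Real.exp (-(((n : ℝ) - 2) / 2) / ν) := by
        rw [Finset.prod_mul_distrib, Finset.prod_const, Finset.card_range, ← Real.exp_sum]
        congr 2
        rw [← Finset.sum_div, Finset.sum_neg_distrib, MPoly_sum n hn]
      rw [h6] at h5
      have h7 : 0 ≤ ∏ i ∈ Finset.range (n - 2), (ν - (n : ℝ) / 2 + ((i : ℝ) + 1)) := by
        apply Finset.prod_nonneg
        intro i _
        have : (0 : ℝ) ≤ i := Nat.cast_nonneg i
        linarith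
      refine (mul_le_mul h4 h5 h7 (by positivity)).trans (le_of_eq ?_)
      have h8 : Real.exp (-((n : ℝ) - 1) / (2 * ν)) =
          Real.exp (-(1 / 2) / ν) * Real.exp (-(((n : ℝ) - 2) / 2) / ν) := by
        rw [← Real.exp_add]
        congr 1
        field_simp
        ring
      obtain ⟨m, rfl⟩ : ∃ m, n = m + 2 := ⟨n - 2, by omega⟩
      have e1 : m + 2 - 2 = m := by omega
      have e2 : m + 2 - 1 = m + 1 := by omega
      rw [h8, e1, e2, pow_succ]
      ring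
    have h9 : Real.exp (-((n : ℝ) - 1) / (2 * ν)) ≤ Real.exp (-((n : ℝ) - 1) / (2 * lam)) := by
      apply Real.exp_le_exp.mpr
      rw [neg_div, neg_div, neg_le_neg_iff]
      apply div_le_div_of_nonneg_left (by linarith) (by positivity) (by linarith)
    have h10 : mp n ν = MPolyN n ν / (n - 1).factorial := rfl
    rw [h10]
    unfold pp
    rw [div_mul_eq_mul_div]
    gcongr
    refine key.trans ?_
    gcongr

end Pool.Agent.PB86
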