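import Pool.Agent.PB86.YBound
import Pool.Agent.PB86.YInt
import Pool.Agent.PB86.MPoly

/-!
# [PB86-B3] The inequality (II) for `n = 3`

General helpers (`v = lam^(-1/3)`, `u = (3 pi g / lam)^(2/3)`): `B3_u_ge`, `B3_u_le`, `B3_T2`, `B3_T3`.
-/

set_option autoImplicit false

open MeasureTheory Set Filter Topology
open scoped NNReal RealInnerProductSpace

namespace Pool.Agent.PB86

open Pool.Agent.H51.Neumann (E IsH1 IsNeumannSpectrum)

theorem B3_cube {x : ℝ} (hx : 0 ≤ x) : (x ^ (2 / 3 : ℝ)) ^ 3 = x ^ 2 := by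
  rw [← Real.rpow_natCast, ← Real.rpow_mul hx, ← Real.rpow_natCast]
  norm_num

theorem B3_kge : (52599 / 10000 : ℝ) ≤ (3 * (Real.pi * (32 / 25))) ^ (2 / 3 : ℝ) := by
  have hpi := Real.pi_gt_d6
  have h0 : (0 : ℝ) ≤ 3 * (Real.pi * (32 / 25)) := by positivity
  rw [← pow_le_pow_iff_left₀ (by norm_num) (Real.rpow_nonneg h0 _) (three_ne_zero), B3_cube h0]
  nlinarith

theorem B3_kle : (3 * (Real.pi * (32 / 25))) ^ (2 / 3 : ℝ) ≤ (52605 / 10000 : ℝ) := by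
  have hpi := Real.pi_lt_d6
  have hpi0 := Real.pi_pos
  have h0 : (0 : ℝ) ≤ 3 * (Real.pi * (32 / 25)) := by positivity
  rw [← pow_le_pow_iff_left₀ (Real.rpow_nonneg h0 _) (by norm_num) (three_ne_zero), B3_cube h0]
  nlinarith

theorem B3_split {v σ : ℝ} (hv : 0 < v) (hσ : 0 ≤ σ) :
    (3 * (Real.pi * (32 / 25 * σ) / (1 / v ^ 3))) ^ (2 / 3 : ℝ) =
      (3 * (Real.pi * (32 / 25))) ^ (2 / 3 : ℝ) * v ^ 2 * σ ^ (2 / 3 : ℝ) := by
  have h0 : (0 : ℝ) ≤ 3 * (Real.pi * (32 / 25)) := by positivity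
  have h1 : 3 * (Real.pi * (32 / 25 * σ) / (1 / v ^ 3)) =
      3 * (Real.pi * (32 / 25)) * (v ^ 3 * σ) := by
    field_simp
  rw [h1, Real.mul_rpow h0 (by positivity), Real.mul_rpow (by positivity) hσ]
  have h2 : (v ^ 3) ^ (2 / 3 : ℝ) = v ^ 2 := by
    rw [← Real.rpow_natCast, ← Real.rpow_mul hv.le, ← Real.rpow_natCast]
    norm_num
  rw [h2]
  ring

/-- lower bound for the term `T2` -/
theorem B3_T2 {n : ℕ} (hn : 3 ≤ n) {v : ℝ} (hv : 0 < v)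
    (hs : (n : ℝ) / 2 - 1 ≤ 1 / v ^ 3 * (1 - 52605 / 10000 * v ^ 2 / 2)) :
    mp n (1 / v ^ 3 * (1 - 52605 / 10000 * v ^ 2 / 2)) ≤
      mt n (1 / v ^ 3 * YF (Real.pi * (32 / 25) / (1 / v ^ 3))) := by
  rw [← mt_eq hn hs]
  apply mt_mono hn
  apply mul_le_mul_of_nonneg_left _ (by positivity)
  have h1 : (0 : ℝ) ≤ Real.pi * (32 / 25) / (1 / v ^ 3) := by positivity
  refine le_trans ?_ (YF_ge h1)
  have h2 := B3_split hv (zero_le_one (α := ℝ))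
  rw [mul_one, Real.one_rpow, mul_one] at h2
  rw [h2]
  have h3 := mul_le_mul_of_nonneg_right B3_kle (sq_nonneg v)
  linarith

/-- upper bound for the integral `T3` -/
theorem B3_T3 {n : ℕ} (hn : 3 ≤ n) {v : ℝ} (hv : 0 < v)
    (hz : Real.pi * (32 / 25) * v ^ 3 ≤ 1)
    (hs : (n : ℝ) / 2 - 1 ≤ 1 / v ^ 3 * (1 - 52599 / 10000 * v ^ 2 / 2))
    {N : ℕ} (c : Fin N → ℝ)
    (hR : ∀ p ∈ Icc (0 : ℝ) 1, mp n (1 / v ^ 3 * (1 - 52599 / 10000 * v ^ 2 * p / 2 +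
      3 / 250 * (52599 / 10000 * v ^ 2 * p) ^ 2)) ≤ ∑ k, c k * p ^ (k : ℕ)) :
    ∫ g in (0 : ℝ)..(32 / 25), mt n (1 / v ^ 3 * YF (Real.pi * g / (1 / v ^ 3))) ≤
      32 / 25 * ∑ k, c k * (3 / (2 * ((k : ℕ) : ℝ) + 3)) := by
  have hpi := Real.pi_pos
  have e1 : ∫ g in (0 : ℝ)..(32 / 25), mt n (1 / v ^ 3 * YF (Real.pi * g / (1 / v ^ 3))) =
      32 / 25 * ∫ σ in (0 : ℝ)..1,
        mt n (1 / v ^ 3 * YF (Real.pi * (32 / 25 * σ) / (1 / v ^ 3))) := by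
    have h := intervalIntegral.smul_integral_comp_mul_left (a := 0) (b := 1)
      (fun g : ℝ => mt n (1 / v ^ 3 * YF (Real.pi * g / (1 / v ^ 3)))) (32 / 25 : ℝ)
    rw [mul_zero, mul_one, smul_eq_mul] at h
    exact h.symm
  have e2 : ∫ σ in (0 : ℝ)..1, ∑ k, c k * (σ ^ (2 / 3 : ℝ)) ^ (k : ℕ) =
      ∑ k, c k * (3 / (2 * ((k : ℕ) : ℝ) + 3)) := by
    rw [intervalIntegral.integral_finsetSum]
    · apply Finset.sum_congr rfl
      intro k _
      rw [intervalIntegral.integral_const_mul]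
      congr 1
      have e3 : ∫ σ in (0 : ℝ)..1, (σ ^ (2 / 3 : ℝ)) ^ (k : ℕ) =
          ∫ σ in (0 : ℝ)..1, σ ^ (2 / 3 * ((k : ℕ) : ℝ)) := by
        apply intervalIntegral.integral_congr
        intro σ hσ
        rw [uIcc_of_le zero_le_one] at hσ
        change (σ ^ (2 / 3 : ℝ)) ^ (k : ℕ) = σ ^ (2 / 3 * ((k : ℕ) : ℝ))
        rw [Real.rpow_mul hσ.1, Real.rpow_natCast]
      have hk : (0 : ℝ) ≤ ((k : ℕ) : ℝ) := Nat.cast_nonneg _
      rw [e3, integral_rpow (Or.inl (by linarith)), Real.one_rpow,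
        Real.zero_rpow (by positivity)]
      field_simp
      ring
    · intro k _
      apply Continuous.intervalIntegrable
      exact continuous_const.mul ((Real.continuous_rpow_const (by norm_num)).pow _)
  rw [e1, ← e2]
  apply mul_le_mul_of_nonneg_left _ (by norm_num)
  apply intervalIntegral.integral_mono_on zero_le_one
  · apply Continuous.intervalIntegrable
    exact (mt_cont hn).comp (continuous_const.mul (YF_cont.comp
      ((continuous_const.mul (continuous_const.mul continuous_id)).div_const _)))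
  · apply Continuous.intervalIntegrable
    apply continuous_finsetSum
    intro k _
    exact continuous_const.mul ((Real.continuous_rpow_const (by norm_num)).pow _)
  · intro σ hσ
    have hp0 : 0 ≤ σ ^ (2 / 3 : ℝ) := Real.rpow_nonneg hσ.1 _
    have hp1 : σ ^ (2 / 3 : ℝ) ≤ 1 := Real.rpow_le_one hσ.1 hσ.2 (by norm_num)
    refine le_trans ?_ (hR _ ⟨hp0, hp1⟩)
    have hv2 : 0 < v ^ 2 := by positivity
    have hv3 : 0 < v ^ 3 := by positivity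
    have hle : 1 / v ^ 3 * (1 - 52599 / 10000 * v ^ 2 / 2) ≤
        1 / v ^ 3 * (1 - 52599 / 10000 * v ^ 2 * σ ^ (2 / 3 : ℝ) / 2 +
          3 / 250 * (52599 / 10000 * v ^ 2 * σ ^ (2 / 3 : ℝ)) ^ 2) := by
      apply mul_le_mul_of_nonneg_left _ (by positivity)
      have h1 : v ^ 2 * σ ^ (2 / 3 : ℝ) ≤ v ^ 2 * 1 := mul_le_mul_of_nonneg_left hp1 hv2.le
      nlinarith [sq_nonneg (52599 / 10000 * v ^ 2 * σ ^ (2 / 3 : ℝ))]
    rw [← mt_eq hn (hs.trans hle)]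
    apply mt_mono hn
    apply mul_le_mul_of_nonneg_left _ (by positivity)
    have hz0 : (0 : ℝ) ≤ Real.pi * (32 / 25 * σ) / (1 / v ^ 3) := by
      have := hσ.1
      positivity
    have hzz : Real.pi * (32 / 25 * σ) / (1 / v ^ 3) = Real.pi * (32 / 25) * v ^ 3 * σ := by
      field_simp
    have hz1 : Real.pi * (32 / 25 * σ) / (1 / v ^ 3) ≤ 1 := by
      rw [hzz]
      have := hσ.1
      have := hσ.2
      nlinarith [mul_nonneg (mul_nonneg hpi.le hv3.le) hσ.1]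
    refine (YF_le_quad hz0 hz1).trans ?_
    rw [B3_split hv hσ.1]
    set p : ℝ := σ ^ (2 / 3 : ℝ) with hp
    set κ : ℝ := (3 * (Real.pi * (32 / 25))) ^ (2 / 3 : ℝ) with hκ
    have k1 : (52599 / 10000 : ℝ) ≤ κ := B3_kge
    have k2 : κ ≤ (52605 / 10000 : ℝ) := B3_kle
    have hv1 : v ^ 2 ≤ 1 := by
      have h3 : v ^ 3 ≤ 1 := by
        have hpi3 := Real.pi_gt_three
        nlinarith [mul_pos hpi hv3]
      have h4 : v ≤ 1 := by
        by_contra hcon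
        push Not at hcon
        have : 1 < v ^ 3 := one_lt_pow₀ hcon (by norm_num)
        linarith
      nlinarith
    have hq : 0 ≤ v ^ 2 * p := mul_nonneg hv2.le hp0
    have hq1 : v ^ 2 * p ≤ 1 := by nlinarith
    have e4 : (1 - 52599 / 10000 * v ^ 2 * p / 2 + 3 / 250 * (52599 / 10000 * v ^ 2 * p) ^ 2) -
        (1 - κ * v ^ 2 * p / 2 + 3 / 250 * (κ * v ^ 2 * p) ^ 2) =
        (κ - 52599 / 10000) * ((v ^ 2 * p) *
          (1 / 2 - 3 / 250 * (κ + 52599 / 10000) * (v ^ 2 * p))) := by ring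
    have e5 : 0 ≤ (κ - 52599 / 10000) * ((v ^ 2 * p) *
          (1 / 2 - 3 / 250 * (κ + 52599 / 10000) * (v ^ 2 * p))) := by
      apply mul_nonneg (by linarith)
      apply mul_nonneg hq
      nlinarith
    linarith

theorem B3_mp (ν : ℝ) : mp 3 ν = (ν - 1 / 2) ^ 2 := by
  unfold mp
  norm_num [Finset.prod_range_succ]
  ring

theorem B3_Cc : Cc 2 = Real.pi / 4 := by
  have h := Cc_rec 0
  rw [Cc_zero] at h
  rw [h]
  norm_num
  ring

/-- the final polynomial inequality (Bernstein form) -/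
theorem B3_poly {v : ℝ} (hv : 0 ≤ v) (hv1 : v ≤ 553 / 1000) :
    32 / 25 * (1 - 3 * (52599 / 10000 * v ^ 2) / 5 +
        (1 / 4 + 2 * (3 / 250)) * (3 / 7) * (52599 / 10000 * v ^ 2) ^ 2 -
        (3 / 250) / 3 * (52599 / 10000 * v ^ 2) ^ 3 +
        (3 / 11) * (3 / 250) ^ 2 * (52599 / 10000 * v ^ 2) ^ 4 -
        v ^ 3 * (1 - 3 * (52599 / 10000 * v ^ 2) / 10 +
          (3 / 7) * (3 / 250) * (52599 / 10000 * v ^ 2) ^ 2) + v ^ 6 / 4) + 1 / 8 <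
      (1 - (189 / 100 * v ^ 2 - 2385 / 1000 * v ^ 4 + 12725 / 10000 * v ^ 6) -
        v ^ 3 * (1 - (189 / 100 * v ^ 2 - 2385 / 1000 * v ^ 4 + 12725 / 10000 * v ^ 6) / 2) +
        v ^ 6 / 4) +
      1 / 2 * ((1 - 52605 / 10000 * v ^ 2 / 2) ^ 2 - v ^ 3 * (1 - 52605 / 10000 * v ^ 2 / 2) +
        v ^ 6 / 4) := by
  obtain ⟨y, hy⟩ : ∃ y : ℝ, y = 553 / 1000 - v := ⟨_, rfl⟩
  have hy0 : 0 ≤ y := by rw [hy]; linarith
  have hpos : 0 ≤ (85000000000000000000000000 / 4836444202605358475926633) * (v ^ 0 * y ^ 9) +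
      (765000000000000000000000000 / 4836444202605358475926633) * (v ^ 1 * y ^ 8) +
      (2913013882738800000000000000 / 4836444202605358475926633) * (v ^ 2 * y ^ 7) +
      (867698922318800000000000000 / 690920600372194067989519) * (v ^ 3 * y ^ 6) +
      (1079671138354916462512599600 / 690920600372194067989519) * (v ^ 4 * y ^ 5) +
      (829716782949156759839598000 / 690920600372194067989519) * (v ^ 5 * y ^ 4) +
      (159818231312739735746135449470306 / 269890859520388307808405859375) * (v ^ 6 * y ^ 3) +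
      (394386047403670754877134599722306 / 1889236016642718154658841015625) * (v ^ 7 * y ^ 2) +
      (1492785748512049991868236663535699253403146053 / 25976995228837374626559063964843750000000000) * (v ^ 8 * y ^ 1) +
      (236989255917113278681041445818576089340646053 / 25976995228837374626559063964843750000000000) * (v ^ 9 * y ^ 0) := by positivity
  rw [hy] at hpos
  nlinarith [hpos]

theorem B3_sqrt {w : ℝ} (hw : w ≤ 1) : Real.sqrt (1 - w) ≤ 1 - w / 2 := by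
  rw [Real.sqrt_le_left (by linarith)]
  nlinarith [sq_nonneg w]

theorem B3_T1 {v g : ℝ} (hv : 0 < v) (hg : g = 4 / 5 + 2 / 5 * v ^ 2) :
    (1 / v ^ 3) ^ 2 *
      (1 - (189 / 100 * v ^ 2 - 2385 / 1000 * v ^ 4 + 12725 / 10000 * v ^ 6)) ≤
    (1 / v ^ 3) ^ 2 - (1 / v ^ 3) ^ 2 / (g / v ^ 2) - (g / v ^ 2) ^ 2 + 3 * (g / v ^ 2) - 2 := by
  have hv2 : 0 < v ^ 2 := by positivity
  have hg0 : 0 < g := by rw [hg]; positivity
  have h1 : 1 / g ≤ 125 / 100 - 625 / 1000 * v ^ 2 + 3125 / 10000 * v ^ 4 := by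
    rw [div_le_iff₀ hg0, hg]
    nlinarith [pow_pos hv 6]
  have h2 : (1 / v ^ 3) ^ 2 - (1 / v ^ 3) ^ 2 / (g / v ^ 2) - (g / v ^ 2) ^ 2 + 3 * (g / v ^ 2) -
      2 = (1 / v ^ 3) ^ 2 * (1 - v ^ 2 * (1 / g + (g - v ^ 2) * (g - 2 * v ^ 2))) := by
    field_simp
    ring
  rw [h2]
  apply mul_le_mul_of_nonneg_left _ (by positivity)
  have h3 : 189 / 100 * v ^ 2 - 2385 / 1000 * v ^ 4 + 12725 / 10000 * v ^ 6 =
      v ^ 2 * ((125 / 100 - 625 / 1000 * v ^ 2 + 3125 / 10000 * v ^ 4) +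
        (g - v ^ 2) * (g - 2 * v ^ 2)) := by
    rw [hg]
    ring
  rw [h3]
  have h4 := mul_le_mul_of_nonneg_left h1 hv2.le
  nlinarith

theorem B3_main {v : ℝ} (hv : 0 < v) (hv1 : v ≤ 553 / 1000) :
    II 3 (1 / v ^ 3) ((4 / 5 + 2 / 5 * v ^ 2) / v ^ 2) := by
  have hpi := Real.pi_pos
  have hv2 : 0 < v ^ 2 := by positivity
  have hv3 : 0 < v ^ 3 := by positivity
  have hv2' : v ^ 2 ≤ 305809 / 1000000 := by nlinarith
  have hv3' : v ^ 3 ≤ 1692 / 10000 := by nlinarith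
  have hl : (59 / 10 : ℝ) ≤ 1 / v ^ 3 := by
    rw [le_div_iff₀ hv3]
    linarith
  have hl0 : (0 : ℝ) < 1 / v ^ 3 := by positivity
  have hl3 : (1 / v ^ 3) * v ^ 3 = 1 := by field_simp
  set W : ℝ := 189 / 100 * v ^ 2 - 2385 / 1000 * v ^ 4 + 12725 / 10000 * v ^ 6 with hW
  set l : ℝ := 1 / v ^ 3 with hldef
  -- T2
  have hs2 : ((3 : ℕ) : ℝ) / 2 - 1 ≤ l * (1 - 52605 / 10000 * v ^ 2 / 2) := by
    norm_num
    nlinarith
  have t2 := B3_T2 (n := 3) le_rfl hv hs2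
  rw [← hldef] at t2
  -- T3
  have hs3 : ((3 : ℕ) : ℝ) / 2 - 1 ≤ l * (1 - 52599 / 10000 * v ^ 2 / 2) := by
    norm_num
    nlinarith
  have hz : Real.pi * (32 / 25) * v ^ 3 ≤ 1 := by
    have := Real.pi_lt_d2
    nlinarith
  have t3 := B3_T3 (n := 3) le_rfl hv hz hs3
    ![l ^ 2 - l + 1 / 4,
      l ^ 2 * (-(52599 / 10000 * v ^ 2)) + l * (52599 / 10000 * v ^ 2) / 2,
      l ^ 2 * ((1 / 4 + 2 * (3 / 250)) * (52599 / 10000 * v ^ 2) ^ 2) -
        l * (3 / 250 * (52599 / 10000 * v ^ 2) ^ 2),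
      -(l ^ 2 * (3 / 250 * (52599 / 10000 * v ^ 2) ^ 3)),
      l ^ 2 * ((3 / 250) ^ 2 * (52599 / 10000 * v ^ 2) ^ 4)] (by
    intro p _
    rw [B3_mp, ← hldef]
    apply le_of_eq
    simp [Fin.sum_univ_succ]
    ring)
  rw [← hldef] at t3
  simp [Fin.sum_univ_succ] at t3
  -- T1
  have t1 := B3_T1 hv rfl
  rw [← hW, ← hldef] at t1
  have hW1 : W ≤ 2 / 5 := by
    rw [hW]
    nlinarith
  have hr : l * Real.sqrt (1 - W) ≤
      Real.sqrt (l ^ 2 - l ^ 2 / ((4 / 5 + 2 / 5 * v ^ 2) / v ^ 2) -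
        ((4 / 5 + 2 / 5 * v ^ 2) / v ^ 2) ^ 2 + 3 * ((4 / 5 + 2 / 5 * v ^ 2) / v ^ 2) - 2) := by
    apply Real.le_sqrt_of_sq_le
    rw [mul_pow, Real.sq_sqrt (by linarith)]
    exact t1
  have hs1 : (1 / 2 : ℝ) ≤ Real.sqrt (1 - W) := by
    apply Real.le_sqrt_of_sq_le
    linarith
  have hs1' : ((3 : ℕ) : ℝ) / 2 - 1 ≤ l * Real.sqrt (1 - W) := by
    norm_num
    nlinarith
  have t1' := mt_mono (n := 3) le_rfl hr
  rw [mt_eq le_rfl hs1', B3_mp] at t1'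
  have hsq := B3_sqrt (w := W) (by linarith)
  have hsq2 : Real.sqrt (1 - W) ^ 2 = 1 - W := Real.sq_sqrt (by linarith)
  have t1'' : l ^ 2 * (1 - W) - l * (1 - W / 2) + 1 / 4 ≤ (l * Real.sqrt (1 - W) - 1 / 2) ^ 2 := by
    have : (l * Real.sqrt (1 - W) - 1 / 2) ^ 2 =
        l ^ 2 * Real.sqrt (1 - W) ^ 2 - l * Real.sqrt (1 - W) + 1 / 4 := by ring
    rw [this, hsq2]
    have := mul_le_mul_of_nonneg_left hsq hl0.le
    linarith
  rw [B3_mp] at t2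
  have hp := mul_lt_mul_of_pos_left (B3_poly hv.le hv1) (by positivity : 0 < l ^ 2)
  have hl6 : l ^ 2 * v ^ 6 = 1 := by
    have : l ^ 2 * v ^ 6 = (l * v ^ 3) ^ 2 := by ring
    rw [this, hl3, one_pow]
  have hl33 : l ^ 2 * v ^ 3 = l := by
    have : l ^ 2 * v ^ 3 = l * (l * v ^ 3) := by ring
    rw [this, hl3, mul_one]
  unfold II
  have e0 : pp 3 l = l ^ 2 := by
    unfold pp
    norm_num [Nat.factorial]
  have e1 : pp 3 l * (Cc (3 - 1) / (2 * Real.pi) +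
      (((3 : ℕ) : ℝ) - 1) * (((3 : ℕ) : ℝ) - 3) * Cc (3 - 2) / (24 * Real.pi * l)) =
      l ^ 2 / 8 := by
    rw [e0, show 3 - 1 = 2 from rfl, B3_Cc]
    have : (((3 : ℕ) : ℝ) - 3) = 0 := by norm_num
    rw [this]
    field_simp
    ring
  rw [e1]
  have e2 : l ^ 2 - l ^ 2 / ((4 / 5 + 2 / 5 * v ^ 2) / v ^ 2) -
        ((4 / 5 + 2 / 5 * v ^ 2) / v ^ 2) ^ 2 +
        ((3 : ℕ) : ℝ) * ((4 / 5 + 2 / 5 * v ^ 2) / v ^ 2) - (((3 : ℕ) : ℝ) - 1) =
      l ^ 2 - l ^ 2 / ((4 / 5 + 2 / 5 * v ^ 2) / v ^ 2) -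
        ((4 / 5 + 2 / 5 * v ^ 2) / v ^ 2) ^ 2 + 3 * ((4 / 5 + 2 / 5 * v ^ 2) / v ^ 2) - 2 := by
    push_cast
    ring
  rw [e2]
  refine lt_of_le_of_lt (add_le_add_right t3 _) ?_
  refine lt_of_lt_of_le ?_ (add_le_add t1' (mul_le_mul_of_nonneg_left t2 (by norm_num)))
  refine lt_of_lt_of_le ?_ (add_le_add_left t1'' _)
  rw [hW]
  linear_combination hp +
    (32 / 25 * (1 - 3 * (52599 / 10000 * v ^ 2) / 10 +
      3 / 7 * (3 / 250) * (52599 / 10000 * v ^ 2) ^ 2) -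
      (1 - (189 / 100 * v ^ 2 - 2385 / 1000 * v ^ 4 + 12725 / 10000 * v ^ 6) / 2) -
      (1 - 52605 / 10000 * v ^ 2 / 2) / 2) * hl33 +
    (-(32 / 25) / 4 + 1 / 4 + 1 / 8) * hl6

theorem II_three {lam : ℝ} (hlam : 0 < lam) (h : 35 ≤ lam ^ 2) : ∃ X, 1 < X ∧ II 3 lam X := by
  obtain ⟨v, hv⟩ : ∃ v : ℝ, v = lam ^ (-(1 / 3) : ℝ) := ⟨_, rfl⟩
  have hv0 : 0 < v := by rw [hv]; exact Real.rpow_pos_of_pos hlam _
  have hv3 : v ^ 3 = lam⁻¹ := by
    rw [hv, ← Real.rpow_natCast, ← Real.rpow_mul hlam.le, ← Real.rpow_neg_one]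
    norm_num
  have hl : lam = 1 / v ^ 3 := by
    rw [hv3]
    field_simp
  have hv1 : v ≤ 553 / 1000 := by
    by_contra hcon
    push Not at hcon
    have h1 : (553 / 1000 : ℝ) ^ 6 < v ^ 6 := pow_lt_pow_left₀ hcon (by norm_num) (by norm_num)
    have h2 : v ^ 6 * lam ^ 2 = 1 := by
      have : v ^ 6 = (v ^ 3) ^ 2 := by ring
      rw [this, hv3]
      field_simp
    nlinarith [pow_pos hv0 6]
  refine ⟨(4 / 5 + 2 / 5 * v ^ 2) / v ^ 2, ?_, ?_⟩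
  · rw [lt_div_iff₀ (by positivity)]
    nlinarith
  · rw [hl]
    exact B3_main hv0 hv1

end Pool.Agent.PB86
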