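import Pool.Agent.PB86.YBound
import Pool.Agent.PB86.YInt
import Pool.Agent.PB86.MPoly

set_option autoImplicit false

open MeasureTheory Set Filter Topology
open scoped NNReal RealInnerProductSpace

namespace Pool.Agent.PB86

open Pool.Agent.H51.Neumann (E IsH1 IsNeumannSpectrum)

theorem B4_cont : Continuous fun g : ℝ => (g / (32 / 25)) ^ (2 / 3 : ℝ) := by
  refine Continuous.rpow_const (by fun_prop) fun x => Or.inr (by norm_num)

/-- the integrals of the powers of `(g / 1.28)^(2/3)` -/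
theorem B4_int (k : ℕ) : ∫ g in (0 : ℝ)..(32 / 25), ((g / (32 / 25)) ^ (2 / 3 : ℝ)) ^ k =
    32 / 25 * (3 / (2 * k + 3)) := by
  have h1 := intervalIntegral.integral_comp_div (a := 0) (b := 32 / 25) (c := 32 / 25)
    (fun x : ℝ => (x ^ (2 / 3 : ℝ)) ^ k) (by norm_num)
  rw [h1, smul_eq_mul]
  congr 1
  have h2 : ∫ x in (0 : ℝ) / (32 / 25)..(32 / 25) / (32 / 25), (x ^ (2 / 3 : ℝ)) ^ k =
      ∫ x in (0 : ℝ)..1, x ^ ((2 / 3 : ℝ) * k) := by
    have e1 : (0 : ℝ) / (32 / 25) = 0 := by norm_num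
    have e2 : (32 / 25 : ℝ) / (32 / 25) = 1 := by norm_num
    rw [e1, e2]
    apply intervalIntegral.integral_congr
    intro x hx
    rw [uIcc_of_le zero_le_one] at hx
    simp only
    rw [Real.rpow_mul_natCast hx.1]
  rw [h2, integral_rpow (Or.inl (by have : (0 : ℝ) ≤ (2 / 3 : ℝ) * k := by positivity
                                    linarith))]
  have h3 : (0 : ℝ) < 2 / 3 * k + 1 := by positivity
  rw [Real.one_rpow, Real.zero_rpow h3.ne']
  field_simp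
  ring

/-- integral of a polynomial of degree six in `(g / 1.28)^(2/3)` -/
theorem B4_int_poly (a : ℕ → ℝ) :
    ∫ g in (0 : ℝ)..(32 / 25), ∑ k ∈ Finset.range 7, a k * ((g / (32 / 25)) ^ (2 / 3 : ℝ)) ^ k =
    ∑ k ∈ Finset.range 7, a k * (32 / 25 * (3 / (2 * k + 3))) := by
  rw [intervalIntegral.integral_finsetSum]
  · refine Finset.sum_congr rfl fun k _ => ?_
    rw [intervalIntegral.integral_const_mul, B4_int]
  · intro k _
    exact ((B4_cont.pow k).const_mul (a k)).intervalIntegrable _ _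

theorem B4_mp (ν : ℝ) : mp 4 ν = (2 * ν - 1) * ((ν - 1) * ν) / 6 := by
  unfold mp
  have e1 : (4 : ℕ) - 2 = 2 := rfl
  have e2 : (4 : ℕ) - 1 = 3 := rfl
  rw [e1, e2, Finset.prod_range_succ, Finset.prod_range_one]
  have e3 : ((Nat.factorial 3 : ℕ) : ℝ) = 6 := by norm_num [Nat.factorial]
  rw [e3]
  push_cast
  ring

/-- the final polynomial inequality -/
theorem B4_poly {v : ℝ} (hv : 0 < v) (hv1 : v ≤ 1029 / 2000) :
    10611 / 100000 + v ^ 3 / 32 + 32 / 25 *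
      (1 + (-3 / 2) * (3 / 5) * (52599 / 10000 * v ^ 2)
        + (3 * (3 / 250) + 3 / 4) * (3 / 7) * (52599 / 10000 * v ^ 2) ^ 2
        + (-(3 * (3 / 250) + 1 / 8)) * (3 / 9) * (52599 / 10000 * v ^ 2) ^ 3
        + (3 * (3 / 250) ^ 2 + 3 / 4 * (3 / 250)) * (3 / 11) * (52599 / 10000 * v ^ 2) ^ 4
        + (-3 / 2 * (3 / 250) ^ 2) * (3 / 13) * (52599 / 10000 * v ^ 2) ^ 5
        + (3 / 250) ^ 3 * (3 / 15) * (52599 / 10000 * v ^ 2) ^ 6
        - 3 / 2 * v ^ 3 * (1 - (3 / 5) * (52599 / 10000 * v ^ 2)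
          + (1 / 4 + 2 * (3 / 250)) * (3 / 7) * (52599 / 10000 * v ^ 2) ^ 2
          - (3 / 250) * (3 / 9) * (52599 / 10000 * v ^ 2) ^ 3
          + (3 / 250) ^ 2 * (3 / 11) * (52599 / 10000 * v ^ 2) ^ 4)
        + 1 / 2 * v ^ 6 * (1 - 1 / 2 * (3 / 5) * (52599 / 10000 * v ^ 2)
          + (3 / 250) * (3 / 7) * (52599 / 10000 * v ^ 2) ^ 2)) <
    ((1 - 189 / 200 * v ^ 2 + v ^ 4) ^ 3 - 3 / 2 * (1 - 189 / 200 * v ^ 2 + v ^ 4) ^ 2 * v ^ 3
      + 1 / 2 * (1 - 189 / 200 * v ^ 2 + v ^ 4) * v ^ 6)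
    + 1 / 2 * ((1 - 52605 / 20000 * v ^ 2) ^ 3 - 3 / 2 * (1 - 52605 / 20000 * v ^ 2) ^ 2 * v ^ 3
      + 1 / 2 * (1 - 52605 / 20000 * v ^ 2) * v ^ 6) := by
  have hw : 0 ≤ 1029 / 2000 - v := by linarith
  obtain ⟨w, hw'⟩ : ∃ w, w = 1029 / 2000 - v := ⟨_, rfl⟩
  rw [← hw'] at hw
  have h0 : 0 < (1029 / 2000 : ℝ) := by norm_num
  have key : ∀ k l : ℕ, 0 ≤ v ^ k * w ^ l := fun k l => by positivity
  have k12 : 0 < v ^ 12 := by positivity
  subst hw'
  linarith [key 0 12, key 1 11, key 2 10, key 3 9, key 4 8, key 5 7, key 6 6, key 7 5, key 8 4,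
    key 9 3, key 10 2, key 11 1, k12]

/-- `K = (3 π 32/25)^(2/3)` -/
theorem B4_K : (52599 / 10000 : ℝ) ≤ (3 * Real.pi * (32 / 25)) ^ (2 / 3 : ℝ) ∧
    (3 * Real.pi * (32 / 25)) ^ (2 / 3 : ℝ) ≤ 52605 / 10000 := by
  have hpi := Real.pi_gt_d4
  have hpi2 := Real.pi_lt_d4
  have h0 : (0 : ℝ) ≤ 3 * Real.pi * (32 / 25) := by positivity
  have e : ∀ x : ℝ, 0 ≤ x → (x ^ 3) ^ (1 / 3 : ℝ) = x := by
    intro x hx
    rw [← Real.rpow_natCast, ← Real.rpow_mul hx]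
    norm_num
  have e2 : (3 * Real.pi * (32 / 25)) ^ (2 / 3 : ℝ) =
      ((3 * Real.pi * (32 / 25)) ^ 2) ^ (1 / 3 : ℝ) := by
    rw [← Real.rpow_natCast, ← Real.rpow_mul h0]
    norm_num
  rw [e2]
  constructor
  · rw [← e (52599 / 10000) (by norm_num)]
    refine Real.rpow_le_rpow (by positivity) ?_ (by norm_num)
    nlinarith
  · rw [← e (52605 / 10000) (by norm_num)]
    refine Real.rpow_le_rpow (by positivity) ?_ (by norm_num)
    nlinarith

/-- `(3z)^(2/3)` at `z = π g / λ`, `λ v³ = 1` -/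
theorem B4_arg {lam v g : ℝ} (hv : 0 < v) (hlv : lam * v ^ 3 = 1) (hg : 0 ≤ g) :
    (3 * (Real.pi * g / lam)) ^ (2 / 3 : ℝ) =
      (3 * Real.pi * (32 / 25)) ^ (2 / 3 : ℝ) * v ^ 2 * (g / (32 / 25)) ^ (2 / 3 : ℝ) := by
  have hlam : lam ≠ 0 := by
    rintro rfl
    rw [zero_mul] at hlv
    exact zero_ne_one hlv
  have e1 : 3 * (Real.pi * g / lam) = (3 * Real.pi * (32 / 25)) * v ^ 3 * (g / (32 / 25)) := by
    have : v ^ 3 = 1 / lam := by
      rw [eq_div_iff hlam, mul_comm]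
      exact hlv
    rw [this]
    field_simp
  rw [e1, Real.mul_rpow (by positivity) (by positivity), Real.mul_rpow (by positivity) (by positivity)]
  congr 2
  rw [← Real.rpow_natCast, ← Real.rpow_mul hv.le, ← Real.rpow_natCast]
  norm_num

theorem B4_exists {lam : ℝ} (hlam : 0 < lam) : ∃ v : ℝ, 0 < v ∧ lam * v ^ 3 = 1 := by
  refine ⟨(lam⁻¹) ^ (1 / 3 : ℝ), by positivity, ?_⟩
  rw [← Real.rpow_natCast, ← Real.rpow_mul (by positivity)]
  norm_num
  field_simp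

theorem II_four {lam : ℝ} (hlam : 0 < lam) (h : 54 ≤ lam ^ 2) : ∃ X, 1 < X ∧ II 4 lam X := by
  obtain ⟨v, hv, hlv⟩ := B4_exists hlam
  have hv1 : v ≤ 1029 / 2000 := by
    by_contra hcon
    push Not at hcon
    have h1 : (1029 / 2000 : ℝ) ^ 6 < v ^ 6 := pow_lt_pow_left₀ hcon (by norm_num) (by norm_num)
    have h2 : lam ^ 2 * v ^ 6 = 1 := by
      have : lam ^ 2 * v ^ 6 = (lam * v ^ 3) ^ 2 := by ring
      rw [this, hlv, one_pow]
    have h3 : 54 * (1029 / 2000 : ℝ) ^ 6 ≤ lam ^ 2 * v ^ 6 := by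
      have := mul_le_mul h h1.le (by positivity) (by positivity)
      exact this
    norm_num at h3 h2
    linarith
  have hlam7 : 7 < lam := by nlinarith
  have hpi := Real.pi_gt_d4
  have hpi2 := Real.pi_lt_d4
  obtain ⟨hK1, hK2⟩ := B4_K
  set K := (3 * Real.pi * (32 / 25)) ^ (2 / 3 : ℝ) with hK
  set u := v ^ 2 with hu
  have hu0 : 0 < u := by positivity
  have hu1 : u ≤ 2648 / 10000 := by
    rw [hu]
    nlinarith
  have hlu : lam ^ 2 * u ^ 3 = 1 := by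
    have : lam ^ 2 * u ^ 3 = (lam * v ^ 3) ^ 2 := by rw [hu]; ring
    rw [this, hlv, one_pow]
  have hpp : pp 4 lam = lam ^ 3 / 3 := by
    unfold pp
    have e2 : (4 : ℕ) - 1 = 3 := rfl
    rw [e2]
    have e3 : ((Nat.factorial 3 : ℕ) : ℝ) = 6 := by norm_num [Nat.factorial]
    rw [e3]
    ring
  have hmp : ∀ q : ℝ, mp 4 (lam * q) =
      lam ^ 3 / 3 * (q ^ 3 - 3 / 2 * q ^ 2 * v ^ 3 + 1 / 2 * q * v ^ 6) := by
    intro q
    rw [B4_mp]
    have e1 : v ^ 6 = (v ^ 3) ^ 2 := by ring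
    have e2 : lam ^ 3 / 3 * (q ^ 3 - 3 / 2 * q ^ 2 * v ^ 3 + 1 / 2 * q * v ^ 6) =
        lam ^ 3 * q ^ 3 / 3 - lam ^ 2 * q ^ 2 / 2 * (lam * v ^ 3) + lam * q / 6 * (lam * v ^ 3) ^ 2 := by
      ring
    rw [e2, hlv]
    ring
  have hg : 0 < 4 / 5 + 3 / 5 * u := by positivity
  refine ⟨(4 / 5 + 3 / 5 * u) / u, ?_, ?_⟩
  · rw [lt_div_iff₀ hu0]
    linarith
  unfold II
  rw [hpp]
  -- the constants
  have hC3 : Cc (4 - 1) / (2 * Real.pi) ≤ 10611 / 100000 := by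
    have e : Cc (4 - 1) = 2 / 3 := by
      show Cc (1 + 2) = 2 / 3
      rw [Cc_rec, Cc_one]
      norm_num
    rw [e, div_le_iff₀ (by positivity)]
    linarith
  have hC2 : (((4 : ℕ) : ℝ) - 1) * (((4 : ℕ) : ℝ) - 3) * Cc (4 - 2) / (24 * Real.pi * lam) =
      v ^ 3 / 32 := by
    have e : Cc (4 - 2) = Real.pi / 4 := by
      show Cc (0 + 2) = Real.pi / 4
      rw [Cc_rec, Cc_zero]
      norm_num
      ring
    rw [e]
    have e2 : v ^ 3 = 1 / lam := by
      rw [eq_div_iff hlam.ne', mul_comm]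
      exact hlv
    rw [e2]
    push_cast
    field_simp
    norm_num
  -- the integral
  set r : ℝ → ℝ := fun g => (g / (32 / 25)) ^ (2 / 3 : ℝ) with hr
  set W := 52599 / 10000 * u with hW
  set a : ℕ → ℝ := fun k => lam ^ 3 / 3 * (match k with
    | 0 => 1 - 3 / 2 * v ^ 3 + 1 / 2 * v ^ 6
    | 1 => -3 / 2 * W + 3 / 2 * v ^ 3 * W - 1 / 2 * v ^ 6 * (1 / 2 * W)
    | 2 => (3 * (3 / 250) + 3 / 4) * W ^ 2 - 3 / 2 * v ^ 3 * ((1 / 4 + 2 * (3 / 250)) * W ^ 2)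
        + 1 / 2 * v ^ 6 * ((3 / 250) * W ^ 2)
    | 3 => (-(3 * (3 / 250) + 1 / 8)) * W ^ 3 + 3 / 2 * v ^ 3 * ((3 / 250) * W ^ 3)
    | 4 => (3 * (3 / 250) ^ 2 + 3 / 4 * (3 / 250)) * W ^ 4 - 3 / 2 * v ^ 3 * ((3 / 250) ^ 2 * W ^ 4)
    | 5 => (-3 / 2 * (3 / 250) ^ 2) * W ^ 5
    | 6 => (3 / 250) ^ 3 * W ^ 6
    | _ => 0) with ha
  have hint : ∫ g in (0 : ℝ)..(32 / 25), mt 4 (lam * YF (Real.pi * g / lam)) ≤
      ∫ g in (0 : ℝ)..(32 / 25), ∑ k ∈ Finset.range 7, a k * (r g) ^ k := by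
    apply intervalIntegral.integral_mono_on (by norm_num)
    · apply Continuous.intervalIntegrable
      exact (mt_cont (by norm_num)).comp (continuous_const.mul (YF_cont.comp (by fun_prop)))
    · apply Continuous.intervalIntegrable
      exact continuous_finsetSum _ fun k _ => (B4_cont.pow k).const_mul (a k)
    · intro g hg'
      have hg0 : 0 ≤ g := hg'.1
      have hr0 : 0 ≤ r g := by
        simp only [hr]
        positivity
      have hr1 : r g ≤ 1 := by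
        simp only [hr]
        refine Real.rpow_le_one (by positivity) ?_ (by norm_num)
        rw [div_le_one (by norm_num)]
        exact hg'.2
      have hz1 : Real.pi * g / lam ≤ 1 := by
        rw [div_le_one hlam]
        have := hg'.2
        nlinarith
      have h1 := YF_le_quad (z := Real.pi * g / lam) (by positivity) hz1
      rw [B4_arg hv hlv hg0, ← hK, ← hu] at h1
      have h1' : YF (Real.pi * g / lam) ≤ 1 - K * u * r g / 2 + 3 / 250 * (K * u * r g) ^ 2 := h1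
      have hur : 0 ≤ u * r g := by positivity
      have hur1 : u * r g ≤ 2648 / 10000 := by nlinarith
      have h2 : 1 - K * u * r g / 2 + 3 / 250 * (K * u * r g) ^ 2 ≤
          1 - W * r g / 2 + 3 / 250 * (W * r g) ^ 2 := by
        have e1 : K * u * r g = K * (u * r g) := by ring
        have e2 : W * r g = 52599 / 10000 * (u * r g) := by rw [hW]; ring
        rw [e1, e2]
        have h3 : 0 ≤ (K - 52599 / 10000) * (u * r g) := mul_nonneg (by linarith) hur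
        have h4 : 3 / 250 * ((K + 52599 / 10000) * (u * r g)) ≤ 1 / 2 := by nlinarith
        nlinarith
      have h5 : lam * YF (Real.pi * g / lam) ≤
          lam * (1 - W * r g / 2 + 3 / 250 * (W * r g) ^ 2) :=
        mul_le_mul_of_nonneg_left (h1'.trans h2) hlam.le
      have h6 : (1 : ℝ) ≤ lam * (1 - W * r g / 2 + 3 / 250 * (W * r g) ^ 2) := by
        have e2 : W * r g = 52599 / 10000 * (u * r g) := by rw [hW]; ring
        rw [e2]
        have h7 : (3 / 10 : ℝ) ≤ 1 - 52599 / 10000 * (u * r g) / 2 +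
            3 / 250 * (52599 / 10000 * (u * r g)) ^ 2 := by nlinarith [sq_nonneg (u * r g)]
        nlinarith
      have h8 := mt_mono (n := 4) (by norm_num) h5
      refine h8.trans (le_of_eq ?_)
      rw [mt_eq (by norm_num) (by norm_num; exact h6), hmp]
      simp only [Finset.sum_range_succ, Finset.sum_range_zero, ha]
      ring
  have hval : ∫ g in (0 : ℝ)..(32 / 25), ∑ k ∈ Finset.range 7, a k * (r g) ^ k =
      ∑ k ∈ Finset.range 7, a k * (32 / 25 * (3 / (2 * k + 3))) := B4_int_poly a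
  -- the first term
  have hT1 : lam ^ 3 / 3 * ((1 - 189 / 200 * v ^ 2 + v ^ 4) ^ 3
      - 3 / 2 * (1 - 189 / 200 * v ^ 2 + v ^ 4) ^ 2 * v ^ 3
      + 1 / 2 * (1 - 189 / 200 * v ^ 2 + v ^ 4) * v ^ 6) ≤
      mt 4 (Real.sqrt (lam ^ 2 - lam ^ 2 / ((4 / 5 + 3 / 5 * u) / u)
        - ((4 / 5 + 3 / 5 * u) / u) ^ 2 + (4 : ℕ) * ((4 / 5 + 3 / 5 * u) / u)
        - (((4 : ℕ) : ℝ) - 1))) := by
    have e4 : 1 - 189 / 200 * v ^ 2 + v ^ 4 = 1 - 189 / 200 * u + u ^ 2 := by rw [hu]; ring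
    rw [e4, ← hmp]
    have hb : (8 / 10 : ℝ) ≤ 1 - 189 / 200 * u + u ^ 2 := by nlinarith
    rw [← mt_eq (n := 4) (by norm_num) (by norm_num; nlinarith)]
    apply mt_mono (by norm_num)
    apply Real.le_sqrt_of_sq_le
    have hinv : 1 / (4 / 5 + 3 / 5 * u) ≤ 5 / 4 - 15 / 16 * u + 45 / 64 * u ^ 2 := by
      rw [div_le_iff₀ hg]
      have : 0 ≤ u ^ 3 := by positivity
      nlinarith
    have e5 : lam ^ 2 / ((4 / 5 + 3 / 5 * u) / u) = lam ^ 2 * (u * (1 / (4 / 5 + 3 / 5 * u))) := by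
      field_simp
    have e6 : ((4 / 5 + 3 / 5 * u) / u) ^ 2 = lam ^ 2 * (u * (4 / 5 + 3 / 5 * u) ^ 2) := by
      have : lam ^ 2 = 1 / u ^ 3 := by
        rw [eq_div_iff (by positivity)]
        exact hlu
      rw [this]
      field_simp
    have e7 : (4 / 5 + 3 / 5 * u) / u = lam ^ 2 * (u ^ 2 * (4 / 5 + 3 / 5 * u)) := by
      have : lam ^ 2 = 1 / u ^ 3 := by
        rw [eq_div_iff (by positivity)]
        exact hlu
      rw [this]
      field_simp
    have e8 : (((4 : ℕ) : ℝ) - 1) = lam ^ 2 * (3 * u ^ 3) := by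
      rw [mul_left_comm, hlu]
      norm_num
    rw [e5, e6, e8, e7]
    have h9 : (1 - 189 / 200 * u + u ^ 2) ^ 2 ≤ 1 - u * (1 / (4 / 5 + 3 / 5 * u))
        - u * (4 / 5 + 3 / 5 * u) ^ 2 + 4 * (u ^ 2 * (4 / 5 + 3 / 5 * u)) - 3 * u ^ 3 := by
      have h10 : u * (1 / (4 / 5 + 3 / 5 * u)) ≤ u * (5 / 4 - 15 / 16 * u + 45 / 64 * u ^ 2) :=
        mul_le_mul_of_nonneg_left hinv hu0.le
      have h11 : 0 ≤ u ^ 2 * (11379 / 40000 + 363 / 1600 * u - u ^ 2) := by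
        apply mul_nonneg (by positivity)
        nlinarith
      nlinarith
    have h12 := mul_le_mul_of_nonneg_left h9 (by positivity : 0 ≤ lam ^ 2)
    push_cast
    nlinarith
  -- the second term
  have hT2 : lam ^ 3 / 3 * ((1 - 52605 / 20000 * v ^ 2) ^ 3
      - 3 / 2 * (1 - 52605 / 20000 * v ^ 2) ^ 2 * v ^ 3
      + 1 / 2 * (1 - 52605 / 20000 * v ^ 2) * v ^ 6) ≤
      mt 4 (lam * YF (Real.pi * (32 / 25) / lam)) := by
    rw [← hu, ← hmp]
    have hb : (3 / 10 : ℝ) ≤ 1 - 52605 / 20000 * u := by linarith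
    rw [← mt_eq (n := 4) (by norm_num) (by norm_num; nlinarith)]
    apply mt_mono (by norm_num)
    apply mul_le_mul_of_nonneg_left _ hlam.le
    have h1 := YF_ge (z := Real.pi * (32 / 25) / lam) (by positivity)
    rw [B4_arg hv hlv (by norm_num), ← hK, ← hu] at h1
    refine le_trans ?_ h1
    have e : ((32 / 25 : ℝ) / (32 / 25)) ^ (2 / 3 : ℝ) = 1 := by
      rw [div_self (by norm_num), Real.one_rpow]
    rw [e]
    nlinarith
  have hfin := B4_poly hv hv1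
  have hP : 0 < lam ^ 3 / 3 := by positivity
  have hfin2 := mul_lt_mul_of_pos_left hfin hP
  have hC3' := mul_le_mul_of_nonneg_left hC3 hP.le
  rw [hval] at hint
  simp only [Finset.sum_range_succ, Finset.sum_range_zero, ha] at hint
  rw [hC2, mul_add]
  push_cast at hint
  rw [← hu, ← hW] at hfin2
  linarith

end Pool.Agent.PB86
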