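import Pool.Agent.PB86.YBound
import Pool.Agent.PB86.YInt
import Pool.Agent.PB86.MPoly

set_option autoImplicit false

open MeasureTheory Set Filter Topology
open scoped NNReal RealInnerProductSpace

namespace Pool.Agent.PB86

open Pool.Agent.H51.Neumann (E IsH1 IsNeumannSpectrum)

/-! Notation: `v = lam^(-1/3)`, `u = v^2`. `12 mp 5 (lam r) = lam^4 B5m v r`. -/

private noncomputable def B5m (v r : ℝ) : ℝ :=
  r ^ 4 - 2 * v ^ 3 * r ^ 3 + v ^ 6 * r ^ 2 / 2 + v ^ 9 * r / 2 - 3 / 16 * v ^ 12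

/-- the coefficients of `B5m v (1 - 21/8 v^2 t + 1323/4000 v^4 t^2)` as a polynomial in `t` -/
private noncomputable def B5c (v : ℝ) (k : ℕ) : ℝ :=
  match k with
  | 0 => (1) + (-2) * v ^ 3 + (1/2) * v ^ 6 + (1/2) * v ^ 9 + (-3/16) * v ^ 12
  | 1 => (-21/2) * v ^ 2 + (63/4) * v ^ 5 + (-21/8) * v ^ 8 + (-21/16) * v ^ 11
  | 2 => (170667/4000) * v ^ 4 + (-173313/4000) * v ^ 7 + (60417/16000) * v ^ 10 + (1323/8000) * v ^ 13
  | 3 => (-1324323/16000) * v ^ 6 + (1491021/32000) * v ^ 9 + (-27783/32000) * v ^ 12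
  | 4 => (4831102521/64000000) * v ^ 8 + (-229293099/16000000) * v ^ 11 + (1750329/32000000) * v ^ 14
  | 5 => (-1752079329/64000000) * v ^ 10 + (110270727/64000000) * v ^ 13
  | 6 => (298723399443/64000000000) * v ^ 12 + (-2315685267/32000000000) * v ^ 15
  | 7 => (-48629390607/128000000000) * v ^ 14
  | 8 => (3063651608241/256000000000000) * v ^ 16
  | _ => 0

private theorem B5m_eq (v t : ℝ) :
    B5m v (1 - 21 / 8 * v ^ 2 * t + 1323 / 4000 * v ^ 4 * t ^ 2) =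
      ∑ k ∈ Finset.range 9, B5c v k * t ^ k := by
  simp only [Finset.sum_range_succ, Finset.sum_range_zero, B5c, B5m]
  ring

private noncomputable def B5A (v : ℝ) : ℝ :=
  1 - 189 / 100 * v ^ 2 + 397 / 100 * v ^ 4 - 189 / 100 * v ^ 6

private noncomputable def B5phi (v : ℝ) : ℝ :=
  B5A v ^ 2 - v ^ 3 * B5A v * (1 + B5A v) + v ^ 6 * B5A v / 2 + v ^ 9 * B5A v / 2 - 3 / 16 * v ^ 12

private theorem B5_poly {v : ℝ} (h0 : 0 ≤ v) (h1 : v ≤ 51 / 100) :
    3 / 32 + 71 / 1000 * v ^ 3 + 32 / 25 * ∑ k ∈ Finset.range 9, B5c v k * (3 / (2 * (k : ℝ) + 3))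
      < B5phi v + 1 / 2 * B5m v (1 - 527 / 200 * v ^ 2) := by
  obtain ⟨w, hw⟩ : ∃ w, w = 51 / 100 - v := ⟨_, rfl⟩
  have hw0 : 0 ≤ w := by rw [hw]; linarith
  have key : B5phi v + 1 / 2 * B5m v (1 - 527 / 200 * v ^ 2) - (3 / 32 + 71 / 1000 * v ^ 3 +
      32 / 25 * ∑ k ∈ Finset.range 9, B5c v k * (3 / (2 * (k : ℝ) + 3))) = 7 / 100 +
      ((625000000000000000000000000000/232744972244366486271700089) * v ^ 0 * w ^ 16 + (10000000000000000000000000000000/232744972244366486271700089) * v ^ 1 * w ^ 15 + (72150460000000000000000000000000/232744972244366486271700089) * v ^ 2 * w ^ 14 + (309353277100000000000000000000000/232744972244366486271700089) * v ^ 3 * w ^ 13 + (291705948826445000000000000000000/77581657414788828757233363) * v ^ 4 * w ^ 12 + (1715192975447830000000000000000000/232744972244366486271700089) * v ^ 5 * w ^ 11 + (794290242922688648275000000000000/77581657414788828757233363) * v ^ 6 * w ^ 10 + (2375396952194517603485000000000000/232744972244366486271700089)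 * v ^ 7 * w ^ 9 + (6416743471711039134208051553125000/853398231562677116329566993) * v ^ 8 * w ^ 8 + (11887375256319976156617055362500000/2560194694688031348988700979) * v ^ 9 * w ^ 7 + (8054031644195898215515654968170000/2560194694688031348988700979) * v ^ 10 * w ^ 6 + (6217388034849944038982590354366400/2560194694688031348988700979) * v ^ 11 * w ^ 5 + (10183663738155637355079296542642609703/6400486736720078372471752447500) * v ^ 12 * w ^ 4 + (3346143003265558009775361428623532617/4622573754297834380118487878750) * v ^ 13 * w ^ 3 + (68986404505541455328911184277972691672451/332825310309444075368531127270000000) * v ^ 14 * w ^ 2 + (41969040636261752461251892680572290513573/1260701932990318467305042148750000000) * v ^ 15 * w ^ 1 + (287498798510760277521966003049553171849017810379/126473617917588748640041828362600000000000000) * v ^ 16 * w ^ 0) := by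
    simp only [Finset.sum_range_succ, Finset.sum_range_zero, B5c, B5m, B5phi, B5A]
    rw [hw]
    push_cast
    ring
  have hpos : 0 ≤ (625000000000000000000000000000/232744972244366486271700089) * v ^ 0 * w ^ 16 + (10000000000000000000000000000000/232744972244366486271700089) * v ^ 1 * w ^ 15 + (72150460000000000000000000000000/232744972244366486271700089) * v ^ 2 * w ^ 14 + (309353277100000000000000000000000/232744972244366486271700089) * v ^ 3 * w ^ 13 + (291705948826445000000000000000000/77581657414788828757233363) * v ^ 4 * w ^ 12 + (1715192975447830000000000000000000/232744972244366486271700089) * v ^ 5 * w ^ 11 + (794290242922688648275000000000000/77581657414788828757233363) * v ^ 6 * w ^ 10 + (2375396952194517603485000000000000/232744972244366486271700089) * v ^ 7 * w ^ 9 + (6416743471711039134208051553125000/853398231562677116329566993) * v ^ 8 * w ^ 8 + (11887375256319976156617055362500000/2560194694688031348988700979)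 * v ^ 9 * w ^ 7 + (8054031644195898215515654968170000/2560194694688031348988700979) * v ^ 10 * w ^ 6 + (6217388034849944038982590354366400/2560194694688031348988700979) * v ^ 11 * w ^ 5 + (10183663738155637355079296542642609703/6400486736720078372471752447500) * v ^ 12 * w ^ 4 + (3346143003265558009775361428623532617/4622573754297834380118487878750) * v ^ 13 * w ^ 3 + (68986404505541455328911184277972691672451/332825310309444075368531127270000000) * v ^ 14 * w ^ 2 + (41969040636261752461251892680572290513573/1260701932990318467305042148750000000) * v ^ 15 * w ^ 1 + (287498798510760277521966003049553171849017810379/126473617917588748640041828362600000000000000) * v ^ 16 * w ^ 0 := by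
    positivity
  linarith

private theorem B5_mp (ν : ℝ) : mp 5 ν = (ν ^ 4 - 2 * ν ^ 3 + ν ^ 2 / 2 + ν / 2 - 3 / 16) / 12 := by
  have h : (5 - 1 : ℕ).factorial = 24 := rfl
  unfold mp
  rw [h]
  simp only [show (5 - 2 : ℕ) = 3 from rfl, Finset.prod_range_succ, Finset.prod_range_zero]
  push_cast
  ring

private theorem B5_mp_mul {lam v : ℝ} (h : lam * v ^ 3 = 1) (r : ℝ) :
    mp 5 (lam * r) = lam ^ 4 / 12 * B5m v r := by
  rw [B5_mp, B5m]
  linear_combination (-lam ^ 3 * r ^ 3 / 6 + lam ^ 2 * r ^ 2 / 24 * (1 + lam * v ^ 3)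
    + lam * r / 24 * (1 + lam * v ^ 3 + (lam * v ^ 3) ^ 2)
    - 3 / 192 * (1 + lam * v ^ 3 + (lam * v ^ 3) ^ 2 + (lam * v ^ 3) ^ 3)) * (-h)

private theorem B5_mt_ge {lam v r x : ℝ} (h : lam * v ^ 3 = 1) (h1 : 3 / 2 ≤ lam * r)
    (h2 : lam * r ≤ x) : lam ^ 4 / 12 * B5m v r ≤ mt 5 x := by
  have h3 : ((5 : ℕ) : ℝ) / 2 - 1 ≤ lam * r := by push_cast; linarith
  rw [← B5_mp_mul h, ← mt_eq (by norm_num : 3 ≤ 5) h3]
  exact mt_mono (by norm_num) h2

private theorem B5_mt_le {lam v r x : ℝ} (h : lam * v ^ 3 = 1) (h1 : 3 / 2 ≤ lam * r)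
    (h2 : x ≤ lam * r) : mt 5 x ≤ lam ^ 4 / 12 * B5m v r := by
  have h3 : ((5 : ℕ) : ℝ) / 2 - 1 ≤ lam * r := by push_cast; linarith
  rw [← B5_mp_mul h, ← mt_eq (by norm_num : 3 ≤ 5) h3]
  exact mt_mono (by norm_num) h2

private theorem B5_rpow {σ : ℝ} (h : 0 ≤ σ) : (σ ^ (2 / 3 : ℝ)) ^ 3 = σ ^ 2 := by
  rw [← Real.rpow_natCast, ← Real.rpow_mul h]
  norm_num

/-- the size of `(3 z)^(2/3)` at `z = 32 π σ / (25 lam)` -/
private theorem B5_y {lam v σ : ℝ} (hlam : 0 < lam) (hv : 0 < v) (h : lam * v ^ 3 = 1)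
    (hσ : 0 ≤ σ) :
    21 / 4 * (v ^ 2 * σ ^ (2 / 3 : ℝ)) ≤ (3 * (Real.pi * (32 / 25 * σ) / lam)) ^ (2 / 3 : ℝ) ∧
    (3 * (Real.pi * (32 / 25 * σ) / lam)) ^ (2 / 3 : ℝ) ≤ 527 / 100 * (v ^ 2 * σ ^ (2 / 3 : ℝ)) := by
  have hpi1 := Real.pi_gt_d2
  have hpi2 := Real.pi_lt_d2
  have hl : lam = 1 / v ^ 3 := by
    field_simp
    linarith
  have hz : 0 ≤ 3 * (Real.pi * (32 / 25 * σ) / lam) := by positivity
  have h3 := B5_rpow hz
  have ht := B5_rpow hσ
  have e : (3 * (Real.pi * (32 / 25 * σ) / lam)) ^ 2 =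
      (96 / 25 * Real.pi) ^ 2 * (v ^ 2) ^ 3 * σ ^ 2 := by
    rw [hl]
    field_simp
    ring
  have hσ2 : 0 ≤ (v ^ 2) ^ 3 * σ ^ 2 := by positivity
  have hpp1 : (21 / 4 : ℝ) ^ 3 ≤ (96 / 25 * Real.pi) ^ 2 := by nlinarith
  have hpp2 : (96 / 25 * Real.pi) ^ 2 ≤ (527 / 100 : ℝ) ^ 3 := by nlinarith
  have ht0 : 0 ≤ σ ^ (2 / 3 : ℝ) := Real.rpow_nonneg hσ _
  have hy0 : 0 ≤ (3 * (Real.pi * (32 / 25 * σ) / lam)) ^ (2 / 3 : ℝ) := Real.rpow_nonneg hz _
  constructor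
  · rw [← pow_le_pow_iff_left₀ (by positivity) hy0 (three_ne_zero), h3, e]
    calc (21 / 4 * (v ^ 2 * σ ^ (2 / 3 : ℝ))) ^ 3 = (21 / 4) ^ 3 * ((v ^ 2) ^ 3 * σ ^ 2) := by
          rw [← ht]; ring
      _ ≤ (96 / 25 * Real.pi) ^ 2 * ((v ^ 2) ^ 3 * σ ^ 2) := mul_le_mul_of_nonneg_right hpp1 hσ2
      _ = _ := by ring
  · rw [← pow_le_pow_iff_left₀ hy0 (by positivity) (three_ne_zero), h3, e]
    calc (96 / 25 * Real.pi) ^ 2 * (v ^ 2) ^ 3 * σ ^ 2
        = (96 / 25 * Real.pi) ^ 2 * ((v ^ 2) ^ 3 * σ ^ 2) := by ring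
      _ ≤ (527 / 100) ^ 3 * ((v ^ 2) ^ 3 * σ ^ 2) := mul_le_mul_of_nonneg_right hpp2 hσ2
      _ = _ := by rw [← ht]; ring

private theorem B5_int (c : ℕ → ℝ) (n : ℕ) :
    ∫ σ in (0 : ℝ)..1, ∑ k ∈ Finset.range n, c k * (σ ^ (2 / 3 : ℝ)) ^ k =
      ∑ k ∈ Finset.range n, c k * (3 / (2 * (k : ℝ) + 3)) := by
  have hcont : Continuous fun σ : ℝ => σ ^ (2 / 3 : ℝ) :=
    Real.continuous_rpow_const (by norm_num)
  rw [intervalIntegral.integral_finsetSum]
  · refine Finset.sum_congr rfl fun k _ => ?_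
    rw [intervalIntegral.integral_const_mul]
    congr 1
    have h1 : ∫ σ in (0 : ℝ)..1, (σ ^ (2 / 3 : ℝ)) ^ k = ∫ σ in (0 : ℝ)..1, σ ^ (2 / 3 * (k : ℝ)) := by
      refine intervalIntegral.integral_congr fun σ hσ => ?_
      rw [uIcc_of_le zero_le_one] at hσ
      rw [Real.rpow_mul hσ.1, Real.rpow_natCast]
    have hk : (0 : ℝ) ≤ k := Nat.cast_nonneg k
    rw [h1, integral_rpow (Or.inl (by linarith))]
    rw [Real.one_rpow, Real.zero_rpow (by positivity)]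
    field_simp
    ring
  · intro k _
    exact ((hcont.pow k).const_mul _).intervalIntegrable _ _

private theorem B5_Cc4 : Cc 4 = 3 / 16 * Real.pi := by
  have h1 := Cc_rec 2
  have h2 := Cc_rec 0
  norm_num at h1 h2
  rw [h1, h2, Cc_zero]
  ring

private theorem B5_Cc3 : Cc 3 = 2 / 3 := by
  have h1 := Cc_rec 1
  norm_num at h1
  rw [h1, Cc_one]
  norm_num

/-- the integral term -/
private theorem B5_T3 {lam v : ℝ} (hlam : 0 < lam) (hv : 0 < v) (h : lam * v ^ 3 = 1)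
    (hv1 : v ≤ 51 / 100) (hl : 15 / 2 ≤ lam) :
    ∫ g in (0 : ℝ)..(32 / 25), mt 5 (lam * YF (Real.pi * g / lam)) ≤
      lam ^ 4 / 12 * (32 / 25 * ∑ k ∈ Finset.range 9, B5c v k * (3 / (2 * (k : ℝ) + 3))) := by
  have hsub := intervalIntegral.integral_comp_mul_left (a := 0) (b := 1)
    (fun g => mt 5 (lam * YF (Real.pi * g / lam))) (show (32 / 25 : ℝ) ≠ 0 by norm_num)
  rw [mul_zero, mul_one, smul_eq_mul] at hsub
  have e1 : ∫ g in (0 : ℝ)..(32 / 25), mt 5 (lam * YF (Real.pi * g / lam)) =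
      32 / 25 * ∫ σ in (0 : ℝ)..1, mt 5 (lam * YF (Real.pi * (32 / 25 * σ) / lam)) := by
    rw [hsub]
    ring
  have hu : v ^ 2 ≤ 2601 / 10000 := by nlinarith
  have hu0 : 0 ≤ v ^ 2 := by positivity
  have hcont : Continuous fun σ : ℝ => σ ^ (2 / 3 : ℝ) :=
    Real.continuous_rpow_const (by norm_num)
  have hmain : ∫ σ in (0 : ℝ)..1, mt 5 (lam * YF (Real.pi * (32 / 25 * σ) / lam)) ≤
      ∫ σ in (0 : ℝ)..1, lam ^ 4 / 12 * ∑ k ∈ Finset.range 9, B5c v k * (σ ^ (2 / 3 : ℝ)) ^ k := by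
    apply intervalIntegral.integral_mono_on zero_le_one
    · apply Continuous.intervalIntegrable
      apply (mt_cont (by norm_num)).comp
      apply continuous_const.mul
      apply YF_cont.comp
      fun_prop
    · apply Continuous.intervalIntegrable
      apply continuous_const.mul
      exact continuous_finsetSum _ fun k _ => (hcont.pow k).const_mul _
    · intro σ hσ
      rw [← B5m_eq]
      have hs0 := hσ.1
      have ht0 : 0 ≤ σ ^ (2 / 3 : ℝ) := Real.rpow_nonneg hs0 _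
      have ht1 : σ ^ (2 / 3 : ℝ) ≤ 1 := Real.rpow_le_one hs0 hσ.2 (by norm_num)
      obtain ⟨t, ht⟩ : ∃ t, t = σ ^ (2 / 3 : ℝ) := ⟨_, rfl⟩
      obtain ⟨hy1, hy2⟩ := B5_y hlam hv h hs0
      obtain ⟨y, hy⟩ : ∃ y, y = (3 * (Real.pi * (32 / 25 * σ) / lam)) ^ (2 / 3 : ℝ) := ⟨_, rfl⟩
      have hz0 : 0 ≤ Real.pi * (32 / 25 * σ) / lam := by
        have := Real.pi_pos
        positivity
      have hz1 : Real.pi * (32 / 25 * σ) / lam ≤ 1 := by
        rw [div_le_one hlam]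
        have := Real.pi_lt_d2
        have := Real.pi_pos
        nlinarith [hσ.2]
      have hq := YF_le_quad hz0 hz1
      rw [← hy] at hq hy1 hy2
      rw [← ht] at hy1 hy2 ht0 ht1 ⊢
      have ha0 : 0 ≤ v ^ 2 * t := mul_nonneg hu0 ht0
      have ha1 : v ^ 2 * t ≤ 2601 / 10000 := by nlinarith
      apply B5_mt_le h
      · nlinarith [sq_nonneg (v ^ 2 * t)]
      · apply mul_le_mul_of_nonneg_left _ hlam.le
        refine hq.trans ?_
        nlinarith [mul_nonneg (sub_nonneg.2 hy1) (by nlinarith :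
          (0 : ℝ) ≤ 1 / 2 - 3 / 250 * (y + 21 / 4 * (v ^ 2 * t)))]
  rw [intervalIntegral.integral_const_mul, B5_int] at hmain
  rw [e1]
  nlinarith

private theorem B5_rad {lam v : ℝ} (hv : 0 < v) (hv6 : lam ^ 2 * v ^ 6 = 1) :
    lam ^ 2 * B5A v ≤ lam ^ 2 - lam ^ 2 / (4 / 5 * (1 + v ^ 2) / v ^ 2)
      - (4 / 5 * (1 + v ^ 2) / v ^ 2) ^ 2 + 5 * (4 / 5 * (1 + v ^ 2) / v ^ 2) - (5 - 1) := by
  have hu0 : 0 < v ^ 2 := by positivity
  have hA : B5A v = 1 - 189 / 100 * v ^ 2 + 397 / 100 * (v ^ 2) ^ 2 - 189 / 100 * (v ^ 2) ^ 3 := by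
    unfold B5A
    ring
  have hu1 : 0 < 1 + v ^ 2 := by positivity
  have e : lam ^ 2 = 1 / v ^ 6 := by
    field_simp
    linarith
  have hk : 5 / 4 / (1 + v ^ 2) ≤ 5 / 4 * (1 - v ^ 2 + (v ^ 2) ^ 2) := by
    rw [div_le_iff₀ hu1]
    nlinarith [pow_pos hu0 3]
  have e2 : lam ^ 2 - lam ^ 2 / (4 / 5 * (1 + v ^ 2) / v ^ 2)
    - (4 / 5 * (1 + v ^ 2) / v ^ 2) ^ 2 + 5 * (4 / 5 * (1 + v ^ 2) / v ^ 2)
    - (5 - 1) = 1 / v ^ 6 * (1 - v ^ 2 * (5 / 4 / (1 + v ^ 2)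
      + (4 / 5 - 1 / 5 * v ^ 2) * (4 / 5 - 16 / 5 * v ^ 2))) := by
    rw [e]
    field_simp
    ring
  rw [e2, e]
  apply mul_le_mul_of_nonneg_left _ (by positivity)
  rw [hA]
  nlinarith [mul_le_mul_of_nonneg_left hk hu0.le]

private theorem B5_T1 {lam v x : ℝ} (hv : 0 < v) (hv3 : lam * v ^ 3 = 1) (hv1 : v ≤ 51 / 100)
    (hl : 15 / 2 ≤ lam) (hx : lam ^ 2 * B5A v ≤ x) :
    lam ^ 4 / 12 * B5phi v ≤ mt 5 (Real.sqrt x) := by
  have hu : v ^ 2 ≤ 2601 / 10000 := by nlinarith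
  have hu0 : 0 < v ^ 2 := by positivity
  have hA : B5A v = 1 - 189 / 100 * v ^ 2 + 397 / 100 * (v ^ 2) ^ 2 - 189 / 100 * (v ^ 2) ^ 3 := by
    unfold B5A
    ring
  have hA1 : 1 / 2 ≤ B5A v := by
    rw [hA]
    nlinarith [sq_nonneg (v ^ 2), mul_nonneg (sq_nonneg (v ^ 2)) (sub_nonneg.2 hu)]
  have hA2 : B5A v ≤ 1 := by
    rw [hA]
    nlinarith [mul_nonneg hu0.le (sub_nonneg.2 hu), mul_nonneg hu0.le (sq_nonneg (v ^ 2))]
  have hr0 : 0 ≤ B5A v := by linarith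
  obtain ⟨r, hr⟩ : ∃ r, r = Real.sqrt (B5A v) := ⟨_, rfl⟩
  have hrr : r ^ 2 = B5A v := by rw [hr, Real.sq_sqrt hr0]
  have hrn : 0 ≤ r := by rw [hr]; exact Real.sqrt_nonneg _
  have hr1 : r ≤ 1 := by nlinarith
  have hrA : B5A v ≤ r := by nlinarith
  have hrA2 : 2 * r ≤ 1 + B5A v := by nlinarith [sq_nonneg (1 - r)]
  have h1 : lam ^ 4 / 12 * B5m v r ≤ mt 5 (Real.sqrt x) := by
    apply B5_mt_ge hv3
    · nlinarith
    · apply Real.le_sqrt_of_sq_le
      rw [mul_pow, hrr]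
      exact hx
  refine le_trans ?_ h1
  apply mul_le_mul_of_nonneg_left _ (by positivity)
  have e3 : B5m v r - B5phi v = v ^ 3 * (B5A v * (1 + B5A v - 2 * r))
      + v ^ 9 / 2 * (r - B5A v) := by
    unfold B5m B5phi
    rw [← hrr]
    ring
  have h2 : 0 ≤ v ^ 3 * (B5A v * (1 + B5A v - 2 * r)) :=
    mul_nonneg (by positivity) (mul_nonneg hr0 (by linarith))
  have h3 : 0 ≤ v ^ 9 / 2 * (r - B5A v) := mul_nonneg (by positivity) (by linarith)
  linarith

private theorem B5_T2 {lam v : ℝ} (hlam : 0 < lam) (hv : 0 < v) (hv3 : lam * v ^ 3 = 1)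
    (hv1 : v ≤ 51 / 100) (hl : 15 / 2 ≤ lam) :
    lam ^ 4 / 12 * B5m v (1 - 527 / 200 * v ^ 2) ≤
      mt 5 (lam * YF (Real.pi * (32 / 25) / lam)) := by
  have hu : v ^ 2 ≤ 2601 / 10000 := by nlinarith
  have hpi := Real.pi_pos
  apply B5_mt_ge hv3
  · nlinarith
  · apply mul_le_mul_of_nonneg_left _ hlam.le
    obtain ⟨-, hy2⟩ := B5_y hlam hv hv3 zero_le_one
    rw [mul_one, Real.one_rpow, mul_one] at hy2
    have h2 := YF_ge (show 0 ≤ Real.pi * (32 / 25) / lam by positivity)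
    linarith

private theorem B5_W {lam v : ℝ} (hlam : 0 < lam) (hv : 0 < v) (hv3 : lam * v ^ 3 = 1) :
    pp 5 lam * (Cc (5 - 1) / (2 * Real.pi)
      + (5 - 1) * (5 - 3) * Cc (5 - 2) / (24 * Real.pi * lam)) ≤
      lam ^ 4 / 12 * (3 / 32 + 71 / 1000 * v ^ 3) := by
  have hpi := Real.pi_pos
  have hpp : pp 5 lam = lam ^ 4 / 12 := by
    have h : (5 - 1 : ℕ).factorial = 24 := rfl
    unfold pp
    rw [h]
    push_cast
    ring
  rw [hpp]
  apply mul_le_mul_of_nonneg_left _ (by positivity)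
  rw [show (5 - 1 : ℕ) = 4 from rfl, show (5 - 2 : ℕ) = 3 from rfl, B5_Cc4, B5_Cc3]
  have hl' : lam = 1 / v ^ 3 := by
    field_simp
    linarith
  have e4 : 3 / 16 * Real.pi / (2 * Real.pi)
    + ((5 : ℝ) - 1) * ((5 : ℝ) - 3) * (2 / 3) / (24 * Real.pi * lam) =
      3 / 32 + 2 / 9 / Real.pi * v ^ 3 := by
    rw [hl']
    field_simp
    ring
  rw [e4]
  have h5 : 2 / 9 / Real.pi ≤ 71 / 1000 := by
    rw [div_le_iff₀ hpi]
    have := Real.pi_gt_d2
    linarith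
  have h6 : 0 ≤ v ^ 3 := by positivity
  nlinarith

theorem II_five {lam : ℝ} (hlam : 0 < lam) (h : 287 / 5 ≤ lam ^ 2) :
    ∃ X, 1 < X ∧ II 5 lam X := by
  have hl : 15 / 2 ≤ lam := by nlinarith
  obtain ⟨v, hvdef⟩ : ∃ v, v = lam ^ (-(1 / 3) : ℝ) := ⟨_, rfl⟩
  have hv : 0 < v := by rw [hvdef]; positivity
  have hv3 : lam * v ^ 3 = 1 := by
    rw [hvdef, ← Real.rpow_natCast, ← Real.rpow_mul hlam.le]
    norm_num
    rw [Real.rpow_neg_one, mul_inv_cancel₀ hlam.ne']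
  have hv6 : lam ^ 2 * v ^ 6 = 1 := by
    calc lam ^ 2 * v ^ 6 = (lam * v ^ 3) ^ 2 := by ring
      _ = 1 := by rw [hv3]; norm_num
  have hv1 : v ≤ 51 / 100 := by
    rw [← pow_le_pow_iff_left₀ hv.le (by norm_num) (show (6 : ℕ) ≠ 0 by norm_num)]
    have h6 : 0 ≤ v ^ 6 := by positivity
    nlinarith
  have hu : v ^ 2 ≤ 2601 / 10000 := by nlinarith
  have hu0 : 0 < v ^ 2 := by positivity
  -- the trial parameter
  refine ⟨4 / 5 * (1 + v ^ 2) / v ^ 2, ?_, ?_⟩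
  · rw [lt_div_iff₀ hu0]
    nlinarith
  unfold II
  have hT1 := B5_T1 hv hv3 hv1 hl (B5_rad hv hv6)
  have hT2 := B5_T2 hlam hv hv3 hv1 hl
  have hT3 := B5_T3 hlam hv hv3 hv1 hl
  have hW := B5_W hlam hv hv3
  have hfin := mul_lt_mul_of_pos_left (B5_poly hv.le hv1) (show 0 < lam ^ 4 / 12 by positivity)
  rw [show ((5 : ℕ) : ℝ) = 5 by norm_num]
  linarith

end Pool.Agent.PB86
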