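import Pool.Agent.PB86.YBound
import Pool.Agent.PB86.YInt
import Pool.Agent.PB86.MPoly

/-!
# The counting inequality (II) for `n = 6`

`v = lam^(-1/3)`, `X = 1 + (4/5) / v^2`. After division by `lam^5 / 60` everything becomes a polynomial in
`v`; on `[0, 2/3]` it has positive Bernstein coefficients.
-/

set_option autoImplicit false

open MeasureTheory Set Filter Topology
open scoped NNReal RealInnerProductSpace

namespace Pool.Agent.PB86

open Pool.Agent.H51.Neumann (E IsH1 IsNeumannSpectrum)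

/-- `mp 6 (lam b) / (lam^5 / 60)` for `v^3 = 1 / lam` -/
noncomputable def B6_R (b v : ℝ) : ℝ := b * (b - v ^ 3 / 2) * (b - 2 * v ^ 3) * (b ^ 2 - v ^ 6)

/-- upper bound for `YF` in terms of `τ` -/
noncomputable def B6_q (v τ : ℝ) : ℝ :=
  1 - (21 / 4 * v ^ 2 * τ) / 2 + 3 / 250 * (21 / 4 * v ^ 2 * τ) ^ 2

/-- coefficients (in `τ = σ^(2/3)`) of `q^5 - 5/2 v^3 q^4 + v^6 q^3` -/
noncomputable def B6_a (v : ℝ) : ℕ → ℝ
  | 0 => (1) * v ^ 0 + (-5/2) * v ^ 3 + (1) * v ^ 6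
  | 1 => (-105/8) * v ^ 2 + (105/4) * v ^ 5 + (-63/8) * v ^ 8
  | 2 => (1764/25) * v ^ 4 + (-170667/1600) * v ^ 7 + (173313/8000) * v ^ 10
  | 3 => (-1268757/6400) * v ^ 6 + (1324323/6400) * v ^ 9 + (-1491021/64000) * v ^ 12
  | 4 => (3927932757/12800000) * v ^ 8 + (-4831102521/25600000) * v ^ 11 + (229293099/32000000) * v ^ 14
  | 5 => (-25897284441/102400000) * v ^ 10 + (1752079329/25600000) * v ^ 13 + (-110270727/128000000) * v ^ 16
  | 6 => (5196655037511/51200000000) * v ^ 12 + (-298723399443/25600000000) * v ^ 15 + (2315685267/64000000000) * v ^ 18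
  | 7 => (-2220742171053/102400000000) * v ^ 14 + (48629390607/51200000000) * v ^ 17
  | 8 => (1021217202747/400000000000) * v ^ 16 + (-3063651608241/102400000000000) * v ^ 19
  | 9 => (-64336683773061/409600000000000) * v ^ 18
  | 10 => (4053211077702843/1024000000000000000) * v ^ 20
  | _ => 0

theorem B6_poly_t (t : ℝ) (h0 : 0 ≤ t) (h1 : t ≤ 1) :
    85 / 1000 + 15 / 128 * (2 / 3 * t) ^ 3 +
      32 / 25 * (∑ k ∈ Finset.range 11, B6_a (2 / 3 * t) k * (3 / (2 * (k : ℝ) + 3))) <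
    B6_R (1 - 19 / 20 * (2 / 3 * t) ^ 2 + 9 / 5 * (2 / 3 * t) ^ 4) (2 / 3 * t) +
      1 / 2 * B6_R (1 - 66 / 25 * (2 / 3 * t) ^ 2) (2 / 3 * t) := by
  have key : B6_R (1 - 19 / 20 * (2 / 3 * t) ^ 2 + 9 / 5 * (2 / 3 * t) ^ 4) (2 / 3 * t) +
      1 / 2 * B6_R (1 - 66 / 25 * (2 / 3 * t) ^ 2) (2 / 3 * t) -
      (85 / 1000 + 15 / 128 * (2 / 3 * t) ^ 3 +
      32 / 25 * (∑ k ∈ Finset.range 11, B6_a (2 / 3 * t) k * (3 / (2 * (k : ℝ) + 3)))) =
      (27/200) * t ^ 0 * (1 - t) ^ 20 +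
      (27/10) * t ^ 1 * (1 - t) ^ 19 +
      (22577/900) * t ^ 2 * (1 - t) ^ 18 +
      (1550257/10800) * t ^ 3 * (1 - t) ^ 17 +
      (459393553/810000) * t ^ 4 * (1 - t) ^ 16 +
      (501392093/303750) * t ^ 5 * (1 - t) ^ 15 +
      (16891179557/4556250) * t ^ 6 * (1 - t) ^ 14 +
      (20338835567/3037500) * t ^ 7 * (1 - t) ^ 13 +
      (57076544990096/5638359375) * t ^ 8 * (1 - t) ^ 12 +
      (447747858263087/33830156250) * t ^ 9 * (1 - t) ^ 11 +
      (113596326901991644/7496455078125) * t ^ 10 * (1 - t) ^ 10 +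
      (5931610201534685857/395812828125000) * t ^ 11 * (1 - t) ^ 9 +
      (122821760037670295447/9895320703125000) * t ^ 12 * (1 - t) ^ 8 +
      (185195572945059846721/22264471582031250) * t ^ 13 * (1 - t) ^ 7 +
      (4961314707498747237701/1135488050683593750) * t ^ 14 * (1 - t) ^ 6 +
      (48969847315652338883/28036741992187500) * t ^ 15 * (1 - t) ^ 5 +
      (1112614513586039993130313/2157427296298828125000) * t ^ 16 * (1 - t) ^ 4 +
      (29372690520164560263319/269678412037353515625) * t ^ 17 * (1 - t) ^ 3 +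
      (5687561115768984842209/359571216049804687500) * t ^ 18 * (1 - t) ^ 2 +
      (6258166814454562869731/4314854592597656250000) * t ^ 19 * (1 - t) ^ 1 +
      (1242753116540374123749517/20675344922863769531250000) * t ^ 20 * (1 - t) ^ 0 := by
    simp only [Finset.sum_range_succ, Finset.sum_range_zero, B6_a, B6_R]
    push_cast
    ring
  have h2 : 0 ≤ 1 - t := by linarith
  have pos : 0 < (27/200) * t ^ 0 * (1 - t) ^ 20 +
      (27/10) * t ^ 1 * (1 - t) ^ 19 +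
      (22577/900) * t ^ 2 * (1 - t) ^ 18 +
      (1550257/10800) * t ^ 3 * (1 - t) ^ 17 +
      (459393553/810000) * t ^ 4 * (1 - t) ^ 16 +
      (501392093/303750) * t ^ 5 * (1 - t) ^ 15 +
      (16891179557/4556250) * t ^ 6 * (1 - t) ^ 14 +
      (20338835567/3037500) * t ^ 7 * (1 - t) ^ 13 +
      (57076544990096/5638359375) * t ^ 8 * (1 - t) ^ 12 +
      (447747858263087/33830156250) * t ^ 9 * (1 - t) ^ 11 +
      (113596326901991644/7496455078125) * t ^ 10 * (1 - t) ^ 10 +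
      (5931610201534685857/395812828125000) * t ^ 11 * (1 - t) ^ 9 +
      (122821760037670295447/9895320703125000) * t ^ 12 * (1 - t) ^ 8 +
      (185195572945059846721/22264471582031250) * t ^ 13 * (1 - t) ^ 7 +
      (4961314707498747237701/1135488050683593750) * t ^ 14 * (1 - t) ^ 6 +
      (48969847315652338883/28036741992187500) * t ^ 15 * (1 - t) ^ 5 +
      (1112614513586039993130313/2157427296298828125000) * t ^ 16 * (1 - t) ^ 4 +
      (29372690520164560263319/269678412037353515625) * t ^ 17 * (1 - t) ^ 3 +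
      (5687561115768984842209/359571216049804687500) * t ^ 18 * (1 - t) ^ 2 +
      (6258166814454562869731/4314854592597656250000) * t ^ 19 * (1 - t) ^ 1 +
      (1242753116540374123749517/20675344922863769531250000) * t ^ 20 * (1 - t) ^ 0 := by
    rcases eq_or_lt_of_le h0 with h | h
    · rw [← h]; norm_num
    · positivity
  linarith

theorem B6_poly (v : ℝ) (h0 : 0 ≤ v) (h1 : v ≤ 63 / 125) :
    85 / 1000 + 15 / 128 * v ^ 3 +
      32 / 25 * (∑ k ∈ Finset.range 11, B6_a v k * (3 / (2 * (k : ℝ) + 3))) <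
    B6_R (1 - 19 / 20 * v ^ 2 + 9 / 5 * v ^ 4) v +
      1 / 2 * B6_R (1 - 66 / 25 * v ^ 2) v := by
  have h := B6_poly_t (3 / 2 * v) (by linarith) (by linarith)
  have e : 2 / 3 * (3 / 2 * v) = v := by ring
  rwa [e] at h

theorem B6_mp {lam v : ℝ} (hlam : 0 < lam) (hv : v ^ 3 = 1 / lam) (b : ℝ) :
    mp 6 (lam * b) = lam ^ 5 / 60 * B6_R b v := by
  have hv6 : v ^ 6 = (1 / lam) ^ 2 := by rw [← hv]; ring
  have hf : ((6 - 1 : ℕ).factorial : ℝ) = 120 := by norm_num [Nat.factorial]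
  unfold mp B6_R
  rw [hv6, hv, hf]
  simp only [show 6 - 2 = 4 from rfl, Finset.prod_range_succ, Finset.prod_range_zero]
  push_cast
  field_simp
  ring

/-- `∫_0^1` of a polynomial in `σ^(2/3)` -/
theorem B6_int (a : ℕ → ℝ) (m : ℕ) :
    ∫ σ in (0 : ℝ)..1, (∑ k ∈ Finset.range m, a k * (σ ^ (2 / 3 : ℝ)) ^ k) =
      ∑ k ∈ Finset.range m, a k * (3 / (2 * (k : ℝ) + 3)) := by
  have hc : ∀ k : ℕ, Continuous fun σ : ℝ => (σ ^ (2 / 3 : ℝ)) ^ k := fun k =>
    (Real.continuous_rpow_const (by norm_num)).pow k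
  rw [intervalIntegral.integral_finsetSum]
  · apply Finset.sum_congr rfl
    intro k _
    rw [intervalIntegral.integral_const_mul]
    congr 1
    have h1 : ∫ σ in (0 : ℝ)..1, (σ ^ (2 / 3 : ℝ)) ^ k =
        ∫ σ in (0 : ℝ)..1, σ ^ (2 / 3 * (k : ℝ)) := by
      apply intervalIntegral.integral_congr
      intro σ hσ
      rw [uIcc_of_le (by norm_num : (0 : ℝ) ≤ 1)] at hσ
      show (σ ^ (2 / 3 : ℝ)) ^ k = σ ^ (2 / 3 * (k : ℝ))
      rw [Real.rpow_mul hσ.1, Real.rpow_natCast]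
    have hk : (0 : ℝ) ≤ k := Nat.cast_nonneg k
    rw [h1, integral_rpow (Or.inl (by linarith))]
    rw [Real.one_rpow, Real.zero_rpow (by linarith)]
    field_simp
    ring
  · intro k _
    exact ((hc k).const_mul (a k)).intervalIntegrable 0 1

theorem B6_sum (v τ : ℝ) :
    B6_q v τ ^ 5 - 5 / 2 * v ^ 3 * B6_q v τ ^ 4 + v ^ 6 * B6_q v τ ^ 3 =
      ∑ k ∈ Finset.range 11, B6_a v k * τ ^ k := by
  simp only [Finset.sum_range_succ, Finset.sum_range_zero, B6_a, B6_q]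
  ring

theorem B6_Cc5 : Cc 5 = 8 / 15 := by
  have h1 := Cc_rec 1
  have h3 := Cc_rec 3
  rw [Cc_one] at h1
  norm_num at h1 h3
  rw [h3, h1]
  norm_num

theorem B6_Cc4 : Cc 4 = 3 * Real.pi / 16 := by
  have h0 := Cc_rec 0
  have h2 := Cc_rec 2
  rw [Cc_zero] at h0
  norm_num at h0 h2
  rw [h2, h0]
  ring

theorem B6_two_le {lam v b : ℝ} (hlam : 0 < lam) (hv : v ^ 3 = 1 / lam) (hb : 2 * v ^ 3 ≤ b) :
    2 ≤ lam * b := by
  have h1 : lam * v ^ 3 = 1 := by rw [hv]; field_simp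
  nlinarith

theorem B6_mt {lam v b : ℝ} (hlam : 0 < lam) (hv : v ^ 3 = 1 / lam) (hb : 2 * v ^ 3 ≤ b) :
    mt 6 (lam * b) = lam ^ 5 / 60 * B6_R b v := by
  rw [mt_eq (by norm_num) (by have := B6_two_le hlam hv hb; norm_num; linarith), B6_mp hlam hv]

/-- the constant `(3 π 32/25)^(2/3)` -/
theorem B6_const : (21 / 4 : ℝ) ≤ (3 * (Real.pi * (32 / 25))) ^ (2 / 3 : ℝ) ∧
    (3 * (Real.pi * (32 / 25))) ^ (2 / 3 : ℝ) ≤ 132 / 25 := by
  have hp := Real.pi_gt_d4
  have hp' := Real.pi_lt_d4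
  set A : ℝ := 3 * (Real.pi * (32 / 25)) with hA
  have hA0 : 0 < A := by rw [hA]; positivity
  have h3 : (A ^ (2 / 3 : ℝ)) ^ 3 = A ^ 2 := by
    rw [← Real.rpow_natCast (A ^ (2 / 3 : ℝ)) 3, ← Real.rpow_mul hA0.le,
      ← Real.rpow_natCast A 2]
    norm_num
  have hx0 : 0 ≤ A ^ (2 / 3 : ℝ) := Real.rpow_nonneg hA0.le _
  constructor
  · apply le_of_pow_le_pow_left₀ (n := 3) (by norm_num) hx0
    rw [h3, hA]
    nlinarith
  · apply le_of_pow_le_pow_left₀ (n := 3) (by norm_num) (by norm_num)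
    rw [h3, hA]
    nlinarith

set_option maxHeartbeats 2000000 in
theorem II_six {lam : ℝ} (hlam : 0 < lam) (h : 184 / 3 ≤ lam ^ 2) :
    ∃ X, 1 < X ∧ II 6 lam X := by
  have hp := Real.pi_gt_d4
  have hp' := Real.pi_lt_d4
  -- the variable `v`
  obtain ⟨v, hv0, hv⟩ : ∃ v : ℝ, 0 < v ∧ v ^ 3 = 1 / lam := by
    refine ⟨lam ^ (-(1 / 3) : ℝ), Real.rpow_pos_of_pos hlam _, ?_⟩
    rw [← Real.rpow_natCast, ← Real.rpow_mul hlam.le]
    norm_num [Real.rpow_neg_one]
  have hlv : lam * v ^ 3 = 1 := by rw [hv]; field_simp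
  have hv6 : v ^ 6 * lam ^ 2 = 1 := by
    have : v ^ 6 * lam ^ 2 = (lam * v ^ 3) ^ 2 := by ring
    rw [this, hlv]; norm_num
  have hv1 : v ≤ 63 / 125 := by
    by_contra hcon
    push Not at hcon
    have h1 : (63 / 125 : ℝ) ^ 6 < v ^ 6 := by gcongr
    have h2 : v ^ 6 * (184 / 3) ≤ 1 := by nlinarith [pow_pos hv0 6]
    norm_num at h1
    linarith
  have hv2 : v ^ 2 ≤ 3969 / 15625 := by
    have := mul_le_mul hv1 hv1 hv0.le (by norm_num)
    nlinarith
  have hv3 : v ^ 3 ≤ 32 / 249 := by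
    have h1 : v ^ 3 = v * v ^ 2 := by ring
    rw [h1]
    have := mul_le_mul hv1 hv2 (by positivity) (by norm_num)
    linarith
  have hv20 : 0 < v ^ 2 := by positivity
  have hv30 : 0 < v ^ 3 := by positivity
  have hv40 : 0 < v ^ 4 := by positivity
  have hl5 : 0 < lam ^ 5 / 60 := by positivity
  refine ⟨1 + 4 / 5 / v ^ 2, by linarith [div_pos (by norm_num : (0 : ℝ) < 4 / 5) hv20], ?_⟩
  unfold II
  -- first term
  have hA : pp 6 lam * (Cc (6 - 1) / (2 * Real.pi)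
      + (((6 : ℕ) : ℝ) - 1) * (((6 : ℕ) : ℝ) - 3) * Cc (6 - 2) / (24 * Real.pi * lam)) ≤
      lam ^ 5 / 60 * (85 / 1000 + 15 / 128 * v ^ 3) := by
    have h1 : pp 6 lam = lam ^ 5 / 60 := by
      unfold pp
      norm_num [Nat.factorial]
      ring
    rw [h1, show 6 - 1 = 5 from rfl, show 6 - 2 = 4 from rfl, B6_Cc5, B6_Cc4, hv]
    apply mul_le_mul_of_nonneg_left _ hl5.le
    have h2 : (((6 : ℕ) : ℝ) - 1) * (((6 : ℕ) : ℝ) - 3) * (3 * Real.pi / 16) /
        (24 * Real.pi * lam) = 15 / 128 * (1 / lam) := by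
      push_cast
      field_simp
      ring
    have h3 : (8 / 15 : ℝ) / (2 * Real.pi) ≤ 85 / 1000 := by
      rw [div_le_iff₀ (by positivity)]
      nlinarith
    rw [h2]
    linarith
  -- second term: the integral
  have hB : (∫ g in (0 : ℝ)..(32 / 25), mt 6 (lam * YF (Real.pi * g / lam))) ≤
      lam ^ 5 / 60 * (32 / 25 *
        (∑ k ∈ Finset.range 11, B6_a v k * (3 / (2 * (k : ℝ) + 3)))) := by
    have e1 : ∫ g in (0 : ℝ)..(32 / 25),
        (lam ^ 5 / 60 * ∑ k ∈ Finset.range 11, B6_a v k * ((g / (32 / 25)) ^ (2 / 3 : ℝ)) ^ k) =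
        lam ^ 5 / 60 * (32 / 25 *
        (∑ k ∈ Finset.range 11, B6_a v k * (3 / (2 * (k : ℝ) + 3)))) := by
      rw [intervalIntegral.integral_const_mul]
      congr 1
      rw [intervalIntegral.integral_comp_div
        (fun σ => ∑ k ∈ Finset.range 11, B6_a v k * (σ ^ (2 / 3 : ℝ)) ^ k)
        (by norm_num : (32 / 25 : ℝ) ≠ 0)]
      rw [zero_div, div_self (by norm_num : (32 / 25 : ℝ) ≠ 0), B6_int, smul_eq_mul]
    rw [← e1]
    apply intervalIntegral.integral_mono_on (by norm_num)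
    · apply Continuous.intervalIntegrable
      exact (mt_cont (by norm_num)).comp (continuous_const.mul (YF_cont.comp
        ((continuous_const.mul continuous_id).div_const _)))
    · apply Continuous.intervalIntegrable
      apply continuous_const.mul
      apply continuous_finsetSum
      intro k _
      apply continuous_const.mul
      exact ((Real.continuous_rpow_const (by norm_num)).comp (continuous_id.div_const _)).pow k
    · intro g hg
      set τ : ℝ := (g / (32 / 25)) ^ (2 / 3 : ℝ) with hτ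
      have hσ0 : 0 ≤ g / (32 / 25) := div_nonneg hg.1 (by norm_num)
      have hσ1 : g / (32 / 25) ≤ 1 := by
        rw [div_le_one (by norm_num)]; exact hg.2
      have hτ0 : 0 ≤ τ := Real.rpow_nonneg hσ0 _
      have hτ1 : τ ≤ 1 := Real.rpow_le_one hσ0 hσ1 (by norm_num)
      have hz0 : 0 ≤ Real.pi * g / lam :=
        div_nonneg (mul_nonneg Real.pi_pos.le hg.1) hlam.le
      have hz1 : Real.pi * g / lam ≤ 1 := by
        have e2 : Real.pi * g / lam = Real.pi * g * v ^ 3 := by rw [hv]; ring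
        rw [e2]
        have h1 : Real.pi * g ≤ 3.1416 * (32 / 25) :=
          mul_le_mul hp'.le hg.2 hg.1 (by norm_num)
        have h2 := mul_le_mul h1 hv3 hv30.le (by norm_num)
        norm_num at h2
        linarith
      have hu : (3 * (Real.pi * g / lam)) ^ (2 / 3 : ℝ) =
          (3 * (Real.pi * (32 / 25))) ^ (2 / 3 : ℝ) * v ^ 2 * τ := by
        have e3 : 3 * (Real.pi * g / lam) =
            3 * (Real.pi * (32 / 25)) * v ^ 3 * (g / (32 / 25)) := by
          rw [hv]; field_simp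
        rw [e3, Real.mul_rpow (by positivity) hσ0, Real.mul_rpow (by positivity) hv30.le, ← hτ]
        congr 2
        rw [← Real.rpow_natCast, ← Real.rpow_natCast, ← Real.rpow_mul hv0.le]
        norm_num
      set K : ℝ := (3 * (Real.pi * (32 / 25))) ^ (2 / 3 : ℝ) with hK
      have hK1 : 21 / 4 ≤ K := B6_const.1
      have hK2 : K ≤ 132 / 25 := B6_const.2
      have hq : YF (Real.pi * g / lam) ≤ B6_q v τ := by
        refine (YF_le_quad hz0 hz1).trans ?_
        rw [hu]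
        unfold B6_q
        have h1 : 21 / 4 * v ^ 2 * τ ≤ K * v ^ 2 * τ := by
          apply mul_le_mul_of_nonneg_right _ hτ0
          exact mul_le_mul_of_nonneg_right hK1 hv20.le
        have h2 : K * v ^ 2 * τ ≤ 4 := by
          have h3 : K * v ^ 2 ≤ 132 / 25 * (3969 / 15625) :=
            mul_le_mul hK2 hv2 hv20.le (by norm_num)
          have h4 := mul_le_mul h3 hτ1 hτ0 (by norm_num)
          norm_num at h4
          linarith
        have h0 : 0 ≤ 21 / 4 * v ^ 2 * τ := by positivity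
        nlinarith [mul_nonneg (sub_nonneg.2 h1) (sub_nonneg.2 h2),
          mul_nonneg (sub_nonneg.2 h1) h0]
      have hy : 21 / 4 * v ^ 2 * τ ≤ 21 / 4 * v ^ 2 := by
        have := mul_le_mul_of_nonneg_left hτ1 (by positivity : 0 ≤ 21 / 4 * v ^ 2)
        linarith
      have hq2 : 2 * v ^ 3 ≤ B6_q v τ := by
        unfold B6_q
        nlinarith [sq_nonneg (21 / 4 * v ^ 2 * τ)]
      have hq0 : 0 < B6_q v τ := by linarith
      refine (mt_mono (by norm_num) (mul_le_mul_of_nonneg_left hq hlam.le)).trans ?_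
      rw [B6_mt hlam hv hq2]
      apply mul_le_mul_of_nonneg_left _ hl5.le
      rw [← B6_sum]
      unfold B6_R
      set q : ℝ := B6_q v τ with hqd
      have h1 : 0 ≤ q - v ^ 3 / 2 := by linarith
      have h2 : 0 ≤ q - 2 * v ^ 3 := by linarith
      have h3 : 0 ≤ q * (q - v ^ 3 / 2) * (q - 2 * v ^ 3) :=
        mul_nonneg (mul_nonneg hq0.le h1) h2
      have h4 : 0 ≤ q * (q - v ^ 3 / 2) * (q - 2 * v ^ 3) * v ^ 6 :=
        mul_nonneg h3 (by positivity)
      have h5 : q ^ 5 - 5 / 2 * v ^ 3 * q ^ 4 + v ^ 6 * q ^ 3 -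
          q * (q - v ^ 3 / 2) * (q - 2 * v ^ 3) * (q ^ 2 - v ^ 6) =
          q * (q - v ^ 3 / 2) * (q - 2 * v ^ 3) * v ^ 6 := by ring
      linarith
  -- third term
  have hC : lam ^ 5 / 60 * B6_R (1 - 19 / 20 * v ^ 2 + 9 / 5 * v ^ 4) v ≤
      mt 6 (Real.sqrt (lam ^ 2 - lam ^ 2 / (1 + 4 / 5 / v ^ 2) - (1 + 4 / 5 / v ^ 2) ^ 2 +
        ((6 : ℕ) : ℝ) * (1 + 4 / 5 / v ^ 2) - (((6 : ℕ) : ℝ) - 1))) := by
    have hb : 2 * v ^ 3 ≤ 1 - 19 / 20 * v ^ 2 + 9 / 5 * v ^ 4 := by nlinarith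
    rw [← B6_mt hlam hv hb]
    apply mt_mono (by norm_num)
    apply Real.le_sqrt_of_sq_le
    have e1 : lam ^ 2 = 1 / v ^ 6 := by
      field_simp
      linarith
    have e2 : lam ^ 2 - lam ^ 2 / (1 + 4 / 5 / v ^ 2) - (1 + 4 / 5 / v ^ 2) ^ 2 +
        ((6 : ℕ) : ℝ) * (1 + 4 / 5 / v ^ 2) - (((6 : ℕ) : ℝ) - 1) =
        lam ^ 2 * (1 - v ^ 2 / (v ^ 2 + 4 / 5) - 16 / 25 * v ^ 2 + 16 / 5 * v ^ 4) := by
      rw [e1]
      push_cast
      have h1 : (v ^ 2 + 4 / 5) ≠ 0 := by positivity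
      field_simp
      ring
    rw [e2, mul_pow]
    apply mul_le_mul_of_nonneg_left _ (by positivity)
    have h1 : 0 < v ^ 2 + 4 / 5 := by positivity
    have e3 : 1 - v ^ 2 / (v ^ 2 + 4 / 5) - 16 / 25 * v ^ 2 + 16 / 5 * v ^ 4 =
        ((1 - 16 / 25 * v ^ 2 + 16 / 5 * v ^ 4) * (v ^ 2 + 4 / 5) - v ^ 2) /
          (v ^ 2 + 4 / 5) := by
      field_simp
      ring
    rw [e3, le_div_iff₀ h1]
    set u : ℝ := v ^ 2 with hu
    have hv4 : v ^ 4 = u ^ 2 := by rw [hu]; ring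
    rw [hv4]
    have hu3 : 0 < u ^ 3 := by positivity
    have hu4 : 0 < u ^ 4 := by positivity
    have h5 : u ^ 5 ≤ 1 / 3 * u ^ 3 := by
      have h6 : u ^ 2 ≤ 1 / 3 := by nlinarith
      nlinarith
    nlinarith [hv20, pow_pos hv20 2]
  -- fourth term
  have hD : lam ^ 5 / 60 * B6_R (1 - 66 / 25 * v ^ 2) v ≤
      mt 6 (lam * YF (Real.pi * (32 / 25) / lam)) := by
    have hb : 2 * v ^ 3 ≤ 1 - 66 / 25 * v ^ 2 := by nlinarith
    rw [← B6_mt hlam hv hb]
    apply mt_mono (by norm_num)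
    apply mul_le_mul_of_nonneg_left _ hlam.le
    have hz0 : 0 ≤ Real.pi * (32 / 25) / lam := by positivity
    refine le_trans ?_ (YF_ge hz0)
    have hu : (3 * (Real.pi * (32 / 25) / lam)) ^ (2 / 3 : ℝ) =
        (3 * (Real.pi * (32 / 25))) ^ (2 / 3 : ℝ) * v ^ 2 := by
      have e3 : 3 * (Real.pi * (32 / 25) / lam) = 3 * (Real.pi * (32 / 25)) * v ^ 3 := by
        rw [hv]; field_simp
      rw [e3, Real.mul_rpow (by positivity) hv30.le]
      congr 1
      rw [← Real.rpow_natCast, ← Real.rpow_natCast, ← Real.rpow_mul hv0.le]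
      norm_num
    rw [hu]
    have := mul_le_mul_of_nonneg_right B6_const.2 hv20.le
    linarith
  have hE := mul_lt_mul_of_pos_left (B6_poly v hv0.le hv1) hl5
  have hF : pp 6 lam * (Cc (6 - 1) / (2 * Real.pi)
      + (((6 : ℕ) : ℝ) - 1) * (((6 : ℕ) : ℝ) - 3) * Cc (6 - 2) / (24 * Real.pi * lam)) +
      (∫ g in (0 : ℝ)..(32 / 25), mt 6 (lam * YF (Real.pi * g / lam))) ≤
      lam ^ 5 / 60 * (85 / 1000 + 15 / 128 * v ^ 3 +
      32 / 25 * (∑ k ∈ Finset.range 11, B6_a v k * (3 / (2 * (k : ℝ) + 3)))) := by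
    refine (add_le_add hA hB).trans (le_of_eq ?_)
    ring
  refine lt_of_le_of_lt hF (hE.trans_le ?_)
  rw [mul_add]
  refine add_le_add hC ?_
  linarith

end Pool.Agent.PB86
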