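import Pool.Agent.PB86.YBound
import Pool.Agent.PB86.YInt
import Pool.Agent.PB86.MPoly
import Pool.Agent.PB86.BLnum

set_option autoImplicit false

open MeasureTheory Set Filter Topology
open scoped NNReal RealInnerProductSpace

namespace Pool.Agent.PB86

open Pool.Agent.H51.Neumann (E IsH1 IsNeumannSpectrum)

/-! ### Parameters -/

lemma BLarge_u {n : ℕ} (hn : 7 ≤ n) {lam : ℝ} (hlam : 0 < lam)
    (h : 64 / 125 * (n : ℝ) ^ 3 ≤ lam ^ 2) : ∃ u : ℝ, u = lam ^ (-(2 / 3 : ℝ)) ∧ 0 < u ∧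
      u ^ 3 * lam ^ 2 = 1 ∧ u * n ≤ 5 / 4 := by
  refine ⟨lam ^ (-(2 / 3 : ℝ)), rfl, Real.rpow_pos_of_pos hlam _, ?_, ?_⟩
  · rw [← Real.rpow_natCast (lam ^ (-(2 / 3 : ℝ))) 3, ← Real.rpow_mul hlam.le,
      ← Real.rpow_natCast lam 2, ← Real.rpow_add hlam]
    norm_num
  · have hu : 0 < lam ^ (-(2 / 3 : ℝ)) := Real.rpow_pos_of_pos hlam _
    have h3 : (lam ^ (-(2 / 3 : ℝ))) ^ 3 * lam ^ 2 = 1 := by
      rw [← Real.rpow_natCast (lam ^ (-(2 / 3 : ℝ))) 3, ← Real.rpow_mul hlam.le,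
        ← Real.rpow_natCast lam 2, ← Real.rpow_add hlam]
      norm_num
    generalize lam ^ (-(2 / 3 : ℝ)) = u at hu h3 ⊢
    have h4 : (u * n) ^ 3 ≤ (5 / 4) ^ 3 := by
      rw [mul_pow]
      have h5 : u ^ 3 * (64 / 125 * (n : ℝ) ^ 3) ≤ u ^ 3 * lam ^ 2 := by gcongr
      rw [h3] at h5
      norm_num
      linarith
    exact le_of_pow_le_pow_left₀ (by norm_num) (by norm_num) h4

lemma BLarge_pp (n : ℕ) (lam r : ℝ) : pp n (lam * r) = pp n lam * r ^ (n - 1) := by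
  rw [pp, pp, mul_pow]
  ring

lemma BLarge_pp_pos (n : ℕ) {lam : ℝ} (hlam : 0 < lam) : 0 < pp n lam := by
  rw [pp]
  positivity

lemma BLarge_pow {n : ℕ} (hn : 7 ≤ n) {t a : ℝ} (ht : 0 ≤ t) (ha : a = ((n : ℝ) - 1) / 2) :
    t ^ (n - 1) = (t ^ (a / 3)) ^ 6 := by
  rw [← Real.rpow_natCast (t ^ (a / 3)) 6, ← Real.rpow_mul ht, ← Real.rpow_natCast t (n - 1)]
  congr 1
  rw [Nat.cast_sub (by omega), ha]
  push_cast
  ring

lemma BLarge_sqrt_pow {n : ℕ} (hn : 7 ≤ n) {t a : ℝ} (ht : 0 ≤ t) (ha : a = ((n : ℝ) - 1) / 2) :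
    (Real.sqrt t) ^ (n - 1) = (t ^ (a / 3)) ^ 3 := by
  rw [← Real.rpow_natCast (t ^ (a / 3)) 3, ← Real.rpow_mul ht, Real.sqrt_eq_rpow,
    ← Real.rpow_natCast (t ^ (1 / 2 : ℝ)) (n - 1), ← Real.rpow_mul ht]
  congr 1
  rw [Nat.cast_sub (by omega), ha]
  push_cast
  ring

lemma BLarge_bern {a w x : ℝ} (ha : 3 ≤ a) (hw1 : w ≤ 1) (hx : a * w ≤ x) :
    1 - x / 3 ≤ (1 - w) ^ (a / 3) := by
  have h1 := one_add_mul_self_le_rpow_one_add (s := -w) (by linarith) (p := a / 3) (by linarith)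
  rw [← sub_eq_add_neg] at h1
  linarith

/-! ### The first term -/

lemma BLarge_T1 {n : ℕ} (hn : 7 ≤ n) {lam u a Y g xb δ : ℝ} (hlam : 0 < lam) (hu : 0 < u)
    (hu3 : u ^ 3 * lam ^ 2 = 1) (hun : u * n ≤ 5 / 4) (ha : a = ((n : ℝ) - 1) / 2)
    (hY : Y = a * u) (hg : g = 0.8 + 0.75 * Y) (hxb : xb = 1.89 * Y - 1.49 * Y ^ 2 - 0.3375 * Y ^ 3)
    (hδ : δ = a / lam) (hδ1 : δ ≤ 0.29) :
    pp n lam * ((1 - 1.11 * δ - 1.22 / 3 * Y ^ 3) * (1 - xb / 3) ^ 3) ≤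
      mt n (Real.sqrt (lam ^ 2 - lam ^ 2 / (g / u) - (g / u) ^ 2 + n * (g / u) - (n - 1))) := by
  have hn' : (7 : ℝ) ≤ n := by exact_mod_cast hn
  have ha3 : 3 ≤ a := by rw [ha]; linarith
  have hu1 : u ≤ 5 / 28 := by
    have : u * 7 ≤ u * n := by gcongr
    linarith
  have hY0 : 0 < Y := by rw [hY]; positivity
  have hY1 : Y ≤ 5 / 8 := by
    rw [hY, ha]
    nlinarith
  have hg0 : 0.8 ≤ g := by rw [hg]; linarith
  have hgpos : 0 < g := by linarith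
  obtain ⟨w, hw⟩ : ∃ w : ℝ, w = u * (1 / g + (g - 2 * Y) * (g - u)) := ⟨_, rfl⟩
  have hn2 : (n : ℝ) = 2 * a + 1 := by rw [ha]; ring
  have hrad : lam ^ 2 - lam ^ 2 / (g / u) - (g / u) ^ 2 + n * (g / u) - (n - 1)
      = lam ^ 2 * (1 - w) := by
    have e1 : (g / u) ^ 2 = g ^ 2 * u * lam ^ 2 := by
      calc (g / u) ^ 2 = (g / u) ^ 2 * (u ^ 3 * lam ^ 2) := by rw [hu3, mul_one]
        _ = g ^ 2 * u * lam ^ 2 := by field_simp
    have e2 : g / u = g * u ^ 2 * lam ^ 2 := by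
      calc g / u = (g / u) * (u ^ 3 * lam ^ 2) := by rw [hu3, mul_one]
        _ = g * u ^ 2 * lam ^ 2 := by field_simp
    have e3 : lam ^ 2 / (g / u) = lam ^ 2 * (u * (1 / g)) := by field_simp
    rw [e1, e3, e2, hw, hn2, hY]
    linear_combination (2 * a) * hu3
  have hg2Y : 0 ≤ g - 2 * Y := by rw [hg]; linarith
  have hgu : 0 ≤ g - u := by linarith
  have hw0 : 0 ≤ w := by
    rw [hw]
    exact mul_nonneg hu.le (add_nonneg (by positivity) (mul_nonneg hg2Y hgu))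
  have hinv : 1 / g ≤ 1.25 - 1.09 * Y + 0.6 * Y ^ 2 := by
    rw [div_le_iff₀ hgpos, hg]
    nlinarith [mul_nonneg hY0.le (sq_nonneg (Y - 0.375))]
  have haw : a * w ≤ xb := by
    have e1 : a * w = Y * (1 / g + (g - 2 * Y) * (g - u)) := by rw [hw, hY]; ring
    have e2 : (g - 2 * Y) * (g - u) ≤ (g - 2 * Y) * g := by
      apply mul_le_mul_of_nonneg_left _ hg2Y
      linarith
    have e3 : (g - 2 * Y) * g = 0.64 - 0.4 * Y - 0.9375 * Y ^ 2 := by rw [hg]; ring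
    rw [e1, hxb]
    calc Y * (1 / g + (g - 2 * Y) * (g - u))
        ≤ Y * ((1.25 - 1.09 * Y + 0.6 * Y ^ 2) + (0.64 - 0.4 * Y - 0.9375 * Y ^ 2)) := by
          apply mul_le_mul_of_nonneg_left _ hY0.le
          linarith
      _ = _ := by ring
  have hxb1 : xb ≤ 0.534 := by
    rw [hxb]
    nlinarith [mul_nonneg (by linarith : 0 ≤ Y + 1.073) (sq_nonneg (Y - 0.5365)),
      sq_nonneg (Y - 0.5364)]
  have hw1 : w ≤ xb / 3 := by
    have : 3 * w ≤ a * w := mul_le_mul_of_nonneg_right ha3 hw0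
    linarith
  obtain ⟨v, hv⟩ : ∃ v : ℝ, v = 1 - w := ⟨_, rfl⟩
  have hv1 : 0.822 ≤ v := by rw [hv]; linarith
  have hv0 : 0 < v := by linarith
  obtain ⟨r, hr⟩ : ∃ r : ℝ, r = Real.sqrt v := ⟨_, rfl⟩
  have hr0 : 0 < r := by rw [hr]; exact Real.sqrt_pos.mpr hv0
  have hr2 : r ^ 2 = v := by rw [hr]; exact Real.sq_sqrt hv0.le
  have hnu : Real.sqrt (lam ^ 2 * v) = lam * r := by
    rw [Real.sqrt_mul (sq_nonneg _), Real.sqrt_sq hlam.le, hr]
  rw [hrad, ← hv, hnu]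
  refine le_trans ?_ (mt_ge (by omega) (mul_pos hlam hr0))
  rw [BLarge_pp, mul_assoc]
  refine mul_le_mul_of_nonneg_left ?_ (BLarge_pp_pos n hlam).le
  have hb : (1 - xb / 3) ^ 3 ≤ r ^ (n - 1) := by
    rw [hr, BLarge_sqrt_pow hn hv0.le ha]
    have := BLarge_bern ha3 (by linarith : w ≤ 1) haw
    rw [← hv] at this
    exact pow_le_pow_left₀ (by linarith) this 3
  have hY3 : Y ^ 3 = ((n : ℝ) - 1) ^ 3 / (8 * lam ^ 2) := by
    rw [eq_div_iff (by positivity), hY, hn2]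
    linear_combination 8 * a ^ 3 * hu3
  have h1 : ((n : ℝ) - 1) / (2 * (lam * r)) ≤ 1.11 * δ := by
    have e1 : ((n : ℝ) - 1) / (2 * (lam * r)) = δ * (1 / r) := by
      rw [hδ, ha]; field_simp
    have e2 : 1 / r ≤ 1.11 := by
      rw [div_le_iff₀ hr0]
      nlinarith
    have e3 : 0 ≤ δ := by rw [hδ]; positivity
    rw [e1]
    nlinarith
  have h2 : ((n : ℝ) - 1) * (n - 2) * (n - 3) / (24 * (lam * r) ^ 2) ≤ 1.22 / 3 * Y ^ 3 := by
    rw [hY3, mul_pow, hr2]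
    have e1 : ((n : ℝ) - 1) * (n - 2) * (n - 3) ≤ (n - 1) ^ 3 := by nlinarith
    have e2 : 1.22 / 3 * (((n : ℝ) - 1) ^ 3 / (8 * lam ^ 2)) = (n - 1) ^ 3 * 1.22 / (24 * lam ^ 2) := by
      field_simp; ring
    rw [e2, div_le_div_iff₀ (by positivity) (by positivity)]
    have e3 : (0 : ℝ) ≤ (n - 1) ^ 3 := pow_nonneg (by linarith) 3
    have e4 : ((n : ℝ) - 1) * (n - 2) * (n - 3) ≤ ((n - 1) ^ 3 * 1.22) * v := by
      nlinarith
    have e5 : 0 ≤ 24 * lam ^ 2 := by positivity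
    calc ((n : ℝ) - 1) * (n - 2) * (n - 3) * (24 * lam ^ 2)
        ≤ (((n - 1) ^ 3 * 1.22) * v) * (24 * lam ^ 2) := mul_le_mul_of_nonneg_right e4 e5
      _ = _ := by ring
  have hF : 0 ≤ 1 - 1.11 * δ - 1.22 / 3 * Y ^ 3 := by
    have e1 : Y ^ 3 ≤ (5 / 8) ^ 3 := pow_le_pow_left₀ hY0.le hY1 3
    norm_num at e1
    linarith
  have hx0 : 0 ≤ (1 - xb / 3) ^ 3 := pow_nonneg (by linarith) 3
  calc (1 - 1.11 * δ - 1.22 / 3 * Y ^ 3) * (1 - xb / 3) ^ 3
      ≤ (1 - 1.11 * δ - 1.22 / 3 * Y ^ 3) * r ^ (n - 1) := mul_le_mul_of_nonneg_left hb hF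
    _ ≤ (1 - ((n : ℝ) - 1) / (2 * (lam * r)) -
        ((n : ℝ) - 1) * (n - 2) * (n - 3) / (24 * (lam * r) ^ 2)) * r ^ (n - 1) := by
        apply mul_le_mul_of_nonneg_right _ (by positivity)
        linarith
    _ = _ := mul_comm _ _

/-! ### The constant `(3.84 π)^{2/3}` -/

lemma BLarge_kappa : 5.2599 ≤ (3 * (Real.pi * (32 / 25))) ^ (2 / 3 : ℝ) ∧
    (3 * (Real.pi * (32 / 25))) ^ (2 / 3 : ℝ) ≤ 5.2605 := by
  have hp1 := Real.pi_gt_d4
  have hp2 := Real.pi_lt_d4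
  obtain ⟨t, ht⟩ : ∃ t : ℝ, t = 3 * (Real.pi * (32 / 25)) := ⟨_, rfl⟩
  have ht1 : 12.0633 ≤ t := by rw [ht]; linarith
  have ht2 : t ≤ 12.0638 := by rw [ht]; linarith
  rw [← ht]
  have h3 : (t ^ (2 / 3 : ℝ)) ^ 3 = t ^ 2 := by
    rw [← Real.rpow_natCast (t ^ (2 / 3 : ℝ)) 3, ← Real.rpow_mul (by linarith),
      ← Real.rpow_natCast t 2]
    norm_num
  have h0 : 0 ≤ t ^ (2 / 3 : ℝ) := Real.rpow_nonneg (by linarith) _
  constructor
  · refine le_of_pow_le_pow_left₀ (n := 3) (by norm_num) h0 ?_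
    rw [h3]
    nlinarith
  · refine le_of_pow_le_pow_left₀ (n := 3) (by norm_num) (by norm_num) ?_
    rw [h3]
    nlinarith

lemma BLarge_rpow {lam u g : ℝ} (hlam : 0 < lam) (hu : u = lam ^ (-(2 / 3 : ℝ))) (hg : 0 ≤ g) :
    (3 * (Real.pi * g / lam)) ^ (2 / 3 : ℝ) =
      (3 * (Real.pi * (32 / 25))) ^ (2 / 3 : ℝ) * u * (g / (32 / 25)) ^ (2 / 3 : ℝ) := by
  have e1 : 3 * (Real.pi * g / lam) = (3 * (Real.pi * (32 / 25))) * lam⁻¹ * (g / (32 / 25)) := by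
    field_simp
  have hp := Real.pi_pos
  rw [e1, Real.mul_rpow (by positivity) (by positivity), Real.mul_rpow (by positivity)
    (by positivity), Real.inv_rpow hlam.le, hu, Real.rpow_neg hlam.le]

/-! ### The second term -/

lemma BLarge_T2 {n : ℕ} (hn : 7 ≤ n) {lam u a Y δ B : ℝ} (hlam : 0 < lam) (hu : 0 < u)
    (hul : u = lam ^ (-(2 / 3 : ℝ)))
    (hu3 : u ^ 3 * lam ^ 2 = 1) (hun : u * n ≤ 5 / 4) (ha : a = ((n : ℝ) - 1) / 2)
    (hY : Y = a * u) (hδ : δ = a / lam) (hB : B = 1 - 5.2605 * Y / 6) :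
    pp n lam * max 0 (1 / 2 * (B ^ 6 - δ * B ^ 5 - Y ^ 3 / 3 * B ^ 4)) ≤
      1 / 2 * mt n (lam * YF (Real.pi * (32 / 25) / lam)) := by
  have hn' : (7 : ℝ) ≤ n := by exact_mod_cast hn
  have ha3 : 3 ≤ a := by rw [ha]; linarith
  have hu1 : u ≤ 5 / 28 := by
    have : u * 7 ≤ u * n := by gcongr
    linarith
  have hY0 : 0 < Y := by rw [hY]; positivity
  have hY1 : Y ≤ 5 / 8 := by
    rw [hY, ha]
    nlinarith
  have hn2 : (n : ℝ) = 2 * a + 1 := by rw [ha]; ring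
  have hpp := BLarge_pp_pos n hlam
  have h0 : 0 ≤ 1 / 2 * mt n (lam * YF (Real.pi * (32 / 25) / lam)) :=
    mul_nonneg (by norm_num) (mt_nonneg (by omega) _)
  rcases le_total (1 / 2 * (B ^ 6 - δ * B ^ 5 - Y ^ 3 / 3 * B ^ 4)) 0 with hneg | hpos
  · rw [max_eq_left hneg, mul_zero]
    exact h0
  rw [max_eq_right hpos]
  obtain ⟨b, hb⟩ : ∃ b : ℝ, b = 1 - 5.2605 * u / 2 := ⟨_, rfl⟩
  have hb0 : 0 < b := by rw [hb]; linarith
  have hB0 : 0 < B := by rw [hB]; linarith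
  have hBb : B ≤ b := by
    rw [hB, hb, hY]
    nlinarith
  have hyb : b ≤ YF (Real.pi * (32 / 25) / lam) := by
    refine le_trans ?_ (YF_ge (z := Real.pi * (32 / 25) / lam) (by
      have := Real.pi_pos
      positivity))
    rw [BLarge_rpow hlam hul (by norm_num), div_self (by norm_num), Real.one_rpow, mul_one, hb]
    have := BLarge_kappa.2
    nlinarith
  have h1 : mt n (lam * b) ≤ mt n (lam * YF (Real.pi * (32 / 25) / lam)) :=
    mt_mono (by omega) (mul_le_mul_of_nonneg_left hyb hlam.le)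
  have h2 := mt_ge (n := n) (by omega) (mul_pos hlam hb0)
  rw [BLarge_pp] at h2
  have hb6 : B ^ 6 ≤ b ^ (n - 1) := by
    rw [BLarge_pow hn hb0.le ha]
    have := BLarge_bern (w := 5.2605 * u / 2) (x := 5.2605 * Y / 2) ha3 (by linarith)
      (by rw [hY]; linarith)
    rw [← hb] at this
    have e1 : 1 - 5.2605 * Y / 2 / 3 = B := by rw [hB]; ring
    rw [e1] at this
    exact pow_le_pow_left₀ hB0.le this 6
  have hδ0 : 0 ≤ δ := by rw [hδ]; positivity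
  have hY3 : Y ^ 3 = ((n : ℝ) - 1) ^ 3 / (8 * lam ^ 2) := by
    rw [eq_div_iff (by positivity), hY, hn2]
    linear_combination 8 * a ^ 3 * hu3
  have h3 : ((n : ℝ) - 1) / (2 * (lam * b)) ≤ δ / B := by
    have e1 : ((n : ℝ) - 1) / (2 * (lam * b)) = δ / b := by
      rw [hδ, ha]; field_simp
    rw [e1]
    exact div_le_div_of_nonneg_left hδ0 hB0 hBb
  have h4 : ((n : ℝ) - 1) * (n - 2) * (n - 3) / (24 * (lam * b) ^ 2) ≤ Y ^ 3 / 3 / B ^ 2 := by
    have e1 : ((n : ℝ) - 1) * (n - 2) * (n - 3) ≤ (n - 1) ^ 3 := by nlinarith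
    have e2 : Y ^ 3 / 3 / B ^ 2 = (n - 1) ^ 3 / (24 * (lam * B) ^ 2) := by
      rw [hY3]; field_simp; ring
    rw [e2]
    have e3 : (0 : ℝ) ≤ (n - 1) ^ 3 := pow_nonneg (by linarith) 3
    gcongr
  have hF2 : 0 ≤ 1 - δ / B - Y ^ 3 / 3 / B ^ 2 := by
    have e1 : 1 - δ / B - Y ^ 3 / 3 / B ^ 2 =
        (1 / 2 * (B ^ 6 - δ * B ^ 5 - Y ^ 3 / 3 * B ^ 4)) * (2 / B ^ 6) := by
      field_simp <;> ring
    rw [e1]
    positivity
  have h5 : B ^ 6 * (1 - δ / B - Y ^ 3 / 3 / B ^ 2) ≤ b ^ (n - 1) * (1 - ((n : ℝ) - 1) /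
      (2 * (lam * b)) - ((n : ℝ) - 1) * (n - 2) * (n - 3) / (24 * (lam * b) ^ 2)) := by
    apply mul_le_mul hb6 _ hF2 (by positivity)
    linarith
  have h6 : B ^ 6 * (1 - δ / B - Y ^ 3 / 3 / B ^ 2) = B ^ 6 - δ * B ^ 5 - Y ^ 3 / 3 * B ^ 4 := by
    field_simp <;> ring
  rw [h6] at h5
  have h7 := mul_le_mul_of_nonneg_left h5 hpp.le
  rw [← mul_assoc] at h7
  have h8 := h7.trans (h2.trans h1)
  linarith

/-! ### Truncation of the exponential series -/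

lemma BLarge_deriv (m : ℕ) (x : ℝ) :
    HasDerivAt (fun x : ℝ => ∑ k ∈ Finset.range (m + 1), (-x) ^ k / (k.factorial : ℝ))
      (-∑ k ∈ Finset.range m, (-x) ^ k / (k.factorial : ℝ)) x := by
  induction m with
  | zero => simpa using hasDerivAt_const x (1 : ℝ)
  | succ m ih =>
    have h1 : HasDerivAt (fun x : ℝ => (-x) ^ (m + 1) / ((m + 1).factorial : ℝ))
        (-((-x) ^ m / (m.factorial : ℝ))) x := by
      have h2 := ((hasDerivAt_neg x).pow (m + 1)).div_const ((m + 1).factorial : ℝ)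
      refine h2.congr_deriv ?_
      rw [Nat.factorial_succ]
      push_cast
      field_simp
    have h3 := ih.add h1
    have e1 : (fun x : ℝ => ∑ k ∈ Finset.range (m + 1 + 1), (-x) ^ k / (k.factorial : ℝ)) =
        fun x : ℝ => (∑ k ∈ Finset.range (m + 1), (-x) ^ k / (k.factorial : ℝ)) +
          (-x) ^ (m + 1) / ((m + 1).factorial : ℝ) := by
      funext x
      rw [Finset.sum_range_succ]
    rw [e1]
    refine h3.congr_deriv ?_
    rw [Finset.sum_range_succ]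
    ring

lemma BLarge_exp (m : ℕ) : ∀ x : ℝ, 0 ≤ x →
    0 ≤ (-1) ^ m * (Real.exp (-x) - ∑ k ∈ Finset.range m, (-x) ^ k / (k.factorial : ℝ)) := by
  induction m with
  | zero =>
    intro x _
    simp [(Real.exp_pos _).le]
  | succ m ih =>
    intro x hx
    set F : ℝ → ℝ := fun x => (-1) ^ (m + 1) *
      (Real.exp (-x) - ∑ k ∈ Finset.range (m + 1), (-x) ^ k / (k.factorial : ℝ)) with hF
    have hd : ∀ x : ℝ, HasDerivAt F ((-1) ^ m *
        (Real.exp (-x) - ∑ k ∈ Finset.range m, (-x) ^ k / (k.factorial : ℝ))) x := by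
      intro x
      have h1 : HasDerivAt (fun x : ℝ => Real.exp (-x)) (-Real.exp (-x)) x := by
        simpa using (hasDerivAt_neg x).exp
      refine ((h1.sub (BLarge_deriv m x)).const_mul ((-1) ^ (m + 1))).congr_deriv ?_
      rw [pow_succ]
      ring
    have hmono : MonotoneOn F (Ici 0) := by
      refine monotoneOn_of_deriv_nonneg (convex_Ici 0)
        (fun x _ => (hd x).continuousAt.continuousWithinAt)
        (fun x _ => (hd x).differentiableAt.differentiableWithinAt) fun x hx => ?_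
      rw [(hd x).deriv]
      rw [interior_Ici] at hx
      exact ih x (le_of_lt hx)
    have h0 : F 0 = 0 := by
      rw [hF]
      simp only [neg_zero, Real.exp_zero]
      rw [Finset.sum_range_succ']
      simp
    have := hmono (mem_Ici.mpr le_rfl) (mem_Ici.mpr hx) hx
    rw [h0] at this
    exact this

/-! ### The integral -/

/-- the truncated series -/
noncomputable def BLS (W σ : ℝ) : ℝ :=
  ∑ k ∈ Finset.range 11, (-(W * σ ^ (2 / 3 : ℝ))) ^ k / (k.factorial : ℝ)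

lemma BLarge_exp_le {W σ : ℝ} (hW : 0 ≤ W) (hσ : 0 ≤ σ) :
    Real.exp (-(W * σ ^ (2 / 3 : ℝ))) ≤ BLS W σ := by
  have h := BLarge_exp 11 (W * σ ^ (2 / 3 : ℝ)) (mul_nonneg hW (Real.rpow_nonneg hσ _))
  rw [BLS]
  have e : ((-1 : ℝ)) ^ 11 = -1 := by norm_num
  rw [e] at h
  linarith

lemma BLarge_cont (W : ℝ) : Continuous (BLS W) := by
  unfold BLS
  refine continuous_finset_sum _ fun k _ => ?_
  have h1 : Continuous fun σ : ℝ => σ ^ (2 / 3 : ℝ) :=
    continuous_id.rpow_const fun x => Or.inr (by norm_num)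
  exact (((continuous_const.mul h1).neg).pow k).div_const _

lemma BLarge_int (W : ℝ) : ∫ σ in (0 : ℝ)..1, BLS W σ = J10 W := by
  unfold BLS J10
  rw [intervalIntegral.integral_finset_sum]
  · refine Finset.sum_congr rfl fun k _ => ?_
    have h1 : ∫ σ in (0 : ℝ)..1, (-(W * σ ^ (2 / 3 : ℝ))) ^ k / (k.factorial : ℝ) =
        ∫ σ in (0 : ℝ)..1, ((-1) ^ k * W ^ k / (k.factorial : ℝ)) * σ ^ (2 * (k : ℝ) / 3) := by
      refine intervalIntegral.integral_congr fun σ hσ => ?_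
      rw [uIcc_of_le (by norm_num)] at hσ
      have e1 : (σ ^ (2 / 3 : ℝ)) ^ k = σ ^ (2 * (k : ℝ) / 3) := by
        rw [← Real.rpow_natCast (σ ^ (2 / 3 : ℝ)) k, ← Real.rpow_mul hσ.1]
        congr 1
        ring
      rw [neg_pow, mul_pow, e1]
      ring
    rw [h1, intervalIntegral.integral_const_mul, integral_rpow (Or.inl (by
      have : (0 : ℝ) ≤ 2 * (k : ℝ) / 3 := by positivity
      linarith))]
    have e2 : (0 : ℝ) ^ (2 * (k : ℝ) / 3 + 1) = 0 := Real.zero_rpow (by positivity)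
    rw [e2, Real.one_rpow]
    have hk : (0 : ℝ) < k.factorial := by exact_mod_cast k.factorial_pos
    have e3 : (2 * (k : ℝ) / 3 + 1) = (2 * k + 3) / 3 := by ring
    rw [e3]
    field_simp
    ring
  · intro k _
    have h1 : Continuous fun σ : ℝ => σ ^ (2 / 3 : ℝ) :=
      continuous_id.rpow_const fun x => Or.inr (by norm_num)
    exact ((((continuous_const.mul h1).neg).pow k).div_const _).intervalIntegrable _ _

lemma BLarge_T3 {n : ℕ} (hn : 7 ≤ n) {lam u a Y δ : ℝ} (hlam : 0 < lam) (hu : 0 < u)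
    (hul : u = lam ^ (-(2 / 3 : ℝ))) (ha : a = ((n : ℝ) - 1) / 2)
    (hY : Y = a * u) (hδ : δ = a / lam) (hl : (n : ℝ) / 2 - 1 < lam) :
    ∫ g in (0 : ℝ)..(32 / 25), mt n (lam * YF (Real.pi * g / lam)) ≤
      pp n lam * (Real.exp (-δ) * (1.28 * J10 (5.2599 * Y))) := by
  have hn' : (7 : ℝ) ≤ n := by exact_mod_cast hn
  have ha3 : 3 ≤ a := by rw [ha]; linarith
  have hY0 : 0 < Y := by rw [hY]; positivity
  have hpp := BLarge_pp_pos n hlam
  have hpi := Real.pi_pos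
  have hS : Continuous fun g : ℝ => BLS (5.2599 * Y) (g / (32 / 25)) :=
    (BLarge_cont _).comp (continuous_id.div_const _)
  calc ∫ g in (0 : ℝ)..(32 / 25), mt n (lam * YF (Real.pi * g / lam))
      ≤ ∫ g in (0 : ℝ)..(32 / 25), pp n lam * Real.exp (-δ) * BLS (5.2599 * Y) (g / (32 / 25)) := by
        refine intervalIntegral.integral_mono_on (by norm_num) ?_ ?_ fun g hg => ?_
        · refine Continuous.intervalIntegrable ?_ _ _
          refine (mt_cont (by omega)).comp (continuous_const.mul (YF_cont.comp ?_))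
          exact (continuous_const.mul continuous_id).div_const _
        · exact (continuous_const.mul hS).intervalIntegrable _ _
        · have hg0 : 0 ≤ g := hg.1
          obtain ⟨z, hz⟩ : ∃ z : ℝ, z = Real.pi * g / lam := ⟨_, rfl⟩
          have hz0 : 0 ≤ z := by rw [hz]; positivity
          rw [← hz]
          have hm := YF_mem z
          have h1 := mt_le (n := n) (by omega) (mul_nonneg hlam.le hm.1)
            (by nlinarith [hm.2] : lam * YF z ≤ lam) hl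
          refine h1.trans ?_
          rw [BLarge_pp]
          have e1 : -((n : ℝ) - 1) / (2 * lam) = -δ := by rw [hδ, ha]; field_simp
          rw [e1, mul_right_comm]
          refine mul_le_mul_of_nonneg_left ?_ (mul_nonneg hpp.le (Real.exp_pos _).le)
          have hσ : 0 ≤ g / (32 / 25) := by positivity
          have e2 : YF z ^ (n - 1) ≤ Real.exp (-(5.2599 * Y * (g / (32 / 25)) ^ (2 / 3 : ℝ))) := by
            calc YF z ^ (n - 1) ≤ (Real.exp (-((3 * z) ^ (2 / 3 : ℝ)) / 2)) ^ (n - 1) :=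
                  pow_le_pow_left₀ hm.1 (YF_le_exp hz0) _
              _ = Real.exp (-(a * (3 * z) ^ (2 / 3 : ℝ))) := by
                  rw [← Real.exp_nat_mul, Nat.cast_sub (by omega), ha]
                  congr 1
                  push_cast
                  ring
              _ ≤ _ := by
                  apply Real.exp_le_exp.mpr
                  rw [neg_le_neg_iff, hz, BLarge_rpow hlam hul hg0]
                  have hk := BLarge_kappa.1
                  have e3 : 0 ≤ a * u * (g / (32 / 25)) ^ (2 / 3 : ℝ) := by positivity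
                  rw [hY]
                  nlinarith
          exact e2.trans (BLarge_exp_le (by positivity) hσ)
    _ = pp n lam * Real.exp (-δ) * ∫ g in (0 : ℝ)..(32 / 25), BLS (5.2599 * Y) (g / (32 / 25)) := by
        rw [intervalIntegral.integral_const_mul]
    _ = pp n lam * (Real.exp (-δ) * (1.28 * J10 (5.2599 * Y))) := by
        rw [intervalIntegral.integral_comp_div (fun σ => BLS (5.2599 * Y) σ) (by norm_num),
          zero_div, div_self (by norm_num), BLarge_int, smul_eq_mul]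
        ring

/-! ### The constants -/

lemma BLarge_const {n : ℕ} (hn : 7 ≤ n) {lam a y : ℝ} (hlam : 0 < lam)
    (ha : a = ((n : ℝ) - 1) / 2) (hy0 : 0 ≤ y) (hy : y ^ 6 = a ^ 3 / lam ^ 2) :
    Cc (n - 1) / (2 * Real.pi)
      + ((n : ℝ) - 1) * ((n : ℝ) - 3) * Cc (n - 2) / (24 * Real.pi * lam) ≤
      0.0783 + y ^ 3 / 21.26 := by
  have hn' : (7 : ℝ) ≤ n := by exact_mod_cast hn
  have hp1 := Real.pi_gt_d4
  have hp0 := Real.pi_pos
  have h1 : Cc (n - 1) / (2 * Real.pi) ≤ 0.0783 := by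
    have h2 := Cc_le (n - 1)
    rw [Nat.cast_sub (by omega)] at h2
    push_cast at h2
    rw [div_le_iff₀ (by positivity)]
    refine h2.trans ?_
    rw [Real.sqrt_le_left (by positivity), div_le_iff₀ (by linarith)]
    have e1 : (13 : ℝ) ≤ 2 * (n - 1) + 1 := by linarith
    have e2 : 0 ≤ (0.0783 * (2 * Real.pi)) ^ 2 := sq_nonneg _
    have e3 : Real.pi ≤ (0.0783 * (2 * Real.pi)) ^ 2 * 13 := by nlinarith
    nlinarith
  have h2 : ((n : ℝ) - 1) * ((n : ℝ) - 3) * Cc (n - 2) / (24 * Real.pi * lam) ≤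
      y ^ 3 / 21.26 := by
    have h3 := Cc_le (n - 2)
    rw [Nat.cast_sub (by omega)] at h3
    push_cast at h3
    have hc := Cc_pos (n - 2)
    have h4 : Cc (n - 2) ^ 2 ≤ Real.pi / (2 * (n - 2) + 1) := by
      calc Cc (n - 2) ^ 2 ≤ (Real.sqrt (Real.pi / (2 * (n - 2) + 1))) ^ 2 :=
            pow_le_pow_left₀ hc.le h3 2
        _ = _ := Real.sq_sqrt (div_nonneg hp0.le (by linarith))
    refine le_of_pow_le_pow_left₀ (n := 2) (by norm_num) (by positivity) ?_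
    have e1 : (y ^ 3 / 21.26) ^ 2 = (n - 1) ^ 3 / (8 * 21.26 ^ 2 * lam ^ 2) := by
      rw [div_pow, ← pow_mul, hy, ha]
      field_simp
      try ring
    have e2 : (((n : ℝ) - 1) * ((n : ℝ) - 3) * Cc (n - 2) / (24 * Real.pi * lam)) ^ 2 =
        (((n : ℝ) - 1) * ((n : ℝ) - 3)) ^ 2 * Cc (n - 2) ^ 2 / (576 * Real.pi ^ 2 * lam ^ 2) := by
      rw [div_pow, mul_pow]
      ring
    rw [e1, e2]
    have e3 : (((n : ℝ) - 1) * ((n : ℝ) - 3)) ^ 2 * Cc (n - 2) ^ 2 / (576 * Real.pi ^ 2 * lam ^ 2)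
        ≤ (((n : ℝ) - 1) * ((n : ℝ) - 3)) ^ 2 * (Real.pi / (2 * (n - 2) + 1)) /
          (576 * Real.pi ^ 2 * lam ^ 2) := by gcongr
    refine e3.trans ?_
    have hm : (0 : ℝ) < 2 * (n - 2) + 1 := by linarith
    have e4 : (((n : ℝ) - 1) * ((n : ℝ) - 3)) ^ 2 * (Real.pi / (2 * (n - 2) + 1)) /
          (576 * Real.pi ^ 2 * lam ^ 2) =
        (((n : ℝ) - 1) * ((n : ℝ) - 3)) ^ 2 / (576 * Real.pi * lam ^ 2 * (2 * (n - 2) + 1)) := by
      field_simp
    rw [e4, div_le_div_iff₀ (by positivity) (by positivity)]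
    have e5 : ((n : ℝ) - 3) ^ 2 * (8 * 21.26 ^ 2) ≤ (n - 1) * (576 * Real.pi * (2 * (n - 2) + 1)) := by
      have f1 : 2 * ((n : ℝ) - 3) ^ 2 ≤ (n - 1) * (2 * (n - 2) + 1) := by nlinarith
      have f2 : (0 : ℝ) ≤ (n - 3) ^ 2 := sq_nonneg _
      have f3 : (n - 1) * (2 * ((n : ℝ) - 2) + 1) * 1809 ≤
          (n - 1) * (576 * Real.pi * (2 * (n - 2) + 1)) := by
        have f4 : 0 ≤ (n - 1) * (2 * ((n : ℝ) - 2) + 1) := mul_nonneg (by linarith) hm.le
        nlinarith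
      nlinarith
    have e6 : 0 ≤ ((n : ℝ) - 1) ^ 2 * lam ^ 2 := by positivity
    have e7 := mul_le_mul_of_nonneg_left e5 e6
    calc (((n : ℝ) - 1) * ((n : ℝ) - 3)) ^ 2 * (8 * 21.26 ^ 2 * lam ^ 2)
        = ((n : ℝ) - 1) ^ 2 * lam ^ 2 * (((n : ℝ) - 3) ^ 2 * (8 * 21.26 ^ 2)) := by ring
      _ ≤ _ := e7
      _ = _ := by ring
  linarith

theorem II_large {n : ℕ} (hn : 7 ≤ n) {lam : ℝ} (hlam : 0 < lam)
    (h : 64 / 125 * (n : ℝ) ^ 3 ≤ lam ^ 2) : ∃ X, 1 < X ∧ II n lam X := by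
  obtain ⟨u, hul, hu, hu3, hun⟩ := BLarge_u hn hlam h
  have hn' : (7 : ℝ) ≤ n := by exact_mod_cast hn
  obtain ⟨a, ha⟩ : ∃ a : ℝ, a = ((n : ℝ) - 1) / 2 := ⟨_, rfl⟩
  have ha3 : 3 ≤ a := by rw [ha]; linarith
  obtain ⟨Y, hY⟩ : ∃ Y : ℝ, Y = a * u := ⟨_, rfl⟩
  have hY0 : 0 < Y := by rw [hY]; positivity
  have hY1 : Y ≤ 5 / 8 := by
    rw [hY, ha]
    nlinarith
  obtain ⟨g, hg⟩ : ∃ g : ℝ, g = 0.8 + 0.75 * Y := ⟨_, rfl⟩
  obtain ⟨δ, hδ⟩ : ∃ δ : ℝ, δ = a / lam := ⟨_, rfl⟩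
  have hδ0 : 0 ≤ δ := by rw [hδ]; positivity
  obtain ⟨y, hy⟩ : ∃ y : ℝ, y = Real.sqrt Y := ⟨_, rfl⟩
  have hy0 : 0 ≤ y := by rw [hy]; exact Real.sqrt_nonneg _
  have hy2 : y ^ 2 = Y := by rw [hy]; exact Real.sq_sqrt hY0.le
  have hy6 : y ^ 6 = a ^ 3 / lam ^ 2 := by
    have e1 : y ^ 6 = Y ^ 3 := by rw [← hy2]; ring
    rw [e1, eq_div_iff (by positivity), hY]
    linear_combination a ^ 3 * hu3
  have hδy : δ ≤ 0.5774 * y ^ 3 := by
    refine le_of_pow_le_pow_left₀ (n := 2) (by norm_num) (by positivity) ?_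
    have e1 : (0.5774 * y ^ 3) ^ 2 = 0.5774 ^ 2 * a * (a ^ 2 / lam ^ 2) := by
      calc (0.5774 * y ^ 3) ^ 2 = 0.5774 ^ 2 * y ^ 6 := by ring
        _ = _ := by rw [hy6]; ring
    have e2 : δ ^ 2 = a ^ 2 / lam ^ 2 := by rw [hδ, div_pow]
    rw [e1, e2]
    have e3 : 1 ≤ 0.5774 ^ 2 * a := by nlinarith
    exact le_mul_of_one_le_left (by positivity) e3
  have hδ1 : δ ≤ 0.29 := by
    have e1 : y ^ 3 ≤ 0.5 := by
      refine le_of_pow_le_pow_left₀ (n := 2) (by norm_num) (by norm_num) ?_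
      have e2 : (y ^ 3) ^ 2 = Y ^ 3 := by rw [← hy2]; ring
      have e3 : Y ^ 3 ≤ (5 / 8) ^ 3 := pow_le_pow_left₀ hY0.le hY1 3
      rw [e2]
      norm_num at e3 ⊢
      linarith
    linarith
  have hl : (n : ℝ) / 2 - 1 < lam := by
    by_contra hc
    push Not at hc
    have e1 : lam ^ 2 ≤ ((n : ℝ) / 2 - 1) ^ 2 := pow_le_pow_left₀ hlam.le hc 2
    nlinarith [mul_nonneg (by linarith : (0 : ℝ) ≤ n - 7) (sq_nonneg (n : ℝ))]
  have hX : 1 < g / u := by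
    rw [one_lt_div hu, hg]
    have : u * 7 ≤ u * n := by gcongr
    linarith
  refine ⟨g / u, hX, ?_⟩
  have T1 := BLarge_T1 hn hlam hu hu3 hun ha hY hg rfl hδ hδ1
  have T2 := BLarge_T2 hn hlam hu hul hu3 hun ha hY hδ rfl
  have T3 := BLarge_T3 hn hlam hu hul ha hY hδ hl
  have hC := BLarge_const hn hlam ha hy0 hy6
  have hF := F_ineq hy0 (by rw [hy2]; exact hY1) hδ0 hδy
  have hpp := BLarge_pp_pos n hlam
  have hy4 : y ^ 4 = Y ^ 2 := by rw [← hy2]; ring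
  have hy6' : y ^ 6 = Y ^ 3 := by rw [← hy2]; ring
  rw [hy2, hy4, hy6'] at hF
  have hJ : 0 ≤ J10 (5.2599 * Y) := by
    have e1 : 0 ≤ ∫ g in (0 : ℝ)..(32 / 25), mt n (lam * YF (Real.pi * g / lam)) :=
      intervalIntegral.integral_nonneg (by norm_num) fun g _ => mt_nonneg (by omega) _
    by_contra hc
    push Not at hc
    have e2 : pp n lam * (Real.exp (-δ) * (1.28 * J10 (5.2599 * Y))) < 0 :=
      mul_neg_of_pos_of_neg hpp (mul_neg_of_pos_of_neg (Real.exp_pos _) (by linarith))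
    linarith
  have hE : Real.exp (-δ) ≤ 1 - δ + δ ^ 2 / 2 := by
    have e1 := BLarge_exp 3 δ hδ0
    simp only [Finset.sum_range_succ, Finset.sum_range_zero] at e1
    norm_num [Nat.factorial] at e1
    linarith
  have T3' : ∫ g in (0 : ℝ)..(32 / 25), mt n (lam * YF (Real.pi * g / lam)) ≤
      pp n lam * ((1 - δ + δ ^ 2 / 2) * 1.28 * J10 (5.2599 * Y)) := by
    refine T3.trans (mul_le_mul_of_nonneg_left ?_ hpp.le)
    rw [mul_assoc (1 - δ + δ ^ 2 / 2)]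
    exact mul_le_mul_of_nonneg_right hE (by positivity)
  rw [II]
  have hC' := mul_le_mul_of_nonneg_left hC hpp.le
  have hF' := mul_lt_mul_of_pos_left hF hpp
  rw [mul_add, mul_add] at hF'
  nlinarith

end Pool.Agent.PB86
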