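import Pool.Agent.PB86.Defs

set_option autoImplicit false

open MeasureTheory Set Filter Topology
open scoped NNReal RealInnerProductSpace

namespace Pool.Agent.PB86

open Pool.Agent.H51.Neumann (E IsH1 IsNeumannSpectrum)

/-- Shafer's inequality. -/
theorem DPnum_shafer {x : ℝ} (hx : 0 ≤ x) :
    3 * x / (1 + 2 * Real.sqrt (1 + x ^ 2)) ≤ Real.arctan x := by
  have hmono : MonotoneOn (fun y : ℝ => Real.arctan y - 3 * y / (1 + 2 * Real.sqrt (1 + y ^ 2)))
      (Ici 0) := by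
    have hd : ∀ y : ℝ, HasDerivAt
        (fun y : ℝ => Real.arctan y - 3 * y / (1 + 2 * Real.sqrt (1 + y ^ 2)))
        (1 / (1 + y ^ 2) - (3 * (1 + 2 * Real.sqrt (1 + y ^ 2)) -
          3 * y * (2 * (2 * y / (2 * Real.sqrt (1 + y ^ 2))))) /
          (1 + 2 * Real.sqrt (1 + y ^ 2)) ^ 2) y := by
      intro y
      have hpos : (0 : ℝ) < 1 + y ^ 2 := by positivity
      have hs : 0 < Real.sqrt (1 + y ^ 2) := Real.sqrt_pos.2 hpos
      have h0 : HasDerivAt (fun y : ℝ => 1 + y ^ 2) (2 * y) y := by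
        simpa using (hasDerivAt_pow 2 y).const_add 1
      have h1 : HasDerivAt (fun y : ℝ => Real.sqrt (1 + y ^ 2))
          (2 * y / (2 * Real.sqrt (1 + y ^ 2))) y := h0.sqrt hpos.ne'
      have h2 : HasDerivAt (fun y : ℝ => 1 + 2 * Real.sqrt (1 + y ^ 2))
          (2 * (2 * y / (2 * Real.sqrt (1 + y ^ 2)))) y := (h1.const_mul 2).const_add 1
      have h3 : HasDerivAt (fun y : ℝ => 3 * y) 3 y := by
        simpa using (hasDerivAt_id y).const_mul 3
      have h4 := h3.div h2 (by positivity)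
      exact (Real.hasDerivAt_arctan y).sub h4
    refine monotoneOn_of_deriv_nonneg (convex_Ici 0) ?_ ?_ ?_
    · exact fun y _ => (hd y).continuousAt.continuousWithinAt
    · exact fun y _ => (hd y).differentiableAt.differentiableWithinAt
    · intro y _
      rw [(hd y).deriv]
      have hpos : (0 : ℝ) < 1 + y ^ 2 := by positivity
      have hs : 0 < Real.sqrt (1 + y ^ 2) := Real.sqrt_pos.2 hpos
      have hsq : Real.sqrt (1 + y ^ 2) ^ 2 = 1 + y ^ 2 := Real.sq_sqrt hpos.le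
      set s := Real.sqrt (1 + y ^ 2) with hsdef
      have e : 1 / (1 + y ^ 2) - (3 * (1 + 2 * s) - 3 * y * (2 * (2 * y / (2 * s)))) /
          (1 + 2 * s) ^ 2 = (1 - s) ^ 2 / (s ^ 2 * (1 + 2 * s) ^ 2) := by
        have hy : y ^ 2 = s ^ 2 - 1 := by linarith
        have e1 : 3 * y * (2 * (2 * y / (2 * s))) = 6 * y ^ 2 / s := by
          field_simp
          ring
        rw [e1, ← hsq, hy]
        have : (1 + 2 * s) ≠ 0 := by positivity
        field_simp
        ring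
      rw [e]
      positivity
  have h := hmono (self_mem_Ici) (mem_Ici.2 hx) hx
  simp only [Real.arctan_zero, mul_zero, zero_div, sub_zero] at h
  linarith

theorem DPnum_half : ∃ t P : ℝ, 0 < t ∧ 0 < P ∧
    t - 1 / 2 * Real.arctan (t / (1 / 2)) ≤ 39 / 50 * Real.pi ∧
      (3 * P ^ 2 + 7 * (1 / 2 : ℝ) ^ 2) * (P + 1) ^ 5 <
        ((1 / 2 : ℝ) ^ 2 + t ^ 2) * (7 * P ^ 2 + 5 * P + 1) * P ^ 3 := by
  refine ⟨63 / 20, 38 / 25, by norm_num, by norm_num, ?_, by norm_num⟩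
  have h1 : (63 / 20 : ℝ) / (1 / 2) = (10 / 63 : ℝ)⁻¹ := by norm_num
  rw [h1, Real.arctan_inv_of_pos (by norm_num)]
  have h2 : Real.arctan (10 / 63) ≤ 10 / 63 := by
    have h := Real.le_tan (x := Real.arctan (10 / 63)) (Real.arctan_nonneg.2 (by norm_num))
      (Real.arctan_lt_pi_div_two _)
    rwa [Real.tan_arctan] at h
  have h3 := Real.pi_gt_d4
  linarith

theorem DPnum_poly1 {r : ℝ} (hr : 1 ≤ r) :
    (3 * (17 / 10 * r + 9 / 25) ^ 2 + 7 * r ^ 3) * (17 / 10 * r + 9 / 25 + 1) ^ 5 * r ^ 2 <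
      (r ^ 5 + (3883 / 2000 * r ^ 2 + 36 / 25 * r + 17 / 50) ^ 2) *
        (7 * (17 / 10 * r + 9 / 25) ^ 2 + 5 * (17 / 10 * r + 9 / 25) + 1) *
        (17 / 10 * r + 9 / 25) ^ 3 := by
  obtain ⟨w, hw, rfl⟩ : ∃ w : ℝ, 0 ≤ w ∧ r = 1 + w := ⟨r - 1, by linarith, by ring⟩
  rw [← sub_pos]
  have e : (((1 + w) ^ 5 + (3883 / 2000 * (1 + w) ^ 2 + 36 / 25 * (1 + w) + 17 / 50) ^ 2) *
        (7 * (17 / 10 * (1 + w) + 9 / 25) ^ 2 + 5 * (17 / 10 * (1 + w) + 9 / 25) + 1) *
        (17 / 10 * (1 + w) + 9 / 25) ^ 3) -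
      (3 * (17 / 10 * (1 + w) + 9 / 25) ^ 2 + 7 * (1 + w) ^ 3) *
        (17 / 10 * (1 + w) + 9 / 25 + 1) ^ 5 * (1 + w) ^ 2 =
      36705254302775199 / 1250000000000000 * w ^ 0 + 96334450847762631 / 1250000000000000 * w ^ 1 + 7296656256708919 / 78125000000000 * w ^ 2 + 4041337285105499 / 19531250000000 * w ^ 3 + 297098644729064107 / 625000000000000 * w ^ 4 + 14767689796822003 / 25000000000000 * w ^ 5 + 493077974599941 / 1250000000000 * w ^ 6 + 34937118326599 / 250000000000 * w ^ 7 + 9142684980263 / 400000000000 * w ^ 8 + 391295133311 / 400000000000 * w ^ 9 := by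
    ring
  rw [e]
  positivity

theorem DPnum_poly2 {r : ℝ} (hr : 1 ≤ r) :
    (200000 / 245037 * (3883 / 2000 * r ^ 2 + 36 / 25 * r + 17 / 50) ^ 3 - 3 * r ^ 6 -
      2 * ((3883 / 2000 * r ^ 2 + 36 / 25 * r + 17 / 50) ^ 2 * r)) ^ 2 <
      9 * r ^ 12 + 9 * (r ^ 7 * (3883 / 2000 * r ^ 2 + 36 / 25 * r + 17 / 50) ^ 2) := by
  obtain ⟨w, hw, rfl⟩ : ∃ w : ℝ, 0 ≤ w ∧ r = 1 + w := ⟨r - 1, by linarith, by ring⟩
  rw [← sub_pos]
  have e : 9 * (1 + w) ^ 12 + 9 * ((1 + w) ^ 7 *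
        (3883 / 2000 * (1 + w) ^ 2 + 36 / 25 * (1 + w) + 17 / 50) ^ 2) -
      (200000 / 245037 * (3883 / 2000 * (1 + w) ^ 2 + 36 / 25 * (1 + w) + 17 / 50) ^ 3 -
        3 * (1 + w) ^ 6 -
        2 * ((3883 / 2000 * (1 + w) ^ 2 + 36 / 25 * (1 + w) + 17 / 50) ^ 2 * (1 + w))) ^ 2 =
      117245681765488069192359 / 26685836164000000000000 * w ^ 0 + 195841917808549992319401 / 2668583616400000000000 * w ^ 1 + 2169476106023066176231059 / 5337167232800000000000 * w ^ 2 + 1578724348006107124873229 / 1334291808200000000000 * w ^ 3 + 1130971262618428095891901 / 533716723280000000000 * w ^ 4 + 50072524151364897942260561 / 20014377123000000000000 * w ^ 5 + 48093781555203784979554319 / 24017252547600000000000 * w ^ 6 + 22696557261860357082109 / 20848309503125000000 * w ^ 7 + 6314974317834360987955013 / 16011501698400000000000 * w ^ 8 + 442779851118874454249989 / 4803450509520000000000 * w ^ 9 + 371474134109187919225339 / 26685836164000000000000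 * w ^ 10 + 436945377717820573899 / 266858361640000000000 * w ^ 11 + 15351732922440926231 / 96069010190400000000 * w ^ 12 := by
    ring
  rw [e]
  positivity

theorem exists_tP {ν : ℝ} (hν : ν = 1 / 2 ∨ 1 ≤ ν) :
    ∃ t P : ℝ, 0 < t ∧ 0 < P ∧ t - ν * Real.arctan (t / ν) ≤ 39 / 50 * Real.pi ∧
      (3 * P ^ 2 + 7 * ν ^ 2) * (P + 1) ^ 5 <
        (ν ^ 2 + t ^ 2) * (7 * P ^ 2 + 5 * P + 1) * P ^ 3 := by
  rcases hν with rfl | hν
  · exact DPnum_half
  have hν0 : 0 < ν := by linarith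
  obtain ⟨r, hr1, hr3⟩ : ∃ r : ℝ, 1 ≤ r ∧ r ^ 3 = ν ^ 2 := by
    refine ⟨ν ^ (2 / 3 : ℝ), Real.one_le_rpow hν (by norm_num), ?_⟩
    rw [← Real.rpow_natCast, ← Real.rpow_mul hν0.le, ← Real.rpow_natCast]
    norm_num
  have hr0 : 0 < r := by linarith
  have hp1 := DPnum_poly1 hr1
  have hp2 := DPnum_poly2 hr1
  set T : ℝ := 3883 / 2000 * r ^ 2 + 36 / 25 * r + 17 / 50 with hT
  set P : ℝ := 17 / 10 * r + 9 / 25 with hP
  have hT0 : 0 < T := by rw [hT]; positivity
  have hP0 : 0 < P := by rw [hP]; positivity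
  refine ⟨T / r, P, by positivity, hP0, ?_, ?_⟩
  · set t : ℝ := T / r with ht
    have ht0 : 0 < t := by rw [ht]; positivity
    have hTt : T = t * r := by rw [ht]; field_simp
    set S : ℝ := Real.sqrt (ν ^ 2 + t ^ 2) with hS
    have hS0 : 0 < S := by rw [hS]; positivity
    have hS2 : S ^ 2 = ν ^ 2 + t ^ 2 := by rw [hS]; exact Real.sq_sqrt (by positivity)
    have hνS : ν < S := by
      rw [hS]
      exact Real.lt_sqrt_of_sq_lt (by nlinarith)
    have h1 : 3 * t / (ν + 2 * S) ≤ Real.arctan (t / ν) := by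
      have h := DPnum_shafer (x := t / ν) (by positivity)
      have hs : Real.sqrt (1 + (t / ν) ^ 2) = S / ν := by
        rw [hS, Real.sqrt_eq_iff_mul_self_eq (by positivity) (by positivity)]
        rw [div_mul_div_comm, Real.mul_self_sqrt (by positivity)]
        field_simp
      rw [hs] at h
      have e : 3 * (t / ν) / (1 + 2 * (S / ν)) = 3 * t / (ν + 2 * S) := by
        field_simp
      rwa [e] at h
    have h2 : t - ν * Real.arctan (t / ν) ≤ t - ν * (3 * t / (ν + 2 * S)) := by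
      have := mul_le_mul_of_nonneg_left h1 hν0.le
      linarith
    refine h2.trans ?_
    -- the square root inequality
    have h3 : 200000 / 245037 * t ^ 3 - 3 * ν ^ 2 - 2 * t ^ 2 ≤ 3 * ν * S := by
      have hsq : (200000 / 245037 * t ^ 3 - 3 * ν ^ 2 - 2 * t ^ 2) ^ 2 ≤ (3 * ν * S) ^ 2 := by
        have e1 : (3 * ν * S) ^ 2 = 9 * ν ^ 2 * (ν ^ 2 + t ^ 2) := by
          rw [mul_pow, hS2]; ring
        rw [e1, ← hr3]
        have hp2' := hp2.le
        rw [hTt] at hp2'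
        have hr6 : 0 < r ^ 6 := by positivity
        have e2 : (200000 / 245037 * (t * r) ^ 3 - 3 * r ^ 6 - 2 * ((t * r) ^ 2 * r)) ^ 2 =
            (200000 / 245037 * t ^ 3 - 3 * r ^ 3 - 2 * t ^ 2) ^ 2 * r ^ 6 := by ring
        have e3 : 9 * r ^ 12 + 9 * (r ^ 7 * (t * r) ^ 2) =
            (9 * r ^ 3 * (r ^ 3 + t ^ 2)) * r ^ 6 := by ring
        rw [e2, e3] at hp2'
        exact le_of_mul_le_mul_right hp2' hr6
      exact (abs_le_of_sq_le_sq' hsq (by positivity)).2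
    have h4 : t - ν * (3 * t / (ν + 2 * S)) = 2 * t * (S - ν) / (ν + 2 * S) := by
      field_simp
      ring
    rw [h4, div_le_iff₀ (by positivity)]
    have h5 : 2 * t * (S - ν) * (S + ν) = 2 * t ^ 3 := by
      have : S ^ 2 - ν ^ 2 = t ^ 2 := by linarith
      calc 2 * t * (S - ν) * (S + ν) = 2 * t * (S ^ 2 - ν ^ 2) := by ring
        _ = 2 * t ^ 3 := by rw [this]; ring
    have h6 : 2 * t ^ 3 ≤ 245037 / 100000 * (ν + 2 * S) * (S + ν) := by
      have e : (ν + 2 * S) * (S + ν) = 3 * ν * S + 3 * ν ^ 2 + 2 * t ^ 2 := by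
        have : (ν + 2 * S) * (S + ν) = 3 * ν * S + ν ^ 2 + 2 * S ^ 2 := by ring
        rw [this, hS2]; ring
      rw [mul_assoc, e]
      linarith
    have h7 : 2 * t * (S - ν) ≤ 245037 / 100000 * (ν + 2 * S) := by
      have hSν : 0 < S + ν := by positivity
      rw [← h5] at h6
      exact le_of_mul_le_mul_right h6 hSν
    refine h7.trans ?_
    have hpi : (245037 / 100000 : ℝ) ≤ 39 / 50 * Real.pi := by
      have := Real.pi_gt_d4
      norm_num at this ⊢
      linarith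
    exact mul_le_mul_of_nonneg_right hpi (by positivity)
  · have hr2 : 0 < r ^ 2 := by positivity
    rw [← hr3]
    have e1 : (r ^ 3 + (T / r) ^ 2) * (7 * P ^ 2 + 5 * P + 1) * P ^ 3 * r ^ 2 =
        (r ^ 5 + T ^ 2) * (7 * P ^ 2 + 5 * P + 1) * P ^ 3 := by
      field_simp
    refine lt_of_mul_lt_mul_right ?_ hr2.le
    rw [e1]
    exact hp1

end Pool.Agent.PB86
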