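import Pool.Agent.PB86.Defs

set_option autoImplicit false

open MeasureTheory Set Filter Topology
open scoped NNReal RealInnerProductSpace

namespace Pool.Agent.PB86

open Pool.Agent.H51.Neumann (E IsH1 IsNeumannSpectrum)

theorem wkb_zf {c : ℝ} (h1 : -1 < c) (h2 : c < 1) : HasDerivAt Zf (-Real.arccos c) c := by
  have hp : 0 < 1 - c ^ 2 := by nlinarith
  have hsp : 0 < Real.sqrt (1 - c ^ 2) := Real.sqrt_pos.2 hp
  have hsq : HasDerivAt (fun c : ℝ => Real.sqrt (1 - c ^ 2)) (-(2 * c) / (2 * Real.sqrt (1 - c ^ 2))) c := by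
    have h := ((hasDerivAt_pow 2 c).const_sub 1).sqrt hp.ne'
    simpa using h
  have hac : HasDerivAt (fun c : ℝ => c * Real.arccos c)
      (1 * Real.arccos c + c * (-(1 / Real.sqrt (1 - c ^ 2)))) c :=
    (hasDerivAt_id c).mul (Real.hasDerivAt_arccos h1.ne' h2.ne)
  have h := hsq.sub hac
  refine h.congr_deriv ?_
  field_simp
  ring

/-- the phase -/
noncomputable def wkbP (lam ν x : ℝ) : ℝ := Real.pi * G (lam * Real.exp x) ν

/-- the square of the radius -/
noncomputable def wkbR (lam x : ℝ) : ℝ := (lam * Real.exp x) ^ 2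

/-- the frequency -/
noncomputable def wkbT (lam ν x : ℝ) : ℝ := Real.sqrt (wkbR lam x - ν ^ 2)

/-- the square root of the frequency -/
noncomputable def wkbS (lam ν x : ℝ) : ℝ := Real.sqrt (wkbT lam ν x)

theorem wkb_phase {lam ν x : ℝ} (hlam : 0 < lam) (hν : 0 < ν) (hx : ν < lam * Real.exp x) :
    HasDerivAt (wkbP lam ν) (wkbT lam ν x) x := by
  have hr : 0 < lam * Real.exp x := by positivity
  have hrd : HasDerivAt (fun x : ℝ => lam * Real.exp x) (lam * Real.exp x) x :=
    (Real.hasDerivAt_exp x).const_mul lam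
  have hc0 : 0 < ν / (lam * Real.exp x) := by positivity
  have hc1 : ν / (lam * Real.exp x) < 1 := (div_lt_one hr).2 hx
  have hcd : HasDerivAt (fun x : ℝ => ν / (lam * Real.exp x)) (-(ν / (lam * Real.exp x))) x := by
    have h := (hrd.inv hr.ne').const_mul ν
    refine (h.congr_deriv ?_)
    field_simp
  have hz := (wkb_zf (by linarith) hc1).comp x hcd
  have h := hrd.mul hz
  have e : wkbP lam ν = fun x : ℝ => lam * Real.exp x * (Zf ∘ fun x : ℝ => ν / (lam * Real.exp x)) x := by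
    funext y
    unfold wkbP G
    simp only [Function.comp_apply]
    field_simp
  rw [e]
  refine h.congr_deriv ?_
  simp only [Function.comp_apply]
  unfold Zf wkbT wkbR
  have hq : Real.sqrt ((lam * Real.exp x) ^ 2 - ν ^ 2) =
      lam * Real.exp x * Real.sqrt (1 - (ν / (lam * Real.exp x)) ^ 2) := by
    rw [← Real.sqrt_sq hr.le, ← Real.sqrt_mul (by positivity), Real.sqrt_sq hr.le]
    congr 1
    field_simp
  rw [hq]
  ring

theorem wkb_pos {lam ν x : ℝ} (hν : 0 < ν) (hx : ν < lam * Real.exp x) :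
    0 < wkbR lam x - ν ^ 2 := by
  unfold wkbR
  nlinarith

theorem wkb_Tpos {lam ν x : ℝ} (hν : 0 < ν) (hx : ν < lam * Real.exp x) :
    0 < wkbT lam ν x := Real.sqrt_pos.2 (wkb_pos hν hx)

theorem wkb_Spos {lam ν x : ℝ} (hν : 0 < ν) (hx : ν < lam * Real.exp x) :
    0 < wkbS lam ν x := Real.sqrt_pos.2 (wkb_Tpos hν hx)

theorem wkb_T_eq {lam ν x : ℝ} (hν : 0 < ν) (hx : ν < lam * Real.exp x) :
    wkbT lam ν x = wkbS lam ν x ^ 2 := (Real.sq_sqrt (wkb_Tpos hν hx).le).symm

theorem wkb_R_eq {lam ν x : ℝ} (hν : 0 < ν) (hx : ν < lam * Real.exp x) :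
    wkbR lam x = wkbS lam ν x ^ 4 + ν ^ 2 := by
  have h1 : wkbT lam ν x ^ 2 = wkbR lam x - ν ^ 2 := Real.sq_sqrt (wkb_pos hν hx).le
  rw [wkb_T_eq hν hx] at h1
  nlinarith

theorem wkb_R' (lam x : ℝ) : HasDerivAt (wkbR lam) (2 * wkbR lam x) x := by
  have hrd : HasDerivAt (fun x : ℝ => lam * Real.exp x) (lam * Real.exp x) x :=
    (Real.hasDerivAt_exp x).const_mul lam
  have h := hrd.pow 2
  refine h.congr_deriv ?_
  unfold wkbR
  push_cast
  ring

theorem wkb_T' {lam ν x : ℝ} (hν : 0 < ν) (hx : ν < lam * Real.exp x) :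
    HasDerivAt (wkbT lam ν) (wkbR lam x / wkbT lam ν x) x := by
  have h := ((wkb_R' lam x).sub_const (ν ^ 2)).sqrt (wkb_pos hν hx).ne'
  refine h.congr_deriv ?_
  have := wkb_Tpos hν hx
  change 2 * wkbR lam x / (2 * wkbT lam ν x) = _
  field_simp

theorem wkb_S' {lam ν x : ℝ} (hν : 0 < ν) (hx : ν < lam * Real.exp x) :
    HasDerivAt (wkbS lam ν) (wkbR lam x / (2 * wkbS lam ν x ^ 3)) x := by
  have h := (wkb_T' hν hx).sqrt (wkb_Tpos hν hx).ne'
  refine h.congr_deriv ?_
  have := wkb_Spos hν hx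
  change wkbR lam x / wkbT lam ν x / (2 * wkbS lam ν x) = _
  rw [wkb_T_eq hν hx]
  field_simp

/-- the trial function before cutting -/
noncomputable def wkbF (lam ν p x : ℝ) : ℝ := Real.sin (wkbP lam ν x - p) / wkbS lam ν x

/-- its derivative -/
noncomputable def wkbF' (lam ν p x : ℝ) : ℝ :=
  Real.cos (wkbP lam ν x - p) * wkbS lam ν x
    - Real.sin (wkbP lam ν x - p) * wkbR lam x / (2 * wkbS lam ν x ^ 5)

theorem wkb_F' {lam ν p x : ℝ} (hlam : 0 < lam) (hν : 0 < ν) (hx : ν < lam * Real.exp x) :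
    HasDerivAt (wkbF lam ν p) (wkbF' lam ν p x) x := by
  have hs := ((wkb_phase hlam hν hx).sub_const p).sin
  have h := hs.div (wkb_S' hν hx) (wkb_Spos hν hx).ne'
  refine h.congr_deriv ?_
  have := wkb_Spos hν hx
  unfold wkbF'
  rw [wkb_T_eq hν hx]
  field_simp

/-- the boundary function -/
noncomputable def wkbB (lam ν p x : ℝ) : ℝ :=
  Real.sin (wkbP lam ν x - p) * Real.cos (wkbP lam ν x - p)
    - wkbR lam x / (2 * wkbS lam ν x ^ 6) * Real.sin (wkbP lam ν x - p) ^ 2

/-- its derivative -/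
noncomputable def wkbB' (lam ν p x : ℝ) : ℝ :=
  wkbF' lam ν p x ^ 2 + (ν ^ 2 - wkbR lam x) * wkbF lam ν p x ^ 2
    + wkbR lam x * (wkbS lam ν x ^ 4 + 5 * ν ^ 2) / (4 * wkbS lam ν x ^ 10) *
      Real.sin (wkbP lam ν x - p) ^ 2

theorem wkb_B' {lam ν p x : ℝ} (hlam : 0 < lam) (hν : 0 < ν) (hx : ν < lam * Real.exp x) :
    HasDerivAt (wkbB lam ν p) (wkbB' lam ν p x) x := by
  have hS0 := wkb_Spos hν hx
  have hph := (wkb_phase hlam hν hx).sub_const p
  have hs := hph.sin
  have hc := hph.cos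
  have hS := wkb_S' hν hx
  have h1 := hs.mul hc
  have h2 := ((wkb_R' lam x).div ((hS.pow 6).const_mul 2)
    (mul_pos two_pos (pow_pos hS0 6)).ne').mul (hs.pow 2)
  have h := h1.sub h2
  refine h.congr_deriv ?_
  unfold wkbB' wkbF' wkbF
  simp only [Pi.pow_apply, Pi.div_apply]
  rw [wkb_T_eq hν hx]
  have hR := wkb_R_eq hν hx
  set S := wkbS lam ν x
  set c := Real.cos (wkbP lam ν x - p)
  set t := Real.sin (wkbP lam ν x - p)
  rw [hR]
  push_cast
  field_simp
  ring

theorem wkb_cont_S {lam ν a b : ℝ} (hν : 0 < ν) (hlam : 0 < lam) (ha : ν < lam * Real.exp a) :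
    ContinuousOn (wkbS lam ν) (Icc a b) := fun _ hx =>
  (wkb_S' hν (ha.trans_le (mul_le_mul_of_nonneg_left (Real.exp_le_exp.2 hx.1)
    hlam.le))).continuousAt.continuousWithinAt

theorem wkb_cont_P {lam ν a b : ℝ} (hν : 0 < ν) (hlam : 0 < lam) (ha : ν < lam * Real.exp a) :
    ContinuousOn (wkbP lam ν) (Icc a b) := fun _ hx =>
  (wkb_phase hlam hν (ha.trans_le (mul_le_mul_of_nonneg_left (Real.exp_le_exp.2 hx.1)
    hlam.le))).continuousAt.continuousWithinAt

theorem wkb_core {s ν lam a b : ℝ} (hν : 0 < ν) (hlam : 0 < lam)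
    (ha : ν < lam * Real.exp a) (hab : a < b) (hb : b ≤ 0)
    (h1 : Real.sin (wkbP lam ν b - wkbP lam ν a) * Real.cos (wkbP lam ν b - wkbP lam ν a) = 0)
    (h2 : ∃ x ∈ Icc a b, Real.sin (wkbP lam ν x - wkbP lam ν a) ≠ 0)
    (h3 : Real.sin (wkbP lam ν b - wkbP lam ν a) = 0 ∨ (b = 0 ∧ 0 ≤ s)) :
    ∃ f, Tr s ν lam f ∧ (∀ x ≤ a, f x = 0) ∧
      (Real.sin (wkbP lam ν b - wkbP lam ν a) = 0 → ∀ x ≥ b, f x = 0) := by
  set p : ℝ := wkbP lam ν a with hp
  have hx : ∀ x ∈ Icc a b, ν < lam * Real.exp x := fun x hx =>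
    ha.trans_le (mul_le_mul_of_nonneg_left (Real.exp_le_exp.2 hx.1) hlam.le)
  have hcS := wkb_cont_S (b := b) hν hlam ha
  have hcP := wkb_cont_P (b := b) hν hlam ha
  have hcR : ContinuousOn (wkbR lam) (Icc a b) := fun x _ =>
    (wkb_R' lam x).continuousAt.continuousWithinAt
  have hS0 : ∀ x ∈ Icc a b, wkbS lam ν x ≠ 0 := fun x h => (wkb_Spos hν (hx x h)).ne'
  have hcsin : ContinuousOn (fun x => Real.sin (wkbP lam ν x - p)) (Icc a b) :=
    Real.continuous_sin.comp_continuousOn (hcP.sub continuousOn_const)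
  have hccos : ContinuousOn (fun x => Real.cos (wkbP lam ν x - p)) (Icc a b) :=
    Real.continuous_cos.comp_continuousOn (hcP.sub continuousOn_const)
  have hcF : ContinuousOn (wkbF lam ν p) (Icc a b) := hcsin.div hcS hS0
  have hcF' : ContinuousOn (wkbF' lam ν p) (Icc a b) := by
    unfold wkbF'
    refine (hccos.mul hcS).sub ((hcsin.mul hcR).div (continuousOn_const.mul (hcS.pow 5)) ?_)
    intro x h
    exact (mul_pos two_pos (pow_pos (wkb_Spos hν (hx x h)) 5)).ne'
  have hcB' : ContinuousOn (wkbB' lam ν p) (Icc a b) := by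
    unfold wkbB'
    refine ((hcF'.pow 2).add ((continuousOn_const.sub hcR).mul (hcF.pow 2))).add
      (((hcR.mul ((hcS.pow 4).add continuousOn_const)).div
        (continuousOn_const.mul (hcS.pow 10)) ?_).mul (hcsin.pow 2))
    intro x h
    exact (mul_pos four_pos (pow_pos (wkb_Spos hν (hx x h)) 10)).ne'
  -- the Lipschitz constant
  obtain ⟨C, hC⟩ := isCompact_Icc.exists_bound_of_continuousOn hcF'
  have hC0 : 0 ≤ C := (norm_nonneg _).trans (hC a (left_mem_Icc.2 hab.le))
  have hLip : LipschitzOnWith ⟨C, hC0⟩ (wkbF lam ν p) (Icc a b) := by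
    refine (convex_Icc a b).lipschitzOnWith_of_nnnorm_hasDerivWithin_le
      (f' := wkbF' lam ν p) (fun x h => (wkb_F' hlam hν (hx x h)).hasDerivWithinAt) ?_
    intro x h
    exact hC x h
  set f : ℝ → ℝ := fun x => wkbF lam ν p (max a (min b x)) with hf
  have hclip : LipschitzWith 1 (fun x : ℝ => max a (min b x)) :=
    (LipschitzWith.id.const_min b).const_max a
  have hmaps : MapsTo (fun x : ℝ => max a (min b x)) univ (Icc a b) := fun x _ =>
    ⟨le_max_left _ _, max_le hab.le (min_le_left _ _)⟩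
  have hFa : wkbF lam ν p a = 0 := by
    unfold wkbF
    rw [hp, sub_self, Real.sin_zero, zero_div]
  have hfa : ∀ x ≤ a, f x = 0 := by
    intro x h
    rw [hf]
    simp only
    rw [min_eq_right (h.trans hab.le), max_eq_left h, hFa]
  have hfb : ∀ x ≥ b, f x = wkbF lam ν p b := by
    intro x h
    rw [hf]
    simp only
    rw [min_eq_left h, max_eq_right hab.le]
  have hfm : ∀ x ∈ Icc a b, f x = wkbF lam ν p x := by
    intro x h
    rw [hf]
    simp only
    rw [min_eq_right h.2, max_eq_right h.1]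
  have hfz : Real.sin (wkbP lam ν b - p) = 0 → ∀ x ≥ b, f x = 0 := by
    intro h x hxb
    rw [hfb x hxb]
    unfold wkbF
    rw [h, zero_div]
  refine ⟨f, ⟨?_, ⟨a, hfa⟩, ?_⟩, hfa, hfz⟩
  · refine ⟨⟨C, hC0⟩ * 1, ?_⟩
    exact (hLip.comp (hclip.lipschitzOnWith (s := univ)) hmaps).mono (subset_univ _)
  · -- the form is negative
    have hint : ∫ x in Iic (0 : ℝ), ((deriv f x) ^ 2 + (ν ^ 2 - lam ^ 2 * Real.exp (2 * x)) * f x ^ 2)
        = ∫ x in a..b, (wkbF' lam ν p x ^ 2 + (ν ^ 2 - wkbR lam x) * wkbF lam ν p x ^ 2) := by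
      rw [intervalIntegral.integral_of_le hab.le, integral_Ioc_eq_integral_Ioo]
      rw [setIntegral_eq_of_subset_of_ae_sdiff_eq_zero (s := Ioo a b) measurableSet_Iic.nullMeasurableSet
        (fun x h => h.2.le.trans hb)]
      · apply setIntegral_congr_fun measurableSet_Ioo
        intro x h
        simp only
        have hIcc : x ∈ Icc a b := ⟨h.1.le, h.2.le⟩
        have hev : f =ᶠ[𝓝 x] wkbF lam ν p := by
          filter_upwards [Ioo_mem_nhds h.1 h.2] with y hy
          exact hfm y ⟨hy.1.le, hy.2.le⟩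
        rw [hev.deriv_eq, (wkb_F' hlam hν (hx x hIcc)).deriv, hfm x hIcc]
        have : lam ^ 2 * Real.exp (2 * x) = wkbR lam x := by
          unfold wkbR
          rw [two_mul, Real.exp_add]
          ring
        rw [this]
      · have hna : ∀ᵐ x : ℝ, x ≠ a := by
          rw [ae_iff]
          simp
        have hnb : ∀ᵐ x : ℝ, x ≠ b := by
          rw [ae_iff]
          simp
        filter_upwards [hna, hnb] with x hxa hxb hmem
        obtain ⟨hx0, hnot⟩ := hmem
        have hx0' : x ≤ 0 := hx0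
        rcases lt_trichotomy x a with h | h | h
        · have hev : f =ᶠ[𝓝 x] fun _ => (0 : ℝ) := by
            filter_upwards [Iio_mem_nhds h] with y hy
            exact hfa y hy.le
          rw [hev.deriv_eq, hfa x h.le]
          simp
        · exact absurd h hxa
        · have hbx : b < x := by
            rcases lt_trichotomy x b with h' | h' | h'
            · exact absurd ⟨h, h'⟩ hnot
            · exact absurd h' hxb
            · exact h'
          rcases h3 with h3 | ⟨h3, _⟩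
          · have hev : f =ᶠ[𝓝 x] fun _ => (0 : ℝ) := by
              filter_upwards [Ioi_mem_nhds hbx] with y hy
              exact hfz h3 y (le_of_lt hy)
            rw [hev.deriv_eq, hfz h3 x hbx.le]
            simp
          · exfalso
            linarith
    have hlt : ∫ x in a..b, (wkbF' lam ν p x ^ 2 + (ν ^ 2 - wkbR lam x) * wkbF lam ν p x ^ 2) <
        ∫ x in a..b, wkbB' lam ν p x := by
      apply intervalIntegral.integral_lt_integral_of_continuousOn_of_le_of_exists_lt hab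
      · exact (hcF'.pow 2).add ((continuousOn_const.sub hcR).mul (hcF.pow 2))
      · exact hcB'
      · intro x h
        have hIcc : x ∈ Icc a b := ⟨h.1.le, h.2⟩
        have hS := wkb_Spos hν (hx x hIcc)
        have hR : 0 < wkbR lam x := by
          rw [wkb_R_eq hν (hx x hIcc)]
          positivity
        unfold wkbB'
        have : 0 ≤ wkbR lam x * (wkbS lam ν x ^ 4 + 5 * ν ^ 2) / (4 * wkbS lam ν x ^ 10) *
          Real.sin (wkbP lam ν x - p) ^ 2 := by positivity
        linarith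
      · obtain ⟨x, hIcc, hsin⟩ := h2
        refine ⟨x, hIcc, ?_⟩
        have hS := wkb_Spos hν (hx x hIcc)
        have hR : 0 < wkbR lam x := by
          rw [wkb_R_eq hν (hx x hIcc)]
          positivity
        unfold wkbB'
        have : 0 < wkbR lam x * (wkbS lam ν x ^ 4 + 5 * ν ^ 2) / (4 * wkbS lam ν x ^ 10) *
          Real.sin (wkbP lam ν x - p) ^ 2 := by positivity
        linarith
    have hftc : ∫ x in a..b, wkbB' lam ν p x = wkbB lam ν p b - wkbB lam ν p a := by
      apply intervalIntegral.integral_eq_sub_of_hasDerivAt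
      · intro x h
        rw [uIcc_of_le hab.le] at h
        exact wkb_B' hlam hν (hx x h)
      · exact hcB'.intervalIntegrable_of_Icc hab.le
    have hBa : wkbB lam ν p a = 0 := by
      unfold wkbB
      rw [hp, sub_self, Real.sin_zero]
      simp
    have hBb : wkbB lam ν p b ≤ 0 := by
      have hIcc : b ∈ Icc a b := right_mem_Icc.2 hab.le
      have hS := wkb_Spos hν (hx b hIcc)
      have hR : 0 < wkbR lam b := by
        rw [wkb_R_eq hν (hx b hIcc)]
        positivity
      unfold wkbB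
      rw [h1]
      have : 0 ≤ wkbR lam b / (2 * wkbS lam ν b ^ 6) * Real.sin (wkbP lam ν b - p) ^ 2 := by
        positivity
      linarith
    have hf0 : 0 ≤ s * f 0 ^ 2 := by
      rcases h3 with h3 | ⟨_, h3⟩
      · rw [hfz h3 0 hb]
        simp
      · positivity
    unfold Q
    rw [hint]
    linarith

theorem wkb_full {s ν lam a b : ℝ} (hν : 0 < ν) (hlam : 0 < lam)
    (ha : ν < lam * Real.exp a) (hab : a < b) (hb : b ≤ 0)
    (hph : G (lam * Real.exp b) ν - G (lam * Real.exp a) ν = 1) :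
    ∃ f, Tr s ν lam f ∧ (∀ x ≤ a, f x = 0) ∧ ∀ x ≥ b, f x = 0 := by
  have hd : wkbP lam ν b - wkbP lam ν a = Real.pi := by
    unfold wkbP
    rw [← mul_sub, hph, mul_one]
  have hsin : Real.sin (wkbP lam ν b - wkbP lam ν a) = 0 := by
    rw [hd, Real.sin_pi]
  obtain ⟨f, hf1, hf2, hf3⟩ := wkb_core (s := s) hν hlam ha hab hb (by rw [hsin, zero_mul])
    (by
      have hmem : wkbP lam ν a + Real.pi / 2 ∈ Icc (wkbP lam ν a) (wkbP lam ν b) := by
        constructor
        · linarith [Real.pi_pos]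
        · linarith [Real.pi_pos]
      obtain ⟨x, hx, he⟩ := intermediate_value_Icc hab.le (wkb_cont_P (b := b) hν hlam ha) hmem
      refine ⟨x, hx, ?_⟩
      rw [he, add_sub_cancel_left, Real.sin_pi_div_two]
      exact one_ne_zero)
    (Or.inl hsin)
  exact ⟨f, hf1, hf2, hf3 hsin⟩

theorem wkb_last {s ν lam a : ℝ} (hs : 0 ≤ s) (hν : 0 < ν) (hlam : 0 < lam)
    (ha : ν < lam * Real.exp a) (ha0 : a < 0)
    (hph : G lam ν - G (lam * Real.exp a) ν = 1 / 2) :
    ∃ f, Tr s ν lam f ∧ ∀ x ≤ a, f x = 0 := by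
  have hd : wkbP lam ν 0 - wkbP lam ν a = Real.pi / 2 := by
    unfold wkbP
    rw [← mul_sub, Real.exp_zero, mul_one, hph]
    ring
  obtain ⟨f, hf1, hf2, _⟩ := wkb_core (s := s) hν hlam ha ha0 le_rfl
    (by rw [hd, Real.cos_pi_div_two, mul_zero])
    ⟨0, right_mem_Icc.2 ha0.le, by
      rw [hd, Real.sin_pi_div_two]
      exact one_ne_zero⟩
    (Or.inr ⟨rfl, hs⟩)
  exact ⟨f, hf1, hf2⟩

end Pool.Agent.PB86
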