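import Pool.Agent.PB86.Dir
import Pool.Agent.PB86.DPnum
import Pool.Agent.PB86.Wkb

set_option autoImplicit false

open MeasureTheory Set Filter Topology
open scoped NNReal RealInnerProductSpace

namespace Pool.Agent.PB86

open Pool.Agent.H51.Neumann (E IsH1 IsNeumannSpectrum)

theorem cntk_Zf_of_ge {c : ℝ} (hc : 1 ≤ c) : Zf c = 0 := by
  rw [Zf, Real.arccos_of_one_le hc, Real.sqrt_eq_zero_of_nonpos (by nlinarith)]
  ring

theorem cntk_cont {lam : ℝ} (hlam : 0 < lam) (ν : ℝ) :
    Continuous (fun x : ℝ => G (lam * Real.exp x) ν) := by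
  have hZ : Continuous Zf := by
    unfold Zf
    exact (Real.continuous_sqrt.comp (by fun_prop)).sub (continuous_id.mul Real.continuous_arccos)
  unfold G
  have h0 : ∀ x : ℝ, lam * Real.exp x ≠ 0 := fun x => by positivity
  have h1 : Continuous (fun x : ℝ => lam * Real.exp x) := by fun_prop
  exact (h1.mul (hZ.comp (continuous_const.div h1 h0))).div_const _

theorem cntk_mono {ν lam : ℝ} (hlam : 0 < lam) (hν : 0 < ν) :
    StrictMonoOn (fun x : ℝ => G (lam * Real.exp x) ν) (Ici (Real.log (ν / lam))) := by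
  apply strictMonoOn_of_deriv_pos (convex_Ici _) (cntk_cont hlam ν).continuousOn
  intro x hx
  rw [interior_Ici, mem_Ioi] at hx
  have hx' : ν < lam * Real.exp x := by
    have h1 : ν / lam < Real.exp x := (Real.log_lt_iff_lt_exp (by positivity)).1 hx
    rw [div_lt_iff₀ hlam] at h1
    linarith
  have h2 := wkb_phase hlam hν hx'
  have h3 : HasDerivAt (fun x : ℝ => G (lam * Real.exp x) ν) (wkbT lam ν x / Real.pi) x := by
    have h4 := h2.div_const Real.pi
    have e : (fun x => wkbP lam ν x / Real.pi) = fun x : ℝ => G (lam * Real.exp x) ν := by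
      funext y
      unfold wkbP
      have := Real.pi_pos
      field_simp
    rwa [e] at h4
  rw [h3.deriv]
  have h5 := wkb_Tpos hν hx'
  have := Real.pi_pos
  positivity

/-- the function `t - ν arctan (t/ν)` is strictly increasing -/
theorem cntk_tau {ν : ℝ} (hν : 0 < ν) {t t' : ℝ} (h : t' < t) (h0 : 0 ≤ t') :
    t' - ν * Real.arctan (t' / ν) < t - ν * Real.arctan (t / ν) := by
  have hd : ∀ y : ℝ, HasDerivAt (fun y => y - ν * Real.arctan (y / ν))
      (1 - ν * (1 / (1 + (y / ν) ^ 2) * (1 / ν))) y := by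
    intro y
    have h1 : HasDerivAt (fun y : ℝ => y / ν) (1 / ν) y := (hasDerivAt_id y).div_const ν
    have h2 := (h1.arctan).const_mul ν
    exact (hasDerivAt_id y).sub h2
  have hm : StrictMonoOn (fun y => y - ν * Real.arctan (y / ν)) (Ici 0) := by
    apply strictMonoOn_of_deriv_pos (convex_Ici _)
      (fun y _ => (hd y).continuousAt.continuousWithinAt)
    intro y hy
    rw [interior_Ici, mem_Ioi] at hy
    rw [(hd y).deriv]
    have e : 1 - ν * (1 / (1 + (y / ν) ^ 2) * (1 / ν)) = y ^ 2 / (ν ^ 2 + y ^ 2) := by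
      field_simp
      ring
    rw [e]
    positivity
  exact hm h0 (h0.trans h.le) h

theorem cntk_phase {ν R : ℝ} (hν : 0 < ν) (hR : ν < R) :
    Real.pi * G R ν = Real.sqrt (R ^ 2 - ν ^ 2) - ν * Real.arctan (Real.sqrt (R ^ 2 - ν ^ 2) / ν) := by
  have hR0 : 0 < R := hν.trans hR
  have hc : 0 < ν / R := by positivity
  have e1 : Real.sqrt (1 - (ν / R) ^ 2) = Real.sqrt (R ^ 2 - ν ^ 2) / R := by
    rw [show (1 - (ν / R) ^ 2) = (R ^ 2 - ν ^ 2) / R ^ 2 by field_simp,
      Real.sqrt_div (by nlinarith), Real.sqrt_sq hR0.le]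
  rw [G, Zf, Real.arccos_eq_arctan hc, e1]
  have e2 : Real.sqrt (R ^ 2 - ν ^ 2) / R / (ν / R) = Real.sqrt (R ^ 2 - ν ^ 2) / ν := by
    field_simp
  rw [e2]
  have := Real.pi_pos
  field_simp

theorem cnt_k {s ν lam : ℝ} (hs : 0 ≤ s) (hν : ν = 1 / 2 ∨ 1 ≤ ν) (hlam : 0 < lam) {k : ℕ}
    (hk : 2 ≤ k) (h : (k : ℝ) - 18 / 25 ≤ G lam ν) : Cnt s ν lam k := by
  have hν0 : 0 < ν := by rcases hν with rfl | h1 <;> [norm_num; linarith]
  have hk2 : (2 : ℝ) ≤ k := by exact_mod_cast hk
  have hνlam : ν < lam := by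
    by_contra hcon
    push Not at hcon
    have h1 : 1 ≤ ν / lam := (one_le_div hlam).2 hcon
    rw [G, cntk_Zf_of_ge h1, mul_zero, zero_div] at h
    linarith
  set xν := Real.log (ν / lam) with hxν
  have hxν0 : xν < 0 := Real.log_neg (by positivity) ((div_lt_one hlam).2 hνlam)
  have hexpν : lam * Real.exp xν = ν := by
    rw [hxν, Real.exp_log (by positivity)]
    field_simp
  set F : ℝ → ℝ := fun x => G (lam * Real.exp x) ν with hF
  have hFc : Continuous F := cntk_cont hlam ν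
  have hFm : StrictMonoOn F (Ici xν) := cntk_mono hlam hν0
  have hF0 : F 0 = G lam ν := by rw [hF]; simp
  have hFν : F xν = 0 := by
    rw [hF]
    simp only
    rw [hexpν, G, div_self hν0.ne', cntk_Zf_of_ge le_rfl, mul_zero, zero_div]
  have hiv : ∀ v : ℝ, ∃ x : ℝ, 0 < v → v ≤ F 0 → xν < x ∧ x ≤ 0 ∧ F x = v := by
    intro v
    by_cases hv : 0 < v ∧ v ≤ F 0
    · have h1 := intermediate_value_Icc hxν0.le hFc.continuousOn
      obtain ⟨x, hx, hxv⟩ := h1 ⟨by rw [hFν]; exact hv.1.le, hv.2⟩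
      refine ⟨x, fun _ _ => ⟨lt_of_le_of_ne hx.1 ?_, hx.2, hxv⟩⟩
      rintro rfl
      rw [hFν] at hxv
      linarith [hv.1]
    · exact ⟨0, fun h1 h2 => absurd ⟨h1, h2⟩ hv⟩
  choose A hA using hiv
  -- the points
  set a : ℕ → ℝ := fun i => A (F 0 - 1 / 2 - ((k : ℝ) - 1 - i)) with ha
  have hav : ∀ i : ℕ, 1 ≤ i → i + 1 ≤ k →
      xν < a i ∧ a i ≤ 0 ∧ F (a i) = F 0 - 1 / 2 - ((k : ℝ) - 1 - i) := by
    intro i h1 h2
    have h1' : (1 : ℝ) ≤ i := by exact_mod_cast h1
    have h2' : (i : ℝ) + 1 ≤ k := by exact_mod_cast h2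
    apply hA
    · rw [hF0]; linarith
    · linarith
  have hmono : ∀ i j : ℕ, 1 ≤ i → i ≤ j → j + 1 ≤ k → a i ≤ a j := by
    intro i j h1 h2 h3
    obtain ⟨b1, b2, b3⟩ := hav i h1 (by omega)
    obtain ⟨c1, c2, c3⟩ := hav j (by omega) h3
    rw [← hFm.le_iff_le (mem_Ici.2 b1.le) (mem_Ici.2 c1.le), b3, c3]
    have : (i : ℝ) ≤ j := by exact_mod_cast h2
    linarith
  have hgt : ∀ x, xν < x → ν < lam * Real.exp x := by
    intro x hx
    have h1 : Real.exp xν < Real.exp x := Real.exp_lt_exp.2 hx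
    calc ν = lam * Real.exp xν := hexpν.symm
      _ < lam * Real.exp x := mul_lt_mul_of_pos_left h1 hlam
  -- the functions
  have hfun : ∀ i : ℕ, ∃ f : ℝ → ℝ, i < k → Tr s ν lam f ∧ (1 ≤ i → ∀ x ≤ a i, f x = 0) ∧
      (i + 2 ≤ k → ∀ x, a (i + 1) ≤ x → f x = 0) := by
    intro i
    by_cases hik : i < k
    swap
    · exact ⟨0, fun h1 => absurd h1 hik⟩
    rcases Nat.eq_zero_or_pos i with rfl | hi
    · -- first
      obtain ⟨b1, b2, b3⟩ := hav 1 le_rfl (by omega)
      obtain ⟨t, P, ht, hP, hph, hD⟩ := exists_tP hν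
      have hR := hgt _ b1
      set R := lam * Real.exp (a 1) with hRdef
      have hp := cntk_phase hν0 hR
      have hFR : G R ν = F 0 - 1 / 2 - ((k : ℝ) - 1 - (1 : ℕ)) := b3
      have h78 : 39 / 50 * Real.pi ≤ Real.pi * G R ν := by
        rw [hFR, hF0]
        push_cast
        have := Real.pi_pos
        nlinarith
      have ht1 : t ≤ Real.sqrt (R ^ 2 - ν ^ 2) := by
        by_contra hcon
        push Not at hcon
        have h1 := cntk_tau hν0 hcon (Real.sqrt_nonneg _)
        rw [← hp] at h1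
        linarith
      have ht2 : ν ^ 2 + t ^ 2 ≤ lam ^ 2 * Real.exp (2 * a 1) := by
        have h1 : t ^ 2 ≤ R ^ 2 - ν ^ 2 := by
          have h2 := pow_le_pow_left₀ ht.le ht1 2
          rwa [Real.sq_sqrt (by nlinarith)] at h2
        have h2 : lam ^ 2 * Real.exp (2 * a 1) = R ^ 2 := by
          rw [hRdef, mul_pow, ← Real.exp_nat_mul]
          norm_num
        rw [h2]
        linarith
      obtain ⟨f, hf, hf0⟩ := dir_tr (s := s) hs b2 hP ht2 hD
      exact ⟨f, fun _ => ⟨hf, fun h1 => absurd h1 (by norm_num), fun _ x hx => hf0 x hx⟩⟩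
    · obtain ⟨b1, b2, b3⟩ := hav i hi (by omega)
      rcases Nat.lt_or_ge (i + 1) k with h2 | h2
      · -- middle
        obtain ⟨c1, c2, c3⟩ := hav (i + 1) (by omega) (by omega)
        have hlt : a i < a (i + 1) := by
          rw [← hFm.lt_iff_lt (mem_Ici.2 b1.le) (mem_Ici.2 c1.le), b3, c3]
          push_cast
          linarith
        have hph : G (lam * Real.exp (a (i + 1))) ν - G (lam * Real.exp (a i)) ν = 1 := by
          have e1 : G (lam * Real.exp (a (i + 1))) ν = F (a (i + 1)) := rfl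
          have e2 : G (lam * Real.exp (a i)) ν = F (a i) := rfl
          rw [e1, e2, b3, c3]
          push_cast
          ring
        obtain ⟨f, hf, hf1, hf2⟩ := wkb_full (s := s) hν0 hlam (hgt _ b1) hlt c2 hph
        exact ⟨f, fun _ => ⟨hf, fun _ => hf1, fun _ x hx => hf2 x hx⟩⟩
      · -- last
        have hik' : k = i + 1 := by omega
        have hlt : a i < 0 := by
          rcases lt_or_eq_of_le b2 with h3 | h3
          · exact h3
          · exfalso
            rw [h3, hik'] at b3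
            push_cast at b3
            linarith
        have hph : G lam ν - G (lam * Real.exp (a i)) ν = 1 / 2 := by
          have e2 : G (lam * Real.exp (a i)) ν = F (a i) := rfl
          rw [e2, b3, hF0, hik']
          push_cast
          ring
        obtain ⟨f, hf, hf1⟩ := wkb_last (s := s) hs hν0 hlam (hgt _ b1) hlt hph
        exact ⟨f, fun _ => ⟨hf, fun _ => hf1, fun h3 => absurd h3 (by omega)⟩⟩
  choose f hf using hfun
  have key : ∀ i j : ℕ, i < j → j < k → ∀ x : ℝ, f i x = 0 ∨ f j x = 0 := by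
    intro i j hij hjk x
    rcases le_total (a (i + 1)) x with h1 | h1
    · exact Or.inl ((hf i (by omega)).2.2 (by omega) x h1)
    · exact Or.inr ((hf j hjk).2.1 (by omega) x (h1.trans (hmono (i + 1) j (by omega) hij (by omega))))
  refine ⟨fun i => f i, fun i => (hf i i.2).1, fun i j hij x _ => ?_⟩
  rcases lt_or_gt_of_ne (fun h1 : (i : ℕ) = j => hij (Fin.ext h1)) with h1 | h1
  · exact key i j h1 j.2 x
  · exact (key j i h1 i.2 x).symm

end Pool.Agent.PB86
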