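import Pool.Agent.PB86.Defs

/-!
# The inverse function of `Z`

`Zf` is continuous, strictly decreasing and convex on `[0,1]`, with `Zf' = - arccos` in the interior.
`YF` is its inverse on `[0,1]`, continued by `1` to the left of `0` and by `0` to the right of `1`.
-/

set_option autoImplicit false

open MeasureTheory Set Filter Topology
open scoped NNReal RealInnerProductSpace

namespace Pool.Agent.PB86

open Pool.Agent.H51.Neumann (E IsH1 IsNeumannSpectrum)

theorem Zf_cos {θ : ℝ} (h : θ ∈ Icc (0 : ℝ) (Real.pi / 2)) :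
    Zf (Real.cos θ) = Real.sin θ - θ * Real.cos θ := by
  have h1 : θ ≤ Real.pi := by
    have := Real.pi_pos
    linarith [h.2]
  unfold Zf
  rw [Real.arccos_cos h.1 h1, ← Real.sin_sq,
    Real.sqrt_sq (Real.sin_nonneg_of_nonneg_of_le_pi h.1 h1)]
  ring

theorem Zf_zero : Zf 0 = 1 := by
  unfold Zf
  simp

theorem Zf_one : Zf 1 = 0 := by
  unfold Zf
  simp

theorem YFun_hasDerivAt {c : ℝ} (h1 : -1 < c) (h2 : c < 1) : HasDerivAt Zf (-Real.arccos c) c := by
  have h3 : 0 < 1 - c ^ 2 := by nlinarith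
  have h4 : HasDerivAt (fun x : ℝ => 1 - x ^ 2) (-(2 * c)) c := by
    have := (hasDerivAt_pow 2 c).const_sub 1
    simpa using this
  have h5 := h4.sqrt h3.ne'
  have h6 := (hasDerivAt_id c).mul (Real.hasDerivAt_arccos h1.ne' h2.ne)
  have h7 := h5.sub h6
  have h8 : -(2 * c) / (2 * Real.sqrt (1 - c ^ 2)) -
      (1 * Real.arccos c + id c * -(1 / Real.sqrt (1 - c ^ 2))) = -Real.arccos c := by
    have h9 : Real.sqrt (1 - c ^ 2) ≠ 0 := (Real.sqrt_pos.2 h3).ne'
    simp only [id]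
    field_simp
    ring
  rw [h8] at h7
  exact h7

theorem YFun_Zf_cont : Continuous Zf := by
  unfold Zf
  exact (Real.continuous_sqrt.comp (continuous_const.sub (continuous_pow 2))).sub
    (continuous_id.mul Real.continuous_arccos)

theorem YFun_deriv {c : ℝ} (hc : c ∈ Ioo (0 : ℝ) 1) : deriv Zf c = -Real.arccos c :=
  (YFun_hasDerivAt (by linarith [hc.1]) hc.2).deriv

theorem Zf_anti : StrictAntiOn Zf (Icc 0 1) := by
  apply strictAntiOn_of_deriv_neg (convex_Icc 0 1) YFun_Zf_cont.continuousOn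
  intro x hx
  rw [interior_Icc] at hx
  rw [YFun_deriv hx]
  have := Real.arccos_pos.2 hx.2
  linarith

theorem YFun_Zf_convex : ConvexOn ℝ (Icc 0 1) Zf := by
  apply MonotoneOn.convexOn_of_deriv (convex_Icc 0 1) YFun_Zf_cont.continuousOn
  · intro x hx
    rw [interior_Icc] at hx
    exact (YFun_hasDerivAt (by linarith [hx.1]) hx.2).differentiableAt.differentiableWithinAt
  · intro x hx y hy hxy
    rw [interior_Icc] at hx hy
    rw [YFun_deriv hx, YFun_deriv hy]
    exact neg_le_neg (Real.arccos_le_arccos hxy)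

theorem YFun_Zf_nonneg {c : ℝ} (hc : c ∈ Icc (0 : ℝ) 1) : 0 ≤ Zf c := by
  rw [← Zf_one]
  exact Zf_anti.antitoneOn hc (right_mem_Icc.2 zero_le_one) hc.2

theorem YFun_Zf_le_one {c : ℝ} (hc : c ∈ Icc (0 : ℝ) 1) : Zf c ≤ 1 := by
  rw [← Zf_zero]
  exact Zf_anti.antitoneOn (left_mem_Icc.2 zero_le_one) hc hc.1

theorem YFun_exists {z : ℝ} (hz : z ∈ Icc (0 : ℝ) 1) : ∃ c ∈ Icc (0 : ℝ) 1, Zf c = z := by
  have h := intermediate_value_Icc' (zero_le_one' ℝ) YFun_Zf_cont.continuousOn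
  rw [Zf_zero, Zf_one] at h
  exact h hz

theorem YF_Zf {c : ℝ} (hc : c ∈ Icc (0 : ℝ) 1) : YF (Zf c) = c := by
  have h : {c' : ℝ | c' ∈ Icc (0 : ℝ) 1 ∧ Zf c ≤ Zf c'} = Icc 0 c := by
    ext x
    constructor
    · rintro ⟨h1, h2⟩
      exact ⟨h1.1, (Zf_anti.le_iff_ge hc h1).1 h2⟩
    · rintro ⟨h1, h2⟩
      have h3 : x ∈ Icc (0 : ℝ) 1 := ⟨h1, h2.trans hc.2⟩
      exact ⟨h3, (Zf_anti.le_iff_ge hc h3).2 h2⟩
  unfold YF
  rw [h, csSup_Icc hc.1]

theorem YF_mem (z : ℝ) : YF z ∈ Icc (0 : ℝ) 1 :=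
  ⟨Real.sSup_nonneg fun _ hx => hx.1.1, Real.sSup_le (fun _ hx => hx.1.2) zero_le_one⟩

theorem YF_of_ge {z : ℝ} (hz : 1 ≤ z) : YF z = 0 := by
  apply le_antisymm _ (YF_mem z).1
  apply Real.sSup_le _ le_rfl
  rintro x ⟨h1, h2⟩
  by_contra h
  have h3 := Zf_anti (left_mem_Icc.2 zero_le_one) h1 (not_le.1 h)
  rw [Zf_zero] at h3
  linarith

theorem YF_zero : YF 0 = 1 := by
  rw [← Zf_one]
  exact YF_Zf (right_mem_Icc.2 zero_le_one)

theorem le_YF_iff {c z : ℝ} (hc : 0 < c) (hc1 : c ≤ 1) : c ≤ YF z ↔ z ≤ Zf c := by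
  have hcm : c ∈ Icc (0 : ℝ) 1 := ⟨hc.le, hc1⟩
  constructor
  · intro h
    rcases le_total z 0 with hz | hz
    · exact hz.trans (YFun_Zf_nonneg hcm)
    · rcases le_total 1 z with hz1 | hz1
      · rw [YF_of_ge hz1] at h
        linarith
      · obtain ⟨c0, hc0, rfl⟩ := YFun_exists ⟨hz, hz1⟩
        rw [YF_Zf hc0] at h
        exact Zf_anti.antitoneOn hcm hc0 h
  · intro h
    exact le_csSup ⟨1, fun _ hx => hx.1.2⟩ ⟨hcm, h⟩

theorem YFun_lt_iff {c z : ℝ} (hc : 0 ≤ c) (hc1 : c < 1) : c < YF z ↔ z < Zf c := by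
  have hcm : c ∈ Icc (0 : ℝ) 1 := ⟨hc, hc1.le⟩
  constructor
  · intro h
    have h1 := (le_YF_iff (hc.trans_lt h) (YF_mem z).2).1 le_rfl
    exact h1.trans_lt (Zf_anti hcm (YF_mem z) h)
  · intro h
    rcases le_or_gt z 0 with hz | hz
    · have h1 : (1 : ℝ) ≤ YF z := by
        rw [le_YF_iff one_pos le_rfl, Zf_one]
        exact hz
      linarith
    · have h1 : z ≤ 1 := h.le.trans (YFun_Zf_le_one hcm)
      obtain ⟨c0, hc0, rfl⟩ := YFun_exists ⟨hz.le, h1⟩
      rw [YF_Zf hc0]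
      exact (Zf_anti.lt_iff_gt hc0 hcm).1 h

theorem G_iff {lam ν g : ℝ} (hlam : 0 < lam) (hν : 0 < ν) (hg : 0 < g) :
    ν ≤ lam * YF (Real.pi * g / lam) ↔ g ≤ G lam ν := by
  have hpi := Real.pi_pos
  unfold G
  rcases le_or_gt ν lam with h | h
  · have h1 : 0 < ν / lam := div_pos hν hlam
    have h2 : ν / lam ≤ 1 := (div_le_one hlam).2 h
    have h3 : ν ≤ lam * YF (Real.pi * g / lam) ↔ ν / lam ≤ YF (Real.pi * g / lam) := by
      rw [div_le_iff₀ hlam, mul_comm]
    rw [h3, le_YF_iff h1 h2, div_le_iff₀ hlam, le_div_iff₀ hpi, mul_comm Real.pi g,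
      mul_comm (Zf (ν / lam)) lam]
  · have h1 : 1 < ν / lam := (one_lt_div hlam).2 h
    have h2 : Zf (ν / lam) = 0 := by
      unfold Zf
      rw [Real.arccos_of_one_le h1.le, Real.sqrt_eq_zero_of_nonpos (by nlinarith)]
      ring
    constructor
    · intro h3
      have h4 := mul_le_mul_of_nonneg_left (YF_mem (Real.pi * g / lam)).2 hlam.le
      linarith
    · intro h3
      rw [h2, mul_zero, zero_div] at h3
      linarith

theorem YF_anti : Antitone YF := by
  intro z z' h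
  rcases (YF_mem z').1.eq_or_lt with h1 | h1
  · rw [← h1]
    exact (YF_mem z).1
  · have h2 := (le_YF_iff h1 (YF_mem z').2).1 le_rfl
    exact (le_YF_iff h1 (YF_mem z').2).2 (h.trans h2)

theorem YF_cont : Continuous YF := by
  rw [OrderTopology.continuous_iff]
  intro a
  constructor
  · rcases lt_or_ge a 0 with h | h
    · have h1 : YF ⁻¹' Ioi a = univ := by
        ext z
        simp only [mem_preimage, mem_Ioi, mem_univ, iff_true]
        exact h.trans_le (YF_mem z).1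
      rw [h1]
      exact isOpen_univ
    · rcases lt_or_ge a 1 with h' | h'
      · have h1 : YF ⁻¹' Ioi a = Iio (Zf a) := by
          ext z
          exact YFun_lt_iff h h'
        rw [h1]
        exact isOpen_Iio
      · have h1 : YF ⁻¹' Ioi a = ∅ := by
          ext z
          simp only [mem_preimage, mem_Ioi, mem_empty_iff_false, iff_false, not_lt]
          exact (YF_mem z).2.trans h'
        rw [h1]
        exact isOpen_empty
  · rcases le_or_gt a 0 with h | h
    · have h1 : YF ⁻¹' Iio a = ∅ := by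
        ext z
        simp only [mem_preimage, mem_Iio, mem_empty_iff_false, iff_false, not_lt]
        exact h.trans (YF_mem z).1
      rw [h1]
      exact isOpen_empty
    · rcases le_or_gt a 1 with h' | h'
      · have h1 : YF ⁻¹' Iio a = Ioi (Zf a) := by
          ext z
          simp only [mem_preimage, mem_Iio, mem_Ioi]
          rw [← not_le, le_YF_iff h h', not_le]
        rw [h1]
        exact isOpen_Ioi
      · have h1 : YF ⁻¹' Iio a = univ := by
          ext z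
          simp only [mem_preimage, mem_Iio, mem_univ, iff_true]
          exact (YF_mem z).2.trans_lt h'
        rw [h1]
        exact isOpen_univ

theorem YFun_Zf_YF_le {x : ℝ} (hx : 0 ≤ x) : Zf (YF x) ≤ x := by
  rcases le_total 1 x with h | h
  · rw [YF_of_ge h, Zf_zero]
    exact h
  · obtain ⟨c, hc, rfl⟩ := YFun_exists ⟨hx, h⟩
    rw [YF_Zf hc]

theorem YF_convex : ConvexOn ℝ (Ici 0) YF := by
  refine ⟨convex_Ici 0, ?_⟩
  intro x hx y hy a b ha hb hab
  rw [mem_Ici] at hx hy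
  have h1 := YF_mem x
  have h2 := YF_mem y
  have h3 : a • YF x + b • YF y ∈ Icc (0 : ℝ) 1 := convex_Icc 0 1 h1 h2 ha hb hab
  rcases h3.2.eq_or_lt with h | h
  · rw [h]
    exact (YF_mem _).2
  · rw [← not_lt, YFun_lt_iff h3.1 h, not_lt]
    refine (YFun_Zf_convex.2 h1 h2 ha hb hab).trans ?_
    have h4 := mul_le_mul_of_nonneg_left (YFun_Zf_YF_le hx) ha
    have h5 := mul_le_mul_of_nonneg_left (YFun_Zf_YF_le hy) hb
    simp only [smul_eq_mul]
    linarith

end Pool.Agent.PB86
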