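import Pool.Agent.PB86.HarmDim
import Pool.Agent.PB86.Cut
import Pool.Agent.PB86.CntK
import Pool.Agent.PB86.YFun
import Pool.Agent.PB86.MPoly

/-!
# Assembling the counts over the degrees

`K l` is the largest element of the set `S l`, which consists of `1` if `ν_l < ν₁` and of the
`k` in `[2, Kmax)` with `ν_l < λ YF(π (k - 18/25) / λ)`; it is at least the number of the elements
of `S l`. For every threshold `t` the degrees `l` with `ν_l < t` are `0, ..., m - 1` with
`m = ⌈t - s⌉`, and they contribute at least `mp n (m - 1 + n / 2) ≥ mt n t`.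
-/

set_option autoImplicit false

open MeasureTheory Set Filter Topology
open scoped NNReal RealInnerProductSpace

namespace Pool.Agent.PB86

open Pool.Agent.H51.Neumann (E IsH1 IsNeumannSpectrum)

theorem CountSum_thr {n : ℕ} (hn : 3 ≤ n) (L : ℕ) {t : ℝ} (ht : t ≤ L + ((n : ℝ) / 2 - 1)) :
    mt n t ≤ ∑ l ∈ Finset.range L, (if (l : ℝ) + ((n : ℝ) / 2 - 1) < t then (1 : ℝ) else 0) *
      (Module.finrank ℝ (Harm n l) : ℝ) := by
  have hnn : ∀ l : ℕ, (0 : ℝ) ≤ (if (l : ℝ) + ((n : ℝ) / 2 - 1) < t then (1 : ℝ) else 0) *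
      (Module.finrank ℝ (Harm n l) : ℝ) := by
    intro l
    refine mul_nonneg ?_ (Nat.cast_nonneg _)
    split_ifs <;> norm_num
  by_cases h : t ≤ (n : ℝ) / 2 - 1
  · unfold mt
    rw [if_pos h]
    exact Finset.sum_nonneg fun l _ => hnn l
  · push Not at h
    set m : ℕ := ⌈t - ((n : ℝ) / 2 - 1)⌉₊ with hm
    have hm1 : 0 < m := Nat.ceil_pos.2 (by linarith)
    have hmL : m ≤ L := Nat.ceil_le.2 (by linarith)
    have hmt : t - ((n : ℝ) / 2 - 1) ≤ m := Nat.le_ceil _
    have hlt : ∀ l ∈ Finset.range m, (l : ℝ) + ((n : ℝ) / 2 - 1) < t := by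
      intro l hl
      have := Nat.lt_ceil.1 (Finset.mem_range.1 hl)
      linarith
    calc mt n t ≤ mt n (((m - 1 : ℕ) : ℝ) + (n : ℝ) / 2) := by
          refine mt_mono hn ?_
          rw [Nat.cast_sub hm1]
          push_cast
          linarith
      _ = mp n (((m - 1 : ℕ) : ℝ) + (n : ℝ) / 2) := by
          refine mt_eq hn ?_
          have : (0 : ℝ) ≤ ((m - 1 : ℕ) : ℝ) := Nat.cast_nonneg _
          linarith
      _ ≤ ((∑ l ∈ Finset.range (m - 1 + 1), Module.finrank ℝ (Harm n l) : ℕ) : ℝ) :=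
          sum_harm_ge hn (m - 1)
      _ = ∑ l ∈ Finset.range m, (Module.finrank ℝ (Harm n l) : ℝ) := by
          rw [Nat.sub_add_cancel hm1]
          push_cast
          rfl
      _ = ∑ l ∈ Finset.range m, (if (l : ℝ) + ((n : ℝ) / 2 - 1) < t then (1 : ℝ) else 0) *
            (Module.finrank ℝ (Harm n l) : ℝ) := by
          refine Finset.sum_congr rfl fun l hl => ?_
          rw [if_pos (hlt l hl), one_mul]
      _ ≤ _ := Finset.sum_le_sum_of_subset_of_nonneg (Finset.range_mono hmL)
          fun l _ _ => hnn l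

theorem count_sum {n : ℕ} (hn : 3 ≤ n) {lam X : ℝ} (hlam : 0 < lam) (hX : 1 < X) (Kmax : ℕ) :
    ∃ (L : ℕ) (K : ℕ → ℕ), (∀ l < L, Cnt ((n : ℝ) / 2 - 1) (l + ((n : ℝ) / 2 - 1)) lam (K l)) ∧
      mt n (Real.sqrt (lam ^ 2 - lam ^ 2 / X - X ^ 2 + n * X - (n - 1)))
        + ∑ k ∈ Finset.Ico 2 Kmax, mt n (lam * YF (Real.pi * ((k : ℝ) - 18 / 25) / lam)) ≤
      ((∑ l ∈ Finset.range L, K l * Module.finrank ℝ (Harm n l) : ℕ) : ℝ) := by
  classical
  have hn3 : (3 : ℝ) ≤ n := by exact_mod_cast hn
  have hs : (0 : ℝ) ≤ (n : ℝ) / 2 - 1 := by linarith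
  set r : ℝ := lam ^ 2 - lam ^ 2 / X - X ^ 2 + n * X - (n - 1) with hr
  set ν : ℕ → ℝ := fun l => (l : ℝ) + ((n : ℝ) / 2 - 1) with hν
  set t : ℕ → ℝ := fun k => lam * YF (Real.pi * ((k : ℝ) - 18 / 25) / lam) with ht
  have hνpos : ∀ l, 0 < ν l := by
    intro l
    have : (0 : ℝ) ≤ l := Nat.cast_nonneg _
    simp only [hν]
    linarith
  have hνcase : ∀ l, ν l = 1 / 2 ∨ 1 ≤ ν l := by
    intro l
    rcases Nat.eq_zero_or_pos l with rfl | hl
    · rcases Nat.lt_or_ge n 4 with h4 | h4
      · have h3 : n = 3 := by omega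
        left
        simp only [hν, h3]
        norm_num
      · right
        have : (4 : ℝ) ≤ n := by exact_mod_cast h4
        simp only [hν]
        push_cast
        linarith
    · right
      have : (1 : ℝ) ≤ l := by exact_mod_cast hl
      simp only [hν]
      linarith
  set F : ℕ → Finset ℕ := fun l => (Finset.Ico 2 Kmax).filter fun k => ν l < t k with hF
  set S : ℕ → Finset ℕ := fun l => (if ν l < Real.sqrt r then {1} else ∅) ∪ F l with hS
  set K : ℕ → ℕ := fun l => (S l).sup id with hK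
  -- the trial functions
  have hone : ∀ l, ν l < Real.sqrt r → Cnt ((n : ℝ) / 2 - 1) (ν l) lam 1 := by
    intro l hl
    refine cnt_one hs hlam (P := X - 1) (by linarith) ?_
    have h2 := (Real.lt_sqrt (hνpos l).le).1 hl
    refine lt_of_lt_of_eq h2 ?_
    rw [hr, sub_add_cancel]
    ring
  have hmany : ∀ l, ∀ k ∈ F l, Cnt ((n : ℝ) / 2 - 1) (ν l) lam k := by
    intro l k hk
    have hk2 := Finset.mem_Ico.1 (Finset.mem_filter.1 hk).1
    have hlt := (Finset.mem_filter.1 hk).2
    have hk2r : (2 : ℝ) ≤ k := by exact_mod_cast hk2.1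
    refine cnt_k hs (hνcase l) hlam hk2.1 ?_
    exact (G_iff hlam (hνpos l) (by linarith)).1 hlt.le
  have hcnt : ∀ l, Cnt ((n : ℝ) / 2 - 1) (ν l) lam (K l) := by
    intro l
    rcases (S l).eq_empty_or_nonempty with he | hne
    · have : K l = 0 := by
        simp only [hK, he, Finset.sup_empty]
        rfl
      rw [this]
      exact ⟨fun i => i.elim0, fun i => i.elim0, fun i => i.elim0⟩
    · obtain ⟨k, hk, hkK⟩ := Finset.exists_mem_eq_sup (S l) hne id
      have hkK' : K l = k := hkK
      rw [hkK']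
      simp only [hS] at hk
      rcases Finset.mem_union.1 hk with h | h
      · by_cases hlt : ν l < Real.sqrt r
        · rw [if_pos hlt, Finset.mem_singleton] at h
          rw [h]
          exact hone l hlt
        · rw [if_neg hlt] at h
          exact absurd h (Finset.notMem_empty _)
      · exact hmany l k h
  -- the number
  have hcard : ∀ l, (if ν l < Real.sqrt r then (1 : ℝ) else 0)
      + ∑ k ∈ Finset.Ico 2 Kmax, (if ν l < t k then (1 : ℝ) else 0) ≤ K l := by
    intro l
    have h1 : (S l).card ≤ K l := by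
      have hsub : S l ⊆ Finset.Icc 1 (K l) := by
        intro k hk
        rw [Finset.mem_Icc]
        refine ⟨?_, ?_⟩
        · simp only [hS] at hk
          rcases Finset.mem_union.1 hk with h | h
          · by_cases hlt : ν l < Real.sqrt r
            · rw [if_pos hlt, Finset.mem_singleton] at h
              omega
            · rw [if_neg hlt] at h
              exact absurd h (Finset.notMem_empty _)
          · have := Finset.mem_Ico.1 (Finset.mem_filter.1 h).1
            omega
        · exact Finset.le_sup (f := id) hk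
      have h2 := Finset.card_le_card hsub
      rw [Nat.card_Icc] at h2
      omega
    have h2 : (S l).card = (if ν l < Real.sqrt r then 1 else 0) + (F l).card := by
      simp only [hS]
      rw [Finset.card_union_of_disjoint]
      · by_cases hlt : ν l < Real.sqrt r
        · rw [if_pos hlt, if_pos hlt, Finset.card_singleton]
        · rw [if_neg hlt, if_neg hlt, Finset.card_empty]
      · rw [Finset.disjoint_left]
        intro k hk hkF
        have h3 := Finset.mem_Ico.1 (Finset.mem_filter.1 hkF).1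
        by_cases hlt : ν l < Real.sqrt r
        · rw [if_pos hlt, Finset.mem_singleton] at hk
          omega
        · rw [if_neg hlt] at hk
          exact absurd hk (Finset.notMem_empty _)
    have h3 : ((F l).card : ℝ) = ∑ k ∈ Finset.Ico 2 Kmax, (if ν l < t k then (1 : ℝ) else 0) := by
      simp only [hF]
      rw [Finset.card_filter]
      push_cast
      rfl
    rw [← h3]
    have h4 : ((S l).card : ℝ) ≤ K l := by exact_mod_cast h1
    rw [h2] at h4
    push_cast at h4
    exact h4
  -- the sum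
  set L : ℕ := ⌈Real.sqrt r⌉₊ + ⌈lam⌉₊ with hL
  have hL1 : Real.sqrt r ≤ L + ((n : ℝ) / 2 - 1) := by
    have h1 := Nat.le_ceil (Real.sqrt r)
    have h2 : (0 : ℝ) ≤ (⌈lam⌉₊ : ℝ) := Nat.cast_nonneg _
    rw [hL]
    push_cast
    linarith
  have hL2 : ∀ k, t k ≤ L + ((n : ℝ) / 2 - 1) := by
    intro k
    have h1 := Nat.le_ceil lam
    have h2 : (0 : ℝ) ≤ (⌈Real.sqrt r⌉₊ : ℝ) := Nat.cast_nonneg _
    have h3 : t k ≤ lam := by
      simp only [ht]
      have := (YF_mem (Real.pi * ((k : ℝ) - 18 / 25) / lam)).2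
      nlinarith
    rw [hL]
    push_cast
    linarith
  refine ⟨L, K, fun l _ => hcnt l, ?_⟩
  have e1 := CountSum_thr hn L hL1
  have e2 : ∑ k ∈ Finset.Ico 2 Kmax, mt n (t k) ≤ ∑ k ∈ Finset.Ico 2 Kmax,
      ∑ l ∈ Finset.range L, (if ν l < t k then (1 : ℝ) else 0) *
        (Module.finrank ℝ (Harm n l) : ℝ) :=
    Finset.sum_le_sum fun k _ => CountSum_thr hn L (hL2 k)
  rw [Finset.sum_comm] at e2
  refine (add_le_add e1 e2).trans ?_
  rw [← Finset.sum_add_distrib]
  push_cast
  refine Finset.sum_le_sum fun l _ => ?_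
  rw [← Finset.sum_mul, ← add_mul]
  exact mul_le_mul_of_nonneg_right (hcard l) (Nat.cast_nonneg _)

end Pool.Agent.PB86
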