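import Pool.Agent.H51.Neumann.Basic

/-!
# Pólya's inequality for the Neumann eigenvalues of balls: definitions.  DO NOT CHANGE.

Blueprint: /team-store/PB86_blueprint.txt.
-/

set_option autoImplicit false

open MeasureTheory Set Filter Topology
open scoped NNReal RealInnerProductSpace

namespace Pool.Agent.PB86

open Pool.Agent.H51.Neumann (E IsH1 IsNeumannSpectrum)

/-! ### Harmonic polynomials -/

/-- evaluation of a polynomial in `n` variables -/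
noncomputable def ev {n : ℕ} (p : MvPolynomial (Fin n) ℝ) (x : E n) : ℝ :=
  MvPolynomial.eval (fun i => x i) p

/-- the Laplacian of a polynomial -/
noncomputable def plap (n : ℕ) : MvPolynomial (Fin n) ℝ →ₗ[ℝ] MvPolynomial (Fin n) ℝ :=
  ∑ i, (MvPolynomial.pderiv i).toLinearMap ∘ₗ (MvPolynomial.pderiv i).toLinearMap

/-- harmonic homogeneous polynomials of degree `l` -/
noncomputable def Harm (n l : ℕ) : Submodule ℝ (MvPolynomial (Fin n) ℝ) :=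
  MvPolynomial.homogeneousSubmodule (Fin n) ℝ l ⊓ LinearMap.ker (plap n)

/-- surface measure of the unit sphere of `ℝⁿ` -/
noncomputable abbrev sph (n : ℕ) : Measure (Metric.sphere (0 : E n) 1) :=
  (volume : Measure (E n)).toSphere

/-! ### Trial functions -/

/-- The one dimensional form in the variable `x = ln r ≤ 0`:
`∫_{-∞}^0 (f'² + (ν² - λ² e^{2x}) f²) dx - s f(0)²`. -/
noncomputable def Q (s ν lam : ℝ) (f : ℝ → ℝ) : ℝ :=
  (∫ x in Iic (0 : ℝ), ((deriv f x) ^ 2 + (ν ^ 2 - lam ^ 2 * Real.exp (2 * x)) * f x ^ 2))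
    - s * f 0 ^ 2

/-- `f` is a trial function with negative form: Lipschitz on `(-∞,0]`, zero near `-∞`. -/
structure Tr (s ν lam : ℝ) (f : ℝ → ℝ) : Prop where
  lip : ∃ C : ℝ≥0, LipschitzOnWith C f (Iic 0)
  zero : ∃ a : ℝ, ∀ x ≤ a, f x = 0
  neg : Q s ν lam f < 0

/-- there are `k` trial functions with negative form and disjoint supports -/
def Cnt (s ν lam : ℝ) (k : ℕ) : Prop :=
  ∃ f : Fin k → ℝ → ℝ, (∀ i, Tr s ν lam (f i)) ∧
    ∀ i j, i ≠ j → ∀ x ≤ 0, f i x = 0 ∨ f j x = 0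

/-- there are `N` Lipschitz trial functions on `ℝⁿ` on whose span
`∫_B |∇u|² < λ² ∫_B u²` (`B` the unit ball). -/
def Fam (n : ℕ) (lam : ℝ) (N : ℕ) : Prop :=
  ∃ u : Fin N → E n → ℝ, (∀ i, ∃ C : ℝ≥0, LipschitzWith C (u i)) ∧
    (∀ i, HasCompactSupport (u i)) ∧
    ∀ c : Fin N → ℝ, c ≠ 0 →
      ∫ x in Metric.ball (0 : E n) 1, ‖gradient (fun y => ∑ i, c i * u i y) x‖ ^ 2 <
        lam ^ 2 * ∫ x in Metric.ball (0 : E n) 1, (∑ i, c i * u i x) ^ 2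

/-- radial profile: Lipschitz, zero near `0`, compact support -/
structure Rad (Ψ : ℝ → ℝ) : Prop where
  lip : ∃ C : ℝ≥0, LipschitzWith C Ψ
  zero : ∃ ε > 0, ∀ r ≤ ε, Ψ r = 0
  cpt : ∃ R : ℝ, ∀ r ≥ R, Ψ r = 0

/-- the radial form in degree `l` of the trial function `Ψ(|x|) H(x)` -/
noncomputable def qf (n l : ℕ) (lam : ℝ) (Ψ : ℝ → ℝ) : ℝ :=
  ∫ r in Ioo (0 : ℝ) 1, (deriv Ψ r ^ 2 * r ^ (2 * l + n - 1)
    + 2 * l * (Ψ r * deriv Ψ r) * r ^ (2 * l + n - 2)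
    + l * (2 * l + n - 2) * Ψ r ^ 2 * r ^ (2 * l + n - 3)
    - lam ^ 2 * Ψ r ^ 2 * r ^ (2 * l + n - 1))

/-! ### The counting inequality -/

/-- `∫_0^{π/2} cos^m` -/
noncomputable def Cc (m : ℕ) : ℝ := ∫ x in (0 : ℝ)..(Real.pi / 2), Real.cos x ^ m

/-- Weyl's counting term of the unit ball, `W_n(λ) = λⁿ / (2ⁿ Γ(n/2+1)²) = 2 λⁿ Cc n / (π n!)`. -/
noncomputable def Wn (n : ℕ) (lam : ℝ) : ℝ := 2 * lam ^ n * Cc n / (Real.pi * n.factorial)

/-- what has to be shown for every `λ` -/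
def Count (n : ℕ) (lam : ℝ) : Prop :=
  ∃ (L : ℕ) (K : ℕ → ℕ), (∀ l < L, Cnt ((n : ℝ) / 2 - 1) (l + ((n : ℝ) / 2 - 1)) lam (K l)) ∧
    Wn n lam < ((∑ l ∈ Finset.range L, K l * Module.finrank ℝ (Harm n l) : ℕ) : ℝ)

/-- `Z(c) = √(1-c²) - c arccos c`, decreasing on `[0,1]` from `1` to `0`;
`Z(cos θ) = sin θ - θ cos θ`. -/
noncomputable def Zf (c : ℝ) : ℝ := Real.sqrt (1 - c ^ 2) - c * Real.arccos c

/-- the phase `G(λ,ν) = (√(λ²-ν²) - ν arccos(ν/λ))/π = λ Z(ν/λ)/π` -/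
noncomputable def G (lam ν : ℝ) : ℝ := lam * Zf (ν / lam) / Real.pi

/-- the inverse function of `Zf`, extended by `0` beyond `1` -/
noncomputable def YF (z : ℝ) : ℝ := sSup {c : ℝ | c ∈ Icc (0 : ℝ) 1 ∧ z ≤ Zf c}

/-- the polynomial `M(L) = mp n (L + n/2)`, where `M(L) = ∑_{l ≤ L} dim Harm n l` -/
noncomputable def mp (n : ℕ) (ν : ℝ) : ℝ :=
  (2 * ν - 1) * (∏ i ∈ Finset.range (n - 2), (ν - (n : ℝ) / 2 + ((i : ℝ) + 1)))
    / (n - 1).factorial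

/-- `mp` cut off at its largest zero `s = n/2 - 1` -/
noncomputable def mt (n : ℕ) (ν : ℝ) : ℝ := if ν ≤ (n : ℝ) / 2 - 1 then 0 else mp n ν

/-- the leading term of `mp` -/
noncomputable def pp (n : ℕ) (ν : ℝ) : ℝ := 2 * ν ^ (n - 1) / (n - 1).factorial

/-- the sufficient inequality (II) with trial parameter `X = P + 1` -/
def II (n : ℕ) (lam X : ℝ) : Prop :=
  pp n lam * (Cc (n - 1) / (2 * Real.pi)
      + ((n : ℝ) - 1) * ((n : ℝ) - 3) * Cc (n - 2) / (24 * Real.pi * lam))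
    + (∫ g in (0 : ℝ)..(32 / 25), mt n (lam * YF (Real.pi * g / lam)))
  < mt n (Real.sqrt (lam ^ 2 - lam ^ 2 / X - X ^ 2 + n * X - (n - 1)))
    + 1 / 2 * mt n (lam * YF (Real.pi * (32 / 25) / lam))

/-- truncated series of `∫_0^1 exp(-Y σ^{2/3}) dσ`; an upper bound for it when `Y ≥ 0` -/
noncomputable def J10 (Y : ℝ) : ℝ :=
  ∑ k ∈ Finset.range 11, (-1) ^ k * 3 * Y ^ k / (k.factorial * (2 * k + 3))

end Pool.Agent.PB86
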