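import Pool.Agent.PB86.Cut

set_option autoImplicit false

open MeasureTheory Set Filter Topology
open scoped NNReal RealInnerProductSpace

namespace Pool.Agent.PB86

open Pool.Agent.H51.Neumann (E IsH1 IsNeumannSpectrum)

/-- the exponential moments on `(-∞, x₁]` -/
theorem dir_int (x₁ : ℝ) (k : ℕ) {c : ℝ} (hc : 0 < c) :
    IntegrableOn (fun x => (x₁ - x) ^ k * Real.exp (-(c * (x₁ - x)))) (Iic x₁) ∧
      ∫ x in Iic x₁, (x₁ - x) ^ k * Real.exp (-(c * (x₁ - x))) = k.factorial / c ^ (k + 1) := by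
  have hmp := Measure.measurePreserving_sub_left (volume : Measure ℝ) x₁
  have hemb : MeasurableEmbedding (fun x : ℝ => x₁ - x) :=
    (MeasurableEquiv.subLeft x₁).measurableEmbedding
  have hpre : (fun x : ℝ => x₁ - x) ⁻¹' Ici 0 = Iic x₁ := by
    ext x; simp
  have hI : IntegrableOn (fun y : ℝ => y ^ k * Real.exp (-(c * y))) (Ici 0) := by
    rw [integrableOn_Ici_iff_integrableOn_Ioi]
    have := integrableOn_rpow_mul_exp_neg_mul_rpow (s := (k : ℝ)) (p := 1) (b := c)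
      (by have : (0 : ℝ) ≤ k := Nat.cast_nonneg k
          linarith) one_pos hc
    refine this.congr_fun (fun y hy => ?_) measurableSet_Ioi
    simp only [Real.rpow_natCast, Real.rpow_one, neg_mul]
  constructor
  · rw [← hpre]
    exact (hmp.integrableOn_comp_preimage hemb).2 hI
  · rw [← hpre]
    have h1 := hmp.setIntegral_preimage_emb hemb (fun y : ℝ => y ^ k * Real.exp (-(c * y))) (Ici 0)
    rw [h1, integral_Ici_eq_integral_Ioi]
    have h2 := Real.integral_rpow_mul_exp_neg_mul_Ioi (a := (k : ℝ) + 1) (r := c)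
      (by positivity) hc
    rw [Real.Gamma_nat_eq_factorial] at h2
    have h3 : ∫ t in Ioi (0 : ℝ), t ^ k * Real.exp (-(c * t)) =
        ∫ t in Ioi (0 : ℝ), t ^ ((k : ℝ) + 1 - 1) * Real.exp (-(c * t)) := by
      refine setIntegral_congr_fun measurableSet_Ioi (fun y _ => ?_)
      simp only [add_sub_cancel_right, Real.rpow_natCast]
    rw [h3, h2]
    rw [show ((k : ℝ) + 1) = ((k + 1 : ℕ) : ℝ) by push_cast; ring, Real.rpow_natCast]
    rw [one_div, inv_pow]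
    ring

/-- profile -/
noncomputable def dirh (P y : ℝ) : ℝ := y * (1 + P * y) * Real.exp (-(P * y))

/-- its derivative -/
noncomputable def dirh' (P y : ℝ) : ℝ := (1 + P * y - (P * y) ^ 2) * Real.exp (-(P * y))

theorem dirh_deriv (P y : ℝ) : HasDerivAt (dirh P) (dirh' P y) y := by
  have h1 : HasDerivAt (fun y : ℝ => P * y) P y := by
    simpa using (hasDerivAt_id y).const_mul P
  have h2 : HasDerivAt (fun y : ℝ => y * (1 + P * y)) (1 * (1 + P * y) + y * P) y :=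
    (hasDerivAt_id y).mul (h1.const_add 1)
  have h3 : HasDerivAt (fun y : ℝ => Real.exp (-(P * y))) (Real.exp (-(P * y)) * -P) y :=
    h1.neg.exp
  have h4 := h2.mul h3
  refine h4.congr_deriv ?_
  rw [dirh']
  ring

theorem dirh_nonneg {P y : ℝ} (hP : 0 < P) (hy : 0 ≤ y) : 0 ≤ dirh P y := by
  unfold dirh; positivity

theorem dirh'_le {P y : ℝ} (hP : 0 < P) (hy : 0 ≤ y) : |dirh' P y| ≤ 2 := by
  have hu : 0 ≤ P * y := by positivity
  unfold dirh'
  set u := P * y with hu'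
  have h1 := Real.quadratic_le_exp_of_nonneg hu
  have h2 : Real.exp u * Real.exp (-u) = 1 := by rw [← Real.exp_add, add_neg_cancel, Real.exp_zero]
  rw [abs_mul, abs_of_pos (Real.exp_pos _)]
  have h3 : |1 + u - u ^ 2| ≤ 2 * Real.exp u := by
    rw [abs_le]
    constructor <;> nlinarith
  calc |1 + u - u ^ 2| * Real.exp (-u) ≤ 2 * Real.exp u * Real.exp (-u) :=
        mul_le_mul_of_nonneg_right h3 (Real.exp_pos _).le
    _ = 2 := by rw [mul_assoc, h2, mul_one]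

/-- the trial function -/
noncomputable def dirf (P x₁ x : ℝ) : ℝ := dirh P (max (x₁ - x) 0)

theorem dirf_lip {P : ℝ} (hP : 0 < P) (x₁ : ℝ) : LipschitzWith 2 (dirf P x₁) := by
  have h1 : LipschitzOnWith 2 (dirh P) (Ici 0) := by
    refine (convex_Ici (0 : ℝ)).lipschitzOnWith_of_nnnorm_hasDerivWithin_le
      (f' := dirh' P) (fun y _ => (dirh_deriv P y).hasDerivWithinAt) (fun y hy => ?_)
    rw [← NNReal.coe_le_coe, coe_nnnorm, Real.norm_eq_abs]
    exact dirh'_le hP hy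
  refine LipschitzWith.of_dist_le_mul (fun x y => ?_)
  have h2 := h1.dist_le_mul (max (x₁ - x) 0) (mem_Ici.2 (le_max_right _ _)) (max (x₁ - y) 0)
    (mem_Ici.2 (le_max_right _ _))
  refine h2.trans ?_
  apply mul_le_mul_of_nonneg_left _ (by norm_num)
  rw [Real.dist_eq, Real.dist_eq]
  refine (abs_max_sub_max_le_abs _ _ _).trans (le_of_eq ?_)
  rw [show x₁ - x - (x₁ - y) = -(x - y) by ring, abs_neg]

theorem dirf_of_le {P x₁ x : ℝ} (h : x ≤ x₁) : dirf P x₁ x = dirh P (x₁ - x) := by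
  rw [dirf, max_eq_left (by linarith)]

theorem dirf_of_ge {P x₁ x : ℝ} (h : x₁ ≤ x) : dirf P x₁ x = 0 := by
  rw [dirf, max_eq_right (by linarith), dirh, zero_mul, zero_mul]

theorem dirf_deriv_of_lt {P x₁ x : ℝ} (h : x < x₁) :
    deriv (dirf P x₁) x = -dirh' P (x₁ - x) := by
  have h1 : dirf P x₁ =ᶠ[𝓝 x] fun y => dirh P (x₁ - y) := by
    filter_upwards [Iio_mem_nhds h] with y hy
    exact dirf_of_le (le_of_lt hy)
  rw [h1.deriv_eq]
  have h2 : HasDerivAt (fun y : ℝ => x₁ - y) (-1) x := by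
    simpa using (hasDerivAt_id x).const_sub x₁
  have h3 := (dirh_deriv P (x₁ - x)).comp x h2
  rw [mul_neg_one] at h3
  exact h3.deriv

theorem dirf_deriv_of_gt {P x₁ x : ℝ} (h : x₁ < x) : deriv (dirf P x₁) x = 0 := by
  have h1 : dirf P x₁ =ᶠ[𝓝 x] fun _ => 0 := by
    filter_upwards [Ioi_mem_nhds h] with y hy
    exact dirf_of_ge (le_of_lt hy)
  rw [h1.deriv_eq, deriv_const]

/-- reduction to `(-∞, x₁]` -/
theorem dir_red {F G' : ℝ → ℝ} {x₁ : ℝ} (hx : x₁ ≤ 0) (hF : ∀ x, x₁ < x → F x = 0)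
    (hG : ∀ x, x < x₁ → F x = G' x) (hI : IntegrableOn G' (Iic x₁)) :
    IntegrableOn F (Iic 0) ∧ ∫ x in Iic (0 : ℝ), F x = ∫ x in Iic x₁, G' x := by
  have h1 : IntegrableOn F (Iic x₁) := by
    rw [integrableOn_Iic_iff_integrableOn_Iio] at hI ⊢
    exact hI.congr_fun (fun x hx => (hG x hx).symm) measurableSet_Iio
  constructor
  · have h2 : IntegrableOn F (Ioc x₁ 0) := by
      have h3 : IntegrableOn (fun _ : ℝ => (0 : ℝ)) (Ioc x₁ 0) := integrableOn_zero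
      exact h3.congr_fun (fun x hx => (hF x hx.1).symm) measurableSet_Ioc
    have h4 := h1.union h2
    rwa [Iic_union_Ioc_eq_Iic hx] at h4
  · have h5 : ∫ x in Iic (0 : ℝ), F x = ∫ x in Iic x₁, F x := by
      refine setIntegral_eq_of_subset_of_forall_sdiff_eq_zero measurableSet_Iic
        (Iic_subset_Iic.2 hx) (fun x hx => ?_)
      exact hF x (by simpa using hx.2)
    rw [h5, integral_Iic_eq_integral_Iio, integral_Iic_eq_integral_Iio]
    exact setIntegral_congr_fun measurableSet_Iio (fun x hx => hG x hx)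

/-- integrable on `(-∞, x₁]` with integral `v` -/
def DirHI (x₁ : ℝ) (g : ℝ → ℝ) (v : ℝ) : Prop :=
  IntegrableOn g (Iic x₁) ∧ ∫ x in Iic x₁, g x = v

theorem DirHI.add {x₁ v v' : ℝ} {g g' : ℝ → ℝ} (h : DirHI x₁ g v) (h' : DirHI x₁ g' v') :
    DirHI x₁ (fun x => g x + g' x) (v + v') :=
  ⟨h.1.add h'.1, by rw [integral_add h.1 h'.1, h.2, h'.2]⟩

theorem DirHI.mul {x₁ v : ℝ} {g : ℝ → ℝ} (c : ℝ) (h : DirHI x₁ g v) :
    DirHI x₁ (fun x => c * g x) (c * v) :=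
  ⟨h.1.const_mul c, by rw [integral_const_mul, h.2]⟩

theorem dir_tr {s ν lam x₁ t P : ℝ} (hs : 0 ≤ s) (hx : x₁ ≤ 0) (hP : 0 < P)
    (ht : ν ^ 2 + t ^ 2 ≤ lam ^ 2 * Real.exp (2 * x₁))
    (hD : (3 * P ^ 2 + 7 * ν ^ 2) * (P + 1) ^ 5 <
      (ν ^ 2 + t ^ 2) * (7 * P ^ 2 + 5 * P + 1) * P ^ 3) :
    ∃ f, Tr s ν lam f ∧ ∀ x, x₁ ≤ x → f x = 0 := by
  set f := dirf P x₁ with hf
  have hP2 : 0 < 2 * P := by positivity
  have hP3 : 0 < 2 * (P + 1) := by positivity
  -- moments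
  have I : ∀ k : ℕ, DirHI x₁ (fun x => (x₁ - x) ^ k * Real.exp (-(2 * P * (x₁ - x))))
      (k.factorial / (2 * P) ^ (k + 1)) := fun k => dir_int x₁ k hP2
  have I' : ∀ k : ℕ, DirHI x₁ (fun x => (x₁ - x) ^ k * Real.exp (-(2 * (P + 1) * (x₁ - x))))
      (k.factorial / (2 * (P + 1)) ^ (k + 1)) := fun k => dir_int x₁ k hP3
  -- the three pieces
  have hexp : ∀ y : ℝ, Real.exp (-(P * y)) ^ 2 = Real.exp (-(2 * P * y)) := by
    intro y
    rw [← Real.exp_nat_mul]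
    congr 1
    push_cast
    ring
  -- derivative squared
  obtain ⟨A1, A2⟩ := (((((I 0).add ((I 1).mul (2 * P))).add ((I 2).mul (-P ^ 2))).add
    ((I 3).mul (-2 * P ^ 3))).add ((I 4).mul (P ^ 4)))
  have A3 : (((((0 : ℕ).factorial / (2 * P) ^ (0 + 1) + 2 * P * ((1 : ℕ).factorial / (2 * P) ^ (1 + 1))) +
      -P ^ 2 * ((2 : ℕ).factorial / (2 * P) ^ (2 + 1))) +
      -2 * P ^ 3 * ((3 : ℕ).factorial / (2 * P) ^ (3 + 1))) +
      P ^ 4 * ((4 : ℕ).factorial / (2 * P) ^ (4 + 1))) = 3 / (4 * P) := by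
    simp only [Nat.factorial]
    push_cast
    field_simp
    ring
  rw [A3] at A2
  -- f squared
  obtain ⟨B1, B2⟩ := ((I 2).add ((I 3).mul (2 * P))).add ((I 4).mul (P ^ 2))
  have B3 : ((2 : ℕ).factorial / (2 * P) ^ (2 + 1) + 2 * P * ((3 : ℕ).factorial / (2 * P) ^ (3 + 1))) +
      P ^ 2 * ((4 : ℕ).factorial / (2 * P) ^ (4 + 1)) = 7 / (4 * P ^ 3) := by
    simp only [Nat.factorial]
    push_cast
    field_simp
    ring
  rw [B3] at B2
  -- f squared with the weight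
  obtain ⟨C1, C2⟩ := ((I' 2).add ((I' 3).mul (2 * P))).add ((I' 4).mul (P ^ 2))
  have C3 : ((2 : ℕ).factorial / (2 * (P + 1)) ^ (2 + 1) +
      2 * P * ((3 : ℕ).factorial / (2 * (P + 1)) ^ (3 + 1))) +
      P ^ 2 * ((4 : ℕ).factorial / (2 * (P + 1)) ^ (4 + 1)) =
      (7 * P ^ 2 + 5 * P + 1) / (4 * (P + 1) ^ 5) := by
    simp only [Nat.factorial]
    push_cast
    field_simp
    ring
  rw [C3] at C2
  have hfsq : ∀ x, x < x₁ → f x ^ 2 = (x₁ - x) ^ 2 * Real.exp (-(2 * P * (x₁ - x)))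
      + 2 * P * ((x₁ - x) ^ 3 * Real.exp (-(2 * P * (x₁ - x))))
      + P ^ 2 * ((x₁ - x) ^ 4 * Real.exp (-(2 * P * (x₁ - x)))) := by
    intro x hx'
    rw [hf, dirf_of_le hx'.le, dirh, mul_pow, hexp]
    ring
  have hf0 : ∀ x, x₁ < x → f x ^ 2 = 0 := by
    intro x hx'
    rw [hf, dirf_of_ge hx'.le, zero_pow two_ne_zero]
  obtain ⟨a1, a2⟩ := dir_red (F := fun x => deriv f x ^ 2) hx
    (fun x hx' => by rw [hf, dirf_deriv_of_gt hx', zero_pow two_ne_zero])
    (fun x hx' => by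
      rw [hf, dirf_deriv_of_lt hx', neg_sq, dirh', mul_pow, hexp]
      ring) A1
  rw [A2] at a2
  obtain ⟨b1, b2⟩ := dir_red (F := fun x => f x ^ 2) hx hf0 hfsq B1
  rw [B2] at b2
  obtain ⟨c1, c2⟩ := dir_red (F := fun x => Real.exp (2 * (x - x₁)) * f x ^ 2) hx
    (fun x hx' => by rw [hf0 x hx', mul_zero])
    (fun x hx' => by
      rw [hfsq x hx']
      have e1 : Real.exp (-(2 * (P + 1) * (x₁ - x))) =
          Real.exp (2 * (x - x₁)) * Real.exp (-(2 * P * (x₁ - x))) := by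
        rw [← Real.exp_add]
        congr 1
        ring
      rw [e1]
      ring) C1
  rw [C2] at c2
  have hQ : Q s ν lam f < 0 := by
    have e1 : ∀ x, deriv f x ^ 2 + (ν ^ 2 - lam ^ 2 * Real.exp (2 * x)) * f x ^ 2 =
        deriv f x ^ 2 + ν ^ 2 * f x ^ 2 +
          -(lam ^ 2 * Real.exp (2 * x₁)) * (Real.exp (2 * (x - x₁)) * f x ^ 2) := by
      intro x
      have : Real.exp (2 * x) = Real.exp (2 * x₁) * Real.exp (2 * (x - x₁)) := by
        rw [← Real.exp_add]; congr 1; ring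
      rw [this]
      ring
    rw [Q, hf, dirf_of_ge hx, ← hf]
    simp only [e1]
    have hA : DirHI 0 (fun x => deriv f x ^ 2) (3 / (4 * P)) := ⟨a1, a2⟩
    have hB : DirHI 0 (fun x => f x ^ 2) (7 / (4 * P ^ 3)) := ⟨b1, b2⟩
    have hC : DirHI 0 (fun x => Real.exp (2 * (x - x₁)) * f x ^ 2)
      ((7 * P ^ 2 + 5 * P + 1) / (4 * (P + 1) ^ 5)) := ⟨c1, c2⟩
    rw [((hA.add (hB.mul (ν ^ 2))).add (hC.mul (-(lam ^ 2 * Real.exp (2 * x₁))))).2]
    have h1 : 0 < 7 * P ^ 2 + 5 * P + 1 := by positivity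
    have h2 : (ν ^ 2 + t ^ 2) * ((7 * P ^ 2 + 5 * P + 1) / (4 * (P + 1) ^ 5)) ≤
        (lam ^ 2 * Real.exp (2 * x₁)) * ((7 * P ^ 2 + 5 * P + 1) / (4 * (P + 1) ^ 5)) :=
      mul_le_mul_of_nonneg_right ht (by positivity)
    have h3 : 3 / (4 * P) + ν ^ 2 * (7 / (4 * P ^ 3)) <
        (ν ^ 2 + t ^ 2) * ((7 * P ^ 2 + 5 * P + 1) / (4 * (P + 1) ^ 5)) := by
      have e2 : 3 / (4 * P) + ν ^ 2 * (7 / (4 * P ^ 3)) =
          (3 * P ^ 2 + 7 * ν ^ 2) / (4 * P ^ 3) := by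
        field_simp
      rw [e2, mul_div_assoc', div_lt_div_iff₀ (by positivity) (by positivity)]
      nlinarith [hD]
    nlinarith [h2, h3]
  have hlim : Tendsto f atBot (𝓝 0) := by
    have h1 : Tendsto (fun x : ℝ => x₁ - x) atBot atTop := by
      simp only [sub_eq_add_neg]
      exact tendsto_atTop_add_const_left atBot x₁ tendsto_neg_atBot_atTop
    have h2 : Tendsto (fun x : ℝ => P * (x₁ - x)) atBot atTop := h1.const_mul_atTop hP
    have h3 := ((Real.tendsto_pow_mul_exp_neg_atTop_nhds_zero 1).comp h2).add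
      ((Real.tendsto_pow_mul_exp_neg_atTop_nhds_zero 2).comp h2)
    have h4 := h3.const_mul (1 / P)
    rw [add_zero, mul_zero] at h4
    refine h4.congr' ?_
    filter_upwards [eventually_le_atBot x₁] with x hx'
    rw [hf, dirf_of_le hx', dirh]
    simp only [Function.comp]
    field_simp
  obtain ⟨ε, hε, htr⟩ := tr_of_pos hs (f := f)
    (fun x _ => dirh_nonneg hP (le_max_right _ _))
    ⟨2, (dirf_lip hP x₁).lipschitzOnWith⟩ hlim a1 b1 hQ
  refine ⟨_, htr, fun x hx' => ?_⟩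
  rw [hf, dirf_of_ge hx', zero_sub, max_eq_right (by linarith)]

end Pool.Agent.PB86
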