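import Pool.Agent.PB86.Defs

set_option autoImplicit false

open MeasureTheory Set Filter Topology
open scoped NNReal RealInnerProductSpace

namespace Pool.Agent.PB86

open Pool.Agent.H51.Neumann (E IsH1 IsNeumannSpectrum)

/-- homogeneous polynomials of degree `l` -/
noncomputable abbrev HarmDim_Hom (n l : ℕ) : Submodule ℝ (MvPolynomial (Fin n) ℝ) :=
  MvPolynomial.homogeneousSubmodule (Fin n) ℝ l

instance HarmDim_finite_hom (n l : ℕ) : FiniteDimensional ℝ (HarmDim_Hom n l) :=
  Module.Finite.iff_fg.2 (MvPolynomial.homogeneousSubmodule_fg (Fin n) ℝ l)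

theorem finite_harm (n l : ℕ) : FiniteDimensional ℝ (Harm n l) := by
  have h1 : Harm n l ≤ HarmDim_Hom n l := inf_le_left
  exact Submodule.finiteDimensional_of_le h1

/-- the coefficients of the Laplacian -/
theorem HarmDim_coeff_plap {n : ℕ} (p : MvPolynomial (Fin n) ℝ) (m : Fin n →₀ ℕ) :
    MvPolynomial.coeff m (plap n p) = ∑ i, MvPolynomial.coeff
      (m + Finsupp.single i 1 + Finsupp.single i 1) p * ((m i : ℝ) + 1 + 1) * ((m i : ℝ) + 1) := by
  unfold plap
  rw [LinearMap.sum_apply, MvPolynomial.coeff_sum]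
  refine Finset.sum_congr rfl fun i _ => ?_
  simp only [LinearMap.comp_apply, Derivation.coeFn_coe, MvPolynomial.coeff_pderiv]
  simp

theorem HarmDim_plap_hom {n l : ℕ} {p : MvPolynomial (Fin n) ℝ} (h : p.IsHomogeneous l) :
    (plap n p).IsHomogeneous (l - 2) := by
  unfold plap
  rw [LinearMap.sum_apply]
  refine MvPolynomial.IsHomogeneous.sum _ _ _ fun i _ => ?_
  have h1 := (h.pderiv (i := i)).pderiv (i := i)
  exact h1

/-- in degree at most one everything is harmonic -/
theorem HarmDim_low {n l : ℕ} (hl : l < 2) :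
    Module.finrank ℝ (HarmDim_Hom n l) ≤ Module.finrank ℝ (Harm n l) := by
  have := finite_harm n l
  have h1 : HarmDim_Hom n l ≤ Harm n l := by
    intro p hp
    have hp' : p.IsHomogeneous l := hp
    refine ⟨hp, ?_⟩
    show plap n p = 0
    ext m
    rw [HarmDim_coeff_plap, MvPolynomial.coeff_zero]
    refine Finset.sum_eq_zero fun i _ => ?_
    rw [hp'.coeff_eq_zero, zero_mul, zero_mul]
    rw [map_add, map_add, Finsupp.degree_single]
    omega
  exact Submodule.finrank_mono h1

/-- rank-nullity for the Laplacian -/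
theorem HarmDim_rank (n l : ℕ) : Module.finrank ℝ (HarmDim_Hom n (l + 2)) ≤
    Module.finrank ℝ (Harm n (l + 2)) + Module.finrank ℝ (HarmDim_Hom n l) := by
  have := finite_harm n (l + 2)
  let T : HarmDim_Hom n (l + 2) →ₗ[ℝ] HarmDim_Hom n l :=
    ((plap n) ∘ₗ (HarmDim_Hom n (l + 2)).subtype).codRestrict (HarmDim_Hom n l)
      fun q => HarmDim_plap_hom (l := l + 2) q.2
  have hT : ∀ q, ((T q : HarmDim_Hom n l) : MvPolynomial (Fin n) ℝ) = plap n q.1 := fun _ => rfl
  have h1 := LinearMap.finrank_range_add_finrank_ker T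
  have h2 : Module.finrank ℝ (LinearMap.range T) ≤ Module.finrank ℝ (HarmDim_Hom n l) :=
    Submodule.finrank_le _
  have h3 : Module.finrank ℝ (LinearMap.ker T) ≤ Module.finrank ℝ (Harm n (l + 2)) := by
    let S : LinearMap.ker T →ₗ[ℝ] Harm n (l + 2) :=
      ((HarmDim_Hom n (l + 2)).subtype ∘ₗ (LinearMap.ker T).subtype).codRestrict (Harm n (l + 2))
        fun q => ⟨q.1.2, by
          show plap n q.1.1 = 0
          rw [← hT, LinearMap.mem_ker.1 q.2]
          rfl⟩
    refine LinearMap.finrank_le_finrank_of_injective (f := S) ?_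
    intro q q' h
    apply Subtype.ext
    apply Subtype.ext
    exact congrArg (fun x : Harm n (l + 2) => (x : MvPolynomial (Fin n) ℝ)) h
  omega

/-- the number of monomials -/
theorem HarmDim_choose (n l : ℕ) :
    (n + l - 1).choose l ≤ Module.finrank ℝ (HarmDim_Hom n l) := by
  classical
  have hmem : ∀ d : {d // d ∈ (Finset.univ.finsuppAntidiag l : Finset (Fin n →₀ ℕ))},
      MvPolynomial.monomial d.1 (1 : ℝ) ∈ HarmDim_Hom n l := by
    intro d
    have h1 := d.2
    rw [Finset.mem_finsuppAntidiag] at h1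
    refine MvPolynomial.isHomogeneous_monomial _ ?_
    rw [Finsupp.degree_eq_sum]
    exact h1.1
  have hli : LinearIndependent ℝ
      (fun d : {d // d ∈ (Finset.univ.finsuppAntidiag l : Finset (Fin n →₀ ℕ))} =>
        (⟨MvPolynomial.monomial d.1 (1 : ℝ), hmem d⟩ : HarmDim_Hom n l)) := by
    apply LinearIndependent.of_comp (HarmDim_Hom n l).subtype
    have h1 := (MvPolynomial.basisMonomials (Fin n) ℝ).linearIndependent.comp
      (fun d : {d // d ∈ (Finset.univ.finsuppAntidiag l : Finset (Fin n →₀ ℕ))} => d.1)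
      Subtype.val_injective
    have h2 : ((HarmDim_Hom n l).subtype ∘
        (fun d : {d // d ∈ (Finset.univ.finsuppAntidiag l : Finset (Fin n →₀ ℕ))} =>
        (⟨MvPolynomial.monomial d.1 (1 : ℝ), hmem d⟩ : HarmDim_Hom n l))) =
        (⇑(MvPolynomial.basisMonomials (Fin n) ℝ) ∘
        fun d : {d // d ∈ (Finset.univ.finsuppAntidiag l : Finset (Fin n →₀ ℕ))} => d.1) := by
      funext d
      simp [MvPolynomial.coe_basisMonomials]
    rw [h2]
    exact h1
  have h3 := hli.fintype_card_le_finrank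
  rw [Fintype.card_coe, Finset.card_finsuppAntidiag_nat_eq_choose, Finset.card_univ,
    Fintype.card_fin] at h3
  exact h3

/-- telescoping -/
theorem HarmDim_tele (n L : ℕ) : Module.finrank ℝ (HarmDim_Hom n (L + 1)) +
    Module.finrank ℝ (HarmDim_Hom n L) ≤
      ∑ l ∈ Finset.range (L + 2), Module.finrank ℝ (Harm n l) := by
  induction L with
  | zero =>
    rw [Finset.sum_range_succ, Finset.sum_range_succ, Finset.sum_range_zero]
    have h0 := HarmDim_low (n := n) (l := 0) (by norm_num)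
    have h1 := HarmDim_low (n := n) (l := 1) (by norm_num)
    have e : (0 : ℕ) + 1 = 1 := rfl
    rw [e]
    omega
  | succ L ih =>
    rw [Finset.sum_range_succ]
    have h0 := HarmDim_rank n L
    have e : L + 1 + 1 = L + 2 := rfl
    rw [e]
    omega

theorem HarmDim_prod (m L : ℕ) :
    (2 * L + m + 2) * ∏ i ∈ Finset.range (m + 1), (L + (i + 1)) =
      (m + 2).factorial * ((L + (m + 2)).choose (m + 2) + (L + (m + 2) - 1).choose (m + 2)) := by
  have h1 := Nat.ascFactorial_eq_factorial_mul_choose L (m + 2)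
  have h2 := Nat.ascFactorial_eq_factorial_mul_choose' L (m + 2)
  rw [mul_add, ← h1, ← h2, Nat.ascFactorial_eq_prod_range, Nat.ascFactorial_eq_prod_range,
    Finset.prod_range_succ (fun i => L + 1 + i) (m + 1),
    Finset.prod_range_succ' (fun i => L + i) (m + 1)]
  have h3 : ∏ i ∈ Finset.range (m + 1), (L + 1 + i) = ∏ i ∈ Finset.range (m + 1), (L + (i + 1)) :=
    Finset.prod_congr rfl fun i _ => by ring
  rw [h3]
  ring

/-- `M(L) = ∑_{l ≤ L} dim Harm n l ≥ C(n+L-1,n-1) + C(n+L-2,n-1) = mp n (L + n/2)` -/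
theorem sum_harm_ge {n : ℕ} (hn : 3 ≤ n) (L : ℕ) :
    mp n (L + (n : ℝ) / 2) ≤
      ((∑ l ∈ Finset.range (L + 1), Module.finrank ℝ (Harm n l) : ℕ) : ℝ) := by
  obtain ⟨m, rfl⟩ : ∃ m, n = m + 3 := ⟨n - 3, by omega⟩
  have h1 : mp (m + 3) (L + ((m + 3 : ℕ) : ℝ) / 2) =
      (((L + (m + 2)).choose (m + 2) + (L + (m + 2) - 1).choose (m + 2) : ℕ) : ℝ) := by
    unfold mp
    have e1 : m + 3 - 2 = m + 1 := rfl
    have e2 : m + 3 - 1 = m + 2 := rfl
    rw [e1, e2, div_eq_iff (by positivity)]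
    have e3 : ∏ i ∈ Finset.range (m + 1),
        ((L : ℝ) + ((m + 3 : ℕ) : ℝ) / 2 - ((m + 3 : ℕ) : ℝ) / 2 + ((i : ℝ) + 1)) =
        ((∏ i ∈ Finset.range (m + 1), (L + (i + 1)) : ℕ) : ℝ) := by
      rw [Nat.cast_prod]
      refine Finset.prod_congr rfl fun i _ => ?_
      push_cast
      ring
    rw [e3]
    have e4 := congrArg (fun x : ℕ => (x : ℝ)) (HarmDim_prod m L)
    simp only [Nat.cast_mul] at e4
    rw [mul_comm _ (((m + 2).factorial : ℕ) : ℝ), ← e4]
    congr 1
    push_cast
    ring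
  rw [h1, Nat.cast_le]
  have hc : ∀ K, (K + (m + 2)).choose (m + 2) ≤ Module.finrank ℝ (HarmDim_Hom (m + 3) K) := by
    intro K
    refine le_trans (le_of_eq ?_) (HarmDim_choose (m + 3) K)
    have e : m + 3 + K - 1 = K + (m + 2) := by omega
    rw [e, Nat.choose_symm_add]
  rcases L with _ | L
  · rw [Finset.sum_range_succ, Finset.sum_range_zero]
    have h0 := HarmDim_low (n := m + 3) (l := 0) (by norm_num)
    have h2 := hc 0
    have h3 : (0 + (m + 2) - 1).choose (m + 2) = 0 := Nat.choose_eq_zero_of_lt (by omega)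
    omega
  · have h0 := HarmDim_tele (m + 3) L
    have h2 := hc L
    have h3 := hc (L + 1)
    have h4 : L + 1 + (m + 2) - 1 = L + (m + 2) := by omega
    rw [h4]
    have h5 : L + 1 + 1 = L + 2 := rfl
    rw [h5]
    omega

end Pool.Agent.PB86
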