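import Pool.Agent.PB86.Defs

set_option autoImplicit false

open MeasureTheory Set Filter Topology
open scoped NNReal RealInnerProductSpace

namespace Pool.Agent.PB86

open Pool.Agent.H51.Neumann (E IsH1 IsNeumannSpectrum)

theorem Radial_mul {S : Set ℝ} (hS : IsCompact S) {f g : ℝ → ℝ}
    (hf : ∃ A : ℝ≥0, LipschitzOnWith A f S) (hg : ∃ B : ℝ≥0, LipschitzOnWith B g S) :
    ∃ C : ℝ≥0, LipschitzOnWith C (fun x => f x * g x) S := by
  obtain ⟨A, hf⟩ := hf
  obtain ⟨B, hg⟩ := hg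
  obtain ⟨M, hM⟩ := hS.exists_bound_of_continuousOn hf.continuousOn
  obtain ⟨N, hN⟩ := hS.exists_bound_of_continuousOn hg.continuousOn
  have hM' : ∀ x ∈ S, |f x| ≤ |M| := fun x hx => (hM x hx).trans (le_abs_self M)
  have hN' : ∀ x ∈ S, |g x| ≤ |N| := fun x hx => (hN x hx).trans (le_abs_self N)
  refine ⟨(|M| * B + A * |N|).toNNReal, LipschitzOnWith.of_dist_le_mul fun x hx y hy => ?_⟩
  rw [Real.coe_toNNReal _ (by positivity)]
  have h1 := hf.dist_le_mul x hx y hy
  have h2 := hg.dist_le_mul x hx y hy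
  rw [Real.dist_eq] at h1 h2 ⊢
  have h3 : f x * g x - f y * g y = f x * (g x - g y) + (f x - f y) * g y := by ring
  rw [h3]
  refine (abs_add_le _ _).trans ?_
  rw [abs_mul, abs_mul]
  have h4 : |f x| * |g x - g y| ≤ |M| * (B * dist x y) :=
    mul_le_mul (hM' x hx) h2 (abs_nonneg _) (abs_nonneg _)
  have h5 : |f x - f y| * |g y| ≤ (A * dist x y) * |N| :=
    mul_le_mul h1 (hN' y hy) (abs_nonneg _) (by positivity)
  linarith

/-- the extension of `f` by `f 0` -/
theorem Radial_ext {f : ℝ → ℝ} (hf : ∃ C : ℝ≥0, LipschitzOnWith C f (Iic 0)) :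
    ∃ C : ℝ≥0, LipschitzWith C (fun x => f (min x 0)) := by
  obtain ⟨C, hf⟩ := hf
  refine ⟨C, LipschitzWith.of_dist_le_mul fun x y => ?_⟩
  have hx : min x 0 ∈ Iic (0 : ℝ) := mem_Iic.2 (min_le_right x 0)
  have hy : min y 0 ∈ Iic (0 : ℝ) := mem_Iic.2 (min_le_right y 0)
  have h1 := hf.dist_le_mul (min x 0) hx (min y 0) hy
  refine h1.trans (mul_le_mul_of_nonneg_left ?_ C.2)
  rw [Real.dist_eq, Real.dist_eq]
  refine (abs_min_sub_min_le_max _ _ _ _).trans ?_
  rw [sub_self, abs_zero]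
  exact max_le le_rfl (abs_nonneg _)

/-- the one dimensional integral -/
theorem Radial_int {F : ℝ → ℝ} {a : ℝ} (ha : a ≤ 0) {C : ℝ≥0} (hF : LipschitzWith C F)
    (h0 : ∀ x ≤ a, F x = 0) : ∫ x in Iio (0 : ℝ), 2 * (F x * deriv F x) = F 0 ^ 2 := by
  have hAC : AbsolutelyContinuousOnInterval F a 0 :=
    (hF.lipschitzOnWith (s := uIcc a 0)).absolutelyContinuousOnInterval
  have h1 := AbsolutelyContinuousOnInterval.integral_deriv_mul_eq_sub hAC hAC
  rw [intervalIntegral.integral_of_le ha, integral_Ioc_eq_integral_Ioo, h0 a le_rfl] at h1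
  have h2 : ∫ x in Iio (0 : ℝ), 2 * (F x * deriv F x) =
      ∫ x in Ioo a 0, 2 * (F x * deriv F x) := by
    refine setIntegral_eq_of_subset_of_forall_sdiff_eq_zero measurableSet_Iio
      Ioo_subset_Iio_self fun x hx => ?_
    have hxa : x ≤ a := by
      by_contra h
      exact hx.2 ⟨not_le.1 h, hx.1⟩
    rw [h0 x hxa]
    ring
  rw [h2]
  have h3 : ∀ x, 2 * (F x * deriv F x) = deriv F x * F x + F x * deriv F x := by
    intro x
    ring
  simp only [h3]
  rw [h1]
  ring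

theorem Radial_integrable {h : ℝ → ℝ} (hm : Measurable h) {b M : ℝ}
    (h0 : ∀ x ≤ b, h x = 0) (hM : ∀ x ∈ Ioo b 0, |h x| ≤ M) : IntegrableOn h (Iio 0) := by
  have h1 : IntegrableOn h (Ioo b 0) := by
    refine Measure.integrableOn_of_bounded (M := M) (by simp) hm.aestronglyMeasurable ?_
    exact (ae_restrict_iff' measurableSet_Ioo).2 (Eventually.of_forall hM)
  refine h1.of_forall_sdiff_eq_zero measurableSet_Iio fun x hx => h0 x ?_
  by_contra h
  exact hx.2 ⟨not_le.1 h, hx.1⟩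

theorem Radial_exp_image : Real.exp '' Iio 0 = Ioo 0 1 := by
  ext y
  constructor
  · rintro ⟨x, hx, rfl⟩
    exact ⟨Real.exp_pos x, Real.exp_lt_one_iff.2 hx⟩
  · rintro ⟨h1, h2⟩
    exact ⟨Real.log y, Real.log_neg h1 h2, Real.exp_log h1⟩

theorem Radial_change (Φ : ℝ → ℝ) :
    ∫ r in Ioo (0 : ℝ) 1, Φ r = ∫ x in Iio (0 : ℝ), Real.exp x * Φ (Real.exp x) := by
  rw [← Radial_exp_image, integral_image_eq_integral_abs_deriv_smul (f' := Real.exp)
    measurableSet_Iio (fun x _ => (Real.hasDerivAt_exp x).hasDerivWithinAt)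
    Real.exp_injective.injOn]
  refine setIntegral_congr_fun measurableSet_Iio fun x _ => ?_
  show |Real.exp x| • _ = _
  rw [abs_of_pos (Real.exp_pos x), smul_eq_mul]

/-- the pointwise identity -/
theorem Radial_alg {n l : ℕ} (hn : 3 ≤ n) {ν lam x y z D P : ℝ}
    (hν : ν = l + ((n : ℝ) / 2 - 1)) (hP : P = Real.exp x ^ (-ν) * y)
    (hD : D = Real.exp x ^ (-ν - 1) * (z - ν * y)) :
    Real.exp x * (D ^ 2 * Real.exp x ^ (2 * l + n - 1)
    + 2 * l * (P * D) * Real.exp x ^ (2 * l + n - 2)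
    + l * (2 * l + n - 2) * P ^ 2 * Real.exp x ^ (2 * l + n - 3)
    - lam ^ 2 * P ^ 2 * Real.exp x ^ (2 * l + n - 1)) =
    (z ^ 2 + (ν ^ 2 - lam ^ 2 * Real.exp (2 * x)) * y ^ 2) -
      ((n : ℝ) / 2 - 1) * (2 * (y * z)) := by
  set e := Real.exp x with he
  have he0 : 0 < e := Real.exp_pos x
  set q := e ^ (-ν) with hq
  have h1 : e ^ (-ν - 1) = q / e := by
    rw [hq, Real.rpow_sub he0, Real.rpow_one]
  have h2 : e ^ (2 * l + n - 2) = q⁻¹ ^ 2 := by
    rw [hq, ← Real.rpow_neg he0.le, neg_neg, ← Real.rpow_natCast, ← Real.rpow_mul_natCast he0.le]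
    congr 1
    rw [Nat.cast_sub (by omega)]
    push_cast
    rw [hν]
    ring
  have h3 : e ^ (2 * l + n - 1) = q⁻¹ ^ 2 * e := by
    rw [← h2, ← pow_succ]
    congr 1
    omega
  have h4 : e ^ (2 * l + n - 3) = q⁻¹ ^ 2 / e := by
    rw [← h2, eq_div_iff he0.ne', ← pow_succ]
    congr 1
    omega
  have h5 : Real.exp (2 * x) = e ^ 2 := by
    rw [he, ← Real.exp_nat_mul]
    norm_num
  have hq0 : q ≠ 0 := (Real.rpow_pos_of_pos he0 _).ne'
  rw [h2, h3, h4, h5, hP, hD, h1]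
  have h6 : (2 * (l : ℝ) + n - 2) = 2 * ν := by rw [hν]; ring
  rw [h6]
  have h7 : (n : ℝ) / 2 - 1 = ν - l := by rw [hν]; ring
  rw [h7]
  field_simp
  ring

theorem exists_rad {n l : ℕ} (hn : 3 ≤ n) {lam : ℝ} {f : ℝ → ℝ}
    (hf : Tr ((n : ℝ) / 2 - 1) (l + ((n : ℝ) / 2 - 1)) lam f) :
    ∃ Ψ : ℝ → ℝ, Rad Ψ ∧
      (∀ r ∈ Ioo (0 : ℝ) 1, Ψ r = r ^ (-(l + ((n : ℝ) / 2 - 1))) * f (Real.log r)) ∧
      qf n l lam Ψ = Q ((n : ℝ) / 2 - 1) (l + ((n : ℝ) / 2 - 1)) lam f := by
  obtain ⟨ν, hν⟩ : ∃ ν : ℝ, ν = l + ((n : ℝ) / 2 - 1) := ⟨_, rfl⟩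
  rw [← hν] at hf ⊢
  obtain ⟨a₀, ha₀⟩ := hf.zero
  obtain ⟨a, ha, ha0⟩ : ∃ a : ℝ, a < 0 ∧ ∀ x ≤ a, f x = 0 :=
    ⟨min a₀ (-1), lt_of_le_of_lt (min_le_right _ _) (by norm_num),
      fun x hx => ha₀ x (hx.trans (min_le_left _ _))⟩
  obtain ⟨C, hF⟩ := Radial_ext hf.lip
  obtain ⟨F, hFdef⟩ : ∃ F : ℝ → ℝ, F = fun x => f (min x 0) := ⟨_, rfl⟩
  rw [← hFdef] at hF
  have hFf : ∀ x ≤ 0, F x = f x := by
    intro x hx
    rw [hFdef]
    show f (min x 0) = f x
    rw [min_eq_left hx]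
  have hF0 : ∀ x ≤ a, F x = 0 := fun x hx => by rw [hFf x (by linarith), ha0 x hx]
  set ε := Real.exp a with hε
  have hε0 : 0 < ε := Real.exp_pos a
  have hε1 : ε < 1 := Real.exp_lt_one_iff.2 ha
  obtain ⟨g, hg⟩ : ∃ g : ℝ → ℝ, g = fun r => r ^ (-ν) * (F (Real.log r) * max 0 (min 1 (2 - r))) :=
    ⟨_, rfl⟩
  have hgε : g ε = 0 := by
    rw [hg]
    show ε ^ (-ν) * (F (Real.log ε) * max 0 (min 1 (2 - ε))) = 0
    rw [hε, Real.log_exp, hF0 a le_rfl]
    ring
  have hg2 : g 2 = 0 := by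
    rw [hg]
    show (2 : ℝ) ^ (-ν) * (F (Real.log 2) * max 0 (min 1 (2 - 2))) = 0
    norm_num
  have hIcc : IsCompact (Icc ε 2) := isCompact_Icc
  have hglip : ∃ K : ℝ≥0, LipschitzOnWith K g (Icc ε 2) := by
    rw [hg]
    refine Radial_mul hIcc ?_ (Radial_mul hIcc ?_ ?_)
    · refine ContDiffOn.exists_lipschitzOnWith (n := 1) ?_ (by decide) (convex_Icc _ _) hIcc
      intro r hr
      exact (Real.contDiffAt_rpow_const_of_ne (lt_of_lt_of_le hε0 hr.1).ne').contDiffWithinAt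
    · have h1 : ∃ K : ℝ≥0, LipschitzOnWith K Real.log (Icc ε 2) := by
        refine ContDiffOn.exists_lipschitzOnWith (n := 1) ?_ (by decide) (convex_Icc _ _) hIcc
        intro r hr
        exact (Real.contDiffAt_log.2 (lt_of_lt_of_le hε0 hr.1).ne').contDiffWithinAt
      obtain ⟨K, hK⟩ := h1
      exact ⟨C * K, hF.comp_lipschitzOnWith hK⟩
    · have h1 : LipschitzWith 1 fun r : ℝ => 2 - r := by
        refine LipschitzWith.of_dist_le_mul fun x y => ?_
        rw [Real.dist_eq, Real.dist_eq, NNReal.coe_one, one_mul, abs_sub_comm x y]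
        apply le_of_eq
        congr 1
        ring
      exact ⟨1, ((h1.const_min 1).const_max 0).lipschitzOnWith⟩
  have hρ : LipschitzWith 1 fun r : ℝ => max ε (min r 2) :=
    (LipschitzWith.id.min_const 2).const_max ε
  have hρm : ∀ r : ℝ, max ε (min r 2) ∈ Icc ε 2 := fun r =>
    ⟨le_max_left _ _, max_le (by linarith) (min_le_right _ _)⟩
  have hΨ : ∀ r ∈ Ioo (0 : ℝ) 1, g (max ε (min r 2)) = r ^ (-ν) * f (Real.log r) := by
    intro r hr
    have hlog : Real.log r < 0 := Real.log_neg hr.1 hr.2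
    rw [min_eq_left (by linarith [hr.2] : r ≤ 2)]
    rcases le_total r ε with h | h
    · rw [max_eq_left h, hgε]
      have h1 : Real.log r ≤ a := by
        rw [← Real.log_exp a]
        exact Real.log_le_log hr.1 h
      rw [ha0 _ h1, mul_zero]
    · rw [max_eq_right h, hg]
      show r ^ (-ν) * (F (Real.log r) * max 0 (min 1 (2 - r))) = _
      rw [hFf _ hlog.le, min_eq_left (by linarith [hr.2] : (1 : ℝ) ≤ 2 - r),
        max_eq_right zero_le_one, mul_one]
  refine ⟨fun r => g (max ε (min r 2)), ⟨?_, ?_, ?_⟩, hΨ, ?_⟩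
  · obtain ⟨K, hK⟩ := hglip
    refine ⟨K * 1, ?_⟩
    rw [← lipschitzOnWith_univ]
    exact hK.comp hρ.lipschitzOnWith (fun r _ => hρm r)
  · refine ⟨ε, hε0, fun r hr => ?_⟩
    show g (max ε (min r 2)) = 0
    rw [max_eq_left ((min_le_left _ _).trans hr), hgε]
  · refine ⟨2, fun r hr => ?_⟩
    show g (max ε (min r 2)) = 0
    rw [min_eq_right hr, max_eq_right (by linarith), hg2]
  · -- the form
    have hdiff : ∀ᵐ x : ℝ, DifferentiableAt ℝ F x := hF.ae_differentiableAt_real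
    have hdF : ∀ x < 0, deriv F x = deriv f x := by
      intro x hx
      apply Filter.EventuallyEq.deriv_eq
      filter_upwards [Iio_mem_nhds hx] with y hy
      exact hFf y (le_of_lt hy)
    unfold qf
    rw [Radial_change]
    have key : ∀ᵐ x : ℝ, x ∈ Iio (0 : ℝ) →
        Real.exp x * (deriv (fun r => g (max ε (min r 2))) (Real.exp x) ^ 2 *
            Real.exp x ^ (2 * l + n - 1)
          + 2 * l * ((fun r => g (max ε (min r 2))) (Real.exp x) *
            deriv (fun r => g (max ε (min r 2))) (Real.exp x)) * Real.exp x ^ (2 * l + n - 2)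
          + l * (2 * l + n - 2) * (fun r => g (max ε (min r 2))) (Real.exp x) ^ 2 *
            Real.exp x ^ (2 * l + n - 3)
          - lam ^ 2 * (fun r => g (max ε (min r 2))) (Real.exp x) ^ 2 *
            Real.exp x ^ (2 * l + n - 1)) =
        (deriv F x ^ 2 + (ν ^ 2 - lam ^ 2 * Real.exp (2 * x)) * F x ^ 2) -
          ((n : ℝ) / 2 - 1) * (2 * (F x * deriv F x)) := by
      filter_upwards [hdiff] with x hx hx0
      have hx0' : x < 0 := hx0
      have hmem : Real.exp x ∈ Ioo (0 : ℝ) 1 := ⟨Real.exp_pos x, Real.exp_lt_one_iff.2 hx0⟩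
      refine Radial_alg hn hν ?_ ?_
      · show g (max ε (min (Real.exp x) 2)) = _
        rw [hΨ _ hmem, Real.log_exp, hFf x hx0'.le]
      · have h1 : (fun r => g (max ε (min r 2))) =ᶠ[𝓝 (Real.exp x)]
            fun r => r ^ (-ν) * F (Real.log r) := by
          filter_upwards [Ioo_mem_nhds hmem.1 hmem.2] with r hr
          rw [hΨ r hr, hFf _ (Real.log_neg hr.1 hr.2).le]
        rw [h1.deriv_eq]
        have h2 : HasDerivAt F (deriv F x) (Real.log (Real.exp x)) := by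
          rw [Real.log_exp]
          exact hx.hasDerivAt
        have h3 := h2.comp (Real.exp x) (Real.hasDerivAt_log (Real.exp_pos x).ne')
        have h4 := (Real.hasDerivAt_rpow_const (p := -ν) (Or.inl (Real.exp_pos x).ne')).mul h3
        have h5 := h4.deriv
        have h6 : deriv (fun r => r ^ (-ν) * F (Real.log r)) (Real.exp x) =
            -ν * Real.exp x ^ (-ν - 1) * (F ∘ Real.log) (Real.exp x) +
              Real.exp x ^ (-ν) * (deriv F x * (Real.exp x)⁻¹) := h5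
        rw [h6]
        have h7 : Real.exp x ^ (-ν) * (Real.exp x)⁻¹ = Real.exp x ^ (-ν - 1) := by
          rw [Real.rpow_sub (Real.exp_pos x), Real.rpow_one, div_eq_mul_inv]
        rw [Function.comp_apply, Real.log_exp, ← h7]
        ring
    rw [setIntegral_congr_ae measurableSet_Iio key]
    have hFc : Continuous F := hF.continuous
    have hFm : Measurable (deriv F) := measurable_deriv F
    have hdb : ∀ x, |deriv F x| ≤ C := fun x => norm_deriv_le_of_lipschitz hF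
    have hz : ∀ x ≤ a - 1, F x = 0 ∧ deriv F x = 0 := by
      intro x hx
      refine ⟨hF0 x (by linarith), ?_⟩
      have h1 : F =ᶠ[𝓝 x] fun _ => 0 := by
        filter_upwards [Iio_mem_nhds (by linarith : x < a)] with y hy
        exact hF0 y (le_of_lt hy)
      rw [h1.deriv_eq]
      simp
    obtain ⟨M, hM⟩ := (isCompact_Icc (a := a - 1) (b := 0)).exists_bound_of_continuousOn
      hFc.continuousOn
    obtain ⟨N, hN⟩ := (isCompact_Icc (a := a - 1) (b := 0)).exists_bound_of_continuousOn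
      (f := fun x => (ν ^ 2 - lam ^ 2 * Real.exp (2 * x)) * F x ^ 2)
      (by fun_prop)
    have hI1 : IntegrableOn (fun x => deriv F x ^ 2 +
        (ν ^ 2 - lam ^ 2 * Real.exp (2 * x)) * F x ^ 2) (Iio 0) := by
      refine Radial_integrable (b := a - 1) (M := (C : ℝ) ^ 2 + N) (by fun_prop) ?_ ?_
      · intro x hx
        obtain ⟨h1, h2⟩ := hz x hx
        rw [h1, h2]
        ring
      · intro x hx
        refine (abs_add_le _ _).trans (add_le_add ?_ (hN x ⟨hx.1.le, hx.2.le⟩))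
        rw [abs_pow]
        exact pow_le_pow_left₀ (abs_nonneg _) (hdb x) 2
    have hI2 : IntegrableOn (fun x => 2 * (F x * deriv F x)) (Iio 0) := by
      refine Radial_integrable (b := a - 1) (M := 2 * (|M| * C)) (by fun_prop) ?_ ?_
      · intro x hx
        obtain ⟨h1, h2⟩ := hz x hx
        rw [h1, h2]
        ring
      · intro x hx
        rw [abs_mul, abs_mul, abs_two]
        have h1 : |F x| ≤ |M| := (hM x ⟨hx.1.le, hx.2.le⟩).trans (le_abs_self M)
        have h2 := mul_le_mul h1 (hdb x) (abs_nonneg _) (abs_nonneg _)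
        linarith
    rw [integral_sub hI1 (hI2.const_mul _), integral_const_mul,
      Radial_int ha.le hF hF0]
    unfold Q
    rw [integral_Iic_eq_integral_Iio, hFf 0 le_rfl]
    congr 1
    refine setIntegral_congr_fun measurableSet_Iio fun x hx => ?_
    show _ = _
    rw [hdF x hx, hFf x (le_of_lt hx)]

end Pool.Agent.PB86
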