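import Pool.Agent.PB86.Form
import Pool.Agent.PB86.Radial
import Pool.Agent.PB86.HarmDim

set_option autoImplicit false

open MeasureTheory Set Filter Topology
open scoped NNReal RealInnerProductSpace

namespace Pool.Agent.PB86

open Pool.Agent.H51.Neumann (E IsH1 IsNeumannSpectrum)

lemma family_ev_sum {n : ℕ} {ι : Type} (s : Finset ι) (c : ι → ℝ)
    (p : ι → MvPolynomial (Fin n) ℝ) (x : E n) :
    ev (∑ i ∈ s, c i • p i) x = ∑ i ∈ s, c i * ev (p i) x := by
  unfold ev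
  rw [map_sum]
  refine Finset.sum_congr rfl fun i _ => ?_
  rw [MvPolynomial.smul_eval]

/-- the same with an arbitrary finite index type -/
lemma family_of_fintype {n : ℕ} {lam : ℝ} {ι : Type} [Fintype ι] (u : ι → E n → ℝ)
    (h1 : ∀ i, ∃ C : ℝ≥0, LipschitzWith C (u i)) (h2 : ∀ i, HasCompactSupport (u i))
    (h3 : ∀ c : ι → ℝ, c ≠ 0 →
      ∫ x in Metric.ball (0 : E n) 1, ‖gradient (fun y => ∑ i, c i * u i y) x‖ ^ 2 <
        lam ^ 2 * ∫ x in Metric.ball (0 : E n) 1, (∑ i, c i * u i x) ^ 2) {N : ℕ}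
    (hN : Fintype.card ι = N) : Fam n lam N := by
  let e : ι ≃ Fin N := Fintype.equivFinOfCardEq hN
  refine ⟨fun i => u (e.symm i), fun i => h1 _, fun i => h2 _, fun c hc => ?_⟩
  have hc' : (fun i => c (e i)) ≠ 0 := by
    intro h0
    apply hc
    funext i
    have := congrFun h0 (e.symm i)
    simpa using this
  have h4 := h3 (fun i => c (e i)) hc'
  have h5 : ∀ y, ∑ i, c (e i) * u i y = ∑ i, c i * u (e.symm i) y := by
    intro y
    rw [← Equiv.sum_comp e (fun i => c i * u (e.symm i) y)]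
    simp
  simp only [h5] at h4
  exact h4

theorem fam_of_cnt {n : ℕ} (hn : 3 ≤ n) {lam : ℝ} (L : ℕ) (K : ℕ → ℕ)
    (h : ∀ l < L, Cnt ((n : ℝ) / 2 - 1) (l + ((n : ℝ) / 2 - 1)) lam (K l)) :
    Fam n lam (∑ l ∈ Finset.range L, K l * Module.finrank ℝ (Harm n l)) := by
  classical
  have h' : ∀ l : Fin L, Cnt ((n : ℝ) / 2 - 1) ((l : ℕ) + ((n : ℝ) / 2 - 1)) lam (K l) :=
    fun l => h l l.2
  choose f hf hd using h'
  have hΨ : ∀ (l : Fin L) (k : Fin (K l)), ∃ Ψ : ℝ → ℝ, Rad Ψ ∧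
      (∀ r ∈ Ioo (0 : ℝ) 1, Ψ r = r ^ (-((l : ℕ) + ((n : ℝ) / 2 - 1))) * f l k (Real.log r)) ∧
      qf n l lam Ψ = Q ((n : ℝ) / 2 - 1) ((l : ℕ) + ((n : ℝ) / 2 - 1)) lam (f l k) :=
    fun l k => exists_rad hn (hf l k)
  choose Ψ hR hΨf hq using hΨ
  have hfin : ∀ l, FiniteDimensional ℝ (Harm n l) := finite_harm n
  let b : ∀ l : Fin L, Module.Basis (Fin (Module.finrank ℝ (Harm n l))) ℝ (Harm n l) :=
    fun l => Module.finBasis ℝ (Harm n l)
  let ι' := Σ l : Fin L, Fin (K l)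
  let ι := Σ a : ι', Fin (Module.finrank ℝ (Harm n a.1))
  refine family_of_fintype (ι := ι)
    (fun a y => Ψ a.1.1 a.1.2 ‖y‖ * ev ((b a.1.1 a.2 : Harm n a.1.1) : MvPolynomial (Fin n) ℝ) y)
    (fun a => lip_trial (hR _ _) _) (fun a => cpt_trial (hR _ _) _) ?_ ?_
  · intro c hc
    let H : ι' → MvPolynomial (Fin n) ℝ := fun a =>
      ((∑ i, c ⟨a, i⟩ • b a.1 i : Harm n a.1) : MvPolynomial (Fin n) ℝ)
    have hH : ∀ a : ι', H a ∈ Harm n a.1 := fun a => (∑ i, c ⟨a, i⟩ • b a.1 i : Harm n a.1).2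
    have hHe : ∀ (a : ι') (y : E n), ev (H a) y =
        ∑ i, c ⟨a, i⟩ * ev ((b a.1 i : Harm n a.1) : MvPolynomial (Fin n) ℝ) y := by
      intro a y
      have : H a = ∑ i, c ⟨a, i⟩ • ((b a.1 i : Harm n a.1) : MvPolynomial (Fin n) ℝ) := by
        simp only [H, Submodule.coe_sum, Submodule.coe_smul]
      rw [this, family_ev_sum]
    have hsum : ∀ y : E n, ∑ a : ι, c a * (Ψ a.1.1 a.1.2 ‖y‖ *
        ev ((b a.1.1 a.2 : Harm n a.1.1) : MvPolynomial (Fin n) ℝ) y) =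
        ∑ a : ι', Ψ a.1 a.2 ‖y‖ * ev (H a) y := by
      intro y
      rw [Fintype.sum_sigma]
      refine Finset.sum_congr rfl fun a _ => ?_
      rw [hHe, Finset.mul_sum]
      refine Finset.sum_congr rfl fun i _ => ?_
      ring
    simp only [hsum]
    have hform := form_eq hn (ι := ι') (fun a => (a.1 : ℕ)) (fun a => Ψ a.1 a.2) H
      (fun a => hR _ _) hH (by
        rintro ⟨l, k⟩ ⟨l', k'⟩ hab hl r hr
        have hll : l = l' := Fin.ext hl
        subst hll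
        have hkk : k ≠ k' := fun hk => hab (by rw [hk])
        have hr0 : Real.log r ≤ 0 := Real.log_nonpos hr.1.le hr.2.le
        simp only
        rw [hΨf l k r hr, hΨf l k' r hr]
        rcases hd l k k' hkk (Real.log r) hr0 with h0 | h0
        · left; rw [h0, mul_zero]
        · right; rw [h0, mul_zero]) lam
    -- some coefficient polynomial is nonzero
    obtain ⟨⟨a₀, i₀⟩, ha₀⟩ := Function.ne_iff.1 hc
    have hH0 : H a₀ ≠ 0 := by
      intro h0
      have h1 : (∑ i, c ⟨a₀, i⟩ • b a₀.1 i : Harm n a₀.1) = 0 := Subtype.ext h0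
      have h2 := (Fintype.linearIndependent_iff.1 (b a₀.1).linearIndependent)
        (fun i => c ⟨a₀, i⟩) h1 i₀
      exact ha₀ h2
    have hneg : ∀ a : ι', qf n a.1 lam (Ψ a.1 a.2) < 0 := by
      intro a
      rw [hq]
      exact (hf a.1 a.2).neg
    have hnn : ∀ a : ι', 0 ≤ ∫ s, ev (H a) s ^ 2 ∂(sph n) := fun a =>
      integral_nonneg fun s => sq_nonneg _
    have hlt : ∑ a : ι', (∫ s, ev (H a) s ^ 2 ∂(sph n)) * qf n a.1 lam (Ψ a.1 a.2) < 0 := by
      refine Finset.sum_neg' (fun a _ => mul_nonpos_of_nonneg_of_nonpos (hnn a) (hneg a).le)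
        ⟨a₀, Finset.mem_univ _, mul_neg_of_pos_of_neg (sph_pos hn (hH a₀) hH0) (hneg a₀)⟩
    rw [← hform] at hlt
    linarith
  · simp only [ι, ι', Fintype.card_sigma, Fintype.card_fin]
    rw [Fintype.sum_sigma, Finset.sum_range]
    refine Finset.sum_congr rfl fun l _ => ?_
    have : ∀ y : Fin (K l), Module.finrank ℝ (Harm n (⟨l, y⟩ : Σ l : Fin L, Fin (K l)).fst) =
        Module.finrank ℝ (Harm n l) := fun _ => rfl
    simp only [this, Finset.sum_const, Finset.card_univ, Fintype.card_fin, smul_eq_mul]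

end Pool.Agent.PB86
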