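import Pool.Agent.PB86.LipH1
import Pool.Agent.H85.Spectral.Polya

set_option autoImplicit false

open MeasureTheory Set Filter Topology
open scoped NNReal RealInnerProductSpace

namespace Pool.Agent.PB86

open Pool.Agent.H51.Neumann (E IsH1 IsNeumannSpectrum)

private lemma minMax_packed {n : ℕ} {D Ω : Set (E n)} (hΩ : IsOpen Ω) (hfin : volume Ω ≠ ⊤)
    {m : ℕ} (A : Fin m → (E n ≃ₗᵢ[ℝ] E n)) (b : Fin m → E n)
    (hdisj : Pairwise (Function.onFun Disjoint fun k => (fun x => A k x + b k) '' Ω))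
    (hcov : D =ᵐ[volume] ⋃ k, (fun x => A k x + b k) '' Ω)
    (F : E n → ℝ) (hF : Measurable F) {C : ℝ} (hC : ∀ x, ‖F x‖ ≤ C) :
    ∫ y in D, F y = ∑ k, ∫ x in Ω, F (A k x + b k) := by
  rw [setIntegral_congr_set hcov, integral_iUnion_fintype
    (fun k => (Pool.Agent.H85.Spectral.isOpen_rigid (A k) (b k) hΩ).measurableSet) hdisj]
  · exact Finset.sum_congr rfl fun k _ =>
      Pool.Agent.H85.Spectral.setIntegral_rigid (A k) (b k) Ω F
  · intro k
    have : IsFiniteMeasure (volume.restrict ((fun x => A k x + b k) '' Ω)) := ⟨by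
      rw [Measure.restrict_apply_univ, Pool.Agent.H85.Spectral.volume_rigid]
      exact lt_top_iff_ne_top.2 hfin⟩
    exact Integrable.of_bound hF.aestronglyMeasurable C (Eventually.of_forall hC)

open Pointwise in
private lemma minMax_scale {n : ℕ} {c₀ : E n} {R : ℝ} (hR : 0 < R) (F : E n → ℝ) :
    ∫ y in Metric.ball c₀ R, F (R⁻¹ • (y - c₀))
      = R ^ n * ∫ x in Metric.ball (0 : E n) 1, F x := by
  have h1 : ∫ y in Metric.ball c₀ R, F (R⁻¹ • (y - c₀))
      = ∫ z in Metric.ball (0 : E n) R, F (R⁻¹ • z) := by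
    have h := (measurePreserving_sub_right (volume : Measure (E n)) c₀).setIntegral_preimage_emb
      (MeasurableEquiv.subRight c₀).measurableEmbedding (fun z => F (R⁻¹ • z))
      (Metric.ball (0 : E n) R)
    have h2 : (fun y : E n => y - c₀) ⁻¹' Metric.ball (0 : E n) R = Metric.ball c₀ R := by
      ext y
      simp [dist_eq_norm]
    rw [h2] at h
    exact h
  rw [h1, Measure.setIntegral_comp_smul_of_pos volume F _ (inv_pos.2 hR)]
  have h3 : R⁻¹ • Metric.ball (0 : E n) R = Metric.ball (0 : E n) 1 := by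
    rw [smul_ball (inv_ne_zero hR.ne'), smul_zero, norm_inv, Real.norm_eq_abs, abs_of_pos hR,
      inv_mul_cancel₀ hR.ne']
  rw [h3, finrank_euclideanSpace, Fintype.card_fin, smul_eq_mul, inv_pow, inv_inv]

private lemma minMax_norm_grad {n : ℕ} (U : E n → ℝ) (x : E n) :
    ‖gradient U x‖ = ‖fderiv ℝ U x‖ := by
  unfold gradient
  rw [LinearIsometryEquiv.norm_map]

private lemma minMax_grad {n : ℕ} (U : E n → ℝ) (A : E n ≃ₗᵢ[ℝ] E n) (b c₀ : E n) {R : ℝ}
    (hR : 0 < R) (x : E n) :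
    ‖gradient (fun x => U (R⁻¹ • (A x + b - c₀))) x‖
      = R⁻¹ * ‖fderiv ℝ U (R⁻¹ • (A x + b - c₀))‖ := by
  rw [minMax_norm_grad]
  set t : E n := R⁻¹ • (b - c₀) with ht
  have e : ∀ x : E n, R⁻¹ • (A x + b - c₀) = R⁻¹ • A x + t := by
    intro x
    rw [ht, ← smul_add]
    congr 1
    abel
  have h0 : (fun x => U (R⁻¹ • (A x + b - c₀)))
      = (fun z => (fun y => U (y + t)) (R⁻¹ • z)) ∘ (A.toContinuousLinearEquiv : E n ≃L[ℝ] E n) := by
    funext x
    rw [e x]
    rfl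
  rw [h0, ContinuousLinearEquiv.comp_right_fderiv]
  have h1 : ∀ L : E n →L[ℝ] ℝ, ‖L.comp ((A.toContinuousLinearEquiv : E n ≃L[ℝ] E n) : E n →L[ℝ] E n)‖
      = ‖L‖ := by
    intro L
    exact L.opNorm_comp_linearIsometryEquiv A
  have h2 := fderiv_comp_smul (f := fun y => U (y + t)) (x := A x) (𝕜 := ℝ) R⁻¹
  have h3 := fderiv_comp_add_right (f := U) (x := R⁻¹ • A x) (𝕜 := ℝ) t
  rw [h1]
  change ‖fderiv ℝ (fun z => (fun y => U (y + t)) (R⁻¹ • z)) (A x)‖ = _
  rw [h2, h3, norm_smul, norm_inv, Real.norm_eq_abs, abs_of_pos hR, e x]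

private lemma minMax_lip {n N : ℕ} (u : Fin N → E n → ℝ)
    (hu : ∀ i, ∃ C : ℝ≥0, LipschitzWith C (u i)) (c : Fin N → ℝ) :
    ∃ C : ℝ≥0, LipschitzWith C (fun y => ∑ i, c i * u i y) := by
  choose C hC using hu
  refine ⟨∑ i, ‖c i‖₊ * C i, LipschitzWith.of_dist_le_mul fun x y => ?_⟩
  rw [Real.dist_eq, ← Finset.sum_sub_distrib]
  refine (Finset.abs_sum_le_sum_abs _ _).trans ?_
  rw [NNReal.coe_sum, Finset.sum_mul]
  refine Finset.sum_le_sum fun i _ => ?_
  rw [← mul_sub, abs_mul, NNReal.coe_mul, mul_assoc]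
  have h := (hC i).dist_le_mul x y
  rw [Real.dist_eq] at h
  exact mul_le_mul_of_nonneg_left h (abs_nonneg _)

private lemma minMax_bdd {n N : ℕ} (u : Fin N → E n → ℝ)
    (hu : ∀ i, ∃ C : ℝ, ∀ x, |u i x| ≤ C) (c : Fin N → ℝ) :
    ∃ C : ℝ, ∀ x, |∑ i, c i * u i x| ≤ C := by
  choose C hC using hu
  refine ⟨∑ i, |c i| * C i, fun x => ?_⟩
  refine (Finset.abs_sum_le_sum_abs _ _).trans (Finset.sum_le_sum fun i _ => ?_)
  rw [abs_mul]
  exact mul_le_mul_of_nonneg_left (hC i x) (abs_nonneg _)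

theorem mu_lt {n : ℕ} {Ω : Set (E n)} (hΩ : IsOpen Ω) (hfin : volume Ω ≠ ⊤) {μ : ℕ → ℝ}
    (hμ : IsNeumannSpectrum Ω μ) {m : ℕ} (A : Fin m → (E n ≃ₗᵢ[ℝ] E n)) (b : Fin m → E n)
    {c₀ : E n} {R : ℝ} (hR : 0 < R)
    (hdisj : Pairwise (Function.onFun Disjoint fun k => (fun x => A k x + b k) '' Ω))
    (hcov : Metric.ball c₀ R =ᵐ[volume] ⋃ k, (fun x => A k x + b k) '' Ω)
    {lam : ℝ} {N : ℕ} (hF : Fam n lam N) {j : ℕ} (hN : m * j < N) :
    μ j < lam ^ 2 / R ^ 2 := by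
  classical
  obtain ⟨e, g, hug, hon, hcomp, heig⟩ := hμ.exists_basis
  obtain ⟨u, hul, hus, hneg⟩ := hF
  have hub : ∀ i, ∃ C : ℝ, ∀ x, |u i x| ≤ C := by
    intro i
    obtain ⟨K, hK⟩ := hul i
    obtain ⟨C, hC⟩ := (hus i).exists_bound_of_continuous hK.continuous
    exact ⟨C, hC⟩
  have hfm : IsFiniteMeasure (volume.restrict Ω) := ⟨by
    rw [Measure.restrict_apply_univ]; exact lt_top_iff_ne_top.2 hfin⟩
  set S : Fin m → E n → E n := fun k x => R⁻¹ • (A k x + b k - c₀) with hS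
  have hSc : ∀ k, Continuous (S k) := by
    intro k
    exact (((A k).continuous.add continuous_const).sub continuous_const).const_smul R⁻¹
  -- linear algebra
  let M : Matrix (Fin m × Fin j) (Fin N) ℝ := fun ki a =>
    ∫ x in Ω, e ki.2 x * u a (S ki.1 x)
  obtain ⟨c, hc, hc0⟩ : ∃ c : Fin N → ℝ, M.mulVec c = 0 ∧ c ≠ 0 := by
    have h1 : LinearMap.ker M.mulVecLin ≠ ⊥ := by
      apply LinearMap.ker_ne_bot_of_finrank_lt
      simpa using hN
    obtain ⟨c, hc, hc0⟩ := Submodule.exists_mem_ne_zero_of_ne_bot h1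
    exact ⟨c, hc, hc0⟩
  have hn := hneg c hc0
  set U : E n → ℝ := fun y => ∑ i, c i * u i y with hU
  obtain ⟨K, hK⟩ := minMax_lip u hul c
  obtain ⟨B, hB⟩ := minMax_bdd u hub c
  change LipschitzWith K U at hK
  change ∀ x, |U x| ≤ B at hB
  have hUc : Continuous U := hK.continuous
  -- orthogonality
  have horth : ∀ k : Fin m, ∀ i < j, ∫ x in Ω, e i x * U (S k x) = 0 := by
    intro k i hij
    have h1 := congrFun hc (k, ⟨i, hij⟩)
    have hL1 : Integrable (e i) (volume.restrict Ω) := (hug i).memLp.integrable (by norm_num)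
    have hI : ∀ a : Fin N, Integrable (fun x => e i x * u a (S k x)) (volume.restrict Ω) := by
      intro a
      obtain ⟨Ka, hKa⟩ := hul a
      obtain ⟨Ca, hCa⟩ := hub a
      exact hL1.mul_bdd (c := Ca) ((hKa.continuous.comp (hSc k)).aestronglyMeasurable)
        (Eventually.of_forall fun x => hCa _)
    have h2 : ∫ x in Ω, e i x * U (S k x)
        = ∑ a, (∫ x in Ω, e i x * u a (S k x)) * c a := by
      simp only [hU, Finset.mul_sum]
      rw [integral_finsetSum _ fun a _ => by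
        have := (hI a).mul_const (c a)
        refine this.congr (Eventually.of_forall fun x => ?_)
        simp only
        ring]
      refine Finset.sum_congr rfl fun a _ => ?_
      rw [← integral_mul_const]
      refine integral_congr_ae (Eventually.of_forall fun x => ?_)
      simp only
      ring
    rw [h2]
    exact h1
  -- H¹
  have hLipS : ∀ k, ∃ C : ℝ≥0, LipschitzWith C (fun x => U (S k x)) := by
    intro k
    refine ⟨K * ‖R⁻¹‖₊, LipschitzWith.of_dist_le_mul fun x y => ?_⟩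
    refine (hK.dist_le_mul _ _).trans ?_
    rw [NNReal.coe_mul, mul_assoc]
    refine mul_le_mul_of_nonneg_left ?_ K.2
    rw [dist_eq_norm, dist_eq_norm, ← smul_sub, norm_smul]
    have : A k x + b k - c₀ - (A k y + b k - c₀) = A k (x - y) := by
      rw [map_sub]; abel
    rw [this, LinearIsometryEquiv.norm_map]
    rfl
  have hen : ∀ k : Fin m, μ j * ∫ x in Ω, U (S k x) ^ 2
      ≤ ∫ x in Ω, (R⁻¹) ^ 2 * ‖fderiv ℝ U (S k x)‖ ^ 2 := by
    intro k
    obtain ⟨Ck, hCk⟩ := hLipS k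
    have h1 : IsH1 Ω (fun x => U (S k x)) (gradient (fun x => U (S k x))) :=
      isH1_lip hfin hCk (fun x => hB _)
    have h := Pool.Agent.H51.Neumann.energy e g hμ.mono hug hon hcomp heig _ _ h1 j
    rw [Finset.sum_eq_zero (fun i hi => by
      rw [horth k i (Finset.mem_range.1 hi), zero_pow (by norm_num)]), sub_zero] at h
    refine h.trans (le_of_eq ?_)
    refine integral_congr_ae (Eventually.of_forall fun x => ?_)
    have h2 := minMax_grad U (A k) (b k) c₀ hR x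
    simp only [hS]
    rw [h2, mul_pow]
  have hsum := Finset.sum_le_sum fun k (_ : k ∈ (Finset.univ : Finset (Fin m))) => hen k
  rw [← Finset.mul_sum] at hsum
  have hfd : ∀ x, ‖fderiv ℝ U x‖ ≤ K := fun x => norm_fderiv_le_of_lipschitz ℝ hK
  have p1 := minMax_packed hΩ hfin A b hdisj hcov (fun y => U (R⁻¹ • (y - c₀)) ^ 2)
    ((hUc.comp ((continuous_id.sub continuous_const).const_smul R⁻¹)).pow 2).measurable
    (C := B ^ 2) (fun y => by
      rw [norm_pow, Real.norm_eq_abs]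
      exact pow_le_pow_left₀ (abs_nonneg _) (hB _) 2)
  have p2 := minMax_packed hΩ hfin A b hdisj hcov
    (fun y => (R⁻¹) ^ 2 * ‖fderiv ℝ U (R⁻¹ • (y - c₀))‖ ^ 2)
    (by
      refine Measurable.const_mul ?_ _
      refine Measurable.pow_const ?_ 2
      refine ((measurable_fderiv ℝ U).comp ?_).norm
      exact ((continuous_id.sub continuous_const).const_smul R⁻¹).measurable)
    (C := (R⁻¹) ^ 2 * (K : ℝ) ^ 2) (fun y => by
      rw [norm_mul, norm_pow, norm_pow, norm_norm, Real.norm_eq_abs, sq_abs]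
      exact mul_le_mul_of_nonneg_left (pow_le_pow_left₀ (norm_nonneg _) (hfd _) 2) (by positivity))
  have s1 := minMax_scale (c₀ := c₀) hR (fun y => U y ^ 2)
  have s2 := minMax_scale (c₀ := c₀) hR (fun y => (R⁻¹) ^ 2 * ‖fderiv ℝ U y‖ ^ 2)
  rw [s1] at p1
  rw [s2] at p2
  simp only [hS] at hsum
  rw [← p1, ← p2, integral_const_mul] at hsum
  simp only [minMax_norm_grad] at hn
  have hRn : 0 < R ^ n := pow_pos hR n
  have hR2 : 0 < R ^ 2 := pow_pos hR 2
  have hI0 : 0 ≤ ∫ x in Metric.ball (0 : E n) 1, U x ^ 2 :=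
    integral_nonneg fun x => by positivity
  set I := ∫ x in Metric.ball (0 : E n) 1, U x ^ 2 with hI
  set J := ∫ x in Metric.ball (0 : E n) 1, ‖fderiv ℝ U x‖ ^ 2 with hJ
  have hn' : J < lam ^ 2 * I := hn
  have h5 : μ j * I ≤ R⁻¹ ^ 2 * J := by
    have h6 : R ^ n * (μ j * I) ≤ R ^ n * (R⁻¹ ^ 2 * J) := by
      calc R ^ n * (μ j * I) = μ j * (R ^ n * I) := by ring
        _ ≤ _ := hsum
    exact le_of_mul_le_mul_left h6 hRn
  have h7 : μ j * I < lam ^ 2 / R ^ 2 * I := by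
    refine lt_of_le_of_lt h5 ?_
    have h8 : R⁻¹ ^ 2 * J < R⁻¹ ^ 2 * (lam ^ 2 * I) :=
      mul_lt_mul_of_pos_left hn' (by positivity)
    refine lt_of_lt_of_eq h8 ?_
    rw [inv_pow]
    ring
  exact lt_of_mul_lt_mul_right h7 hI0

end Pool.Agent.PB86
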