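import Pool.Agent.PB86.YInt
import Pool.Agent.PB86.MPoly

set_option autoImplicit false

open MeasureTheory Set Filter Topology
open scoped NNReal RealInnerProductSpace

namespace Pool.Agent.PB86

open Pool.Agent.H51.Neumann (E IsH1 IsNeumannSpectrum)

/-- pointwise lower bound for `mt`, valid also at zero -/
theorem Loss_pt (m : ℕ) {ν : ℝ} (hν : 0 ≤ ν) :
    2 / ((m + 2).factorial : ℝ) * ν ^ (m + 2) - ((m : ℝ) + 2) / ((m + 2).factorial : ℝ) * ν ^ (m + 1)
      - ((m : ℝ) + 2) * (m + 1) * m / (12 * ((m + 2).factorial : ℝ)) * ν ^ m ≤ mt (m + 3) ν := by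
  have hf : (0 : ℝ) < ((m + 2).factorial : ℝ) := by exact_mod_cast Nat.factorial_pos _
  rcases hν.eq_or_lt with h | h
  · rw [← h]
    have h0 : (m : ℝ) * 0 ^ m = 0 := by
      rcases Nat.eq_zero_or_pos m with h1 | h1
      · simp [h1]
      · rw [zero_pow h1.ne', mul_zero]
    have h2 : ((m : ℝ) + 2) * (m + 1) * m / (12 * ((m + 2).factorial : ℝ)) * 0 ^ m = 0 := by
      have : ((m : ℝ) + 2) * (m + 1) * m / (12 * ((m + 2).factorial : ℝ)) * 0 ^ m
          = ((m : ℝ) + 2) * (m + 1) / (12 * ((m + 2).factorial : ℝ)) * ((m : ℝ) * 0 ^ m) := by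
        ring
      rw [this, h0, mul_zero]
    rw [h2]
    simp only [ne_eq, Nat.add_eq_zero_iff, OfNat.ofNat_ne_zero, one_ne_zero, and_false,
      not_false_eq_true, zero_pow, mul_zero, sub_zero]
    exact mt_nonneg (by omega) 0
  · have h1 := mt_ge (n := m + 3) (by omega) h
    refine le_trans (le_of_eq ?_) h1
    unfold pp
    have e : m + 3 - 1 = m + 2 := by omega
    rw [e]
    push_cast
    field_simp
    ring

theorem Loss_int (m : ℕ) {lam : ℝ} (hlam : 0 < lam) :
    2 / ((m + 2).factorial : ℝ) * lam ^ (m + 2) * (Cc (m + 3) / (m + 3))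
      - ((m : ℝ) + 2) / ((m + 2).factorial : ℝ) * lam ^ (m + 1) * (Cc (m + 2) / (m + 2))
      - ((m : ℝ) + 2) * (m + 1) * m / (12 * ((m + 2).factorial : ℝ)) * lam ^ m
        * (Cc (m + 1) / (m + 1)) ≤ ∫ z in (0 : ℝ)..1, mt (m + 3) (lam * YF z) := by
  have hc : ∀ q : ℕ, IntervalIntegrable (fun z => YF z ^ q) volume 0 1 := fun q =>
    (YF_cont.pow q).intervalIntegrable 0 1
  have hI : ∫ z in (0 : ℝ)..1, (2 / ((m + 2).factorial : ℝ) * lam ^ (m + 2) * YF z ^ (m + 2)
      - ((m : ℝ) + 2) / ((m + 2).factorial : ℝ) * lam ^ (m + 1) * YF z ^ (m + 1)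
      - ((m : ℝ) + 2) * (m + 1) * m / (12 * ((m + 2).factorial : ℝ)) * lam ^ m * YF z ^ m)
      = 2 / ((m + 2).factorial : ℝ) * lam ^ (m + 2) * (Cc (m + 3) / (m + 3))
      - ((m : ℝ) + 2) / ((m + 2).factorial : ℝ) * lam ^ (m + 1) * (Cc (m + 2) / (m + 2))
      - ((m : ℝ) + 2) * (m + 1) * m / (12 * ((m + 2).factorial : ℝ)) * lam ^ m
        * (Cc (m + 1) / (m + 1)) := by
    rw [intervalIntegral.integral_sub (((hc _).const_mul _).sub ((hc _).const_mul _))
      ((hc _).const_mul _), intervalIntegral.integral_sub ((hc _).const_mul _) ((hc _).const_mul _),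
      intervalIntegral.integral_const_mul, intervalIntegral.integral_const_mul,
      intervalIntegral.integral_const_mul, int_YF_pow, int_YF_pow, int_YF_pow]
    push_cast
    ring
  rw [← hI]
  apply intervalIntegral.integral_mono_on zero_le_one
  · exact (((hc _).const_mul _).sub ((hc _).const_mul _)).sub ((hc _).const_mul _)
  · exact ((mt_cont (by omega)).comp (continuous_const.mul YF_cont)).intervalIntegrable 0 1
  · intro z _
    have h := Loss_pt m (mul_nonneg hlam.le (YF_mem z).1)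
    refine le_trans (le_of_eq ?_) h
    rw [mul_pow, mul_pow, mul_pow]
    ring

theorem loss {n : ℕ} (hn : 3 ≤ n) {lam : ℝ} (hlam : 0 < lam) :
    Wn n lam ≤ (∫ g in (0 : ℝ)..(lam / Real.pi), mt n (lam * YF (Real.pi * g / lam)))
      + pp n lam * (Cc (n - 1) / (2 * Real.pi)
      + ((n : ℝ) - 1) * ((n : ℝ) - 3) * Cc (n - 2) / (24 * Real.pi * lam)) := by
  obtain ⟨m, rfl⟩ := Nat.exists_eq_add_of_le' hn
  have hpi := Real.pi_pos
  have hf : (0 : ℝ) < ((m + 2).factorial : ℝ) := by exact_mod_cast Nat.factorial_pos _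
  have hs : (∫ g in (0 : ℝ)..(lam / Real.pi), mt (m + 3) (lam * YF (Real.pi * g / lam)))
      = lam / Real.pi * ∫ z in (0 : ℝ)..1, mt (m + 3) (lam * YF z) := by
    have h := intervalIntegral.integral_comp_mul_left (a := 0) (b := lam / Real.pi)
      (fun z => mt (m + 3) (lam * YF z)) (c := Real.pi / lam) (by positivity)
    have h1 : Real.pi / lam * (lam / Real.pi) = 1 := by field_simp
    rw [mul_zero, h1, smul_eq_mul, inv_div] at h
    rw [← h]
    refine intervalIntegral.integral_congr fun g _ => ?_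
    congr 3
    ring
  rw [hs]
  have hI := mul_le_mul_of_nonneg_left (Loss_int m hlam) (by positivity : 0 ≤ lam / Real.pi)
  have e1 : m + 3 - 1 = m + 2 := by omega
  have e2 : m + 3 - 2 = m + 1 := by omega
  have hfac : ((m + 3).factorial : ℝ) = (m + 3) * ((m + 2).factorial : ℝ) := by
    rw [Nat.factorial_succ (m + 2)]
    push_cast
    ring
  have key : Wn (m + 3) lam = lam / Real.pi *
      (2 / ((m + 2).factorial : ℝ) * lam ^ (m + 2) * (Cc (m + 3) / (m + 3))
      - ((m : ℝ) + 2) / ((m + 2).factorial : ℝ) * lam ^ (m + 1) * (Cc (m + 2) / (m + 2))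
      - ((m : ℝ) + 2) * (m + 1) * m / (12 * ((m + 2).factorial : ℝ)) * lam ^ m
        * (Cc (m + 1) / (m + 1)))
      + pp (m + 3) lam * (Cc (m + 3 - 1) / (2 * Real.pi)
      + (((m + 3 : ℕ) : ℝ) - 1) * (((m + 3 : ℕ) : ℝ) - 3) * Cc (m + 3 - 2) / (24 * Real.pi * lam)) := by
    unfold Wn pp
    rw [e1, e2, hfac]
    have h1 : (m : ℝ) + 3 ≠ 0 := by positivity
    have h2 : (m : ℝ) + 2 ≠ 0 := by positivity
    have h3 : (m : ℝ) + 1 ≠ 0 := by positivity
    push_cast
    field_simp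
    ring
  rw [key]
  linarith

end Pool.Agent.PB86
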