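import Pool.Agent.PB86.Trap
import Pool.Agent.PB86.CountSum
import Pool.Agent.PB86.Loss

set_option autoImplicit false

open MeasureTheory Set Filter Topology
open scoped NNReal RealInnerProductSpace

namespace Pool.Agent.PB86

open Pool.Agent.H51.Neumann (E IsH1 IsNeumannSpectrum)

theorem count_of_II {n : ℕ} (hn : 3 ≤ n) {lam X : ℝ} (hlam : 0 < lam) (hX : 1 < X)
    (h : II n lam X) : Count n lam := by
  have hpi := Real.pi_pos
  have hconv : ConvexOn ℝ (Ici 0) (fun g => mt n (lam * YF (Real.pi * g / lam))) := by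
    refine ⟨convex_Ici 0, ?_⟩
    intro x hx y hy a b ha hb hab
    have hx' : (0 : ℝ) ≤ Real.pi * x / lam := by
      have : (0 : ℝ) ≤ x := hx
      positivity
    have hy' : (0 : ℝ) ≤ Real.pi * y / lam := by
      have : (0 : ℝ) ≤ y := hy
      positivity
    have h1 := YF_convex.2 hx' hy' ha hb hab
    simp only [smul_eq_mul] at h1 ⊢
    have e1 : Real.pi * (a * x + b * y) / lam = a * (Real.pi * x / lam) + b * (Real.pi * y / lam) := by
      ring
    have h2 : lam * YF (Real.pi * (a * x + b * y) / lam) ≤
        a * (lam * YF (Real.pi * x / lam)) + b * (lam * YF (Real.pi * y / lam)) := by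
      rw [e1]
      have := mul_le_mul_of_nonneg_left h1 hlam.le
      linarith
    have h3 := (mt_convex hn).2 (mem_univ (lam * YF (Real.pi * x / lam)))
      (mem_univ (lam * YF (Real.pi * y / lam))) ha hb hab
    simp only [smul_eq_mul] at h3
    exact (mt_mono hn h2).trans h3
  have hcont : Continuous (fun g => mt n (lam * YF (Real.pi * g / lam))) := by
    refine (mt_cont hn).comp (continuous_const.mul (YF_cont.comp ?_))
    fun_prop
  have hnn : ∀ g, 0 ≤ mt n (lam * YF (Real.pi * g / lam)) := fun g => mt_nonneg hn _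
  have hT : ∀ g ≥ lam / Real.pi, mt n (lam * YF (Real.pi * g / lam)) = 0 := by
    intro g hg
    have h1 : 1 ≤ Real.pi * g / lam := by
      rw [le_div_iff₀ hlam]
      have := mul_le_mul_of_nonneg_left hg hpi.le
      rw [mul_div_cancel₀ _ hpi.ne'] at this
      linarith
    rw [YF_of_ge h1, mul_zero, mt, if_pos]
    have : (3 : ℝ) ≤ n := by exact_mod_cast hn
    linarith
  obtain ⟨Kmax, hK⟩ := trap hconv hcont hnn hT
  obtain ⟨L, K, hLK, hsum⟩ := count_sum hn hlam hX Kmax
  refine ⟨L, K, hLK, lt_of_lt_of_le ?_ hsum⟩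
  have hl := loss hn hlam
  have hI : ∀ a b : ℝ, IntervalIntegrable (fun g => mt n (lam * YF (Real.pi * g / lam)))
      volume a b := fun a b => hcont.intervalIntegrable a b
  have hadd := intervalIntegral.integral_add_adjacent_intervals (hI 0 (32 / 25))
    (hI (32 / 25) (lam / Real.pi))
  unfold II at h
  linarith

end Pool.Agent.PB86
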