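import Pool.Agent.PB86.YInt

/-!
# The Weyl constant in terms of the volume of the unit ball
-/

set_option autoImplicit false

open MeasureTheory Set Filter Topology
open scoped NNReal RealInnerProductSpace

namespace Pool.Agent.PB86

open Pool.Agent.H51.Neumann (E IsH1 IsNeumannSpectrum)

theorem Vol_key (n : ℕ) :
    2 * Cc n * 2 ^ n * Real.Gamma ((n : ℝ) / 2 + 1) ^ 2 = Real.pi * n.factorial := by
  induction n using Nat.twoStepInduction with
  | zero =>
    rw [Cc_zero]
    simp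
    ring
  | one =>
    rw [Cc_one]
    have h1 : Real.Gamma (((1 : ℕ) : ℝ) / 2 + 1) = Real.sqrt Real.pi / 2 := by
      rw [Nat.cast_one, Real.Gamma_add_one (by norm_num), Real.Gamma_one_half_eq]
      ring
    rw [h1, div_pow, Real.sq_sqrt Real.pi_pos.le]
    simp
    ring
  | more n ih1 _ =>
    have hn : (0 : ℝ) ≤ n := Nat.cast_nonneg n
    have h1 : Real.Gamma (((n + 2 : ℕ) : ℝ) / 2 + 1) =
        ((n : ℝ) / 2 + 1) * Real.Gamma ((n : ℝ) / 2 + 1) := by
      rw [← Real.Gamma_add_one (by positivity)]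
      congr 1
      push_cast
      ring
    have h2 : (((n + 2).factorial : ℕ) : ℝ) = ((n : ℝ) + 2) * ((n : ℝ) + 1) * n.factorial := by
      rw [Nat.factorial_succ, Nat.factorial_succ]
      push_cast
      ring
    rw [h1, h2, Cc_rec]
    have h3 : (n : ℝ) + 2 ≠ 0 := by positivity
    calc 2 * (((n : ℝ) + 1) / (n + 2) * Cc n) * 2 ^ (n + 2) *
          (((n : ℝ) / 2 + 1) * Real.Gamma ((n : ℝ) / 2 + 1)) ^ 2
        = ((n : ℝ) + 2) * ((n : ℝ) + 1) *
          (2 * Cc n * 2 ^ n * Real.Gamma ((n : ℝ) / 2 + 1) ^ 2) := by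
          field_simp
          ring
      _ = Real.pi * (((n : ℝ) + 2) * ((n : ℝ) + 1) * n.factorial) := by
          rw [ih1]
          ring

theorem Wn_eq_vol {n : ℕ} (hn : 1 ≤ n) (lam : ℝ) :
    Wn n lam = lam ^ n * volume.real (Metric.ball (0 : E n) 1) ^ 2 / (2 * Real.pi) ^ n := by
  have : Nonempty (Fin n) := ⟨⟨0, hn⟩⟩
  have hG : 0 < Real.Gamma ((n : ℝ) / 2 + 1) := Real.Gamma_pos_of_pos (by positivity)
  have h1 : volume.real (Metric.ball (0 : E n) 1) =
      Real.sqrt Real.pi ^ n / Real.Gamma ((n : ℝ) / 2 + 1) := by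
    rw [Measure.real, EuclideanSpace.volume_ball, Fintype.card_fin]
    rw [ENNReal.ofReal_one, one_pow, one_mul, ENNReal.toReal_ofReal (by positivity)]
  have h2 : (Real.sqrt Real.pi ^ n) ^ 2 = Real.pi ^ n := by
    rw [← pow_mul, mul_comm n 2, pow_mul, Real.sq_sqrt Real.pi_pos.le]
  have hf : (0 : ℝ) < n.factorial := by exact_mod_cast n.factorial_pos
  have hk := Vol_key n
  rw [h1, div_pow, h2, mul_pow]
  unfold Wn
  have hp := Real.pi_pos
  rw [div_eq_div_iff (by positivity) (by positivity)]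
  have h3 : lam ^ n * (Real.pi ^ n / Real.Gamma ((n : ℝ) / 2 + 1) ^ 2) *
      (Real.pi * n.factorial) = 2 * lam ^ n * Cc n * (2 ^ n * Real.pi ^ n) := by
    rw [← hk]
    field_simp
  linarith

end Pool.Agent.PB86
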