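import Pool.Agent.PB86.Family
import Pool.Agent.PB86.MinMax
import Pool.Agent.PB86.Red
import Pool.Agent.PB86.B3
import Pool.Agent.PB86.B4
import Pool.Agent.PB86.B5
import Pool.Agent.PB86.B6
import Pool.Agent.PB86.BLarge
import Pool.Agent.PB86.ASmall
import Pool.Agent.PB86.ALarge
import Pool.Agent.PB86.Vol

set_option autoImplicit false

open MeasureTheory Set Filter Topology
open scoped NNReal RealInnerProductSpace

namespace Pool.Agent.PB86

open Pool.Agent.H51.Neumann (E IsH1 IsNeumannSpectrum)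
open Pool.Agent.H85.Spectral (weyl)

theorem count_all {n : ℕ} (hn : 3 ≤ n) {lam : ℝ} (hlam : 0 < lam) : Count n lam := by
  rcases Nat.lt_or_ge n 7 with h7 | h7
  · interval_cases n
    · rcases le_total (lam ^ 2) 35 with h | h
      · exact A_three hlam h
      · obtain ⟨X, hX, hII⟩ := II_three hlam h
        exact count_of_II le_rfl hlam hX hII
    · rcases le_total (lam ^ 2) 54 with h | h
      · exact A_four hlam h
      · obtain ⟨X, hX, hII⟩ := II_four hlam h
        exact count_of_II (by norm_num) hlam hX hII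
    · rcases le_total (lam ^ 2) (287 / 5) with h | h
      · exact A_five hlam h
      · obtain ⟨X, hX, hII⟩ := II_five hlam h
        exact count_of_II (by norm_num) hlam hX hII
    · rcases le_total (lam ^ 2) (184 / 3) with h | h
      · exact A_six hlam h
      · obtain ⟨X, hX, hII⟩ := II_six hlam h
        exact count_of_II (by norm_num) hlam hX hII
  · rcases le_total (lam ^ 2) (64 / 125 * (n : ℝ) ^ 3) with h | h
    · exact A_large h7 hlam h
    · obtain ⟨X, hX, hII⟩ := II_large h7 hlam h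
      exact count_of_II hn hlam hX hII


theorem polya_ball {n : ℕ} (hn : 3 ≤ n) {Ω : Set (E n)} (hΩ : IsOpen Ω) (hfin : volume Ω ≠ ⊤)
    (hV : 0 < volume.real Ω) {μ : ℕ → ℝ}
    (hμ : IsNeumannSpectrum Ω μ) {m : ℕ} (hm : 0 < m) (A : Fin m → (E n ≃ₗᵢ[ℝ] E n))
    (b : Fin m → E n) {c₀ : E n} {R : ℝ} (hR : 0 < R)
    (hdisj : Pairwise (Function.onFun Disjoint fun k => (fun x => A k x + b k) '' Ω))
    (hcov : Metric.ball c₀ R =ᵐ[volume] ⋃ k, (fun x => A k x + b k) '' Ω)
    {j : ℕ} (hj : 1 ≤ j) : μ j < weyl Ω j := by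
  have hn0 : 0 < n := by omega
  have hn' : (0 : ℝ) < n := by exact_mod_cast hn0
  have hm' : (0 : ℝ) < m := by exact_mod_cast hm
  have hj' : (0 : ℝ) < j := by exact_mod_cast hj
  set om := volume.real (Metric.ball (0 : E n) 1) with hom
  have homp : 0 < om := by
    rw [hom, Measure.real, ENNReal.toReal_pos_iff]
    exact ⟨Metric.measure_ball_pos _ _ one_pos, measure_ball_lt_top⟩
  set V := volume.real Ω with hVdef
  have hvD := Pool.Agent.H85.Spectral.volume_packed hΩ A b hdisj hcov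
  have hrD : volume.real (Metric.ball c₀ R) = m * V := by
    rw [Measure.real, hvD, ENNReal.toReal_mul, ENNReal.toReal_natCast]
    rfl
  have hball : volume.real (Metric.ball c₀ R) = R ^ n * om := by
    rw [Measure.real, Measure.addHaar_ball_of_pos _ _ hR, ENNReal.toReal_mul,
      ENNReal.toReal_ofReal (by positivity), finrank_euclideanSpace, Fintype.card_fin]
    rfl
  have hw : 0 < weyl Ω j := by
    unfold weyl
    positivity
  set lam := R * Real.sqrt (weyl Ω j) with hlam
  have hlamp : 0 < lam := by positivity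
  have hlam2 : lam ^ 2 / R ^ 2 = weyl Ω j := by
    rw [hlam, mul_pow, Real.sq_sqrt hw.le]
    field_simp
  obtain ⟨L, K, hLK, hcount⟩ := count_all hn hlamp
  have hF := fam_of_cnt hn L K hLK
  rw [← hlam2]
  refine mu_lt hΩ hfin hμ A b hR hdisj hcov hF ?_
  have hW : Wn n lam = m * j := by
    rw [Wn_eq_vol (by omega), ← hom]
    have h1 : lam ^ n = R ^ n * ((2 * Real.pi) ^ n * ((j : ℝ) / (om * V))) := by
      rw [hlam, mul_pow]
      congr 1
      have h2 : weyl Ω j = ((2 * Real.pi) * ((j : ℝ) / (om * V)) ^ (1 / (n : ℝ))) ^ 2 := by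
        unfold weyl
        rw [← hVdef, ← hom, mul_pow _ (_ ^ (1 / (n : ℝ))) 2]
        congr 1
        rw [← Real.rpow_natCast (_ ^ (1 / (n : ℝ))) 2, ← Real.rpow_mul (by positivity)]
        congr 1
        push_cast
        ring
      rw [h2, Real.sqrt_sq (by positivity), mul_pow]
      congr 1
      rw [← Real.rpow_natCast, ← Real.rpow_mul (by positivity), one_div,
        inv_mul_cancel₀ hn'.ne', Real.rpow_one]
    have h3 : R ^ n * om = m * V := by rw [← hball, hrD]
    rw [h1]
    have hpi := Real.pi_pos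
    have h4 : R ^ n = m * V / om := by field_simp; linarith
    rw [h4]
    field_simp
  rw [hW] at hcount
  exact_mod_cast hcount

theorem mu_zero_le {n : ℕ} (hn : 3 ≤ n) {Ω : Set (E n)} (hΩ : IsOpen Ω) (hfin : volume Ω ≠ ⊤)
    {μ : ℕ → ℝ} (hμ : IsNeumannSpectrum Ω μ) {m : ℕ} (A : Fin m → (E n ≃ₗᵢ[ℝ] E n))
    (b : Fin m → E n) {c₀ : E n} {R : ℝ} (hR : 0 < R)
    (hdisj : Pairwise (Function.onFun Disjoint fun k => (fun x => A k x + b k) '' Ω))
    (hcov : Metric.ball c₀ R =ᵐ[volume] ⋃ k, (fun x => A k x + b k) '' Ω) : μ 0 ≤ 0 := by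
  refine le_of_forall_pos_lt_add fun ε hε => ?_
  have hlamp : 0 < R * Real.sqrt ε := by positivity
  obtain ⟨L, K, hLK, hcount⟩ := count_all hn hlamp
  have hF := fam_of_cnt hn L K hLK
  have h0 : m * 0 < ∑ l ∈ Finset.range L, K l * Module.finrank ℝ (Harm n l) := by
    rw [mul_zero]
    have h1 : 0 ≤ Wn n (R * Real.sqrt ε) := by
      rw [Wn_eq_vol (by omega)]
      have hpi := Real.pi_pos
      positivity
    have h2 := lt_of_le_of_lt h1 hcount
    exact_mod_cast h2
  have h3 := mu_lt hΩ hfin hμ A b hR hdisj hcov hF h0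
  have h4 : (R * Real.sqrt ε) ^ 2 / R ^ 2 = ε := by
    rw [mul_pow, Real.sq_sqrt hε.le]
    field_simp
  rw [h4] at h3
  linarith

/-- **Pólya's inequality for the Neumann eigenvalues of a domain congruent copies of which fill a
ball.** -/
theorem polya_packed {n : ℕ} (hn : 3 ≤ n) {Ω : Set (E n)} (hΩ : IsOpen Ω) {μ : ℕ → ℝ}
    (hμ : IsNeumannSpectrum Ω μ) {m : ℕ} (A : Fin m → (E n ≃ₗᵢ[ℝ] E n)) (b : Fin m → E n)
    {c₀ : E n} {R : ℝ} (hR : 0 < R)
    (hdisj : Pairwise (Function.onFun Disjoint fun k => (fun x => A k x + b k) '' Ω))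
    (hcov : Metric.ball c₀ R =ᵐ[volume] ⋃ k, (fun x => A k x + b k) '' Ω) :
    (∀ j, μ j ≤ weyl Ω j) ∧ ∀ j, 1 ≤ j → μ j < weyl Ω j := by
  have hvD := Pool.Agent.H85.Spectral.volume_packed hΩ A b hdisj hcov
  have hb1 : volume (Metric.ball c₀ R) ≠ ⊤ := measure_ball_lt_top.ne
  have hb2 : volume (Metric.ball c₀ R) ≠ 0 := (Metric.measure_ball_pos _ _ hR).ne'
  have hm : 0 < m := by
    rcases Nat.eq_zero_or_pos m with h | h
    · subst h
      rw [hvD] at hb2
      simp at hb2
    · exact h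
  have hfin : volume Ω ≠ ⊤ := by
    intro h
    rw [hvD, h, ENNReal.mul_top (by exact_mod_cast hm.ne')] at hb1
    exact hb1 rfl
  have hV : 0 < volume.real Ω := by
    rw [Measure.real, ENNReal.toReal_pos_iff]
    refine ⟨pos_iff_ne_zero.2 fun h => ?_, lt_top_iff_ne_top.2 hfin⟩
    rw [hvD, h, mul_zero] at hb2
    exact hb2 rfl
  have hpos : ∀ j, 1 ≤ j → μ j < weyl Ω j := fun j hj =>
    polya_ball hn hΩ hfin hV hμ hm A b hR hdisj hcov hj
  refine ⟨fun j => ?_, hpos⟩
  rcases Nat.eq_zero_or_pos j with h | h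
  · subst h
    have h1 : weyl Ω 0 = 0 := by
      unfold weyl
      have : (2 : ℝ) / (n : ℝ) ≠ 0 := by
        have : (n : ℝ) ≠ 0 := by
          have : 0 < n := by omega
          exact_mod_cast this.ne'
        positivity
      rw [Nat.cast_zero, zero_div, Real.zero_rpow this, mul_zero]
    rw [h1]
    exact mu_zero_le hn hΩ hfin hμ A b hR hdisj hcov
  · exact (hpos j h).le

end Pool.Agent.PB86
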