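import Pool.Agent.PB86.Defs

set_option autoImplicit false

open MeasureTheory Set Filter Topology
open scoped NNReal RealInnerProductSpace

namespace Pool.Agent.PB86

open Pool.Agent.H51.Neumann (E IsH1 IsNeumannSpectrum)

/-- polar coordinates on the whole space -/
theorem polar_univ {n : ℕ} {F : E n → ℝ} (hF : Integrable F) (hn : 1 ≤ n) :
    ∫ x, F x = ∫ r in Ioi (0 : ℝ), r ^ (n - 1) * ∫ s, F (r • (s : E n)) ∂(sph n) := by
  have hd : Module.finrank ℝ (E n) - 1 = n - 1 := by simp
  haveI : Nontrivial (E n) := by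
    apply Module.nontrivial_of_finrank_pos (R := ℝ)
    simp only [finrank_euclideanSpace, Fintype.card_fin]
    omega
  have hmp := (volume : Measure (E n)).measurePreserving_homeomorphUnitSphereProd
  rw [hd] at hmp
  have hme : MeasurableEmbedding (homeomorphUnitSphereProd (E n)) := Homeomorph.measurableEmbedding _
  set G : Metric.sphere (0 : E n) 1 × Ioi (0 : ℝ) → ℝ := fun y => F ((y.2 : ℝ) • (y.1 : E n)) with hG
  have hGF : (G ∘ homeomorphUnitSphereProd (E n)) = fun x : ({(0)}ᶜ : Set (E n)) => F x := by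
    ext x
    have hx : (x : E n) ≠ 0 := x.2
    have hn : ‖(x : E n)‖ ≠ 0 := norm_ne_zero_iff.mpr hx
    simp [hG, smul_smul, hn]
  have hGi : Integrable G ((sph n).prod (Measure.volumeIoiPow (n - 1))) := by
    rw [← hmp.integrable_comp_emb hme, hGF]
    exact (integrableOn_iff_comap_subtypeVal (measurableSet_singleton _).compl).mp hF.integrableOn
  have hGint : ∫ x, F x = ∫ y, G y ∂((sph n).prod (Measure.volumeIoiPow (n - 1))) := by
    rw [← hmp.integral_comp hme]
    have h0 : (fun x => G (homeomorphUnitSphereProd (E n) x)) =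
        fun x : ({(0)}ᶜ : Set (E n)) => F x := hGF
    rw [h0, integral_subtype_comap (measurableSet_singleton _).compl F, restrict_compl_singleton]
  set H : ℝ → ℝ := fun r => ∫ s, F (r • (s : E n)) ∂(sph n) with hH
  have h2 : ∫ y, G y ∂((sph n).prod (Measure.volumeIoiPow (n - 1))) =
      ∫ r : Ioi (0 : ℝ), H r ∂(Measure.volumeIoiPow (n - 1)) := integral_prod_symm _ hGi
  have h4 : ∫ r : Ioi (0 : ℝ), H r ∂(Measure.volumeIoiPow (n - 1)) =
      ∫ r in Ioi (0 : ℝ), r ^ (n - 1) • H r := by
    simp only [Measure.volumeIoiPow, ENNReal.ofReal]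
    rw [integral_withDensity_eq_integral_smul,
      integral_subtype_comap measurableSet_Ioi fun a ↦ Real.toNNReal (a ^ (n - 1)) • H a,
      setIntegral_congr_fun measurableSet_Ioi fun x hx ↦ ?_]
    · rw [NNReal.smul_def, Real.coe_toNNReal _ (pow_nonneg hx.out.le _)]
    · exact (measurable_subtype_coe.pow_const _).real_toNNReal
  rw [hGint, h2, h4]
  rfl

theorem polar {n : ℕ} (hn : 3 ≤ n) {F : E n → ℝ}
    (hF : IntegrableOn F (Metric.ball (0 : E n) 1)) :
    ∫ x in Metric.ball (0 : E n) 1, F x =
      ∫ r in Ioo (0 : ℝ) 1, r ^ (n - 1) * ∫ s, F (r • (s : E n)) ∂(sph n) := by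
  have hb : MeasurableSet (Metric.ball (0 : E n) 1) := Metric.isOpen_ball.measurableSet
  have hF' : Integrable (indicator (Metric.ball (0 : E n) 1) F) :=
    (integrable_indicator_iff hb).2 hF
  rw [← integral_indicator hb, polar_univ hF' (by omega)]
  have h1 : ∀ r ∈ Ioi (0 : ℝ), r ^ (n - 1) *
      ∫ s, (indicator (Metric.ball (0 : E n) 1) F) (r • (s : E n)) ∂(sph n) =
      indicator (Iio (1 : ℝ)) (fun r => r ^ (n - 1) * ∫ s, F (r • (s : E n)) ∂(sph n)) r := by
    intro r hr
    have hr0 : (0 : ℝ) < r := hr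
    have hs : ∀ s : Metric.sphere (0 : E n) 1, ‖r • (s : E n)‖ = r := by
      intro s
      rw [norm_smul, norm_eq_of_mem_sphere, mul_one, Real.norm_of_nonneg hr0.le]
    by_cases h : r < 1
    · rw [indicator_of_mem (show r ∈ Iio (1 : ℝ) from h)]
      congr 1
      refine integral_congr_ae (Filter.Eventually.of_forall fun s => ?_)
      have : r • (s : E n) ∈ Metric.ball (0 : E n) 1 := by
        rw [mem_ball_zero_iff, hs]; exact h
      exact indicator_of_mem this F
    · rw [indicator_of_notMem (show r ∉ Iio (1 : ℝ) from h)]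
      have h0 : ∀ s : Metric.sphere (0 : E n) 1,
          (indicator (Metric.ball (0 : E n) 1) F) (r • (s : E n)) = 0 := by
        intro s
        apply indicator_of_notMem
        rw [mem_ball_zero_iff, hs]; exact h
      simp only [h0, integral_zero, mul_zero]
  rw [setIntegral_congr_fun measurableSet_Ioi h1, setIntegral_indicator measurableSet_Iio,
    Ioi_inter_Iio]

end Pool.Agent.PB86
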