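import Pool.Agent.PB86.HarmOrth
import Pool.Agent.PB86.Polar

set_option autoImplicit false

open MeasureTheory Set Filter Topology
open scoped NNReal RealInnerProductSpace

namespace Pool.Agent.PB86

open Pool.Agent.H51.Neumann (E IsH1 IsNeumannSpectrum)

/-! ### Lipschitz property and compact support of the trial functions -/

lemma form_rad_cpt {Ψ : ℝ → ℝ} (hΨ : Rad Ψ) : ∃ R : ℝ, 0 < R ∧ ∀ r ≥ R, Ψ r = 0 := by
  obtain ⟨R, hR⟩ := hΨ.cpt
  exact ⟨max R 1, lt_of_lt_of_le one_pos (le_max_right _ _),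
    fun r hr => hR r ((le_max_left _ _).trans hr)⟩

lemma form_lip_ev {n : ℕ} (H : MvPolynomial (Fin n) ℝ) (R : ℝ) :
    ∃ M L : ℝ, 0 ≤ M ∧ 0 ≤ L ∧ (∀ x : E n, ‖x‖ ≤ R → |ev H x| ≤ M) ∧
      ∀ x y : E n, ‖x‖ ≤ R → ‖y‖ ≤ R → |ev H x - ev H y| ≤ L * ‖x - y‖ := by
  have hK : IsCompact (Metric.closedBall (0 : E n) R) := isCompact_closedBall 0 R
  obtain ⟨M, hM⟩ := hK.exists_bound_of_continuousOn (continuous_ev H).continuousOn
  have hc : Continuous (fun x : E n =>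
      (∑ i, ev (MvPolynomial.pderiv i H) x • (EuclideanSpace.proj i : E n →L[ℝ] ℝ))) := by
    refine continuous_finsetSum _ fun i _ => ?_
    exact (continuous_ev _).smul continuous_const
  obtain ⟨L, hL⟩ := hK.exists_bound_of_continuousOn hc.continuousOn
  refine ⟨|M|, |L|, abs_nonneg _, abs_nonneg _, ?_, ?_⟩
  · intro x hx
    have := hM x (by simpa using hx)
    rw [Real.norm_eq_abs] at this
    exact this.trans (le_abs_self _)
  · intro x y hx hy
    have h1 := (convex_closedBall (0 : E n) R).norm_image_sub_le_of_norm_hasFDerivWithin_le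
      (f := ev H) (C := |L|)
      (fun z _ => (hasFDerivAt_ev H z).hasFDerivWithinAt)
      (fun z hz => (hL z hz).trans (le_abs_self _))
      (show y ∈ Metric.closedBall (0 : E n) R by simpa using hy)
      (show x ∈ Metric.closedBall (0 : E n) R by simpa using hx)
    rw [Real.norm_eq_abs] at h1
    exact h1

theorem lip_trial {n : ℕ} {Ψ : ℝ → ℝ} (hΨ : Rad Ψ) (H : MvPolynomial (Fin n) ℝ) :
    ∃ C : ℝ≥0, LipschitzWith C (fun y : E n => Ψ ‖y‖ * ev H y) := by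
  obtain ⟨R, hR0, hR⟩ := form_rad_cpt hΨ
  obtain ⟨C, hC⟩ := hΨ.lip
  obtain ⟨M, L, hM0, hL0, hM, hL⟩ := form_lip_ev H R
  have hC' : ∀ x y, |Ψ x - Ψ y| ≤ C * |x - y| := by
    intro x y
    have := hC.dist_le_mul x y
    rwa [Real.dist_eq, Real.dist_eq] at this
  have hnn : ∀ x y : E n, |‖x‖ - ‖y‖| ≤ ‖x - y‖ := fun x y => abs_norm_sub_norm_le x y
  have hb : ∀ x : E n, ‖x‖ ≤ R → |Ψ ‖x‖| ≤ C * R := by
    intro x hx
    have h1 := hC' ‖x‖ R
    rw [hR R le_rfl, sub_zero] at h1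
    refine h1.trans (mul_le_mul_of_nonneg_left ?_ C.2)
    rw [abs_le]
    constructor <;> linarith [norm_nonneg x]
  -- one point inside, one outside
  have hmix : ∀ x y : E n, ‖x‖ ≤ R → R ≤ ‖y‖ →
      |Ψ ‖x‖ * ev H x - Ψ ‖y‖ * ev H y| ≤ C * M * ‖x - y‖ := by
    intro x y hx hy
    rw [hR ‖y‖ hy, zero_mul, sub_zero, abs_mul]
    have h1 := hC' ‖x‖ R
    rw [hR R le_rfl, sub_zero] at h1
    have h2 : |‖x‖ - R| ≤ ‖x - y‖ := by
      rw [abs_of_nonpos (by linarith)]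
      have := hnn x y
      rw [abs_le] at this
      linarith [this.1]
    calc |Ψ ‖x‖| * |ev H x| ≤ (C * |‖x‖ - R|) * M :=
          mul_le_mul h1 (hM x hx) (abs_nonneg _) (mul_nonneg C.2 (abs_nonneg _))
      _ ≤ (C * ‖x - y‖) * M :=
          mul_le_mul_of_nonneg_right (mul_le_mul_of_nonneg_left h2 C.2) hM0
      _ = C * M * ‖x - y‖ := by ring
  have hCM : 0 ≤ (C : ℝ) * M := mul_nonneg C.2 hM0
  have hCRL : 0 ≤ (C : ℝ) * R * L := mul_nonneg (mul_nonneg C.2 hR0.le) hL0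
  refine ⟨⟨C * M + C * R * L, by positivity⟩, ?_⟩
  refine LipschitzWith.of_dist_le_mul fun x y => ?_
  rw [Real.dist_eq, dist_eq_norm]
  show |Ψ ‖x‖ * ev H x - Ψ ‖y‖ * ev H y| ≤ (C * M + C * R * L) * ‖x - y‖
  have hle : C * M * ‖x - y‖ ≤ (C * M + C * R * L) * ‖x - y‖ :=
    mul_le_mul_of_nonneg_right (by linarith) (norm_nonneg _)
  rcases le_total ‖x‖ R with hx | hx
  · rcases le_total ‖y‖ R with hy | hy
    · have e : Ψ ‖x‖ * ev H x - Ψ ‖y‖ * ev H y =
          (Ψ ‖x‖ - Ψ ‖y‖) * ev H x + Ψ ‖y‖ * (ev H x - ev H y) := by ring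
      rw [e]
      refine (abs_add_le _ _).trans ?_
      rw [abs_mul, abs_mul]
      have h1 : |Ψ ‖x‖ - Ψ ‖y‖| * |ev H x| ≤ (C * ‖x - y‖) * M :=
        mul_le_mul ((hC' _ _).trans (mul_le_mul_of_nonneg_left (hnn x y) C.2)) (hM x hx)
          (abs_nonneg _) (mul_nonneg C.2 (norm_nonneg _))
      have h2 : |Ψ ‖y‖| * |ev H x - ev H y| ≤ (C * R) * (L * ‖x - y‖) :=
        mul_le_mul (hb y hy) (hL x y hx hy) (abs_nonneg _) (mul_nonneg C.2 hR0.le)
      nlinarith [h1, h2]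
    · exact (hmix x y hx hy).trans hle
  · rcases le_total ‖y‖ R with hy | hy
    · have := hmix y x hy hx
      rw [abs_sub_comm, norm_sub_rev] at this
      exact this.trans hle
    · rw [hR ‖x‖ hx, hR ‖y‖ hy]
      simp only [zero_mul, sub_self, abs_zero]
      positivity

theorem cpt_trial {n : ℕ} {Ψ : ℝ → ℝ} (hΨ : Rad Ψ) (H : MvPolynomial (Fin n) ℝ) :
    HasCompactSupport (fun y : E n => Ψ ‖y‖ * ev H y) := by
  obtain ⟨R, hR0, hR⟩ := form_rad_cpt hΨ
  refine HasCompactSupport.intro (isCompact_closedBall (0 : E n) R) fun x hx => ?_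
  have : R ≤ ‖x‖ := by
    rw [mem_closedBall_zero_iff, not_le] at hx
    exact hx.le
  rw [hR _ this, zero_mul]

/-! ### Disjoint supports -/

lemma form_disj {f g : ℝ → ℝ} (hf : Continuous f) (hg : Continuous g)
    (h : ∀ r ∈ Ioo (0 : ℝ) 1, f r = 0 ∨ g r = 0) {r : ℝ} (hr : r ∈ Ioo (0 : ℝ) 1) :
    f r * g r = 0 ∧ deriv f r * g r = 0 ∧ f r * deriv g r = 0 ∧ deriv f r * deriv g r = 0 := by
  have hnear : ∀ᶠ x in 𝓝 r, x ∈ Ioo (0 : ℝ) 1 := isOpen_Ioo.mem_nhds hr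
  have key : ∀ {f g : ℝ → ℝ}, Continuous g → (∀ r ∈ Ioo (0 : ℝ) 1, f r = 0 ∨ g r = 0) →
      g r ≠ 0 → deriv f r = 0 := by
    intro f g hg h hgr
    have h1 : ∀ᶠ x in 𝓝 r, g x ≠ 0 := hg.continuousAt.eventually_ne hgr
    have h2 : f =ᶠ[𝓝 r] fun _ => (0 : ℝ) := by
      filter_upwards [h1, hnear] with x hx1 hx2
      rcases h x hx2 with h3 | h3
      · exact h3
      · exact absurd h3 hx1
    rw [h2.deriv_eq]
    simp
  have h' : ∀ r ∈ Ioo (0 : ℝ) 1, g r = 0 ∨ f r = 0 := fun r hr => (h r hr).symm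
  have e1 : f r * g r = 0 := mul_eq_zero.2 (h r hr)
  have e2 : deriv f r * g r = 0 := by
    by_cases hgr : g r = 0
    · rw [hgr, mul_zero]
    · rw [key hg h hgr, zero_mul]
  have e3 : f r * deriv g r = 0 := by
    by_cases hfr : f r = 0
    · rw [hfr, zero_mul]
    · rw [key hf h' hfr, mul_zero]
  refine ⟨e1, e2, e3, ?_⟩
  by_contra hne
  obtain ⟨ha, hb⟩ := mul_ne_zero_iff.1 hne
  have hfd : DifferentiableAt ℝ f r := by
    by_contra hh; exact ha (deriv_zero_of_not_differentiableAt hh)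
  have hgd : DifferentiableAt ℝ g r := by
    by_contra hh; exact hb (deriv_zero_of_not_differentiableAt hh)
  have h1 := hfd.hasDerivAt.eventually_ne ha (c := 0)
  have h2 := hgd.hasDerivAt.eventually_ne hb (c := 0)
  have h3 : ∀ᶠ x in 𝓝[≠] r, x ∈ Ioo (0 : ℝ) 1 := nhdsWithin_le_nhds hnear
  obtain ⟨x, hx1, hx2, hx3⟩ := (h1.and (h2.and h3)).exists
  rcases h x hx3 with h4 | h4
  · exact hx1 h4
  · exact hx2 h4

/-! ### The sphere integrals -/

section sphere

variable {n : ℕ} {ι : Type} [Fintype ι]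

lemma form_cont_sph {F : E n → ℝ} (hF : Continuous F) :
    Integrable (fun s : Metric.sphere (0 : E n) 1 => F s) (sph n) :=
  (hF.comp continuous_subtype_val).integrable_of_hasCompactSupport
    (HasCompactSupport.of_compactSpace _)

lemma form_norm_smul (s : Metric.sphere (0 : E n) 1) {r : ℝ} (hr : 0 < r) :
    ‖r • (s : E n)‖ = r := by
  rw [norm_smul, norm_eq_of_mem_sphere, mul_one, Real.norm_eq_abs, abs_of_pos hr]

lemma form_hom {l : ℕ} {H : MvPolynomial (Fin n) ℝ} (hH : H ∈ Harm n l) : H.IsHomogeneous l := by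
  have h := (Submodule.mem_inf.mp hH).1
  rwa [MvPolynomial.mem_homogeneousSubmodule] at h

/-- sum over pairs with vanishing off-diagonal terms -/
lemma form_diag (T : ι → ι → ℝ) (h : ∀ a b, a ≠ b → T a b = 0) :
    ∑ a, ∑ b, T a b = ∑ a, T a a := by
  refine Finset.sum_congr rfl fun a _ => ?_
  refine Finset.sum_eq_single a (fun b _ hb => h a b (Ne.symm hb)) ?_
  intro ha; exact absurd (Finset.mem_univ a) ha

/-- integrals of quadratic expressions over the sphere -/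
lemma form_quad (hn : 3 ≤ n) (l : ι → ℕ) (H : ι → MvPolynomial (Fin n) ℝ)
    (hH : ∀ a, H a ∈ Harm n (l a)) (c d : ι → ι → ℝ)
    (hc : ∀ a b, a ≠ b → l a = l b → c a b = 0) (hd : ∀ a b, a ≠ b → l a = l b → d a b = 0) :
    ∫ s : Metric.sphere (0 : E n) 1, (∑ a, ∑ b, (c a b * (ev (H a) s * ev (H b) s) + d a b *
      ∑ i, ev (MvPolynomial.pderiv i (H a)) s * ev (MvPolynomial.pderiv i (H b)) s)) ∂(sph n) =
    ∑ a, (c a a + d a a * (l a * (2 * l a + n - 2))) * ∫ s, ev (H a) s ^ 2 ∂(sph n) := by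
  have i1 : ∀ a b, Integrable (fun s : Metric.sphere (0 : E n) 1 => ev (H a) s * ev (H b) s)
      (sph n) := fun a b => form_cont_sph ((continuous_ev _).mul (continuous_ev _))
  have i2 : ∀ a b, Integrable (fun s : Metric.sphere (0 : E n) 1 =>
      ∑ i, ev (MvPolynomial.pderiv i (H a)) s * ev (MvPolynomial.pderiv i (H b)) s)
      (sph n) := fun a b => form_cont_sph (F := fun x : E n =>
        ∑ i, ev (MvPolynomial.pderiv i (H a)) x * ev (MvPolynomial.pderiv i (H b)) x)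
        (continuous_finsetSum _ fun i _ => (continuous_ev _).mul (continuous_ev _))
  have i3 : ∀ a b, Integrable (fun s : Metric.sphere (0 : E n) 1 =>
      (c a b * (ev (H a) s * ev (H b) s) + d a b *
      ∑ i, ev (MvPolynomial.pderiv i (H a)) s * ev (MvPolynomial.pderiv i (H b)) s)) (sph n) :=
    fun a b => ((i1 a b).const_mul _).add ((i2 a b).const_mul _)
  rw [integral_finsetSum _ fun a _ => integrable_finsetSum _ fun b _ => i3 a b]
  have h1 : ∀ a, ∫ s : Metric.sphere (0 : E n) 1, (∑ b, (c a b * (ev (H a) s * ev (H b) s) +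
      d a b * ∑ i, ev (MvPolynomial.pderiv i (H a)) s * ev (MvPolynomial.pderiv i (H b)) s))
      ∂(sph n) = ∑ b, (c a b * (∫ s, ev (H a) s * ev (H b) s ∂(sph n)) + d a b *
      ∫ s, ∑ i, ev (MvPolynomial.pderiv i (H a)) s * ev (MvPolynomial.pderiv i (H b)) s
        ∂(sph n)) := by
    intro a
    rw [integral_finsetSum _ fun b _ => i3 a b]
    refine Finset.sum_congr rfl fun b _ => ?_
    rw [integral_add ((i1 a b).const_mul _) ((i2 a b).const_mul _), integral_const_mul,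
      integral_const_mul]
  simp only [h1]
  rw [form_diag]
  · refine Finset.sum_congr rfl fun a _ => ?_
    rw [sph_grad hn (hH a) (hH a)]
    have : ∀ s : Metric.sphere (0 : E n) 1, ev (H a) s * ev (H a) s = ev (H a) s ^ 2 :=
      fun s => (sq _).symm
    simp only [this]
    ring
  · intro a b hab
    by_cases hl : l a = l b
    · rw [hc a b hab hl, hd a b hab hl]; ring
    · rw [sph_orth hn hl (hH a) (hH b), sph_grad_orth hn hl (hH a) (hH b)]; ring

lemma form_ev_pderiv {l : ℕ} {H : MvPolynomial (Fin n) ℝ} (hH : H ∈ Harm n l) (i : Fin n) (r : ℝ)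
    (x : E n) : ev (MvPolynomial.pderiv i H) (r • x) =
      r ^ (l - 1) * ev (MvPolynomial.pderiv i H) x :=
  ev_smul ((form_hom hH).pderiv) r x

/-- mass on the sphere of radius `r` -/
lemma form_mass (hn : 3 ≤ n) (l : ι → ℕ) (Ψ : ι → ℝ → ℝ)
    (H : ι → MvPolynomial (Fin n) ℝ) (hH : ∀ a, H a ∈ Harm n (l a))
    (hd : ∀ a b, a ≠ b → l a = l b → ∀ r ∈ Ioo (0 : ℝ) 1, Ψ a r = 0 ∨ Ψ b r = 0)
    {r : ℝ} (hr : r ∈ Ioo (0 : ℝ) 1) :
    r ^ (n - 1) * ∫ s : Metric.sphere (0 : E n) 1,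
      (∑ a, Ψ a ‖r • (s : E n)‖ * ev (H a) (r • (s : E n))) ^ 2 ∂(sph n) =
    ∑ a, (∫ s, ev (H a) s ^ 2 ∂(sph n)) * (Ψ a r ^ 2 * r ^ (2 * l a + n - 1)) := by
  have e : ∀ s : Metric.sphere (0 : E n) 1,
      (∑ a, Ψ a ‖r • (s : E n)‖ * ev (H a) (r • (s : E n))) ^ 2 =
      ∑ a, ∑ b, ((Ψ a r * Ψ b r * r ^ (l a + l b)) * (ev (H a) s * ev (H b) s) + 0 *
        ∑ i, ev (MvPolynomial.pderiv i (H a)) s * ev (MvPolynomial.pderiv i (H b)) s) := by
    intro s
    rw [form_norm_smul s hr.1, sq, Finset.sum_mul_sum]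
    refine Finset.sum_congr rfl fun a _ => Finset.sum_congr rfl fun b _ => ?_
    rw [ev_smul (form_hom (hH a)), ev_smul (form_hom (hH b)), pow_add]
    ring
  simp only [e]
  rw [form_quad hn l H hH (fun a b => Ψ a r * Ψ b r * r ^ (l a + l b)) (fun _ _ => 0)
    (fun a b hab hl => by
      rcases hd a b hab hl r hr with h | h <;> rw [h] <;> ring) (fun _ _ _ _ => rfl),
    Finset.mul_sum]
  refine Finset.sum_congr rfl fun a _ => ?_
  have e2 : r ^ (2 * l a + n - 1) = r ^ (n - 1) * r ^ (l a + l a) := by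
    rw [← pow_add]
    congr 1
    omega
  rw [e2]
  ring

/-- the gradient at `r • s` -/
lemma form_grad (Ψ : ι → ℝ → ℝ) (H : ι → MvPolynomial (Fin n) ℝ)
    {r : ℝ} (hr : r ∈ Ioo (0 : ℝ) 1) (hdiff : ∀ a, DifferentiableAt ℝ (Ψ a) r)
    (s : Metric.sphere (0 : E n) 1) (i : Fin n) :
    (gradient (fun y : E n => ∑ a, Ψ a ‖y‖ * ev (H a) y) (r • (s : E n))) i =
      ∑ a, (deriv (Ψ a) r * ev (H a) (r • (s : E n)) * (s : E n) i
        + Ψ a r * ev (MvPolynomial.pderiv i (H a)) (r • (s : E n))) := by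
  set x : E n := r • (s : E n) with hx
  have hxn : ‖x‖ = r := form_norm_smul s hr.1
  have hx0 : x ≠ 0 := by
    rw [← norm_pos_iff, hxn]; exact hr.1
  -- derivative of the norm
  have hnorm : HasFDerivAt (fun y : E n => ‖y‖) (innerSL ℝ (s : E n)) x := by
    have h1 := (hasStrictFDerivAt_norm_sq x).hasFDerivAt
    have h2 : HasFDerivAt (fun y : E n => Real.sqrt (‖y‖ ^ 2)) _ x :=
      h1.sqrt (by rw [hxn]; exact pow_ne_zero _ hr.1.ne')
    have h3 : (fun y : E n => Real.sqrt (‖y‖ ^ 2)) = fun y => ‖y‖ := by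
      funext y; exact Real.sqrt_sq (norm_nonneg y)
    rw [h3] at h2
    have e : innerSL ℝ (s : E n) = (1 / (2 * Real.sqrt (‖x‖ ^ 2))) • (2 • innerSL ℝ x) := by
      rw [Real.sqrt_sq (norm_nonneg _), hxn]
      ext v
      rw [_root_.smul_apply, _root_.smul_apply, innerSL_apply_apply, innerSL_apply_apply, hx,
        inner_smul_left, smul_eq_mul, nsmul_eq_mul]
      have := hr.1.ne'
      simp only [conj_trivial]
      push_cast
      field_simp
    rw [e]
    exact h2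
  have hfd : HasFDerivAt (fun y : E n => ∑ a, Ψ a ‖y‖ * ev (H a) y)
      (∑ a, (Ψ a r • (∑ i, ev (MvPolynomial.pderiv i (H a)) x •
        (EuclideanSpace.proj i : E n →L[ℝ] ℝ)) +
        ev (H a) x • (deriv (Ψ a) r • innerSL ℝ (s : E n)))) x := by
    refine HasFDerivAt.fun_sum fun a _ => ?_
    have h1 : HasDerivAt (Ψ a) (deriv (Ψ a) r) ‖x‖ := by
      rw [hxn]; exact (hdiff a).hasDerivAt
    have h2 := h1.comp_hasFDerivAt x hnorm
    have h3 := h2.mul (hasFDerivAt_ev (H a) x)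
    simp only [Function.comp_apply, hxn] at h3
    exact h3
  have h4 : (gradient (fun y : E n => ∑ a, Ψ a ‖y‖ * ev (H a) y) x) i =
      fderiv ℝ (fun y : E n => ∑ a, Ψ a ‖y‖ * ev (H a) y) x (EuclideanSpace.single i 1) := by
    have h5 : ⟪gradient (fun y : E n => ∑ a, Ψ a ‖y‖ * ev (H a) y) x,
        EuclideanSpace.single i (1 : ℝ)⟫ =
        fderiv ℝ (fun y : E n => ∑ a, Ψ a ‖y‖ * ev (H a) y) x (EuclideanSpace.single i 1) := by
      unfold gradient
      rw [InnerProductSpace.toDual_symm_apply]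
    rw [← h5, EuclideanSpace.inner_single_right]
    simp
  rw [h4, hfd.fderiv]
  simp only [_root_.sum_apply, _root_.add_apply, _root_.smul_apply, smul_eq_mul,
    innerSL_apply_apply, EuclideanSpace.inner_single_right, PiLp.proj_apply, PiLp.single_apply]
  refine Finset.sum_congr rfl fun a _ => ?_
  simp
  ring

/-- pointwise square of the gradient -/
lemma form_grad_sq (l : ι → ℕ) (Ψ : ι → ℝ → ℝ)
    (H : ι → MvPolynomial (Fin n) ℝ) (hH : ∀ a, H a ∈ Harm n (l a))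
    {r : ℝ} (hr : r ∈ Ioo (0 : ℝ) 1) (hdiff : ∀ a, DifferentiableAt ℝ (Ψ a) r)
    (s : Metric.sphere (0 : E n) 1) :
    ‖gradient (fun y : E n => ∑ a, Ψ a ‖y‖ * ev (H a) y) (r • (s : E n))‖ ^ 2 =
      ∑ a, ∑ b, (((deriv (Ψ a) r * deriv (Ψ b) r + deriv (Ψ a) r * Ψ b r * (l b / r)
          + Ψ a r * deriv (Ψ b) r * (l a / r)) * r ^ (l a + l b)) * (ev (H a) s * ev (H b) s)
        + (Ψ a r * Ψ b r * r ^ (l a - 1 + (l b - 1))) *
        ∑ i, ev (MvPolynomial.pderiv i (H a)) s * ev (MvPolynomial.pderiv i (H b)) s) := by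
  have hr0 : r ≠ 0 := hr.1.ne'
  rw [EuclideanSpace.norm_sq_eq]
  simp only [form_grad Ψ H hr hdiff s, Real.norm_eq_abs, sq_abs]
  have hs1 : ∑ i, (s : E n) i * (s : E n) i = 1 := by
    have h1 := norm_eq_of_mem_sphere s
    have h2 : ‖(s : E n)‖ ^ 2 = 1 := by rw [h1, one_pow]
    rw [EuclideanSpace.norm_sq_eq] at h2
    simp only [Real.norm_eq_abs, sq_abs] at h2
    refine Eq.trans ?_ h2
    exact Finset.sum_congr rfl fun i _ => (sq _).symm
  have hs2 : ∀ a, ∑ i, (s : E n) i * ev (MvPolynomial.pderiv i (H a)) (r • (s : E n)) =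
      l a / r * ev (H a) (r • (s : E n)) := by
    intro a
    have h1 := euler (form_hom (hH a)) (r • (s : E n))
    simp only [PiLp.smul_apply, smul_eq_mul, mul_assoc] at h1
    rw [← Finset.mul_sum] at h1
    field_simp
    linarith
  have h3 : ∀ i, (∑ a, (deriv (Ψ a) r * ev (H a) (r • (s : E n)) * (s : E n) i
        + Ψ a r * ev (MvPolynomial.pderiv i (H a)) (r • (s : E n)))) ^ 2 =
      ∑ a, ∑ b, (deriv (Ψ a) r * ev (H a) (r • (s : E n)) * (s : E n) i
        + Ψ a r * ev (MvPolynomial.pderiv i (H a)) (r • (s : E n))) *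
        (deriv (Ψ b) r * ev (H b) (r • (s : E n)) * (s : E n) i
        + Ψ b r * ev (MvPolynomial.pderiv i (H b)) (r • (s : E n))) := by
    intro i
    rw [sq, Finset.sum_mul_sum]
  simp only [h3]
  rw [Finset.sum_comm]
  refine Finset.sum_congr rfl fun a _ => ?_
  rw [Finset.sum_comm]
  refine Finset.sum_congr rfl fun b _ => ?_
  have h4 : ∀ i, (deriv (Ψ a) r * ev (H a) (r • (s : E n)) * (s : E n) i
        + Ψ a r * ev (MvPolynomial.pderiv i (H a)) (r • (s : E n))) *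
        (deriv (Ψ b) r * ev (H b) (r • (s : E n)) * (s : E n) i
        + Ψ b r * ev (MvPolynomial.pderiv i (H b)) (r • (s : E n))) =
      deriv (Ψ a) r * deriv (Ψ b) r * ev (H a) (r • (s : E n)) * ev (H b) (r • (s : E n)) *
          ((s : E n) i * (s : E n) i)
        + deriv (Ψ a) r * Ψ b r * ev (H a) (r • (s : E n)) *
          ((s : E n) i * ev (MvPolynomial.pderiv i (H b)) (r • (s : E n)))
        + Ψ a r * deriv (Ψ b) r * ev (H b) (r • (s : E n)) *
          ((s : E n) i * ev (MvPolynomial.pderiv i (H a)) (r • (s : E n)))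
        + Ψ a r * Ψ b r * (ev (MvPolynomial.pderiv i (H a)) (r • (s : E n)) *
          ev (MvPolynomial.pderiv i (H b)) (r • (s : E n))) := by
    intro i; ring
  simp only [h4, Finset.sum_add_distrib]
  rw [← Finset.mul_sum, ← Finset.mul_sum, ← Finset.mul_sum, ← Finset.mul_sum, hs1, hs2 a, hs2 b]
  simp only [form_ev_pderiv (hH a), form_ev_pderiv (hH b), ev_smul (form_hom (hH a)),
    ev_smul (form_hom (hH b))]
  have h5 : ∑ i, r ^ (l a - 1) * ev (MvPolynomial.pderiv i (H a)) s *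
      (r ^ (l b - 1) * ev (MvPolynomial.pderiv i (H b)) s) =
      r ^ (l a - 1 + (l b - 1)) *
      ∑ i, ev (MvPolynomial.pderiv i (H a)) s * ev (MvPolynomial.pderiv i (H b)) s := by
    rw [Finset.mul_sum, pow_add]
    refine Finset.sum_congr rfl fun i _ => ?_
    ring
  rw [h5, pow_add r (l a) (l b)]
  ring

/-- energy on the sphere of radius `r` -/
lemma form_energy (hn : 3 ≤ n) (l : ι → ℕ) (Ψ : ι → ℝ → ℝ)
    (H : ι → MvPolynomial (Fin n) ℝ) (hΨ : ∀ a, Continuous (Ψ a)) (hH : ∀ a, H a ∈ Harm n (l a))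
    (hd : ∀ a b, a ≠ b → l a = l b → ∀ r ∈ Ioo (0 : ℝ) 1, Ψ a r = 0 ∨ Ψ b r = 0)
    {r : ℝ} (hr : r ∈ Ioo (0 : ℝ) 1) (hdiff : ∀ a, DifferentiableAt ℝ (Ψ a) r) :
    r ^ (n - 1) * ∫ s : Metric.sphere (0 : E n) 1,
      ‖gradient (fun y : E n => ∑ a, Ψ a ‖y‖ * ev (H a) y) (r • (s : E n))‖ ^ 2 ∂(sph n) =
    ∑ a, (∫ s, ev (H a) s ^ 2 ∂(sph n)) * (deriv (Ψ a) r ^ 2 * r ^ (2 * l a + n - 1)
      + 2 * l a * (Ψ a r * deriv (Ψ a) r) * r ^ (2 * l a + n - 2)
      + l a * (2 * l a + n - 2) * Ψ a r ^ 2 * r ^ (2 * l a + n - 3)) := by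
  simp only [form_grad_sq l Ψ H hH hr hdiff]
  rw [form_quad hn l H hH (fun a b => (deriv (Ψ a) r * deriv (Ψ b) r +
      deriv (Ψ a) r * Ψ b r * (l b / r) + Ψ a r * deriv (Ψ b) r * (l a / r)) * r ^ (l a + l b))
      (fun a b => Ψ a r * Ψ b r * r ^ (l a - 1 + (l b - 1))) ?_ ?_, Finset.mul_sum]
  · refine Finset.sum_congr rfl fun a _ => ?_
    have hr0 : r ≠ 0 := hr.1.ne'
    have e1 : r ^ (2 * l a + n - 1) = r ^ (n - 1) * r ^ (l a + l a) := by
      rw [← pow_add]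
      congr 1
      omega
    have e2 : r ^ (n - 1) * r ^ (l a + l a) / r = r ^ (2 * l a + n - 2) := by
      rw [← e1, div_eq_iff hr0, ← pow_succ]
      congr 1
      omega
    have e3 : (l a : ℝ) * (r ^ (n - 1) * r ^ (l a - 1 + (l a - 1))) =
        l a * r ^ (2 * l a + n - 3) := by
      rcases Nat.eq_zero_or_pos (l a) with h0 | h0
      · rw [h0]; simp
      · rw [← pow_add]
        congr 2
        omega
    have e4 : r ^ (n - 1) * (((deriv (Ψ a) r * deriv (Ψ a) r + deriv (Ψ a) r * Ψ a r * (l a / r)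
        + Ψ a r * deriv (Ψ a) r * (l a / r)) * r ^ (l a + l a)
        + Ψ a r * Ψ a r * r ^ (l a - 1 + (l a - 1)) * (l a * (2 * l a + n - 2))) *
        ∫ s, ev (H a) s ^ 2 ∂(sph n)) =
        (∫ s, ev (H a) s ^ 2 ∂(sph n)) * (deriv (Ψ a) r ^ 2 * (r ^ (n - 1) * r ^ (l a + l a))
        + 2 * l a * (Ψ a r * deriv (Ψ a) r) * (r ^ (n - 1) * r ^ (l a + l a) / r)
        + (2 * l a + n - 2) * Ψ a r ^ 2 *
          (l a * (r ^ (n - 1) * r ^ (l a - 1 + (l a - 1))))) := by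
      field_simp
      ring
    rw [e4, e2, e3, ← e1]
    ring
  · intro a b hab hl
    obtain ⟨h1, h2, h3, h4⟩ := form_disj (hΨ a) (hΨ b) (hd a b hab hl) hr
    rw [h4, h2, h3]
    ring
  · intro a b hab hl
    obtain ⟨h1, h2, h3, h4⟩ := form_disj (hΨ a) (hΨ b) (hd a b hab hl) hr
    rw [h1]
    ring

end sphere

/-! ### The form on the ball -/

lemma form_lip_sum {X ι : Type*} [PseudoEMetricSpace X] (t : Finset ι) (f : ι → X → ℝ)
    (C : ι → ℝ≥0) (h : ∀ a, LipschitzWith (C a) (f a)) :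
    LipschitzWith (∑ a ∈ t, C a) (fun x => ∑ a ∈ t, f a x) := by
  classical
  induction t using Finset.induction_on with
  | empty =>
    simp only [Finset.sum_empty]
    exact LipschitzWith.const 0
  | insert a t ha ih =>
    simp only [Finset.sum_insert ha]
    exact (h a).add ih

lemma form_deriv_bdd {Ψ : ℝ → ℝ} {C : ℝ≥0} (h : LipschitzWith C Ψ) (r : ℝ) : |deriv Ψ r| ≤ C := by
  have := norm_deriv_le_of_lipschitz (x₀ := r) h
  rwa [Real.norm_eq_abs] at this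

lemma form_int {F : ℝ → ℝ} (hm : Measurable F) {C : ℝ} (hC : ∀ r ∈ Ioo (0 : ℝ) 1, |F r| ≤ C) :
    IntegrableOn F (Ioo (0 : ℝ) 1) := by
  refine Integrable.mono' (g := fun _ => C) ?_ hm.aestronglyMeasurable ?_
  · exact integrableOn_const (by simp) (by simp)
  · filter_upwards [ae_restrict_mem measurableSet_Ioo] with r hr
    rw [Real.norm_eq_abs]
    exact hC r hr

theorem form_eq {n : ℕ} (hn : 3 ≤ n) {ι : Type} [Fintype ι] (l : ι → ℕ) (Ψ : ι → ℝ → ℝ)
    (H : ι → MvPolynomial (Fin n) ℝ) (hΨ : ∀ a, Rad (Ψ a)) (hH : ∀ a, H a ∈ Harm n (l a))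
    (hd : ∀ a b, a ≠ b → l a = l b → ∀ r ∈ Ioo (0 : ℝ) 1, Ψ a r = 0 ∨ Ψ b r = 0) (lam : ℝ) :
    (∫ x in Metric.ball (0 : E n) 1,
        ‖gradient (fun y : E n => ∑ a, Ψ a ‖y‖ * ev (H a) y) x‖ ^ 2)
      - lam ^ 2 * (∫ x in Metric.ball (0 : E n) 1, (∑ a, Ψ a ‖x‖ * ev (H a) x) ^ 2) =
      ∑ a, (∫ s, ev (H a) s ^ 2 ∂(sph n)) * qf n (l a) lam (Ψ a) := by
  choose C hC using fun a => (hΨ a).lip
  have hcont : ∀ a, Continuous (Ψ a) := fun a => (hC a).continuous
  -- the function U is Lipschitz with compact support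
  set U : E n → ℝ := fun y => ∑ a, Ψ a ‖y‖ * ev (H a) y with hU
  have hlipU : ∃ K : ℝ≥0, LipschitzWith K U := by
    choose K hK using fun a => lip_trial (hΨ a) (H a)
    refine ⟨∑ a, K a, ?_⟩
    rw [hU]
    exact form_lip_sum Finset.univ _ K hK
  obtain ⟨K, hK⟩ := hlipU
  have hcU : Continuous U := hK.continuous
  have hfinB : volume (Metric.ball (0 : E n) 1) ≠ ⊤ := measure_ball_lt_top.ne
  have hgb : ∀ x, ‖gradient U x‖ ≤ K := by
    intro x
    unfold gradient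
    rw [LinearIsometryEquiv.norm_map]
    exact norm_fderiv_le_of_lipschitz ℝ hK
  have hgm : Measurable (gradient U) := by
    unfold gradient
    exact (LinearIsometryEquiv.continuous _).measurable.comp (measurable_fderiv ℝ U)
  have hI1 : IntegrableOn (fun x => ‖gradient U x‖ ^ 2) (Metric.ball (0 : E n) 1) := by
    refine Integrable.mono' (g := fun _ => (K : ℝ) ^ 2) ?_
      (hgm.norm.pow_const 2).aestronglyMeasurable ?_
    · exact integrableOn_const hfinB (by simp)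
    · filter_upwards with x
      rw [norm_pow, norm_norm]
      exact pow_le_pow_left₀ (norm_nonneg _) (hgb x) 2
  have hI2 : IntegrableOn (fun x => U x ^ 2) (Metric.ball (0 : E n) 1) := by
    have h1 : IntegrableOn (fun x => U x ^ 2) (Metric.closedBall (0 : E n) 1) :=
      (hcU.pow 2).continuousOn.integrableOn_compact (isCompact_closedBall 0 1)
    exact h1.mono_set Metric.ball_subset_closedBall
  have hp1 := polar hn hI1
  have hp2 := polar hn hI2
  rw [hp1, hp2]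
  -- the radial integrals
  have hdiffae : ∀ᵐ r ∂(volume : Measure ℝ), ∀ a, DifferentiableAt ℝ (Ψ a) r :=
    ae_all_iff.2 fun a => (hC a).ae_differentiableAt
  have hR1 : ∫ r in Ioo (0 : ℝ) 1, r ^ (n - 1) *
      ∫ s, ‖gradient U (r • (s : E n))‖ ^ 2 ∂(sph n) =
      ∫ r in Ioo (0 : ℝ) 1, ∑ a, (∫ s, ev (H a) s ^ 2 ∂(sph n)) *
        (deriv (Ψ a) r ^ 2 * r ^ (2 * l a + n - 1)
      + 2 * l a * (Ψ a r * deriv (Ψ a) r) * r ^ (2 * l a + n - 2)
      + l a * (2 * l a + n - 2) * Ψ a r ^ 2 * r ^ (2 * l a + n - 3)) := by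
    refine setIntegral_congr_ae measurableSet_Ioo ?_
    filter_upwards [hdiffae] with r hr hr'
    exact form_energy hn l Ψ H hcont hH hd hr' hr
  have hR2 : ∫ r in Ioo (0 : ℝ) 1, r ^ (n - 1) *
      ∫ s, U (r • (s : E n)) ^ 2 ∂(sph n) =
      ∫ r in Ioo (0 : ℝ) 1, ∑ a, (∫ s, ev (H a) s ^ 2 ∂(sph n)) *
        (Ψ a r ^ 2 * r ^ (2 * l a + n - 1)) := by
    refine setIntegral_congr_fun measurableSet_Ioo fun r hr => ?_
    exact form_mass hn l Ψ H hH hd hr
  rw [hR1, hR2]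
  -- integrability of the pieces
  have hb : ∀ a, ∃ M : ℝ, 0 ≤ M ∧ ∀ r ∈ Ioo (0 : ℝ) 1, |Ψ a r| ≤ M := by
    intro a
    obtain ⟨M, hM⟩ := isCompact_Icc.exists_bound_of_continuousOn
      (hcont a).continuousOn (s := Icc (0 : ℝ) 1)
    refine ⟨|M|, abs_nonneg _, fun r hr => ?_⟩
    have := hM r ⟨hr.1.le, hr.2.le⟩
    rw [Real.norm_eq_abs] at this
    exact this.trans (le_abs_self _)
  choose M hM0 hM using hb
  have hpw : ∀ (k : ℕ) (r : ℝ), r ∈ Ioo (0 : ℝ) 1 → |r ^ k| ≤ 1 := by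
    intro k r hr
    rw [abs_pow, abs_of_pos hr.1]
    exact pow_le_one₀ hr.1.le hr.2.le
  have hmul : ∀ {x y X Y : ℝ}, |x| ≤ X → |y| ≤ Y → |x * y| ≤ X * Y := by
    intro x y X Y hx hy
    rw [abs_mul]
    exact mul_le_mul hx hy (abs_nonneg _) ((abs_nonneg _).trans hx)
  have hmd : ∀ a, Measurable (deriv (Ψ a)) := fun a => measurable_deriv (Ψ a)
  have hmc : ∀ a, Measurable (Ψ a) := fun a => (hcont a).measurable
  have j1 : ∀ a, IntegrableOn (fun r => deriv (Ψ a) r ^ 2 * r ^ (2 * l a + n - 1))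
      (Ioo (0 : ℝ) 1) := by
    intro a
    refine form_int (((hmd a).pow_const 2).mul (measurable_id.pow_const _))
      (C := (C a) ^ 2 * 1) fun r hr => hmul ?_ (hpw _ r hr)
    rw [abs_pow]
    exact pow_le_pow_left₀ (abs_nonneg _) (form_deriv_bdd (hC a) r) 2
  have j2 : ∀ a, IntegrableOn (fun r => 2 * l a * (Ψ a r * deriv (Ψ a) r) *
      r ^ (2 * l a + n - 2)) (Ioo (0 : ℝ) 1) := by
    intro a
    refine form_int ((((hmc a).mul (hmd a)).const_mul _).mul (measurable_id.pow_const _))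
      (C := |2 * (l a : ℝ)| * (M a * C a) * 1) fun r hr => hmul (hmul le_rfl
        (hmul (hM a r hr) (form_deriv_bdd (hC a) r))) (hpw _ r hr)
  have j3 : ∀ a, IntegrableOn (fun r => l a * (2 * l a + n - 2) * Ψ a r ^ 2 *
      r ^ (2 * l a + n - 3)) (Ioo (0 : ℝ) 1) := by
    intro a
    refine form_int ((((hmc a).pow_const 2).const_mul _).mul (measurable_id.pow_const _))
      (C := |(l a : ℝ) * (2 * l a + n - 2)| * (M a) ^ 2 * 1) fun r hr => hmul (hmul le_rfl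
        ?_) (hpw _ r hr)
    rw [abs_pow]
    exact pow_le_pow_left₀ (abs_nonneg _) (hM a r hr) 2
  have j4 : ∀ a, IntegrableOn (fun r => Ψ a r ^ 2 * r ^ (2 * l a + n - 1))
      (Ioo (0 : ℝ) 1) := by
    intro a
    refine form_int (((hmc a).pow_const 2).mul (measurable_id.pow_const _))
      (C := (M a) ^ 2 * 1) fun r hr => hmul ?_ (hpw _ r hr)
    rw [abs_pow]
    exact pow_le_pow_left₀ (abs_nonneg _) (hM a r hr) 2
  have j123 : ∀ a, IntegrableOn (fun r => deriv (Ψ a) r ^ 2 * r ^ (2 * l a + n - 1)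
      + 2 * l a * (Ψ a r * deriv (Ψ a) r) * r ^ (2 * l a + n - 2)
      + l a * (2 * l a + n - 2) * Ψ a r ^ 2 * r ^ (2 * l a + n - 3)) (Ioo (0 : ℝ) 1) :=
    fun a => ((j1 a).add (j2 a)).add (j3 a)
  rw [integral_finsetSum _ fun a _ => (j123 a).const_mul _,
    integral_finsetSum _ fun a _ => (j4 a).const_mul _, Finset.mul_sum, ← Finset.sum_sub_distrib]
  refine Finset.sum_congr rfl fun a _ => ?_
  rw [integral_const_mul, integral_const_mul]
  have hq : qf n (l a) lam (Ψ a) =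
      (∫ r in Ioo (0 : ℝ) 1, (deriv (Ψ a) r ^ 2 * r ^ (2 * l a + n - 1)
      + 2 * l a * (Ψ a r * deriv (Ψ a) r) * r ^ (2 * l a + n - 2)
      + l a * (2 * l a + n - 2) * Ψ a r ^ 2 * r ^ (2 * l a + n - 3)))
      - lam ^ 2 * ∫ r in Ioo (0 : ℝ) 1, Ψ a r ^ 2 * r ^ (2 * l a + n - 1) := by
    rw [← integral_const_mul, ← integral_sub (j123 a) ((j4 a).const_mul _)]
    unfold qf
    refine integral_congr_ae (Eventually.of_forall fun r => ?_)
    simp only
    ring
  rw [hq]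
  ring

end Pool.Agent.PB86
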