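import Pool.Agent.PB86.Defs

/-!
# Orthogonality and gradient identity of harmonic polynomials on the sphere
-/

set_option autoImplicit false

open MeasureTheory Set Filter Topology
open scoped NNReal RealInnerProductSpace

namespace Pool.Agent.PB86

open Pool.Agent.H51.Neumann (E IsH1 IsNeumannSpectrum)
open MvPolynomial

section aux

variable {n : ℕ}

theorem HarmOrth_ev_add (p q : MvPolynomial (Fin n) ℝ) (x : E n) :
    ev (p + q) x = ev p x + ev q x := by simp [ev]

theorem HarmOrth_ev_sub (p q : MvPolynomial (Fin n) ℝ) (x : E n) :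
    ev (p - q) x = ev p x - ev q x := by simp [ev]

theorem HarmOrth_ev_mul (p q : MvPolynomial (Fin n) ℝ) (x : E n) :
    ev (p * q) x = ev p x * ev q x := by simp [ev]

theorem HarmOrth_ev_X (i : Fin n) (x : E n) : ev (X i) x = x i := by simp [ev]

theorem HarmOrth_ev_C (a : ℝ) (x : E n) : ev (C a) x = a := by simp [ev]

theorem HarmOrth_ev_zero (x : E n) : ev 0 x = 0 := by simp [ev]

theorem HarmOrth_ev_sum {ι : Type} (s : Finset ι) (p : ι → MvPolynomial (Fin n) ℝ) (x : E n) :
    ev (∑ i ∈ s, p i) x = ∑ i ∈ s, ev (p i) x := by simp [ev]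

/-- the derivative of a polynomial function -/
noncomputable def HarmOrth_dev (p : MvPolynomial (Fin n) ℝ) (x : E n) : E n →L[ℝ] ℝ :=
  ∑ i, ev (pderiv i p) x • (EuclideanSpace.proj i : E n →L[ℝ] ℝ)

theorem HarmOrth_hasFDerivAt (p : MvPolynomial (Fin n) ℝ) (x : E n) :
    HasFDerivAt (ev p) (HarmOrth_dev p x) x := by
  induction p using MvPolynomial.induction_on with
  | C a =>
    have h1 : ev (n := n) (C a) = fun _ => a := by ext y; simp [ev]
    have h2 : HarmOrth_dev (C a) x = 0 := by simp [HarmOrth_dev, ev]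
    rw [h1, h2]
    exact hasFDerivAt_const a x
  | add p q hp hq =>
    have h1 : ev (p + q) = fun y => ev p y + ev q y := by ext y; simp [ev]
    have h2 : HarmOrth_dev (p + q) x = HarmOrth_dev p x + HarmOrth_dev q x := by
      simp only [HarmOrth_dev, map_add, HarmOrth_ev_add, add_smul, Finset.sum_add_distrib]
    rw [h1, h2]
    exact hp.add hq
  | mul_X p i hp =>
    have h1 : ev (p * X i) = fun y => ev p y * (EuclideanSpace.proj i : E n →L[ℝ] ℝ) y := by
      ext y; simp [ev]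
    have h2 : HarmOrth_dev (p * X i) x = ev p x • (EuclideanSpace.proj i : E n →L[ℝ] ℝ) +
        ((EuclideanSpace.proj i : E n →L[ℝ] ℝ) x) • HarmOrth_dev p x := by
      simp only [HarmOrth_dev, Derivation.leibniz, smul_eq_mul, HarmOrth_ev_add, HarmOrth_ev_mul, HarmOrth_ev_X,
        add_smul, Finset.sum_add_distrib, Finset.smul_sum, smul_smul]
      congr 1
      rw [Finset.sum_eq_single i]
      · simp [ev]
      · intro j _ hj
        rw [pderiv_X_of_ne (Ne.symm hj), HarmOrth_ev_zero, mul_zero, zero_smul]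
      · intro h; exact absurd (Finset.mem_univ i) h
    rw [h1, h2]
    exact hp.mul (EuclideanSpace.proj i : E n →L[ℝ] ℝ).hasFDerivAt

theorem HarmOrth_fderiv (p : MvPolynomial (Fin n) ℝ) (x : E n) (i : Fin n) :
    fderiv ℝ (ev p) x (EuclideanSpace.single i 1) = ev (pderiv i p) x := by
  rw [(HarmOrth_hasFDerivAt p x).fderiv, HarmOrth_dev]
  simp only [_root_.sum_apply, _root_.smul_apply, PiLp.proj_apply,
    smul_eq_mul, PiLp.single_apply]
  simp

theorem HarmOrth_continuous (p : MvPolynomial (Fin n) ℝ) : Continuous (ev p) :=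
  continuous_iff_continuousAt.mpr fun x => (HarmOrth_hasFDerivAt p x).continuousAt

/-- the Gaussian -/
noncomputable def HarmOrth_g (x : E n) : ℝ := Real.exp (-(‖x‖ ^ 2) / 2)

theorem HarmOrth_g_hasFDerivAt (x : E n) :
    HasFDerivAt HarmOrth_g (HarmOrth_g x • (-(1 / 2 : ℝ)) • ((2 : ℝ) • innerSL ℝ x)) x := by
  have h1 : HasFDerivAt (fun y : E n => ‖y‖ ^ 2) ((2 : ℝ) • innerSL ℝ x) x := by
    have h0 := (hasStrictFDerivAt_norm_sq x).hasFDerivAt
    have e : (2 : ℝ) • innerSL ℝ x = (2 : ℕ) • innerSL ℝ x := by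
      rw [← Nat.cast_smul_eq_nsmul ℝ]; norm_num
    rw [e]
    exact h0
  have h2 : HasFDerivAt (fun y : E n => -(1 / 2 : ℝ) • ‖y‖ ^ 2)
      ((-(1 / 2 : ℝ)) • ((2 : ℝ) • innerSL ℝ x)) x := h1.const_smul (-(1 / 2 : ℝ))
  have h3 := h2.exp
  have h4 : HarmOrth_g = fun y : E n => Real.exp (-(1 / 2 : ℝ) • ‖y‖ ^ 2) := by
    ext y
    unfold HarmOrth_g
    congr 1
    simp only [smul_eq_mul]
    ring
  rw [h4]
  exact h3

theorem HarmOrth_g_fderiv (x : E n) (i : Fin n) :
    fderiv ℝ HarmOrth_g x (EuclideanSpace.single i 1) = -(x i * HarmOrth_g x) := by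
  rw [(HarmOrth_g_hasFDerivAt x).fderiv]
  simp only [_root_.smul_apply, innerSL_apply_apply, smul_eq_mul]
  have : inner ℝ x (EuclideanSpace.single i (1 : ℝ)) = x i := by
    rw [EuclideanSpace.inner_single_right]
    simp
  rw [this]
  ring

theorem HarmOrth_g_pos (x : E n) : 0 < HarmOrth_g x := Real.exp_pos _

theorem HarmOrth_g_continuous : Continuous (HarmOrth_g (n := n)) :=
  continuous_iff_continuousAt.mpr fun x => (HarmOrth_g_hasFDerivAt x).continuousAt


variable [NeZero n]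

instance HarmOrth_nontrivial : Nontrivial (E n) := by
  have : Nonempty (Fin n) := ⟨0⟩
  infer_instance

theorem HarmOrth_int_norm (k : ℕ) : Integrable (fun x : E n => ‖x‖ ^ k * HarmOrth_g x) := by
  have h1 := (integrable_fun_norm_addHaar (E := E n) (volume : Measure (E n))
    (f := fun r : ℝ => r ^ k * Real.exp (-(r ^ 2) / 2))).mpr
  apply h1
  have h2 := (integrable_rpow_mul_exp_neg_mul_sq (b := 1 / 2) (by norm_num)
    (s := ((k + (n - 1) : ℕ) : ℝ)) (lt_of_lt_of_le (by norm_num) (Nat.cast_nonneg _))).integrableOn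
    (s := Ioi 0)
  refine h2.congr_fun ?_ measurableSet_Ioi
  intro y _
  have hd : Module.finrank ℝ (E n) - 1 = n - 1 := by simp
  simp only [hd, smul_eq_mul, Real.rpow_natCast]
  rw [← mul_assoc, ← pow_add, add_comm (n - 1) k]
  congr 2
  ring

theorem HarmOrth_integrable (p : MvPolynomial (Fin n) ℝ) :
    Integrable (fun x : E n => ev p x * HarmOrth_g x) := by
  induction p using MvPolynomial.induction_on' with
  | monomial u a =>
    refine ((HarmOrth_int_norm (∑ i, u i)).const_mul |a|).mono'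
      ((HarmOrth_continuous _).mul HarmOrth_g_continuous).aestronglyMeasurable ?_
    filter_upwards with x
    rw [norm_mul, Real.norm_eq_abs, Real.norm_eq_abs, abs_of_pos (HarmOrth_g_pos x), ← mul_assoc]
    apply mul_le_mul_of_nonneg_right _ (HarmOrth_g_pos x).le
    unfold ev
    rw [eval_monomial, abs_mul]
    apply mul_le_mul_of_nonneg_left _ (abs_nonneg a)
    rw [Finsupp.prod_fintype _ _ (by simp), Finset.abs_prod, ← Finset.prod_pow_eq_pow_sum]
    apply Finset.prod_le_prod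
    · intro i _; positivity
    · intro i _
      rw [abs_pow]
      have h1 : |x i| ≤ ‖x‖ := by
        have := PiLp.norm_apply_le x i
        simpa using this
      exact pow_le_pow_left₀ (abs_nonneg _) h1 _
  | add p q hp hq =>
    have : (fun x : E n => ev (p + q) x * HarmOrth_g x) =
        fun x => ev p x * HarmOrth_g x + ev q x * HarmOrth_g x := by
      ext x; rw [HarmOrth_ev_add, add_mul]
    rw [this]
    exact hp.add hq

/-- Gaussian integral of a polynomial -/
noncomputable def HarmOrth_G (p : MvPolynomial (Fin n) ℝ) : ℝ := ∫ x : E n, ev p x * HarmOrth_g x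

theorem HarmOrth_G_add (p q : MvPolynomial (Fin n) ℝ) : HarmOrth_G (p + q) = HarmOrth_G p + HarmOrth_G q := by
  unfold HarmOrth_G
  rw [← integral_add (HarmOrth_integrable p) (HarmOrth_integrable q)]
  congr 1
  ext x
  rw [HarmOrth_ev_add, add_mul]

theorem HarmOrth_G_sub (p q : MvPolynomial (Fin n) ℝ) : HarmOrth_G (p - q) = HarmOrth_G p - HarmOrth_G q := by
  unfold HarmOrth_G
  rw [← integral_sub (HarmOrth_integrable p) (HarmOrth_integrable q)]
  congr 1
  ext x
  rw [HarmOrth_ev_sub, sub_mul]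

theorem HarmOrth_G_sum {ι : Type} (s : Finset ι) (p : ι → MvPolynomial (Fin n) ℝ) :
    HarmOrth_G (∑ i ∈ s, p i) = ∑ i ∈ s, HarmOrth_G (p i) := by
  unfold HarmOrth_G
  rw [← integral_finsetSum _ (fun i _ => HarmOrth_integrable (p i))]
  congr 1
  ext x
  rw [HarmOrth_ev_sum, Finset.sum_mul]

theorem HarmOrth_G_smul (a : ℝ) (p : MvPolynomial (Fin n) ℝ) : HarmOrth_G (C a * p) = a * HarmOrth_G p := by
  unfold HarmOrth_G
  rw [← integral_const_mul]
  congr 1
  ext x
  rw [HarmOrth_ev_mul, HarmOrth_ev_C, mul_assoc]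

theorem HarmOrth_G_zero : HarmOrth_G (0 : MvPolynomial (Fin n) ℝ) = 0 := by
  unfold HarmOrth_G
  simp [HarmOrth_ev_zero]

theorem HarmOrth_G_X (i : Fin n) (p : MvPolynomial (Fin n) ℝ) :
    HarmOrth_G (X i * p) = HarmOrth_G (pderiv i p) := by
  have h1 := integral_mul_fderiv_eq_neg_fderiv_mul_of_integrable (μ := (volume : Measure (E n)))
    (f := ev p) (g := HarmOrth_g) (v := EuclideanSpace.single i 1)
    (by
      have := HarmOrth_integrable (pderiv i p)
      simpa only [HarmOrth_fderiv] using this)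
    (by
      have := (HarmOrth_integrable (X i * p)).neg
      refine this.congr (Filter.Eventually.of_forall fun x => ?_)
      simp only [HarmOrth_g_fderiv, HarmOrth_ev_mul, HarmOrth_ev_X, Pi.neg_apply]
      ring)
    (HarmOrth_integrable p)
    (fun x _ => (HarmOrth_hasFDerivAt p x).differentiableAt)
    (fun x _ => (HarmOrth_g_hasFDerivAt x).differentiableAt)
  simp only [HarmOrth_fderiv, HarmOrth_g_fderiv] at h1
  unfold HarmOrth_G
  have h2 : ∫ x : E n, ev p x * -(x i * HarmOrth_g x) = -∫ x : E n, ev (X i * p) x * HarmOrth_g x := by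
    rw [← integral_neg]
    congr 1
    ext x
    rw [HarmOrth_ev_mul, HarmOrth_ev_X]
    ring
  rw [h2] at h1
  linarith

theorem HarmOrth_G_orth {l m : ℕ} (hlm : l ≠ m) {p q : MvPolynomial (Fin n) ℝ} (hp : p ∈ Harm n l)
    (hq : q ∈ Harm n m) : HarmOrth_G (p * q) = 0 := by
  obtain ⟨hp1, hp2⟩ := Submodule.mem_inf.mp hp
  obtain ⟨hq1, hq2⟩ := Submodule.mem_inf.mp hq
  rw [mem_homogeneousSubmodule] at hp1 hq1
  rw [LinearMap.mem_ker] at hp2 hq2
  have lap : ∀ r : MvPolynomial (Fin n) ℝ, plap n r = ∑ i, pderiv i (pderiv i r) := by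
    intro r
    simp [plap]
  have h1 : ∑ i : Fin n, HarmOrth_G (X i * (p * pderiv i q - q * pderiv i p)) = 0 := by
    simp only [HarmOrth_G_X]
    rw [← HarmOrth_G_sum]
    have : ∑ i : Fin n, pderiv i (p * pderiv i q - q * pderiv i p) = p * plap n q - q * plap n p := by
      rw [lap, lap, Finset.mul_sum, Finset.mul_sum, ← Finset.sum_sub_distrib]
      apply Finset.sum_congr rfl
      intro i _
      simp only [map_sub, Derivation.leibniz, smul_eq_mul]
      ring
    rw [this, hp2, hq2]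
    simp [HarmOrth_G_zero]
  have h2 : ∑ i : Fin n, HarmOrth_G (X i * (p * pderiv i q - q * pderiv i p)) =
      ((m : ℝ) - l) * HarmOrth_G (p * q) := by
    rw [← HarmOrth_G_sum]
    have : ∑ i : Fin n, X i * (p * pderiv i q - q * pderiv i p) =
        p * ∑ i : Fin n, X i * pderiv i q - q * ∑ i : Fin n, X i * pderiv i p := by
      rw [Finset.mul_sum, Finset.mul_sum, ← Finset.sum_sub_distrib]
      apply Finset.sum_congr rfl
      intro i _
      ring
    rw [this, hp1.sum_X_mul_pderiv, hq1.sum_X_mul_pderiv]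
    have e : p * m • q - q * l • p = C ((m : ℝ) - l) * (p * q) := by
      rw [C_sub, map_natCast, map_natCast, nsmul_eq_mul, nsmul_eq_mul]
      ring
    rw [e, HarmOrth_G_smul]
  rw [h1] at h2
  have h3 : (m : ℝ) - l ≠ 0 := by
    intro h
    apply hlm
    have : (m : ℝ) = l := by linarith
    exact_mod_cast this.symm
  rcases mul_eq_zero.mp h2.symm with h | h
  · exact absurd h h3
  · exact h

/-- polar coordinates for separated functions -/
theorem HarmOrth_polar (F : E n → ℝ) (a : Metric.sphere (0 : E n) 1 → ℝ) (b : ℝ → ℝ)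
    (hF : ∀ (s : Metric.sphere (0 : E n) 1) (r : ℝ), 0 < r → F (r • (s : E n)) = a s * b r) :
    ∫ x, F x = (∫ s, a s ∂(sph n)) * ∫ r : Ioi (0 : ℝ), b r ∂(Measure.volumeIoiPow (n - 1)) := by
  have hd : Module.finrank ℝ (E n) - 1 = n - 1 := by simp
  calc ∫ x, F x = ∫ x : ({(0)}ᶜ : Set (E n)), F x ∂((volume : Measure (E n)).comap (↑)) := by
        rw [integral_subtype_comap (measurableSet_singleton _).compl F, restrict_compl_singleton]
    _ = ∫ x : ({(0)}ᶜ : Set (E n)), (fun y : Metric.sphere (0 : E n) 1 × Ioi (0 : ℝ) =>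
          a y.1 * b y.2) (homeomorphUnitSphereProd (E n) x) ∂((volume : Measure (E n)).comap (↑)) := by
        congr 1
        ext x
        have hx : (x : E n) ≠ 0 := x.2
        have h1 := hF (homeomorphUnitSphereProd (E n) x).1 (homeomorphUnitSphereProd (E n) x).2
          (homeomorphUnitSphereProd (E n) x).2.2
        change F ↑x = a (homeomorphUnitSphereProd (E n) x).1 *
          b ↑(homeomorphUnitSphereProd (E n) x).2
        rw [← h1]
        congr 1
        have hn : ‖(x : E n)‖ ≠ 0 := norm_ne_zero_iff.mpr hx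
        simp [smul_smul, hn]
    _ = ∫ y : Metric.sphere (0 : E n) 1 × Ioi (0 : ℝ), a y.1 * b y.2
          ∂((volume : Measure (E n)).toSphere.prod (Measure.volumeIoiPow (n - 1))) := by
        have := (volume : Measure (E n)).measurePreserving_homeomorphUnitSphereProd
        rw [hd] at this
        exact this.integral_comp (Homeomorph.measurableEmbedding _)
          (fun y : Metric.sphere (0 : E n) 1 × Ioi (0 : ℝ) => a y.1 * b y.2)
    _ = _ := integral_prod_mul a (fun r : Ioi (0 : ℝ) => b r)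

/-- the radial factor -/
noncomputable def HarmOrth_c (n k : ℕ) : ℝ :=
  ∫ r : Ioi (0 : ℝ), ((r : ℝ) ^ k * Real.exp (-((r : ℝ) ^ 2) / 2)) ∂(Measure.volumeIoiPow (n - 1))

theorem HarmOrth_norm_smul (s : Metric.sphere (0 : E n) 1) (r : ℝ) (hr : 0 < r) :
    ‖r • (s : E n)‖ = r := by
  rw [norm_smul, norm_eq_of_mem_sphere, mul_one, Real.norm_eq_abs, abs_of_pos hr]

theorem HarmOrth_c_ne (n : ℕ) [NeZero n] (k : ℕ) : HarmOrth_c n k ≠ 0 := by
  intro h
  have h1 := HarmOrth_polar (fun x : E n => ‖x‖ ^ k * HarmOrth_g x) (fun _ => 1)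
    (fun r => r ^ k * Real.exp (-(r ^ 2) / 2)) (by
      intro s r hr
      simp only [HarmOrth_g, HarmOrth_norm_smul s r hr, one_mul])
  have h2 : ∫ r : Ioi (0 : ℝ), ((r : ℝ) ^ k * Real.exp (-((r : ℝ) ^ 2) / 2))
      ∂(Measure.volumeIoiPow (n - 1)) = 0 := h
  rw [h2, mul_zero] at h1
  have h3 : 0 < ∫ x : E n, ‖x‖ ^ k * HarmOrth_g x := by
    rw [integral_pos_iff_support_of_nonneg _ (HarmOrth_int_norm k)]
    · have hsub : Metric.ball (EuclideanSpace.single (0 : Fin n) (1 : ℝ)) 1 ⊆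
          Function.support (fun x : E n => ‖x‖ ^ k * HarmOrth_g x) := by
        intro x hx
        rw [Function.mem_support]
        apply ne_of_gt
        apply mul_pos _ (HarmOrth_g_pos x)
        apply pow_pos
        rw [norm_pos_iff]
        rintro rfl
        rw [Metric.mem_ball, dist_zero_left] at hx
        simp at hx
      exact lt_of_lt_of_le (Metric.measure_ball_pos _ _ one_pos) (measure_mono hsub)
    · intro x
      exact mul_nonneg (pow_nonneg (norm_nonneg _) _) (HarmOrth_g_pos x).le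
  rw [h1] at h3
  exact lt_irrefl _ h3

omit [NeZero n] in
theorem HarmOrth_ev_smul {k : ℕ} {p : MvPolynomial (Fin n) ℝ} (hp : p.IsHomogeneous k) (r : ℝ)
    (x : E n) : ev p (r • x) = r ^ k * ev p x := by
  unfold ev
  rw [eval_eq', eval_eq', Finset.mul_sum]
  apply Finset.sum_congr rfl
  intro d hd
  have hdeg : ∑ i, d i = k := by
    have := hp (mem_support_iff.mp hd)
    rw [← this]
    simp [Finsupp.weight_apply, Finsupp.sum_fintype]
  simp only [PiLp.smul_apply, smul_eq_mul, mul_pow, Finset.prod_mul_distrib]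
  rw [Finset.prod_pow_eq_pow_sum, hdeg]
  ring

theorem HarmOrth_G_polar {k : ℕ} {p : MvPolynomial (Fin n) ℝ} (hp : p.IsHomogeneous k) :
    HarmOrth_G p = (∫ s, ev p s ∂(sph n)) * HarmOrth_c n k := by
  unfold HarmOrth_G
  rw [HarmOrth_polar (fun x => ev p x * HarmOrth_g x) (fun s => ev p s)
    (fun r => r ^ k * Real.exp (-(r ^ 2) / 2))]
  · rfl
  · intro s r hr
    simp only [HarmOrth_g, HarmOrth_norm_smul s r hr, HarmOrth_ev_smul hp]
    ring


/-- the square of the norm as a polynomial -/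
noncomputable def HarmOrth_N (n : ℕ) : MvPolynomial (Fin n) ℝ := ∑ i, X i * X i

theorem HarmOrth_N_hom (j : ℕ) : (HarmOrth_N n ^ j).IsHomogeneous (2 * j) := by
  have h : (HarmOrth_N n).IsHomogeneous 2 :=
    IsHomogeneous.sum _ _ _ fun i _ => (isHomogeneous_X ℝ i).mul (isHomogeneous_X ℝ i)
  have := h.pow j
  rwa [mul_comm] at this ⊢

theorem HarmOrth_ev_N (j : ℕ) (x : E n) : ev (HarmOrth_N n ^ j) x = (‖x‖ ^ 2) ^ j := by
  have h : ev (HarmOrth_N n) x = ‖x‖ ^ 2 := by
    rw [EuclideanSpace.norm_sq_eq]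
    simp only [HarmOrth_N, HarmOrth_ev_sum, HarmOrth_ev_mul, HarmOrth_ev_X]
    refine Finset.sum_congr rfl fun i _ => ?_
    rw [Real.norm_eq_abs, sq_abs, sq]
  rw [← h]
  simp [ev]

/-- `G(|x|² p) = (n + k) G(p)` for homogeneous `p` -/
theorem HarmOrth_G_N {k : ℕ} {p : MvPolynomial (Fin n) ℝ} (hp : p.IsHomogeneous k) :
    HarmOrth_G (HarmOrth_N n * p) = ((n : ℝ) + k) * HarmOrth_G p := by
  have h1 : HarmOrth_N n * p = ∑ i : Fin n, X i * (X i * p) := by
    rw [HarmOrth_N, Finset.sum_mul]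
    exact Finset.sum_congr rfl fun i _ => mul_assoc _ _ _
  rw [h1, HarmOrth_G_sum]
  simp only [HarmOrth_G_X]
  rw [← HarmOrth_G_sum]
  have h2 : ∑ i : Fin n, pderiv i (X i * p) = C ((n : ℝ) + k) * p := by
    have h3 : ∀ i : Fin n, pderiv i (X i * p) = p + X i * pderiv i p := by
      intro i
      rw [Derivation.leibniz, pderiv_X_self]
      simp only [smul_eq_mul]
      ring
    simp only [h3]
    rw [Finset.sum_add_distrib, hp.sum_X_mul_pderiv, Finset.sum_const, Finset.card_univ,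
      Fintype.card_fin, C_add, map_natCast, map_natCast, nsmul_eq_mul, nsmul_eq_mul]
    ring
  rw [h2, HarmOrth_G_smul]

theorem HarmOrth_S_one (j : ℕ) : ∫ s, ev (HarmOrth_N n ^ j) s ∂(sph n) = ∫ s, (1 : ℝ) ∂(sph n) := by
  refine integral_congr_ae (Filter.Eventually.of_forall fun s => ?_)
  simp only [HarmOrth_ev_N, norm_eq_of_mem_sphere, one_pow]

theorem HarmOrth_c_rec (j : ℕ) :
    HarmOrth_c n (2 * (j + 1)) = ((n : ℝ) + (2 * j : ℕ)) * HarmOrth_c n (2 * j) := by
  have h1 := HarmOrth_G_N (HarmOrth_N_hom (n := n) j)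
  have h2 : HarmOrth_N n * HarmOrth_N n ^ j = HarmOrth_N n ^ (j + 1) := by ring
  rw [h2, HarmOrth_G_polar (HarmOrth_N_hom j), HarmOrth_G_polar (HarmOrth_N_hom (j + 1)),
    HarmOrth_S_one, HarmOrth_S_one] at h1
  have h3 : ∫ s, (1 : ℝ) ∂(sph n) ≠ 0 := by
    intro h
    have h4 := HarmOrth_G_polar (n := n) (k := 2 * 0) (HarmOrth_N_hom 0)
    rw [HarmOrth_S_one, h, zero_mul] at h4
    have h5 : 0 < HarmOrth_G (HarmOrth_N n ^ 0) := by
      unfold HarmOrth_G
      have h6 : (fun x : E n => ev (HarmOrth_N n ^ 0) x * HarmOrth_g x) = HarmOrth_g := by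
        ext x
        rw [HarmOrth_ev_N, pow_zero, one_mul]
      rw [h6, integral_pos_iff_support_of_nonneg]
      · have hs : Function.support (HarmOrth_g (n := n)) = univ := by
          ext x
          simp only [Function.mem_support, mem_univ, iff_true]
          exact (HarmOrth_g_pos x).ne'
        rw [hs]
        exact isOpen_univ.measure_pos _ univ_nonempty
      · exact fun x => (HarmOrth_g_pos x).le
      · have := HarmOrth_integrable (HarmOrth_N n ^ 0)
        rwa [h6] at this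
    rw [h4] at h5
    exact lt_irrefl _ h5
  have h4 : (∫ s, (1 : ℝ) ∂(sph n)) * HarmOrth_c n (2 * (j + 1)) =
      (∫ s, (1 : ℝ) ∂(sph n)) * (((n : ℝ) + (2 * j : ℕ)) * HarmOrth_c n (2 * j)) := by
    rw [h1]; ring
  exact mul_left_cancel₀ h3 h4

theorem HarmOrth_G_grad {l m : ℕ} {p q : MvPolynomial (Fin n) ℝ} (hp : p ∈ Harm n l)
    (hq : q ∈ Harm n m) :
    HarmOrth_G (∑ i, pderiv i p * pderiv i q) = m * HarmOrth_G (p * q) := by
  obtain ⟨hq1, hq2⟩ := Submodule.mem_inf.mp hq
  rw [mem_homogeneousSubmodule] at hq1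
  rw [LinearMap.mem_ker] at hq2
  have lap : ∀ r : MvPolynomial (Fin n) ℝ, plap n r = ∑ i, pderiv i (pderiv i r) := by
    intro r
    simp [plap]
  have h1 : ∑ i : Fin n, HarmOrth_G (X i * (p * pderiv i q)) =
      HarmOrth_G (∑ i, pderiv i p * pderiv i q) := by
    simp only [HarmOrth_G_X]
    rw [← HarmOrth_G_sum]
    have : ∑ i : Fin n, pderiv i (p * pderiv i q) =
        p * plap n q + ∑ i, pderiv i p * pderiv i q := by
      rw [lap, Finset.mul_sum, ← Finset.sum_add_distrib]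
      apply Finset.sum_congr rfl
      intro i _
      simp only [Derivation.leibniz, smul_eq_mul]
      ring
    rw [this, hq2, mul_zero, zero_add]
  have h2 : ∑ i : Fin n, HarmOrth_G (X i * (p * pderiv i q)) = m * HarmOrth_G (p * q) := by
    rw [← HarmOrth_G_sum]
    have : ∑ i : Fin n, X i * (p * pderiv i q) = p * ∑ i : Fin n, X i * pderiv i q := by
      rw [Finset.mul_sum]
      apply Finset.sum_congr rfl
      intro i _
      ring
    rw [this, hq1.sum_X_mul_pderiv]
    have e : p * m • q = C (m : ℝ) * (p * q) := by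
      rw [map_natCast, nsmul_eq_mul]
      ring
    rw [e, HarmOrth_G_smul]
  rw [← h1, h2]

theorem HarmOrth_hom {l : ℕ} {p : MvPolynomial (Fin n) ℝ} (hp : p ∈ Harm n l) :
    p.IsHomogeneous l := by
  have hp1 := (Submodule.mem_inf.mp hp).1
  rwa [mem_homogeneousSubmodule] at hp1

theorem HarmOrth_ev_grad (p q : MvPolynomial (Fin n) ℝ) (x : E n) :
    ∑ i, ev (pderiv i p) x * ev (pderiv i q) x = ev (∑ i, pderiv i p * pderiv i q) x := by
  rw [HarmOrth_ev_sum]
  exact Finset.sum_congr rfl fun i _ => (HarmOrth_ev_mul _ _ _).symm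

theorem HarmOrth_grad_hom {l m : ℕ} {p q : MvPolynomial (Fin n) ℝ} (hp : p ∈ Harm n l)
    (hq : q ∈ Harm n m) :
    (∑ i, pderiv i p * pderiv i q).IsHomogeneous ((l - 1) + (m - 1)) :=
  IsHomogeneous.sum _ _ _ fun _ _ => (HarmOrth_hom hp).pderiv.mul (HarmOrth_hom hq).pderiv

end aux

theorem hasFDerivAt_ev {n : ℕ} (p : MvPolynomial (Fin n) ℝ) (x : E n) :
    HasFDerivAt (ev p)
      (∑ i, ev (MvPolynomial.pderiv i p) x • (EuclideanSpace.proj i : E n →L[ℝ] ℝ)) x :=
  HarmOrth_hasFDerivAt p x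

theorem continuous_ev {n : ℕ} (p : MvPolynomial (Fin n) ℝ) : Continuous (ev p) :=
  HarmOrth_continuous p

theorem ev_smul {n k : ℕ} {p : MvPolynomial (Fin n) ℝ} (hp : p.IsHomogeneous k) (r : ℝ)
    (x : E n) : ev p (r • x) = r ^ k * ev p x := HarmOrth_ev_smul hp r x

theorem euler {n k : ℕ} {p : MvPolynomial (Fin n) ℝ} (hp : p.IsHomogeneous k) (x : E n) :
    ∑ i, x i * ev (MvPolynomial.pderiv i p) x = k * ev p x := by
  have h1 := congrArg (fun r => ev r x) hp.sum_X_mul_pderiv
  simp only [HarmOrth_ev_sum, HarmOrth_ev_mul, HarmOrth_ev_X] at h1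
  rw [h1]
  simp [ev]

theorem sph_orth {n l m : ℕ} (hn : 3 ≤ n) (hlm : l ≠ m) {p q : MvPolynomial (Fin n) ℝ}
    (hp : p ∈ Harm n l) (hq : q ∈ Harm n m) : ∫ s, ev p s * ev q s ∂(sph n) = 0 := by
  have : NeZero n := ⟨by omega⟩
  have h1 := HarmOrth_G_orth hlm hp hq
  have hp1 := (Submodule.mem_inf.mp hp).1
  have hq1 := (Submodule.mem_inf.mp hq).1
  rw [mem_homogeneousSubmodule] at hp1 hq1
  rw [HarmOrth_G_polar (hp1.mul hq1)] at h1
  rcases mul_eq_zero.mp h1 with h | h
  · simpa only [HarmOrth_ev_mul] using h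
  · exact absurd h (HarmOrth_c_ne _ _)

theorem HarmOrth_inj {n l : ℕ} [NeZero n] {p : MvPolynomial (Fin n) ℝ} (hp : p ∈ Harm n l)
    (h : ∫ s, ev p s ^ 2 ∂(sph n) = 0) : p = 0 := by
  have hp1 := (Submodule.mem_inf.mp hp).1
  rw [mem_homogeneousSubmodule] at hp1
  have hc : Continuous (fun s : Metric.sphere (0 : E n) 1 => ev p s ^ 2) :=
    ((HarmOrth_continuous p).comp continuous_subtype_val).pow 2
  have hi : Integrable (fun s : Metric.sphere (0 : E n) 1 => ev p s ^ 2) (sph n) :=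
    hc.integrable_of_hasCompactSupport (HasCompactSupport.of_compactSpace _)
  have h1 := (integral_eq_zero_iff_of_nonneg (fun s => sq_nonneg _) hi).mp h
  have h2 : (fun s : Metric.sphere (0 : E n) 1 => ev p s ^ 2) = fun _ => 0 :=
    (Continuous.ae_eq_iff_eq (sph n) hc continuous_const).mp h1
  have h3 : ∀ s : Metric.sphere (0 : E n) 1, ev p s = 0 := fun s =>
    pow_eq_zero_iff (two_ne_zero) |>.mp (congrFun h2 s)
  have h4 : ∀ x : E n, x ≠ 0 → ev p x = 0 := by
    intro x hx
    have hn : ‖x‖ ≠ 0 := norm_ne_zero_iff.mpr hx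
    have h5 := h3 ⟨(‖x‖)⁻¹ • x, by simp [norm_smul, hn]⟩
    have h6 : x = ‖x‖ • ((‖x‖)⁻¹ • x) := by rw [smul_smul, mul_inv_cancel₀ hn, one_smul]
    rw [h6, HarmOrth_ev_smul hp1]
    simp only at h5
    rw [h5, mul_zero]
  have h5 : ev p = fun _ => 0 := by
    have hd : Dense ({(0 : E n)}ᶜ : Set (E n)) := dense_compl_singleton 0
    exact Continuous.ext_on hd (HarmOrth_continuous p) continuous_const (fun x hx => h4 x hx)
  apply MvPolynomial.funext
  intro v
  have h6 := congrFun h5 (WithLp.toLp 2 v)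
  unfold ev at h6
  simpa using h6


theorem sph_grad_orth {n l m : ℕ} (hn : 3 ≤ n) (hlm : l ≠ m) {p q : MvPolynomial (Fin n) ℝ}
    (hp : p ∈ Harm n l) (hq : q ∈ Harm n m) :
    ∫ s, ∑ i, ev (MvPolynomial.pderiv i p) s * ev (MvPolynomial.pderiv i q) s ∂(sph n) = 0 := by
  have : NeZero n := ⟨by omega⟩
  simp only [HarmOrth_ev_grad]
  have h1 := HarmOrth_G_grad hp hq
  rw [HarmOrth_G_orth hlm hp hq, mul_zero, HarmOrth_G_polar (HarmOrth_grad_hom hp hq)] at h1
  exact (mul_eq_zero.mp h1).resolve_right (HarmOrth_c_ne _ _)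

theorem sph_grad {n l : ℕ} (hn : 3 ≤ n) {p q : MvPolynomial (Fin n) ℝ}
    (hp : p ∈ Harm n l) (hq : q ∈ Harm n l) :
    ∫ s, ∑ i, ev (MvPolynomial.pderiv i p) s * ev (MvPolynomial.pderiv i q) s ∂(sph n) =
      l * (2 * l + n - 2) * ∫ s, ev p s * ev q s ∂(sph n) := by
  have : NeZero n := ⟨by omega⟩
  simp only [HarmOrth_ev_grad]
  have h1 := HarmOrth_G_grad hp hq
  rw [HarmOrth_G_polar (HarmOrth_grad_hom hp hq),
    HarmOrth_G_polar ((HarmOrth_hom hp).mul (HarmOrth_hom hq))] at h1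
  have h2 : ∀ s : Metric.sphere (0 : E n) 1, ev p (s : E n) * ev q s = ev (p * q) s := fun s =>
    (HarmOrth_ev_mul _ _ _).symm
  simp only [h2]
  have hc := HarmOrth_c_ne n ((l - 1) + (l - 1))
  apply mul_right_cancel₀ hc
  rw [h1]
  rcases Nat.eq_zero_or_pos l with rfl | hl
  · simp
  · obtain ⟨j, rfl⟩ : ∃ j, l = j + 1 := ⟨l - 1, by omega⟩
    have e1 : (j + 1) + (j + 1) = 2 * (j + 1) := by ring
    have e2 : (j + 1 - 1) + (j + 1 - 1) = 2 * j := by omega
    rw [e1, e2, HarmOrth_c_rec]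
    push_cast
    ring

theorem sph_pos {n l : ℕ} (hn : 3 ≤ n) {p : MvPolynomial (Fin n) ℝ} (hp : p ∈ Harm n l)
    (h0 : p ≠ 0) : 0 < ∫ s, ev p s ^ 2 ∂(sph n) := by
  have : NeZero n := ⟨by omega⟩
  refine lt_of_le_of_ne (integral_nonneg fun s => sq_nonneg _) fun h => ?_
  exact h0 (HarmOrth_inj hp h.symm)

end Pool.Agent.PB86
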