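import Pool.Agent.PB86.Defs

/-!
# Bounded Lipschitz functions are in `H¹(Ω)`, with weak gradient `gradient u`
-/

set_option autoImplicit false

open MeasureTheory Set Filter Topology
open scoped NNReal RealInnerProductSpace

namespace Pool.Agent.PB86

open Pool.Agent.H51.Neumann (E IsH1 IsNeumannSpectrum)

theorem LipH1_inner {n : ℕ} (u : E n → ℝ) (x v : E n) :
    ⟪gradient u x, v⟫ = fderiv ℝ u x v := by
  unfold gradient
  exact InnerProductSpace.toDual_symm_apply

theorem LipH1_norm {n : ℕ} {u : E n → ℝ} {C : ℝ≥0} (hu : LipschitzWith C u) (x : E n) :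
    ‖gradient u x‖ ≤ C := by
  unfold gradient
  rw [LinearIsometryEquiv.norm_map]
  exact norm_fderiv_le_of_lipschitz ℝ hu

theorem LipH1_meas {n : ℕ} (u : E n → ℝ) : Measurable (gradient u) := by
  have h : Measurable (fderiv ℝ u) := measurable_fderiv ℝ u
  exact (InnerProductSpace.toDual ℝ (E n)).symm.continuous.measurable.comp h

theorem isH1_lip {n : ℕ} {Ω : Set (E n)} (hfin : volume Ω ≠ ⊤) {u : E n → ℝ} {C : ℝ≥0}
    (hu : LipschitzWith C u) {M : ℝ} (hM : ∀ x, |u x| ≤ M) : IsH1 Ω u (gradient u) := by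
  have : IsFiniteMeasure (volume.restrict Ω) := ⟨by
    rw [Measure.restrict_apply_univ]; exact lt_top_iff_ne_top.2 hfin⟩
  refine ⟨?_, ?_, ?_⟩
  · exact MemLp.of_bound hu.continuous.aestronglyMeasurable M (Eventually.of_forall fun x => by
      rw [Real.norm_eq_abs]; exact hM x)
  · exact MemLp.of_bound (LipH1_meas u).aestronglyMeasurable C
      (Eventually.of_forall fun x => LipH1_norm hu x)
  · intro φ hφ hcs hsub v
    obtain ⟨D, hD⟩ : ∃ D, LipschitzWith D φ :=
      ContDiff.lipschitzWith_of_hasCompactSupport hcs hφ (by simp)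
    have z1 : ∀ x, x ∉ Ω → fderiv ℝ φ x = 0 := by
      intro x hx
      have h1 : x ∉ tsupport (fderiv ℝ φ) := fun h => hx (hsub (tsupport_fderiv_subset ℝ h))
      exact image_eq_zero_of_notMem_tsupport h1
    have z2 : ∀ x, x ∉ Ω → φ x = 0 := by
      intro x hx
      exact image_eq_zero_of_notMem_tsupport fun h => hx (hsub h)
    rw [setIntegral_eq_integral_of_forall_compl_eq_zero (fun x hx => by rw [z1 x hx]; simp),
      setIntegral_eq_integral_of_forall_compl_eq_zero (fun x hx => by rw [z2 x hx]; simp)]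
    have h1 : ∫ x, ⟪gradient u x, v⟫ * φ x = ∫ x, lineDeriv ℝ u x v * φ x := by
      apply integral_congr_ae
      filter_upwards [hu.ae_differentiableAt (μ := volume)] with x hx
      rw [LipH1_inner, hx.lineDeriv_eq_fderiv]
    have h2 := LipschitzWith.integral_lineDeriv_mul_eq (μ := volume) hu hD hcs v
    have h3 : ∫ x, lineDeriv ℝ φ x (-v) * u x = - ∫ x, u x * fderiv ℝ φ x v := by
      rw [← integral_neg]
      apply integral_congr_ae
      refine Eventually.of_forall fun x => ?_
      show lineDeriv ℝ φ x (-v) * u x = -(u x * fderiv ℝ φ x v)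
      rw [((hφ.differentiable (by simp)) x).lineDeriv_eq_fderiv, map_neg]
      ring
    rw [h1, h2, h3, neg_neg]

end Pool.Agent.PB86
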