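import Pool.Agent.PB86.Defs

set_option autoImplicit false

open MeasureTheory Set Filter Topology
open scoped NNReal RealInnerProductSpace

namespace Pool.Agent.PB86

open Pool.Agent.H51.Neumann (E IsH1 IsNeumannSpectrum)

namespace TrapAux

theorem trap_one {h : ℝ → ℝ} (hc : ConvexOn ℝ (Ici 0) h) (hcont : Continuous h) {a : ℝ}
    (ha : 0 ≤ a) : ∫ x in a..(a + 1), h x ≤ (h a + h (a + 1)) / 2 := by
  have h1 : ∫ x in a..(a + 1), h x ≤ ∫ x in a..(a + 1), (h a + (x - a) * (h (a + 1) - h a)) := by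
    apply intervalIntegral.integral_mono_on (by linarith) (hcont.intervalIntegrable _ _)
    · exact Continuous.intervalIntegrable (by fun_prop) _ _
    · intro x hx
      obtain ⟨hx1, hx2⟩ := hx
      have ha1 : a + 1 ∈ Ici (0 : ℝ) := show (0 : ℝ) ≤ a + 1 by linarith
      have hp : 0 ≤ a + 1 - x := by linarith
      have hq : 0 ≤ x - a := by linarith
      have h2 := hc.2 (show a ∈ Ici (0 : ℝ) from ha) ha1 hp hq (by ring)
      simp only [smul_eq_mul] at h2
      have h3 : (a + 1 - x) * a + (x - a) * (a + 1) = x := by ring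
      rw [h3] at h2
      linarith
  refine h1.trans (le_of_eq ?_)
  have h4 : ∀ x : ℝ, HasDerivAt (fun x => h a * x + (x - a) ^ 2 / 2 * (h (a + 1) - h a))
      (h a + (x - a) * (h (a + 1) - h a)) x := by
    intro x
    have h5 : HasDerivAt (fun x : ℝ => x - a) 1 x := (hasDerivAt_id x).sub_const a
    have h6 := (h5.pow 2).div_const 2
    have h7 := ((hasDerivAt_id x).const_mul (h a)).add (h6.mul_const (h (a + 1) - h a))
    refine HasDerivAt.congr_deriv (f' := _) h7 ?_
    norm_num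
  rw [intervalIntegral.integral_eq_sub_of_hasDerivAt (fun x _ => h4 x)
    (Continuous.intervalIntegrable (by fun_prop) _ _)]
  ring

theorem trap_ind {h : ℝ → ℝ} (hc : ConvexOn ℝ (Ici 0) h) (hcont : Continuous h) (n : ℕ) :
    1 / 2 * h (32 / 25) + ∫ x in (32 / 25 : ℝ)..(32 / 25 + n), h x ≤
      ∑ k ∈ Finset.Ico 2 (2 + n), h ((k : ℝ) - 18 / 25) + 1 / 2 * h (32 / 25 + n) := by
  induction n with
  | zero => simp
  | succ n ih =>
    have h1 := trap_one hc hcont (a := 32 / 25 + n) (by positivity)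
    have h2 : ∫ x in (32 / 25 : ℝ)..(32 / 25 + (n + 1 : ℕ)), h x =
        (∫ x in (32 / 25 : ℝ)..(32 / 25 + n), h x) +
        ∫ x in (32 / 25 + n : ℝ)..(32 / 25 + n + 1), h x := by
      rw [intervalIntegral.integral_add_adjacent_intervals (hcont.intervalIntegrable _ _)
        (hcont.intervalIntegrable _ _)]
      push_cast
      rw [add_assoc]
    have h3 : ∑ k ∈ Finset.Ico 2 (2 + (n + 1)), h ((k : ℝ) - 18 / 25) =
        ∑ k ∈ Finset.Ico 2 (2 + n), h ((k : ℝ) - 18 / 25) + h (32 / 25 + n) := by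
      rw [← add_assoc, Finset.sum_Ico_succ_top (by omega)]
      congr 2
      push_cast
      ring
    have h4 : (32 / 25 + (n + 1 : ℕ) : ℝ) = 32 / 25 + n + 1 := by push_cast; ring
    rw [h2, h3, h4]
    linarith

end TrapAux

theorem trap {h : ℝ → ℝ} (hc : ConvexOn ℝ (Ici 0) h) (hcont : Continuous h)
    (h0 : ∀ x, 0 ≤ h x) {T : ℝ} (hT : ∀ x ≥ T, h x = 0) :
    ∃ Kmax : ℕ, 1 / 2 * h (32 / 25) + ∫ x in (32 / 25 : ℝ)..T, h x ≤
      ∑ k ∈ Finset.Ico 2 Kmax, h ((k : ℝ) - 18 / 25) := by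
  obtain ⟨n, hn⟩ := exists_nat_ge T
  refine ⟨2 + n, ?_⟩
  have h1 := TrapAux.trap_ind hc hcont n
  have h2 : T ≤ 32 / 25 + n := by linarith
  have h3 : h (32 / 25 + n) = 0 := hT _ h2
  have h4 : ∫ x in T..(32 / 25 + n : ℝ), h x = 0 := by
    rw [intervalIntegral.integral_congr (g := fun _ => (0 : ℝ))]
    · simp
    · intro x hx
      rw [uIcc_of_le h2] at hx
      exact hT x hx.1
  have h5 : (∫ x in (32 / 25 : ℝ)..T, h x) + ∫ x in T..(32 / 25 + n : ℝ), h x =
      ∫ x in (32 / 25 : ℝ)..(32 / 25 + n), h x :=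
    intervalIntegral.integral_add_adjacent_intervals (hcont.intervalIntegrable _ _)
      (hcont.intervalIntegrable _ _)
  rw [h3] at h1
  linarith

end Pool.Agent.PB86
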