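import Pool.Agent.PB86.YFun

set_option autoImplicit false

open MeasureTheory Set Filter Topology
open scoped NNReal RealInnerProductSpace

namespace Pool.Agent.PB86

open Pool.Agent.H51.Neumann (E IsH1 IsNeumannSpectrum)

/-- a function with nonnegative derivative which is nonnegative at `0` -/
theorem YBound_mono {h h' : ℝ → ℝ} {T : ℝ} (hd : ∀ x ∈ Icc (0 : ℝ) T, HasDerivAt h (h' x) x)
    (hn : ∀ x ∈ Icc (0 : ℝ) T, 0 ≤ h' x) (h0 : 0 ≤ h 0) {t : ℝ} (ht : t ∈ Icc (0 : ℝ) T) :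
    0 ≤ h t := by
  have hm : MonotoneOn h (Icc 0 T) := by
    refine monotoneOn_of_deriv_nonneg (convex_Icc 0 T)
      (fun x hx => (hd x hx).continuousAt.continuousWithinAt)
      (fun x hx => ?_) (fun x hx => ?_)
    · rw [interior_Icc] at hx
      exact (hd x (Ioo_subset_Icc_self hx)).differentiableAt.differentiableWithinAt
    · rw [interior_Icc] at hx
      rw [(hd x (Ioo_subset_Icc_self hx)).deriv]
      exact hn x (Ioo_subset_Icc_self hx)
  exact h0.trans (hm ⟨le_rfl, ht.1.trans ht.2⟩ ht ht.1)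

theorem YBound_c2 {t : ℝ} (_ht : 0 ≤ t) : 0 ≤ Real.cos t - (1 - t ^ 2 / 2) := by
  have := Real.one_sub_sq_div_two_le_cos (x := t)
  linarith

theorem YBound_s3 {t : ℝ} (ht : 0 ≤ t) : 0 ≤ Real.sin t - (t - t ^ 3 / 6) := by
  refine YBound_mono (T := t) (h := fun t => Real.sin t - (t - t ^ 3 / 6))
    (h' := fun t => Real.cos t - (1 - t ^ 2 / 2)) (fun x _ => ?_) (fun x hx => YBound_c2 hx.1)
    (by simp) ⟨ht, le_rfl⟩
  have := (Real.hasDerivAt_sin x).sub ((hasDerivAt_id x).sub ((hasDerivAt_pow 3 x).div_const 6))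
  refine this.congr_deriv ?_
  norm_num
  ring

theorem YBound_c4 {t : ℝ} (ht : 0 ≤ t) : 0 ≤ (1 - t ^ 2 / 2 + t ^ 4 / 24) - Real.cos t := by
  refine YBound_mono (T := t) (h := fun t => (1 - t ^ 2 / 2 + t ^ 4 / 24) - Real.cos t)
    (h' := fun t => Real.sin t - (t - t ^ 3 / 6)) (fun x _ => ?_) (fun x hx => YBound_s3 hx.1)
    (by simp) ⟨ht, le_rfl⟩
  have := (((hasDerivAt_const x (1 : ℝ)).sub ((hasDerivAt_pow 2 x).div_const 2)).add
    ((hasDerivAt_pow 4 x).div_const 24)).sub (Real.hasDerivAt_cos x)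
  refine this.congr_deriv ?_
  norm_num
  ring

theorem YBound_s5 {t : ℝ} (ht : 0 ≤ t) :
    0 ≤ (t - t ^ 3 / 6 + t ^ 5 / 120) - Real.sin t := by
  refine YBound_mono (T := t) (h := fun t => (t - t ^ 3 / 6 + t ^ 5 / 120) - Real.sin t)
    (h' := fun t => (1 - t ^ 2 / 2 + t ^ 4 / 24) - Real.cos t) (fun x _ => ?_)
    (fun x hx => YBound_c4 hx.1) (by simp) ⟨ht, le_rfl⟩
  have := (((hasDerivAt_id x).sub ((hasDerivAt_pow 3 x).div_const 6)).add
    ((hasDerivAt_pow 5 x).div_const 120)).sub (Real.hasDerivAt_sin x)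
  refine this.congr_deriv ?_
  norm_num
  ring

theorem YBound_c6 {t : ℝ} (ht : 0 ≤ t) :
    0 ≤ Real.cos t - (1 - t ^ 2 / 2 + t ^ 4 / 24 - t ^ 6 / 720) := by
  refine YBound_mono (T := t) (h := fun t => Real.cos t - (1 - t ^ 2 / 2 + t ^ 4 / 24 - t ^ 6 / 720))
    (h' := fun t => (t - t ^ 3 / 6 + t ^ 5 / 120) - Real.sin t) (fun x _ => ?_)
    (fun x hx => YBound_s5 hx.1) (by simp) ⟨ht, le_rfl⟩
  have := (Real.hasDerivAt_cos x).sub ((((hasDerivAt_const x (1 : ℝ)).sub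
    ((hasDerivAt_pow 2 x).div_const 2)).add ((hasDerivAt_pow 4 x).div_const 24)).sub
    ((hasDerivAt_pow 6 x).div_const 720))
  refine this.congr_deriv ?_
  norm_num
  ring

theorem YBound_s7 {t : ℝ} (ht : 0 ≤ t) :
    0 ≤ Real.sin t - (t - t ^ 3 / 6 + t ^ 5 / 120 - t ^ 7 / 5040) := by
  refine YBound_mono (T := t)
    (h := fun t => Real.sin t - (t - t ^ 3 / 6 + t ^ 5 / 120 - t ^ 7 / 5040))
    (h' := fun t => Real.cos t - (1 - t ^ 2 / 2 + t ^ 4 / 24 - t ^ 6 / 720)) (fun x _ => ?_)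
    (fun x hx => YBound_c6 hx.1) (by simp) ⟨ht, le_rfl⟩
  have := (Real.hasDerivAt_sin x).sub ((((hasDerivAt_id x).sub
    ((hasDerivAt_pow 3 x).div_const 6)).add ((hasDerivAt_pow 5 x).div_const 120)).sub
    ((hasDerivAt_pow 7 x).div_const 5040))
  refine this.congr_deriv ?_
  norm_num
  ring

theorem YBound_c8 {t : ℝ} (ht : 0 ≤ t) :
    0 ≤ (1 - t ^ 2 / 2 + t ^ 4 / 24 - t ^ 6 / 720 + t ^ 8 / 40320) - Real.cos t := by
  refine YBound_mono (T := t)
    (h := fun t => (1 - t ^ 2 / 2 + t ^ 4 / 24 - t ^ 6 / 720 + t ^ 8 / 40320) - Real.cos t)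
    (h' := fun t => Real.sin t - (t - t ^ 3 / 6 + t ^ 5 / 120 - t ^ 7 / 5040)) (fun x _ => ?_)
    (fun x hx => YBound_s7 hx.1) (by simp) ⟨ht, le_rfl⟩
  have := (((((hasDerivAt_const x (1 : ℝ)).sub
    ((hasDerivAt_pow 2 x).div_const 2)).add ((hasDerivAt_pow 4 x).div_const 24)).sub
    ((hasDerivAt_pow 6 x).div_const 720)).add ((hasDerivAt_pow 8 x).div_const 40320)).sub
    (Real.hasDerivAt_cos x)
  refine this.congr_deriv ?_
  norm_num
  ring

/-- derivative of `sin t - t cos t` -/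
theorem YBound_dz (x : ℝ) : HasDerivAt (fun t => Real.sin t - t * Real.cos t)
    (x * Real.sin x) x := by
  have := (Real.hasDerivAt_sin x).sub ((hasDerivAt_id x).mul (Real.hasDerivAt_cos x))
  refine this.congr_deriv ?_
  simp

theorem YBound_z {t : ℝ} (ht : 0 ≤ t) :
    3 * (Real.sin t - t * Real.cos t) ≤ t ^ 3 * (1 - t ^ 2 / 10 + t ^ 4 / 280) := by
  have h := YBound_mono (T := t)
    (h := fun t => (t ^ 3 - t ^ 5 / 10 + t ^ 7 / 280) - 3 * (Real.sin t - t * Real.cos t))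
    (h' := fun t => 3 * t * ((t - t ^ 3 / 6 + t ^ 5 / 120) - Real.sin t)) (fun x _ => ?_)
    (fun x hx => mul_nonneg (by linarith [hx.1]) (YBound_s5 hx.1)) (by simp) ⟨ht, le_rfl⟩
  · linarith
  · have := (((hasDerivAt_pow 3 x).sub ((hasDerivAt_pow 5 x).div_const 10)).add
      ((hasDerivAt_pow 7 x).div_const 280)).sub ((YBound_dz x).const_mul 3)
    refine this.congr_deriv ?_
    norm_num
    ring

/-- parametrisation -/
theorem YBound_param {z : ℝ} (hz : 0 ≤ z) (hz1 : z ≤ 1) :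
    ∃ t ∈ Icc (0 : ℝ) (Real.pi / 2), Real.sin t - t * Real.cos t = z ∧ YF z = Real.cos t := by
  have hpi := Real.pi_pos
  have hc : ContinuousOn (fun t => Real.sin t - t * Real.cos t) (Icc 0 (Real.pi / 2)) :=
    (Real.continuous_sin.sub (continuous_id.mul Real.continuous_cos)).continuousOn
  have h := intermediate_value_Icc (a := 0) (b := Real.pi / 2) (by positivity) hc
  have hz2 : z ∈ Icc ((fun t => Real.sin t - t * Real.cos t) 0)
      ((fun t => Real.sin t - t * Real.cos t) (Real.pi / 2)) := by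
    simp
    exact ⟨hz, hz1⟩
  obtain ⟨t, ht, htz⟩ := h hz2
  refine ⟨t, ht, htz, ?_⟩
  have h1 := Zf_cos ht
  have h2 : Real.sin t - t * Real.cos t = z := htz
  rw [h2] at h1
  rw [← h1]
  exact YF_Zf ⟨Real.cos_nonneg_of_mem_Icc ⟨by linarith [ht.1], ht.2⟩, Real.cos_le_one t⟩

theorem YBound_cube {w : ℝ} (hw : 0 ≤ w) : (w ^ (2 / 3 : ℝ)) ^ 3 = w ^ 2 := by
  rw [← Real.rpow_natCast, ← Real.rpow_mul hw, ← Real.rpow_natCast]
  norm_num

theorem YBound_sq {w : ℝ} (hw : 0 ≤ w) : (w ^ 3) ^ (2 / 3 : ℝ) = w ^ 2 := by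
  rw [← Real.rpow_natCast, ← Real.rpow_mul hw, ← Real.rpow_natCast]
  norm_num

theorem YBound_cosv {t : ℝ} (ht : t ∈ Icc (0 : ℝ) (Real.pi / 2)) :
    8 * Real.sin (t / 2) ^ 3 ≤ 3 * (Real.sin t - t * Real.cos t) := by
  have hpi := Real.pi_pos
  have h := YBound_mono (T := Real.pi / 2)
    (h := fun t => 3 * (Real.sin t - t * Real.cos t) - 8 * Real.sin (t / 2) ^ 3)
    (h' := fun t => 3 * Real.sin t * (t - 2 * Real.sin (t / 2))) (fun x _ => ?_)
    (fun x hx => ?_) (by simp) ht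
  · linarith
  · have h1 : HasDerivAt (fun t : ℝ => Real.sin (t / 2)) (Real.cos (x / 2) * (1 / 2)) x :=
      (((hasDerivAt_id x).div_const 2).sin).congr_deriv (by simp)
    have := ((YBound_dz x).const_mul 3).sub ((h1.pow 3).const_mul 8)
    refine this.congr_deriv ?_
    have h2 : Real.sin x = 2 * Real.sin (x / 2) * Real.cos (x / 2) := by
      rw [← Real.sin_two_mul]
      ring_nf
    rw [h2]
    norm_num
    ring
  · have h3 : Real.sin (x / 2) ≤ x / 2 := Real.sin_le (by linarith [hx.1])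
    have h4 : 0 ≤ Real.sin x := Real.sin_nonneg_of_nonneg_of_le_pi hx.1 (by linarith [hx.2])
    exact mul_nonneg (by linarith) (by linarith)

theorem YF_ge {z : ℝ} (hz : 0 ≤ z) : 1 - (3 * z) ^ (2 / 3 : ℝ) / 2 ≤ YF z := by
  have hpi := Real.pi_pos
  rcases le_total z 1 with hz1 | hz1
  · obtain ⟨t, ht, htz, hy⟩ := YBound_param hz hz1
    rw [hy]
    have h1 := YBound_cosv ht
    rw [htz] at h1
    have h2 : 0 ≤ Real.sin (t / 2) := Real.sin_nonneg_of_nonneg_of_le_pi (by linarith [ht.1])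
      (by linarith [ht.2])
    have h3 : ((2 * Real.sin (t / 2)) ^ 3) ^ (2 / 3 : ℝ) ≤ (3 * z) ^ (2 / 3 : ℝ) :=
      Real.rpow_le_rpow (by positivity) (by nlinarith [h1]) (by norm_num)
    rw [YBound_sq (by positivity)] at h3
    have h4 : Real.cos t = 1 - 2 * Real.sin (t / 2) ^ 2 := by
      have h5 := Real.cos_two_mul (t / 2)
      rw [show 2 * (t / 2) = t by ring] at h5
      have h6 := Real.sin_sq_add_cos_sq (t / 2)
      nlinarith
    rw [h4]
    nlinarith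
  · rw [YF_of_ge hz1]
    have h1 : (2 : ℝ) ≤ (3 * z) ^ (2 / 3 : ℝ) := by
      have h2 : 0 ≤ (3 * z) ^ (2 / 3 : ℝ) := by positivity
      refine le_of_pow_le_pow_left₀ (n := 3) (by norm_num) h2 ?_
      rw [YBound_cube (by linarith)]
      nlinarith
    linarith

theorem YBound_log {t : ℝ} (ht : 0 ≤ t) (ht2 : t < Real.pi / 2) :
    3 * (Real.sin t - t * Real.cos t) ≤ (-2 * Real.log (Real.cos t)) ^ (3 / 2 : ℝ) := by
  have hpi := Real.pi_pos
  have hcos : ∀ x ∈ Icc (0 : ℝ) t, 0 < Real.cos x := fun x hx =>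
    Real.cos_pos_of_mem_Ioo ⟨by linarith [hx.1], by linarith [hx.2]⟩
  have h := YBound_mono (T := t)
    (h := fun t => (-2 * Real.log (Real.cos t)) ^ (3 / 2 : ℝ)
      - 3 * (Real.sin t - t * Real.cos t))
    (h' := fun x => (-2 * (-Real.sin x / Real.cos x)) * (3 / 2)
      * (-2 * Real.log (Real.cos x)) ^ ((3 / 2 : ℝ) - 1) - 3 * (x * Real.sin x))
    (fun x hx => ?_) (fun x hx => ?_) ?_ ⟨ht, le_rfl⟩
  · linarith
  · have h1 : HasDerivAt (fun y => -2 * Real.log (Real.cos y)) (-2 * (-Real.sin x / Real.cos x)) x :=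
      ((Real.hasDerivAt_cos x).log (hcos x hx).ne').const_mul (-2)
    exact (h1.rpow_const (Or.inr (by norm_num))).sub ((YBound_dz x).const_mul 3)
  · have hc := hcos x hx
    have hs : 0 ≤ Real.sin x := Real.sin_nonneg_of_nonneg_of_le_pi hx.1 (by linarith [hx.2])
    have h2 : Real.sin x ^ 2 ≤ -2 * Real.log (Real.cos x) := by
      have h3 := Real.log_le_sub_one_of_pos (x := Real.cos x ^ 2) (by positivity)
      rw [Real.log_pow] at h3
      have h4 := Real.sin_sq_add_cos_sq x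
      push_cast at h3
      linarith
    have h5 : Real.sin x ≤ (-2 * Real.log (Real.cos x)) ^ ((3 / 2 : ℝ) - 1) := by
      rw [show (3 / 2 : ℝ) - 1 = 1 / 2 by norm_num, ← Real.sqrt_eq_rpow]
      exact Real.le_sqrt_of_sq_le h2
    have h6 : x * Real.cos x ≤ Real.sin x := by
      rcases eq_or_lt_of_le hx.1 with h7 | h7
      · rw [← h7]; simp
      · have h8 := Real.lt_tan h7 (by linarith [hx.2])
        rw [Real.tan_eq_sin_div_cos, lt_div_iff₀ hc] at h8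
        exact h8.le
    have h9 : x ≤ Real.sin x / Real.cos x := by
      rw [le_div_iff₀ hc]
      exact h6
    have h10 : 0 ≤ Real.sin x / Real.cos x := div_nonneg hs hc.le
    have h11 : x * Real.sin x ≤ Real.sin x / Real.cos x
        * (-2 * Real.log (Real.cos x)) ^ ((3 / 2 : ℝ) - 1) := mul_le_mul h9 h5 hs h10
    have h12 : (-2 * (-Real.sin x / Real.cos x)) * (3 / 2) = 3 * (Real.sin x / Real.cos x) := by
      ring
    rw [h12]
    nlinarith
  · simp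

theorem YF_le_exp {z : ℝ} (hz : 0 ≤ z) :
    YF z ≤ Real.exp (-((3 * z) ^ (2 / 3 : ℝ)) / 2) := by
  have hpi := Real.pi_pos
  rcases le_total z 1 with hz1 | hz1
  · obtain ⟨t, ht, htz, hy⟩ := YBound_param hz hz1
    rw [hy]
    rcases eq_or_lt_of_le ht.2 with h0 | h0
    · rw [h0, Real.cos_pi_div_two]
      exact (Real.exp_pos _).le
    · have hc : 0 < Real.cos t := Real.cos_pos_of_mem_Ioo ⟨by linarith [ht.1], h0⟩
      have hv : 0 ≤ -2 * Real.log (Real.cos t) := by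
        have := Real.log_nonpos hc.le (Real.cos_le_one t)
        linarith
      have h1 := YBound_log ht.1 h0
      rw [htz] at h1
      have h2 : (3 * z) ^ (2 / 3 : ℝ) ≤ ((-2 * Real.log (Real.cos t)) ^ (3 / 2 : ℝ)) ^ (2 / 3 : ℝ) :=
        Real.rpow_le_rpow (by linarith) h1 (by norm_num)
      rw [← Real.rpow_mul hv] at h2
      norm_num at h2
      rw [← Real.log_le_iff_le_exp hc]
      norm_num
      linarith
  · rw [YF_of_ge hz1]
    exact (Real.exp_pos _).le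

theorem YF_le_quad {z : ℝ} (hz : 0 ≤ z) (hz1 : z ≤ 1) :
    YF z ≤ 1 - (3 * z) ^ (2 / 3 : ℝ) / 2 + 3 / 250 * ((3 * z) ^ (2 / 3 : ℝ)) ^ 2 := by
  obtain ⟨t, ht, htz, hy⟩ := YBound_param hz hz1
  have hpi := Real.pi_pos
  have hpi2 := Real.pi_lt_d4
  rw [hy]
  set u : ℝ := (3 * z) ^ (2 / 3 : ℝ) with hu
  have hu0 : 0 ≤ u := by positivity
  have hu3 : u ^ 3 = (3 * z) ^ 2 := YBound_cube (by linarith)
  have h1 := YBound_z ht.1
  rw [htz] at h1
  set x : ℝ := t ^ 2 with hx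
  have hx0 : 0 ≤ x := by positivity
  have hx1 : x ≤ 2.4675 := by
    have : t ≤ 1.5708 := by linarith [ht.2]
    nlinarith [ht.1]
  have h2 := YBound_c8 ht.1
  have h3 : Real.cos t ≤ 1 - x / 2 + x ^ 2 / 24 - x ^ 3 / 720 + x ^ 4 / 40320 := by
    have e2 : t ^ 4 = x ^ 2 := by rw [hx]; ring
    have e3 : t ^ 6 = x ^ 3 := by rw [hx]; ring
    have e4 : t ^ 8 = x ^ 4 := by rw [hx]; ring
    rw [← e2, ← e3, ← e4]
    linarith
  set U : ℝ := x * (1 - x / 15 + 0.0015 * x ^ 2) with hU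
  have hU0 : 0 ≤ U := by
    refine mul_nonneg hx0 ?_
    nlinarith
  have hUx : U ≤ x := by
    rw [hU]
    nlinarith [mul_nonneg hx0 hx0, mul_nonneg (mul_nonneg hx0 hx0) (sub_nonneg.2 hx1)]
  have h4 : u ≤ U := by
    refine le_of_pow_le_pow_left₀ (n := 3) (by norm_num) hU0 ?_
    rw [hu3]
    have h5 : (3 * z) ^ 2 ≤ (t ^ 3 * (1 - t ^ 2 / 10 + t ^ 4 / 280)) ^ 2 :=
      pow_le_pow_left₀ (by linarith) h1 2
    have h6 : (t ^ 3 * (1 - t ^ 2 / 10 + t ^ 4 / 280)) ^ 2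
        = x ^ 3 * (1 - x / 10 + x ^ 2 / 280) ^ 2 := by
      rw [hx]; ring
    rw [h6] at h5
    refine h5.trans ?_
    have h7 : U ^ 3 = x ^ 3 * (1 - x / 15 + 0.0015 * x ^ 2) ^ 3 := by
      rw [hU]; ring
    rw [h7]
    refine mul_le_mul_of_nonneg_left ?_ (by positivity)
    have h8 : (1 - x / 15 + 0.0015 * x ^ 2) ^ 3 - (1 - x / 10 + x ^ 2 / 280) ^ 2
        = x ^ 2 * ((3 * 0.0015 + 1 / 75 - 1 / 100 - 1 / 140)
          + x * (-1 / 3375 - 0.0006 + 1 / 1400)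
          + x ^ 2 * (3 * 0.0015 ^ 2 + 0.0015 / 75 - 1 / 78400)
          + x ^ 3 * (- 0.0015 ^ 2 / 5) + x ^ 4 * 0.0015 ^ 3) := by
      ring
    have h9 : 0 ≤ (3 * 0.0015 + 1 / 75 - 1 / 100 - 1 / 140)
          + x * (-1 / 3375 - 0.0006 + 1 / 1400)
          + x ^ 2 * (3 * 0.0015 ^ 2 + 0.0015 / 75 - 1 / 78400)
          + x ^ 3 * (- 0.0015 ^ 2 / 5) + x ^ 4 * (0.0015 ^ 3 : ℝ) := by
      have h10 : x ^ 3 ≤ 2.4675 * x ^ 2 := by nlinarith [mul_nonneg hx0 hx0]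
      have h11 : 0 ≤ x ^ 2 := by positivity
      have h12 : 0 ≤ x ^ 4 := by positivity
      norm_num at *
      nlinarith
    have h13 : 0 ≤ x ^ 2 := by positivity
    have h14 := mul_nonneg h13 h9
    rw [← h8] at h14
    linarith
  have h15 : 1 - U / 2 + 3 / 250 * U ^ 2 ≤ 1 - u / 2 + 3 / 250 * u ^ 2 := by
    have h16 : 0 ≤ (U - u) * (1 / 2 - 3 / 250 * (U + u)) :=
      mul_nonneg (by linarith) (by linarith)
    nlinarith
  refine h3.trans (le_trans ?_ h15)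
  have h17 : (1 - U / 2 + 3 / 250 * U ^ 2) - (1 - x / 2 + x ^ 2 / 24 - x ^ 3 / 720 + x ^ 4 / 40320)
      = x ^ 2 * ((1 / 30 + 3 / 250 - 1 / 24) + x * (-0.00075 - 6 / 3750 + 1 / 720)
        + x ^ 2 * (3 / 250 * (1 / 225 + 0.003) - 1 / 40320)
        + x ^ 3 * (3 / 250 * (-0.003 / 15)) + x ^ 4 * (3 / 250 * 0.0015 ^ 2)) := by
    rw [hU]; ring
  have h18 : 0 ≤ (1 / 30 + 3 / 250 - 1 / 24) + x * (-0.00075 - 6 / 3750 + 1 / 720)
        + x ^ 2 * (3 / 250 * (1 / 225 + 0.003) - 1 / 40320)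
        + x ^ 3 * (3 / 250 * (-0.003 / 15)) + x ^ 4 * (3 / 250 * (0.0015 ^ 2 : ℝ)) := by
    have h10 : x ^ 3 ≤ 2.4675 * x ^ 2 := by nlinarith [mul_nonneg hx0 hx0]
    have h11 : 0 ≤ x ^ 2 := by positivity
    have h12 : 0 ≤ x ^ 4 := by positivity
    norm_num at *
    nlinarith
  have h19 : 0 ≤ x ^ 2 := by positivity
  have h20 := mul_nonneg h19 h18
  rw [← h17] at h20
  linarith

end Pool.Agent.PB86
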